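import Pool.Agent.D0H51.AG.Gx2

/-! # The extremal majorant of a half line (Beurling) -/

set_option autoImplicit false

open MeasureTheory Set Filter Topology

namespace Pool.Agent.D0H51.AG

lemma Kf_integrable : Integrable Kf := by
  refine Integrable.mono' (integrable_inv_one_add_sq.const_mul 2)
    Kf_cont.aestronglyMeasurable (ae_of_all _ fun x => ?_)
  rw [Real.norm_eq_abs, abs_of_nonneg (Kf_nonneg x)]
  exact Kf_bd x

lemma Kf_mass : ∫ x, Kf x = 1 := by
  have h1 := Kf_integrable.hasSum_intervalIntegral_comp_add_int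
  have h2 : HasSum (fun n : ℤ => ∫ x in (0 : ℝ)..1, Kf (x + n)) (∫ _ in (0 : ℝ)..1, (1 : ℝ)) := by
    refine intervalIntegral.hasSum_integral_of_dominated_convergence
      (fun n _ => 8 * (1 + (n : ℝ) ^ 2)⁻¹) (fun n => ?_) (fun n => ?_) ?_ ?_ ?_
    · have := Kf_cont
      exact (by fun_prop : Continuous fun x => Kf (x + n)).aestronglyMeasurable
    · refine ae_of_all _ fun x hx => ?_
      rw [Set.uIoc_of_le zero_le_one] at hx
      rw [Real.norm_eq_abs, abs_of_nonneg (Kf_nonneg _)]
      refine (Kf_bd _).trans ?_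
      have hx2 : x ^ 2 ≤ 1 := by nlinarith [hx.1, hx.2]
      have h1 : (1 + (n : ℝ) ^ 2) ≤ 4 * (1 + (x + n) ^ 2) := by
        nlinarith [sq_nonneg (x + n + x), sq_nonneg (x + n)]
      rw [← div_eq_mul_inv, ← div_eq_mul_inv, div_le_div_iff₀ (by positivity) (by positivity)]
      nlinarith
    · exact ae_of_all _ fun x _ => sum_bnd.mul_left _
    · exact intervalIntegrable_const
    · refine ae_of_all _ fun x _ => ?_
      have h3 := (Equiv.neg ℤ).hasSum_iff.2 (Kf_sum x)
      have e : (fun n : ℤ => Kf (x - n)) ∘ (Equiv.neg ℤ) = fun n : ℤ => Kf (x + n) := by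
        funext n
        show Kf (x - ((-n : ℤ) : ℝ)) = Kf (x + n)
        push_cast
        rw [sub_neg_eq_add]
      rw [e] at h3
      exact h3
  rw [h1.unique h2]
  simp

/-- the sign, `-1` at the origin -/
noncomputable def sr (u : ℝ) : ℝ := if 0 < u then 1 else -1

/-- the band-limited part -/
noncomputable def Wb (u : ℝ) : ℝ := HH u - Kf u + 2 * (u * Kf u)

/-- the difference between Beurling's majorant of the indicator function of the negative half
line and this function -/
noncomputable def db (u : ℝ) : ℝ := (sr u - Wb u) / 2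

lemma sr_meas : Measurable sr := by
  unfold sr
  exact Measurable.ite measurableSet_Ioi measurable_const measurable_const

lemma Wb_cont : Continuous Wb := by
  unfold Wb
  have := HH_cont
  have := Kf_cont
  fun_prop

lemma db_meas : Measurable db := by
  unfold db
  have h1 := sr_meas
  have h2 := Wb_cont.measurable
  fun_prop

lemma db_pos {y : ℝ} (hy : 0 < y) : db y =
    Real.sin (Real.pi * y) ^ 2 / Real.pi ^ 2 * (1 / y ^ 2 - 1 / y + Sx y) := by
  have hpi := Real.pi_pos
  have h1 := HH_pos hy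
  have h2 := Kf_eq hy.ne'
  unfold db sr Wb
  rw [if_pos hy]
  have h3 : HH y = 1 - Real.sin (Real.pi * y) ^ 2 / Real.pi ^ 2 * (1 / y ^ 2 + 2 * Sx y) := by
    linarith
  rw [h3, h2]
  field_simp
  ring

lemma db_neg {y : ℝ} (hy : 0 < y) : db (-y) =
    Real.sin (Real.pi * y) ^ 2 / Real.pi ^ 2 * (1 / y - Sx y) := by
  have hpi := Real.pi_pos
  have h1 := HH_pos hy
  have h2 := Kf_eq hy.ne'
  unfold db sr Wb
  rw [if_neg (by linarith), HH_neg, Kf_even]
  have h3 : HH y = 1 - Real.sin (Real.pi * y) ^ 2 / Real.pi ^ 2 * (1 / y ^ 2 + 2 * Sx y) := by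
    linarith
  rw [h3, h2]
  field_simp
  ring

lemma db_zero : db 0 = 0 := by
  have h1 : HH 0 = 0 := by
    have := HH_neg 0
    rw [neg_zero] at this
    linarith
  have h2 : Kf 0 = 1 := by simp [Kf]
  unfold db sr Wb
  rw [if_neg (lt_irrefl _), h1, h2]
  ring

/-- lower bound -/
lemma db_ge (u : ℝ) (hu : u ≠ 0) :
    Real.sin (Real.pi * u) ^ 2 / Real.pi ^ 2 * (1 / (|u| * (2 * |u| + 1))) ≤ db u := by
  have hpi := Real.pi_pos
  rcases lt_or_gt_of_ne hu with h | h
  · obtain ⟨y, hy⟩ : ∃ y, y = -u := ⟨_, rfl⟩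
    have hy0 : 0 < y := by linarith
    have e : u = -y := by linarith
    rw [e, db_neg hy0, abs_neg, abs_of_pos hy0, mul_neg, Real.sin_neg, neg_sq]
    refine mul_le_mul_of_nonneg_left ?_ (by positivity)
    obtain ⟨-, hS1, -⟩ := Sx_facts hy0
    have : 1 / (y * (2 * y + 1)) = 1 / y - 1 / (y + 1 / 2) := by
      field_simp
      ring
    linarith
  · rw [db_pos h, abs_of_pos h]
    refine mul_le_mul_of_nonneg_left ?_ (by positivity)
    obtain ⟨-, -, hS2⟩ := Sx_facts h
    have h1 : 1 / (u * (2 * u + 1)) ≤ 1 / (2 * u ^ 2) := by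
      refine one_div_le_one_div_of_le (by positivity) ?_
      nlinarith
    have h2 : 1 / u ^ 2 = 1 / (2 * u ^ 2) + 1 / (2 * u ^ 2) := by
      field_simp
      ring
    linarith

lemma db_nonneg (u : ℝ) : 0 ≤ db u := by
  by_cases h : u = 0
  · rw [h, db_zero]
  · refine le_trans ?_ (db_ge u h)
    positivity

lemma db_le (u : ℝ) : db u ≤ Kf u := by
  have hpi := Real.pi_pos
  rcases lt_trichotomy u 0 with h | h | h
  · obtain ⟨y, hy⟩ : ∃ y, y = -u := ⟨_, rfl⟩
    have hy0 : 0 < y := by linarith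
    have e : u = -y := by linarith
    rw [e, db_neg hy0, Kf_even, Kf_eq hy0.ne']
    obtain ⟨-, -, hS2⟩ := Sx_facts hy0
    have e2 : Real.sin (Real.pi * y) ^ 2 / (Real.pi ^ 2 * y ^ 2) =
        Real.sin (Real.pi * y) ^ 2 / Real.pi ^ 2 * (1 / y ^ 2) := by
      field_simp
    rw [e2]
    refine mul_le_mul_of_nonneg_left ?_ (by positivity)
    have h1 : 1 / (2 * y ^ 2) ≤ 1 / y ^ 2 :=
      one_div_le_one_div_of_le (by positivity) (by nlinarith [sq_nonneg y])
    linarith
  · rw [h, db_zero]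
    exact Kf_nonneg 0
  · rw [db_pos h, Kf_eq h.ne']
    obtain ⟨-, hS1, -⟩ := Sx_facts h
    have e2 : Real.sin (Real.pi * u) ^ 2 / (Real.pi ^ 2 * u ^ 2) =
        Real.sin (Real.pi * u) ^ 2 / Real.pi ^ 2 * (1 / u ^ 2) := by
      field_simp
    rw [e2]
    refine mul_le_mul_of_nonneg_left ?_ (by positivity)
    have h1 : 1 / (u + 1 / 2) ≤ 1 / u := one_div_le_one_div_of_le h (by linarith)
    linarith

lemma db_integrable : Integrable db := by
  refine Integrable.mono' Kf_integrable db_meas.aestronglyMeasurable (ae_of_all _ fun x => ?_)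
  rw [Real.norm_eq_abs, abs_of_nonneg (db_nonneg x)]
  exact db_le x

lemma db_symm {u : ℝ} (hu : u ≠ 0) : db u + db (-u) = Kf u := by
  have hpi := Real.pi_pos
  wlog h : 0 < u generalizing u
  · have h2 := this (u := -u) (neg_ne_zero.2 hu)
      (by rcases lt_or_gt_of_ne hu with h3 | h3
          · linarith
          · exact absurd h3 h)
    rw [neg_neg, Kf_even] at h2
    linarith
  · rw [db_pos h, db_neg h, Kf_eq h.ne']
    field_simp
    ring

lemma db_mass : ∫ u, db u = 1 / 2 := by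
  have h1 : ∫ u, (db u + db (-u)) = 1 := by
    rw [← Kf_mass]
    refine integral_congr_ae ?_
    have : ∀ᵐ u : ℝ, u ≠ 0 := by
      rw [ae_iff]
      simp
    filter_upwards [this] with u hu using db_symm hu
  rw [integral_add db_integrable db_integrable.comp_neg, integral_neg_eq_self] at h1
  linarith

/-- finite approximations of the band-limited part -/
noncomputable def WN (N : ℕ) (x : ℝ) : ℝ :=
  (∑ n ∈ Finset.Icc (-(N : ℤ)) N, sg n * Kf (x - n)) - Kf x + 2 * (x * Kf x)

lemma WN_bd (N : ℕ) (x : ℝ) : |WN N x| ≤ 4 := by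
  unfold WN
  have h1 := part_bd x (Finset.Icc (-(N : ℤ)) N)
  have h2 := Kf_nonneg x
  have h3 := Kf_le_one x
  have h4 : |x * Kf x| ≤ 1 := by
    have h5 := Kf_bd x
    rw [abs_mul, abs_of_nonneg h2]
    calc |x| * Kf x ≤ |x| * (2 * (1 + x ^ 2)⁻¹) := by gcongr
      _ ≤ 1 := by
        rw [← div_eq_mul_inv, ← mul_div_assoc, div_le_one (by positivity)]
        nlinarith [sq_nonneg (|x| - 1), sq_abs x]
  rw [abs_le] at *
  constructor <;> linarith [h1.1, h1.2, h4.1, h4.2]

lemma WN_lim (x : ℝ) : Tendsto (fun N => WN N x) atTop (𝓝 (Wb x)) := by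
  unfold WN Wb HH
  refine Tendsto.add_const _ (Tendsto.sub_const ?_ _)
  exact (sgK_summable x).hasSum.comp Finset.tendsto_Icc_neg

lemma WN_cont (N : ℕ) : Continuous (WN N) := by
  unfold WN
  have hc : Continuous fun x : ℝ => ∑ n ∈ Finset.Icc (-(N : ℤ)) N, sg n * Kf (x - n) := by
    have := Kf_cont
    exact continuous_finsetSum _ fun n _ => by fun_prop
  have := Kf_cont
  fun_prop

end Pool.Agent.D0H51.AG
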