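import Pool.Agent.D0H51.AG.L2b

/-! # The mean square of functions with a spectral gap: general functions -/

set_option autoImplicit false

open MeasureTheory Set Filter Topology

namespace Pool.Agent.D0H51.AG

open Pool.Agent.N804

lemma InK.scale {δ : ℝ} {k : ℝ → ℝ} (H : InK δ k) {t : ℝ} (ht : 0 < t) :
    InK (t * δ) fun x => k (t * x) := by
  obtain ⟨b, c, hb, hc, h1, h2, h3⟩ := H
  have hsc : ∀ {f : ℝ → ℝ}, SC f → SC fun α => (1 / t) * f (α * t⁻¹) := by
    intro f Hf
    refine SC.smul ⟨Hf.sm.comp (contDiff_id.mul contDiff_const), ?_⟩ _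
    exact Hf.cs.comp_homeomorph (Homeomorph.mulRight₀ t⁻¹ (inv_ne_zero ht.ne'))
  have hz : ∀ f : ℝ → ℝ, (∀ α, δ < |α| → f α = 0) → ∀ α, t * δ < |α| → (1 / t) * f (α * t⁻¹) = 0 := by
    intro f hf α hα
    rw [hf (α * t⁻¹), mul_zero]
    rw [abs_mul, abs_inv, abs_of_pos ht, ← div_eq_mul_inv, lt_div_iff₀ ht]
    linarith
  refine ⟨_, _, hsc hb, hsc hc, hz b h1, hz c h2, fun x => ?_⟩
  show k (t * x) = _
  rw [h3]
  congr 1
  · unfold CT
    have h := Measure.integral_comp_mul_left
      (fun α : ℝ => (1 / t) * b (α * t⁻¹) * Real.cos (2 * Real.pi * α * x)) t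
    rw [abs_of_pos (inv_pos.2 ht), smul_eq_mul] at h
    have e : ∫ α, (1 / t) * b (α * t⁻¹) * Real.cos (2 * Real.pi * α * x) =
        t * ∫ α, (1 / t) * b (t * α * t⁻¹) * Real.cos (2 * Real.pi * (t * α) * x) := by
      rw [h, mul_inv_cancel_left₀ ht.ne']
    rw [e, ← integral_const_mul]
    congr 1
    funext α
    rw [show t * α * t⁻¹ = α by field_simp, show 2 * Real.pi * (t * α) * x =
      2 * Real.pi * α * (t * x) by ring]
    field_simp
  · unfold N804.ST
    have h := Measure.integral_comp_mul_left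
      (fun α : ℝ => (1 / t) * c (α * t⁻¹) * Real.sin (2 * Real.pi * α * x)) t
    rw [abs_of_pos (inv_pos.2 ht), smul_eq_mul] at h
    have e : ∫ α, (1 / t) * c (α * t⁻¹) * Real.sin (2 * Real.pi * α * x) =
        t * ∫ α, (1 / t) * c (t * α * t⁻¹) * Real.sin (2 * Real.pi * (t * α) * x) := by
      rw [h, mul_inv_cancel_left₀ ht.ne']
    rw [e, ← integral_const_mul]
    congr 1
    funext α
    rw [show t * α * t⁻¹ = α by field_simp, show 2 * Real.pi * (t * α) * x =
      2 * Real.pi * α * (t * x) by ring]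
    field_simp

/-- forward averages -/
noncomputable def Dav (η : ℝ) (D : ℝ → ℝ) (x : ℝ) : ℝ := (1 / η) * ∫ t in (0 : ℝ)..η, D (x + t)

section

variable {D : ℝ → ℝ} {K : ℝ}

lemma D_ii (hD : Measurable D) (hK : ∀ x, |D x| ≤ K) (s a b : ℝ) :
    IntervalIntegrable (fun t => D (s + t)) volume a b := by
  have hfin : IsFiniteMeasure (volume.restrict (uIoc a b)) := ⟨by
    rw [Measure.restrict_apply_univ, uIoc, Real.volume_Ioc]; exact ENNReal.ofReal_lt_top⟩
  rw [intervalIntegrable_iff]
  exact Integrable.of_bound (hD.comp (by fun_prop)).aestronglyMeasurable K (ae_of_all _ fun t => hK _)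

lemma Dav_eq (hD : Measurable D) (hK : ∀ x, |D x| ≤ K) (η x : ℝ) :
    Dav η D x = (1 / η) * ((∫ t in (0 : ℝ)..(x + η), D t) - ∫ t in (0 : ℝ)..x, D t) := by
  have i : ∀ a b, IntervalIntegrable D volume a b := by
    intro a b
    have := D_ii hD hK 0 a b
    simpa using this
  unfold Dav
  rw [intervalIntegral.integral_comp_add_left, add_zero,
    intervalIntegral.integral_interval_sub_left (i _ _) (i _ _)]

lemma prim_cont (hD : Measurable D) (hK : ∀ x, |D x| ≤ K) :
    Continuous fun x => ∫ t in (0 : ℝ)..x, D t := by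
  have i : ∀ a b, IntervalIntegrable D volume a b := by
    intro a b
    have := D_ii hD hK 0 a b
    simpa using this
  exact intervalIntegral.continuous_primitive i 0

lemma Dav_cont (hD : Measurable D) (hK : ∀ x, |D x| ≤ K) (η : ℝ) : Continuous (Dav η D) := by
  have e : Dav η D = fun x => (1 / η) * ((∫ t in (0 : ℝ)..(x + η), D t) - ∫ t in (0 : ℝ)..x, D t) :=
    funext fun x => Dav_eq hD hK η x
  rw [e]
  have := prim_cont hD hK
  exact continuous_const.mul ((this.comp (by fun_prop)).sub this)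

lemma Dav_bd (hK : ∀ x, |D x| ≤ K) {η : ℝ} (hη : 0 < η) (x : ℝ) : |Dav η D x| ≤ K := by
  unfold Dav
  have := intervalIntegral.norm_integral_le_of_norm_le_const (a := 0) (b := η)
    (f := fun t => D (x + t)) (C := K) (fun t _ => hK _)
  rw [Real.norm_eq_abs, sub_zero, abs_of_pos hη] at this
  rw [abs_mul, abs_of_pos (by positivity : 0 < 1 / η), one_div, inv_mul_le_iff₀ hη]
  linarith

lemma Dav_lip (hD : Measurable D) (hK : ∀ x, |D x| ≤ K) (hlip : ∀ x y, x ≤ y → D x - D y ≤ y - x)
    {η : ℝ} (hη : 0 < η) {x y : ℝ} (hxy : x ≤ y) : Dav η D x - Dav η D y ≤ y - x := by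
  unfold Dav
  rw [← mul_sub, ← intervalIntegral.integral_sub (D_ii hD hK x 0 η) (D_ii hD hK y 0 η)]
  have h1 : ∫ t in (0 : ℝ)..η, (D (x + t) - D (y + t)) ≤ ∫ t in (0 : ℝ)..η, (y - x) := by
    refine intervalIntegral.integral_mono_on hη.le ((D_ii hD hK x 0 η).sub (D_ii hD hK y 0 η))
      intervalIntegrable_const fun t _ => ?_
    have := hlip (x + t) (y + t) (by linarith)
    linarith
  rw [intervalIntegral.integral_const, smul_eq_mul, sub_zero] at h1
  rw [one_div, inv_mul_le_iff₀ hη]
  exact h1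

lemma Orth.trans {E : ℝ → ℝ} {δ : ℝ} (H : Orth E δ) (s : ℝ) : Orth (fun u => E (u + s)) δ := by
  intro k hk
  have h := H _ (hk.shift s)
  rw [← h, ← integral_add_right_eq_self (fun x => k (x - s) * E x) s]
  congr 1
  funext x
  rw [add_sub_cancel_right]

lemma Dav_orth (hD : Measurable D) (hK : ∀ x, |D x| ≤ K) {δ : ℝ} (H : Orth D δ) {η : ℝ}
    (hη : 0 < η) : Orth (Dav η D) δ := by
  intro k hk
  have hki := hk.int
  have hfin : IsFiniteMeasure (volume.restrict (Ioc 0 η)) := ⟨by
    rw [Measure.restrict_apply_univ, Real.volume_Ioc]; exact ENNReal.ofReal_lt_top⟩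
  have hprod : Integrable (fun p : ℝ × ℝ => k p.1 * D (p.1 + p.2))
      (volume.prod (volume.restrict (Ioc 0 η))) := by
    have h1 : Integrable (fun p : ℝ × ℝ => k p.1 * K) (volume.prod (volume.restrict (Ioc 0 η))) :=
      hki.mul_prod (integrable_const K)
    refine Integrable.mono h1 ?_ (ae_of_all _ fun p => ?_)
    · refine AEStronglyMeasurable.mul ?_ ?_
      · exact (hk.cont.comp continuous_fst).aestronglyMeasurable
      · exact (hD.comp (measurable_fst.add measurable_snd)).aestronglyMeasurable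
    · rw [norm_mul, norm_mul]
      refine mul_le_mul_of_nonneg_left ?_ (norm_nonneg _)
      exact (hK _).trans (le_abs_self K)
  have e1 : ∀ x, k x * Dav η D x = (1 / η) * ∫ t in Ioc 0 η, k x * D (x + t) := by
    intro x
    unfold Dav
    rw [intervalIntegral.integral_of_le hη.le, integral_const_mul]
    ring
  simp_rw [e1]
  rw [integral_const_mul, integral_integral_swap hprod]
  have e2 : ∀ t, ∫ x, k x * D (x + t) = 0 := fun t => H.trans t k hk
  simp_rw [e2]
  simp

/-- convergence of the averages -/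
lemma Dav_lim (hlip : ∀ x y, x ≤ y → D x - D y ≤ y - x) (hD : Measurable D)
    (hK : ∀ x, |D x| ≤ K) : ∀ᵐ x, Tendsto (fun j : ℕ => Dav (1 / ((j : ℝ) + 1)) D x) atTop
      (𝓝 (D x)) := by
  have hmono : Monotone fun x => D x + x := by
    intro x y hxy
    have := hlip x y hxy
    show D x + x ≤ D y + y
    linarith
  have h1 : ∀ᵐ x : ℝ, ContinuousAt (fun x => D x + x) x := by
    rw [ae_iff]
    exact (hmono.countable_not_continuousAt).measure_zero _
  filter_upwards [h1] with x hx
  have hc : ContinuousAt D x := by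
    have := hx.sub continuousAt_id
    refine this.congr (Eventually.of_forall fun y => ?_)
    show D y + y - y = D y
    ring
  rw [Metric.tendsto_atTop]
  intro ε hε
  obtain ⟨η, hη, hη2⟩ := Metric.continuousAt_iff.1 hc (ε / 2) (by positivity)
  have hlim0 : Tendsto (fun j : ℕ => 1 / ((j : ℝ) + 1)) atTop (𝓝 0) :=
    tendsto_one_div_add_atTop_nhds_zero_nat
  obtain ⟨N, hN⟩ := eventually_atTop.1 (hlim0.eventually (gt_mem_nhds hη))
  refine ⟨N, fun j hj => ?_⟩
  set s : ℝ := 1 / ((j : ℝ) + 1) with hs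
  have hs0 : 0 < s := by rw [hs]; positivity
  have hsη : s < η := hN j hj
  rw [Real.dist_eq]
  have e1 : Dav s D x - D x = (1 / s) * ∫ t in (0 : ℝ)..s, (D (x + t) - D x) := by
    unfold Dav
    rw [intervalIntegral.integral_sub (D_ii hD hK x 0 s) intervalIntegrable_const,
      intervalIntegral.integral_const, smul_eq_mul, sub_zero]
    field_simp
  have e2 : |∫ t in (0 : ℝ)..s, (D (x + t) - D x)| ≤ (ε / 2) * s := by
    have := intervalIntegral.norm_integral_le_of_norm_le_const (a := 0) (b := s)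
      (f := fun t => D (x + t) - D x) (C := ε / 2) (fun t ht => by
        rw [uIoc_of_le hs0.le] at ht
        have h3 := hη2 (x := x + t) (by
          rw [Real.dist_eq, add_sub_cancel_left, abs_of_pos ht.1]
          linarith [ht.2])
        rw [Real.dist_eq] at h3
        exact h3.le)
    rwa [Real.norm_eq_abs, sub_zero, abs_of_pos hs0] at this
  rw [e1, abs_mul, abs_of_pos (by positivity : 0 < 1 / s), one_div]
  calc s⁻¹ * |∫ t in (0 : ℝ)..s, (D (x + t) - D x)| ≤ s⁻¹ * ((ε / 2) * s) := by gcongr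
    _ = ε / 2 := by field_simp
    _ < ε := by linarith

/-- **the inequality**, spectral gap larger than `1` -/
theorem ineq_meas (hD : Measurable D) (hK : ∀ x, |D x| ≤ K)
    (hlip : ∀ x y, x ≤ y → D x - D y ≤ y - x) {δ : ℝ} (hδ : 1 < δ) (H : Orth D δ)
    {a b : ℝ} (hab : a ≤ b) :
    ∫ x in a..b, (D x) ^ 2 ≤ (b - a) / 12 + (K / 3 + 4 * K ^ 2) := by
  have hlim : Tendsto (fun j : ℕ => ∫ x in a..b, (Dav (1 / ((j : ℝ) + 1)) D x) ^ 2) atTop
      (𝓝 (∫ x in a..b, (D x) ^ 2)) := by
    refine intervalIntegral.tendsto_integral_filter_of_dominated_convergence (fun _ => K ^ 2)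
      (Eventually.of_forall fun j => ((Dav_cont hD hK _).pow 2).aestronglyMeasurable)
      (Eventually.of_forall fun j => ae_of_all _ fun x _ => ?_) intervalIntegrable_const ?_
    · rw [Real.norm_eq_abs, abs_pow]
      exact pow_le_pow_left₀ (abs_nonneg _) (Dav_bd hK (by positivity) x) 2
    · filter_upwards [Dav_lim hlip hD hK] with x hx _
      exact hx.pow 2
  exact le_of_tendsto' hlim fun j => ineq_cont (Dav_cont hD hK _) (Dav_bd hK (by positivity))
    (fun x y hxy => Dav_lip hD hK hlip (by positivity) hxy) hδ (Dav_orth hD hK H (by positivity)) hab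

/-- **the inequality**, spectral gap `1` -/
theorem ineq_gap (hD : Measurable D) (hK : ∀ x, |D x| ≤ K)
    (hlip : ∀ x y, x ≤ y → D x - D y ≤ y - x) (H : ∀ δ, δ < 1 → Orth D δ) {t : ℝ} (ht : 0 < t)
    (ht1 : t < 1) {a b : ℝ} (hab : a ≤ b) :
    ∫ x in a..b, (D x) ^ 2 ≤ (b - a) / (12 * t ^ 2) + (K / 3 + 4 * K ^ 2) / t ^ 3 := by
  have hK0 : 0 ≤ K := (abs_nonneg _).trans (hK 0)
  set F : ℝ → ℝ := fun x => t * D (x / t) with hF
  have hFm : Measurable F := (hD.comp (by fun_prop)).const_mul t
  have hFK : ∀ x, |F x| ≤ K := by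
    intro x
    show |t * D (x / t)| ≤ K
    rw [abs_mul, abs_of_pos ht]
    have := hK (x / t)
    have h0 := abs_nonneg (D (x / t))
    nlinarith
  have hFl : ∀ x y, x ≤ y → F x - F y ≤ y - x := by
    intro x y hxy
    have h1 := hlip (x / t) (y / t) (by gcongr)
    have h2 : t * (D (x / t) - D (y / t)) ≤ t * (y / t - x / t) := by gcongr
    have h3 : t * (y / t - x / t) = y - x := by field_simp
    show t * D (x / t) - t * D (y / t) ≤ y - x
    linarith
  have hFo : Orth F ((1 + 1 / t) / 2) := by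
    intro k hk
    have h1 := hk.scale ht
    have h2 : t * ((1 + 1 / t) / 2) < 1 := by
      have : t * ((1 + 1 / t) / 2) = (t + 1) / 2 := by field_simp
      rw [this]
      linarith
    have h3 := H _ h2 _ h1
    have h4 := Measure.integral_comp_div (fun y => k (t * y) * D y) t
    rw [h3, smul_zero] at h4
    have e : ∀ x, k x * F x = t * (k (t * (x / t)) * D (x / t)) := by
      intro x
      show k x * (t * D (x / t)) = _
      rw [show t * (x / t) = x by field_simp]
      ring
    simp_rw [e]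
    rw [integral_const_mul, h4, mul_zero]
  have ht2 : 1 < (1 + 1 / t) / 2 := by
    have : 1 < 1 / t := by rw [lt_div_iff₀ ht]; linarith
    linarith
  have h1 := ineq_meas hFm hFK hFl ht2 hFo (a := t * a) (b := t * b) (by gcongr)
  have h2 : ∫ x in (t * a)..(t * b), (F x) ^ 2 = t ^ 3 * ∫ x in a..b, (D x) ^ 2 := by
    have h3 := intervalIntegral.mul_integral_comp_mul_left (a := a) (b := b) (c := t)
      (f := fun x => (F x) ^ 2)
    rw [← h3, ← intervalIntegral.integral_const_mul, ← intervalIntegral.integral_const_mul]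
    refine intervalIntegral.integral_congr fun x _ => ?_
    show t * (t * D (t * x / t)) ^ 2 = t ^ 3 * (D x) ^ 2
    rw [show t * x / t = x by field_simp]
    ring
  rw [h2] at h1
  have ht3 : 0 < t ^ 3 := by positivity
  have h4 : ∫ x in a..b, (D x) ^ 2 ≤ ((t * b - t * a) / 12 + (K / 3 + 4 * K ^ 2)) / t ^ 3 := by
    rw [le_div_iff₀ ht3]
    linarith
  refine h4.trans (le_of_eq ?_)
  field_simp

end

end Pool.Agent.D0H51.AG
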