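import Pool.Agent.D0H51.AG.Bm
import Pool.Agent.D0H51.AG.L2c

/-! # The representation formula with Beurling's function -/

set_option autoImplicit false

open MeasureTheory Set Filter Topology

namespace Pool.Agent.D0H51.AG

open Pool.Agent.N804

lemma InK.mulWN {δ : ℝ} {k : ℝ → ℝ} (H : InK δ k) (N : ℕ) :
    InK (δ + 1) fun x => WN N x * k x := by
  have h1 : InK (δ + 1) fun x => ∑ n ∈ Finset.Icc (-(N : ℤ)) N, sg n * (Kf (x - n) * k x) :=
    InK.sum _ fun n => (H.mulKf n).smul (sg n)
  have h2 := (H.mulKf 0).smul (-1)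
  have h3 := ((H.mulKf 0).mulx).smul 2
  refine ((h1.add h2).add h3).congr fun x => ?_
  unfold WN
  have e : ∑ n ∈ Finset.Icc (-(N : ℤ)) N, sg n * (Kf (x - n) * k x) =
      (∑ n ∈ Finset.Icc (-(N : ℤ)) N, sg n * Kf (x - n)) * k x := by
    rw [Finset.sum_mul]
    refine Finset.sum_congr rfl fun n _ => ?_
    ring
  rw [e, sub_zero]
  ring

/-- a shifted factor -/
lemma InK.mulWNs {δ : ℝ} {k : ℝ → ℝ} (H : InK δ k) (N : ℕ) (h : ℝ) :
    InK (δ + 1) fun x => WN N (x + h) * k x := by
  have h1 := ((H.shift h).mulWN N).shift (-h)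
  refine h1.congr fun x => ?_
  show WN N (x + h) * k x = WN N (x - -h) * k (x - -h - h)
  rw [show x - -h = x + h by ring, show x + h - h = x by ring]

/-- the indicator function of `(-h, 0]` -/
noncomputable def ih (h u : ℝ) : ℝ := (sr (u + h) - sr u) / 2

lemma ih_eq {h : ℝ} (hh : 0 < h) : ih h = (Ioc (-h) 0).indicator fun _ => (1 : ℝ) := by
  funext u
  unfold ih sr
  by_cases h1 : u ∈ Ioc (-h) 0
  · rw [indicator_of_mem h1, if_pos (by linarith [h1.1]), if_neg (by linarith [h1.2])]
    norm_num
  · rw [indicator_of_notMem h1]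
    by_cases h2 : 0 < u
    · rw [if_pos (by linarith), if_pos h2]
      norm_num
    · have h3 : ¬ 0 < u + h := fun h4 => h1 ⟨by linarith, not_lt.1 h2⟩
      rw [if_neg h3, if_neg h2]
      norm_num

lemma ih_int {h : ℝ} (hh : 0 < h) : Integrable (ih h) := by
  rw [ih_eq hh]
  exact (integrable_indicator_iff measurableSet_Ioc).2 (integrableOn_const (by
    rw [Real.volume_Ioc]; exact ENNReal.ofReal_ne_top))

lemma ih_mul {h : ℝ} (hh : 0 < h) (E : ℝ → ℝ) : ∫ u, ih h u * E u = ∫ u in (-h)..0, E u := by
  rw [ih_eq hh, intervalIntegral.integral_of_le (by linarith), ← integral_indicator measurableSet_Ioc]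
  congr 1
  funext u
  by_cases h1 : u ∈ Ioc (-h) 0
  · rw [indicator_of_mem h1, indicator_of_mem h1, one_mul]
  · rw [indicator_of_notMem h1, indicator_of_notMem h1, zero_mul]

lemma dbd_int (h : ℝ) : Integrable fun u => db (u + h) - db u :=
  (db_integrable.comp_add_right h).sub db_integrable

/-- **the representation formula** -/
theorem thmB {E : ℝ → ℝ} {K δ : ℝ} (hE : Measurable E) (hK : ∀ x, |E x| ≤ K) (hδ : 1 < δ)
    (H : Orth E δ) {h : ℝ} (hh : 0 < h) :
    ∫ u in (-h)..0, E u = ∫ u, (db (u + h) - db u) * E u := by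
  obtain ⟨b, hb, hb1, hb2, hb3⟩ := moll
  have hK0 : 0 ≤ K := (abs_nonneg _).trans (hK 0)
  -- the kernel
  set Q : ℝ → ℝ := fun u => ih h u - (db (u + h) - db u) with hQ
  have hQL : ∀ u, Q u = (Wb (u + h) - Wb u) / 2 := by
    intro u
    rw [hQ]
    unfold ih db
    ring
  have hQint : Integrable Q := (ih_int hh).sub (dbd_int h)
  set ε : ℕ → ℝ := fun j => (δ - 1) / ((j : ℝ) + 1) with hε
  have hεpos : ∀ j, 0 < ε j := fun j => by rw [hε]; have : 0 < δ - 1 := by linarith
                                           positivity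
  have hmK : ∀ j, InK (δ - 1) fun x => CT b (ε j * x) := by
    intro j
    refine (InK_scale hb hb1 (hεpos j)).mono ?_
    have h1 : ε j ≤ δ - 1 := by
      rw [hε]
      have : (0 : ℝ) ≤ j := Nat.cast_nonneg j
      exact div_le_self (by linarith) (by linarith)
    have := hεpos j
    linarith
  have hN0 : ∀ j N, ∫ u, (WN N (u + h) - WN N u) / 2 * CT b (ε j * u) * E u = 0 := by
    intro j N
    have h1 := (hmK j).mulWNs N h
    have h3 := (hmK j).mulWN N
    have h4 := ((h1.add (h3.smul (-1))).smul (1 / 2)).mono (δ' := δ) (by linarith)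
    rw [← H _ h4]
    congr 1
    funext u
    ring
  have hj0 : ∀ j, ∫ u, Q u * CT b (ε j * u) * E u = 0 := by
    intro j
    have hlim : Tendsto (fun N : ℕ => ∫ u, (WN N (u + h) - WN N u) / 2 * CT b (ε j * u) * E u)
        atTop (𝓝 (∫ u, Q u * CT b (ε j * u) * E u)) := by
      have i1 := (hmK j).int
      have hcm : Continuous fun x => CT b (ε j * x) := (hmK j).cont
      refine tendsto_integral_of_dominated_convergence
        (fun u => 4 * |CT b (ε j * u)| * K) (fun N => ?_) ?_ (fun N => ?_) ?_
      · refine AEStronglyMeasurable.mul (Continuous.aestronglyMeasurable ?_) hE.aestronglyMeasurable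
        have hLN := WN_cont N
        fun_prop
      · exact (i1.abs.const_mul _).mul_const _
      · refine ae_of_all _ fun u => ?_
        rw [Real.norm_eq_abs, abs_mul, abs_mul, abs_div, abs_two]
        have a1 := WN_bd N (u + h)
        have a2 := WN_bd N u
        have a3 : |WN N (u + h) - WN N u| / 2 ≤ 4 := by
          have := abs_sub (WN N (u + h)) (WN N u)
          linarith
        have a7 := hK u
        gcongr
      · refine ae_of_all _ fun u => ?_
        refine Tendsto.mul_const _ (Tendsto.mul_const _ ?_)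
        rw [hQL]
        exact ((WN_lim (u + h)).sub (WN_lim u)).div_const _
    have h0 : (fun N : ℕ => ∫ u, (WN N (u + h) - WN N u) / 2 * CT b (ε j * u) * E u) =
        fun _ => 0 := funext fun N => hN0 j N
    rw [h0] at hlim
    exact (tendsto_nhds_unique tendsto_const_nhds hlim).symm
  have hfin : ∫ u, Q u * E u = 0 := by
    have hCT : Continuous (CT b) := CT_cont hb
    have hCT1 : ∀ x, |CT b x| ≤ 1 := by
      intro x
      unfold CT
      calc |∫ α, b α * Real.cos (2 * Real.pi * α * x)| ≤ ∫ α, |b α * Real.cos (2 * Real.pi * α * x)| :=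
            abs_integral_le_integral_abs
        _ ≤ ∫ α, b α := by
            refine integral_mono (hb.int_cos x).abs (hb.cont.integrable_of_hasCompactSupport hb.cs)
              fun α => ?_
            show |b α * Real.cos (2 * Real.pi * α * x)| ≤ b α
            rw [abs_mul, abs_of_nonneg (hb2 α)]
            exact mul_le_of_le_one_right (hb2 α) (Real.abs_cos_le_one _)
        _ = 1 := hb3
    have hCT0 : CT b 0 = 1 := by
      unfold CT
      rw [← hb3]
      congr 1
      funext α
      simp
    have hlim : Tendsto (fun j : ℕ => ∫ u, Q u * CT b (ε j * u) * E u) atTop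
        (𝓝 (∫ u, Q u * 1 * E u)) := by
      refine tendsto_integral_of_dominated_convergence (fun u => |Q u| * K) (fun j => ?_)
        (hQint.abs.mul_const K) (fun j => ?_) ?_
      · refine (hQint.aestronglyMeasurable.mul ?_).mul hE.aestronglyMeasurable
        exact (hCT.comp (by fun_prop)).aestronglyMeasurable
      · refine ae_of_all _ fun u => ?_
        rw [Real.norm_eq_abs, abs_mul, abs_mul]
        refine mul_le_mul ?_ (hK u) (abs_nonneg _) (abs_nonneg _)
        exact mul_le_of_le_one_right (abs_nonneg _) (hCT1 _)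
      · refine ae_of_all _ fun u => ?_
        refine Tendsto.mul_const _ (Tendsto.const_mul _ ?_)
        have h1 : Tendsto (fun j : ℕ => ε j * u) atTop (𝓝 (0 * u)) := by
          refine Tendsto.mul_const _ ?_
          have := (tendsto_one_div_add_atTop_nhds_zero_nat (𝕜 := ℝ)).const_mul (δ - 1)
          rw [mul_zero] at this
          refine this.congr fun j => ?_
          rw [hε]
          ring
        rw [zero_mul] at h1
        have h2 := (hCT.tendsto 0).comp h1
        rw [hCT0] at h2
        exact h2
    have h0 : (fun j : ℕ => ∫ u, Q u * CT b (ε j * u) * E u) = fun _ => 0 := funext hj0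
    rw [h0] at hlim
    have := tendsto_nhds_unique hlim tendsto_const_nhds
    simpa using this
  have e : ∫ u, Q u * E u = (∫ u, ih h u * E u) - ∫ u, (db (u + h) - db u) * E u := by
    rw [← integral_sub (int_mulD hE hK (ih_int hh)) (int_mulD hE hK (dbd_int h))]
    congr 1
    funext u
    rw [hQ]
    ring
  rw [e, ih_mul hh] at hfin
  linarith

end Pool.Agent.D0H51.AG
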