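import Pool.Agent.D0H51.AG.Bm2

/-! # Pointwise bound for functions with a spectral gap -/

set_option autoImplicit false

open MeasureTheory Set Filter Topology

namespace Pool.Agent.D0H51.AG

open Pool.Agent.N804

section

variable {D : ℝ → ℝ} {K : ℝ}

lemma Orth.scaleT (H : ∀ δ, δ < 1 → Orth D δ) {t : ℝ} (ht : 0 < t) (ht1 : t < 1) :
    Orth (fun x => D (x / t)) ((1 + 1 / t) / 2) := by
  intro k hk
  have h1 := hk.scale ht
  have h2 : t * ((1 + 1 / t) / 2) < 1 := by
    have : t * ((1 + 1 / t) / 2) = (t + 1) / 2 := by field_simp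
    rw [this]
    linarith
  have h3 := H _ h2 _ h1
  have h4 := Measure.integral_comp_div (fun y => k (t * y) * D y) t
  rw [h3, smul_zero] at h4
  rw [← h4]
  refine integral_congr_ae (ae_of_all _ fun x => ?_)
  show k x * D (x / t) = k (t * (x / t)) * D (x / t)
  rw [show t * (x / t) = x by field_simp]

lemma db_scale_bd {t : ℝ} (ht : 1 / 2 ≤ t) (v : ℝ) : |db (t * v)| ≤ 8 * (1 + v ^ 2)⁻¹ := by
  rw [abs_of_nonneg (db_nonneg _)]
  refine (db_le _).trans ((Kf_bd _).trans ?_)
  rw [← div_eq_mul_inv, ← div_eq_mul_inv, div_le_div_iff₀ (by positivity) (by positivity)]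
  have : (1 / 2) ^ 2 * v ^ 2 ≤ (t * v) ^ 2 := by
    rw [mul_pow]
    have h1 : (1 / 2 : ℝ) ^ 2 ≤ t ^ 2 := pow_le_pow_left₀ (by norm_num) ht 2
    exact mul_le_mul_of_nonneg_right h1 (sq_nonneg v)
  nlinarith

lemma db_contAt {v : ℝ} (hv : v ≠ 0) : ContinuousAt db v := by
  unfold db
  refine ContinuousAt.div_const (ContinuousAt.sub ?_ Wb_cont.continuousAt) _
  rcases lt_or_gt_of_ne hv with h | h
  · refine (continuousAt_const (y := (-1 : ℝ))).congr ?_
    filter_upwards [gt_mem_nhds h] with y hy
    unfold sr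
    rw [if_neg (by linarith)]
  · refine (continuousAt_const (y := (1 : ℝ))).congr ?_
    filter_upwards [lt_mem_nhds h] with y hy
    unfold sr
    rw [if_pos hy]

/-- the representation formula, scaled -/
lemma thmBt (hD : Measurable D) (hK : ∀ x, |D x| ≤ K) (H : ∀ δ, δ < 1 → Orth D δ) {t : ℝ}
    (ht : 0 < t) (ht1 : t < 1) (x : ℝ) {h : ℝ} (hh : 0 < h) :
    ∫ u in (-h)..0, D (x + u) = ∫ v, (db (t * (v + h)) - db (t * v)) * D (x + v) := by
  have ht2 : 1 < (1 + 1 / t) / 2 := by
    have : 1 < 1 / t := by rw [lt_div_iff₀ ht]; linarith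
    linarith
  have H1 := (Orth.scaleT H ht ht1).trans (t * x)
  have h1 := thmB (E := fun u => D ((u + t * x) / t)) (K := K) (hD.comp (by fun_prop))
    (fun u => hK _) ht2 H1 (h := t * h) (by positivity)
  have h2 : ∫ u in (-(t * h))..0, D ((u + t * x) / t) = t * ∫ u in (-h)..0, D (x + u) := by
    have h3 := intervalIntegral.mul_integral_comp_mul_left (a := -h) (b := 0) (c := t)
      (f := fun u => D ((u + t * x) / t))
    rw [mul_zero, mul_neg] at h3
    rw [← h3]
    congr 1
    refine intervalIntegral.integral_congr fun u _ => ?_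
    show D ((t * u + t * x) / t) = D (x + u)
    congr 1
    field_simp
    ring
  have h4 : ∫ u, (db (u + t * h) - db u) * D ((u + t * x) / t) =
      t * ∫ v, (db (t * (v + h)) - db (t * v)) * D (x + v) := by
    have h5 := Measure.integral_comp_mul_left
      (fun u => (db (u + t * h) - db u) * D ((u + t * x) / t)) t
    rw [abs_of_pos (inv_pos.2 ht), smul_eq_mul] at h5
    have h6 : ∫ v, (db (t * (v + h)) - db (t * v)) * D (x + v) =
        ∫ v, (db (t * v + t * h) - db (t * v)) * D ((t * v + t * x) / t) := by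
      congr 1
      funext v
      rw [mul_add]
      congr 2
      field_simp
      ring
    rw [h6, h5]
    field_simp
  rw [h2, h4] at h1
  exact mul_left_cancel₀ ht.ne' h1

/-- the representation formula for gap one -/
theorem thmB1 (hD : Measurable D) (hK : ∀ x, |D x| ≤ K) (H : ∀ δ, δ < 1 → Orth D δ)
    (x : ℝ) {h : ℝ} (hh : 0 < h) :
    ∫ u in (-h)..0, D (x + u) = ∫ v, (db (v + h) - db v) * D (x + v) := by
  have hK0 : 0 ≤ K := (abs_nonneg _).trans (hK 0)
  set t : ℕ → ℝ := fun n => 1 - 1 / ((n : ℝ) + 2) with ht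
  have ht0 : ∀ n, 1 / 2 ≤ t n := by
    intro n
    have : 1 / ((n : ℝ) + 2) ≤ 1 / 2 := one_div_le_one_div_of_le (by norm_num) (by
      have : (0 : ℝ) ≤ n := Nat.cast_nonneg n
      linarith)
    show 1 / 2 ≤ 1 - 1 / ((n : ℝ) + 2)
    linarith
  have ht1 : ∀ n, t n < 1 := by
    intro n
    have : 0 < 1 / ((n : ℝ) + 2) := by positivity
    show 1 - 1 / ((n : ℝ) + 2) < 1
    linarith
  have htl : Tendsto t atTop (𝓝 1) := by
    have h1 : Tendsto (fun n : ℕ => 1 / ((n : ℝ) + 2)) atTop (𝓝 0) := by
      have h2 := (tendsto_one_div_add_atTop_nhds_zero_nat (𝕜 := ℝ)).comp (tendsto_add_atTop_nat 1)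
      refine h2.congr fun n => ?_
      show 1 / (((n + 1 : ℕ) : ℝ) + 1) = 1 / ((n : ℝ) + 2)
      push_cast
      congr 1
      ring
    have h3 := h1.const_sub 1
    rw [sub_zero] at h3
    exact h3
  have hDm : AEStronglyMeasurable (fun v => D (x + v)) volume :=
    (hD.comp (by fun_prop)).aestronglyMeasurable
  have hlim : Tendsto (fun n : ℕ => ∫ v, (db (t n * (v + h)) - db (t n * v)) * D (x + v)) atTop
      (𝓝 (∫ v, (db (v + h) - db v) * D (x + v))) := by
    refine tendsto_integral_of_dominated_convergence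
      (fun v => (8 * (1 + (v + h) ^ 2)⁻¹ + 8 * (1 + v ^ 2)⁻¹) * K) (fun n => ?_) ?_ (fun n => ?_) ?_
    · refine AEStronglyMeasurable.mul ?_ hDm
      exact ((db_meas.comp (by fun_prop)).sub (db_meas.comp (by fun_prop))).aestronglyMeasurable
    · have i1 : Integrable fun v : ℝ => 8 * (1 + (v + h) ^ 2)⁻¹ :=
        (integrable_inv_one_add_sq.comp_add_right h).const_mul 8
      exact (i1.add (integrable_inv_one_add_sq.const_mul 8)).mul_const K
    · refine ae_of_all _ fun v => ?_
      rw [Real.norm_eq_abs, abs_mul]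
      refine mul_le_mul ?_ (hK _) (abs_nonneg _) (by positivity)
      exact (abs_sub _ _).trans (add_le_add (db_scale_bd (ht0 n) _) (db_scale_bd (ht0 n) _))
    · have e1 : ∀ᵐ v : ℝ, v ≠ 0 := by
        rw [ae_iff]
        simp
      have e2 : ∀ᵐ v : ℝ, v ≠ -h := by
        rw [ae_iff]
        simp
      filter_upwards [e1, e2] with v h1 h2
      refine Tendsto.mul_const _ ?_
      have g1 : Tendsto (fun n => db (t n * (v + h))) atTop (𝓝 (db (v + h))) := by
        refine (db_contAt (v := v + h) ?_).tendsto.comp ?_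
        · intro h3
          exact h2 (by linarith)
        · have := htl.mul_const (v + h)
          rwa [one_mul] at this
      have g2 : Tendsto (fun n => db (t n * v)) atTop (𝓝 (db v)) := by
        refine (db_contAt h1).tendsto.comp ?_
        have := htl.mul_const v
        rwa [one_mul] at this
      exact g1.sub g2
  have h0 : (fun n : ℕ => ∫ v, (db (t n * (v + h)) - db (t n * v)) * D (x + v)) =
      fun _ => ∫ u in (-h)..0, D (x + u) := by
    funext n
    exact (thmBt hD hK H (by linarith [ht0 n]) (ht1 n) x hh).symm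
  rw [h0] at hlim
  exact tendsto_nhds_unique tendsto_const_nhds hlim

/-- one step of the pointwise bound -/
lemma claim_h (hD : Measurable D) (hK : ∀ x, |D x| ≤ K)
    (hlip : ∀ x y, x ≤ y → D x - D y ≤ y - x) (H : ∀ δ, δ < 1 → Orth D δ) {g : ℝ → ℝ} {c : ℝ}
    (hc : 0 ≤ c) (hgd : ∀ u, c * g u ≤ db u) (hgi : Integrable g) (x : ℝ) {h : ℝ} (hh : 0 < h) :
    D x ≤ h + 1 / 2 - c * ((∫ u, g u) - ∫ u, (g u - g (u - h)) / h * D (x + u)) := by
  have hDm : ∀ s : ℝ, Measurable fun v => D (s + v) := fun s => hD.comp (by fun_prop)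
  have i1 : D x - h ≤ (1 / h) * ∫ u in (-h)..0, D (x + h + u) := by
    have h1 : ∫ u in (-h)..0, (D x - h) ≤ ∫ u in (-h)..0, D (x + h + u) := by
      refine intervalIntegral.integral_mono_on (by linarith) intervalIntegrable_const ?_
        fun u hu => ?_
      · rw [intervalIntegrable_iff_integrableOn_Ioc_of_le (by linarith)]
        exact Integrable.mono' (integrable_const K) (hDm (x + h)).aestronglyMeasurable
          (ae_of_all _ fun u => hK _)
      · have := hlip x (x + h + u) (by linarith [hu.1])
        linarith [hu.2]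
    rw [intervalIntegral.integral_const, smul_eq_mul] at h1
    rw [one_div, ← div_eq_inv_mul, le_div_iff₀ hh]
    linarith
  have i2 := thmB1 hD hK H (x + h) hh
  have j1 : Integrable fun u => db u * D (x + u) := int_mulD (hDm x) (fun _ => hK _) db_integrable
  have j2 : Integrable fun u => db u * D (x + h + u) :=
    int_mulD (hDm (x + h)) (fun _ => hK _) db_integrable
  have j3 : Integrable fun u => db (u + h) * D (x + h + u) :=
    int_mulD (hDm (x + h)) (fun _ => hK _) (db_integrable.comp_add_right h)
  have k1 : Integrable fun u => g u * D (x + u) := int_mulD (hDm x) (fun _ => hK _) hgi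
  have k2 : Integrable fun u => g u * D (x + h + u) :=
    int_mulD (hDm (x + h)) (fun _ => hK _) hgi
  have k3 : Integrable fun u => g (u - h) * D (x + u) :=
    int_mulD (hDm x) (fun _ => hK _) (hgi.comp_sub_right h)
  have e1 : ∫ v, (db (v + h) - db v) * D (x + h + v) =
      ∫ u, db u * (D (x + u) - D (x + h + u)) := by
    have e2 : ∫ v, db (v + h) * D (x + h + v) = ∫ u, db u * D (x + u) := by
      rw [← integral_add_right_eq_self (fun u => db u * D (x + u)) h]
      congr 1
      funext u
      rw [show x + (u + h) = x + h + u by ring]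
    have e3 : ∫ v, (db (v + h) - db v) * D (x + h + v) =
        (∫ v, db (v + h) * D (x + h + v)) - ∫ v, db v * D (x + h + v) := by
      rw [← integral_sub j3 j2]
      congr 1
      funext v
      ring
    have e4 : ∫ u, db u * (D (x + u) - D (x + h + u)) =
        (∫ u, db u * D (x + u)) - ∫ u, db u * D (x + h + u) := by
      rw [← integral_sub j1 j2]
      congr 1
      funext v
      ring
    rw [e3, e4, e2]
  have i3 : ∫ u, db u * (D (x + u) - D (x + h + u)) ≤
      h / 2 - c * (h * (∫ u, g u) - ∫ u, (g u - g (u - h)) * D (x + u)) := by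
    have e5 : h / 2 - ∫ u, db u * (D (x + u) - D (x + h + u)) =
        ∫ u, db u * (h - (D (x + u) - D (x + h + u))) := by
      have : h / 2 = ∫ u, h * db u := by rw [integral_const_mul, db_mass]; ring
      have j4 : Integrable fun u => db u * (D (x + u) - D (x + h + u)) := by
        refine (j1.sub j2).congr (ae_of_all _ fun u => ?_)
        show db u * D (x + u) - db u * D (x + h + u) = _
        ring
      rw [this, ← integral_sub (db_integrable.const_mul h) j4]
      congr 1
      funext u
      ring
    have e6 : c * (h * (∫ u, g u) - ∫ u, (g u - g (u - h)) * D (x + u)) =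
        ∫ u, c * g u * (h - (D (x + u) - D (x + h + u))) := by
      have e7 : ∫ u, (g u - g (u - h)) * D (x + u) =
          (∫ u, g u * D (x + u)) - ∫ u, g u * D (x + h + u) := by
        have e8 : ∫ u, g (u - h) * D (x + u) = ∫ u, g u * D (x + h + u) := by
          rw [← integral_sub_right_eq_self (fun u => g u * D (x + h + u)) h]
          congr 1
          funext u
          rw [show x + h + (u - h) = x + u by ring]
        rw [← e8, ← integral_sub k1 k3]
        congr 1
        funext u
        ring
      have k12 : Integrable fun u => g u * D (x + u) - g u * D (x + h + u) := k1.sub k2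
      rw [e7, ← integral_sub k1 k2, ← integral_const_mul, ← integral_sub (hgi.const_mul h) k12,
        ← integral_const_mul]
      congr 1
      funext u
      ring
    have e9 : ∫ u, c * g u * (h - (D (x + u) - D (x + h + u))) ≤
        ∫ u, db u * (h - (D (x + u) - D (x + h + u))) := by
      refine integral_mono ?_ ?_ fun u => ?_
      · refine (((hgi.const_mul h).sub (k1.sub k2)).const_mul c).congr (ae_of_all _ fun u => ?_)
        show c * (h * g u - (g u * D (x + u) - g u * D (x + h + u))) = _
        ring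
      · refine ((db_integrable.const_mul h).sub (j1.sub j2)).congr (ae_of_all _ fun u => ?_)
        show h * db u - (db u * D (x + u) - db u * D (x + h + u)) = _
        ring
      · show c * g u * (h - (D (x + u) - D (x + h + u))) ≤
          db u * (h - (D (x + u) - D (x + h + u)))
        have := hlip (x + u) (x + h + u) (by linarith)
        exact mul_le_mul_of_nonneg_right (hgd u) (by linarith)
    linarith
  rw [i2, e1] at i1
  have i4 : (1 / h) * ∫ u, db u * (D (x + u) - D (x + h + u)) ≤
      (1 / h) * (h / 2 - c * (h * (∫ u, g u) - ∫ u, (g u - g (u - h)) * D (x + u))) := by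
    gcongr
  have e10 : ∫ u, (g u - g (u - h)) / h * D (x + u) =
      (1 / h) * ∫ u, (g u - g (u - h)) * D (x + u) := by
    rw [← integral_const_mul]
    congr 1
    funext u
    ring
  have e11 : (1 / h) * (h / 2 - c * (h * (∫ u, g u) - ∫ u, (g u - g (u - h)) * D (x + u))) =
      1 / 2 - c * ((∫ u, g u) - (1 / h) * ∫ u, (g u - g (u - h)) * D (x + u)) := by
    field_simp
  rw [e10]
  linarith

/-- **the pointwise bound** -/
theorem claimA (hD : Measurable D) (hK : ∀ x, |D x| ≤ K)
    (hlip : ∀ x y, x ≤ y → D x - D y ≤ y - x) (H : ∀ δ, δ < 1 → Orth D δ) {g g' : ℝ → ℝ} {c A : ℝ}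
    (hc : 0 ≤ c) (hgd : ∀ u, c * g u ≤ db u) (hgi : Integrable g)
    (hg' : ∀ u, HasDerivAt g (g' u) u) (hA : ∀ u, |g' u| ≤ A * (1 + u ^ 2)⁻¹) (x : ℝ) :
    D x ≤ 1 / 2 - c * ((∫ u, g u) - ∫ u, g' u * D (x + u)) := by
  have hK0 : 0 ≤ K := (abs_nonneg _).trans (hK 0)
  have hA0 : 0 ≤ A := by
    have := (abs_nonneg _).trans (hA 0)
    simpa using this
  have hgc : Continuous g := continuous_iff_continuousAt.2 fun u => (hg' u).continuousAt
  set s : ℕ → ℝ := fun n => 1 / ((n : ℝ) + 1) with hs
  have hs0 : ∀ n, 0 < s n := fun n => by rw [hs]; positivity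
  have hs1 : ∀ n, s n ≤ 1 := fun n => by
    show 1 / ((n : ℝ) + 1) ≤ 1
    rw [div_le_one (by positivity)]
    have : (0 : ℝ) ≤ n := Nat.cast_nonneg n
    linarith
  have hsl : Tendsto s atTop (𝓝 0) := tendsto_one_div_add_atTop_nhds_zero_nat
  have hlim : Tendsto (fun n : ℕ => ∫ u, (g u - g (u - s n)) / s n * D (x + u)) atTop
      (𝓝 (∫ u, g' u * D (x + u))) := by
    refine tendsto_integral_of_dominated_convergence
      (fun u => 3 * A * (1 + u ^ 2)⁻¹ * K) (fun n => ?_) ?_ (fun n => ?_) ?_
    · refine AEStronglyMeasurable.mul ?_ (hD.comp (by fun_prop)).aestronglyMeasurable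
      exact (by fun_prop : Continuous fun u => (g u - g (u - s n)) / s n).aestronglyMeasurable
    · exact (integrable_inv_one_add_sq.const_mul (3 * A)).mul_const K
    · refine ae_of_all _ fun u => ?_
      rw [Real.norm_eq_abs, abs_mul]
      refine mul_le_mul ?_ (hK _) (abs_nonneg _) (by positivity)
      obtain ⟨y, hy, hy2⟩ := exists_hasDerivAt_eq_slope g g' (show u - s n < u by linarith [hs0 n])
        hgc.continuousOn (fun y _ => hg' y)
      have e : (g u - g (u - s n)) / s n = g' y := by
        rw [hy2]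
        congr 1
        ring
      rw [e]
      refine (hA y).trans ?_
      have h1 : 1 + u ^ 2 ≤ 3 * (1 + y ^ 2) := by
        obtain ⟨d, hd⟩ : ∃ d, d = u - y := ⟨_, rfl⟩
        have hd0 : 0 < d := by linarith [hy.2]
        have hd1 : d < 1 := by linarith [hy.1, hs1 n]
        have e2 : u = y + d := by linarith
        rw [e2]
        nlinarith [sq_nonneg (y - d), sq_nonneg y]
      rw [← div_eq_mul_inv, ← div_eq_mul_inv, div_le_div_iff₀ (by positivity) (by positivity)]
      nlinarith
    · refine ae_of_all _ fun u => ?_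
      refine Tendsto.mul_const _ ?_
      have h1 := (hg' u).tendsto_slope_zero
      have h2 : Tendsto (fun n => -s n) atTop (𝓝[≠] 0) := by
        rw [tendsto_nhdsWithin_iff]
        refine ⟨by simpa using hsl.neg, Eventually.of_forall fun n => ?_⟩
        have := hs0 n
        show -s n ≠ 0
        linarith
      refine (h1.comp h2).congr fun n => ?_
      show (-s n)⁻¹ • (g (u + -s n) - g u) = (g u - g (u - s n)) / s n
      rw [smul_eq_mul, ← sub_eq_add_neg]
      have := hs0 n
      field_simp
      ring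
  have h1 : Tendsto (fun n : ℕ => s n + 1 / 2 - c * ((∫ u, g u) -
      ∫ u, (g u - g (u - s n)) / s n * D (x + u))) atTop
      (𝓝 (0 + 1 / 2 - c * ((∫ u, g u) - ∫ u, g' u * D (x + u)))) :=
    (hsl.add_const _).sub ((hlim.const_sub _).const_mul c)
  rw [zero_add] at h1
  exact ge_of_tendsto' h1 fun n => claim_h hD hK hlip H hc hgd hgi x (hs0 n)

end

end Pool.Agent.D0H51.AG
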