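import Mathlib

/-! # Alternations of a function whose decrease is at most linear -/

set_option autoImplicit false

open MeasureTheory Set Filter Topology

namespace Pool.Agent.D0H51.AG

/-- product with prescribed roots -/
noncomputable def pr (l : List ℝ) (x : ℝ) : ℝ := (l.map fun a => a - x).prod

lemma pr_nil (x : ℝ) : pr [] x = 1 := by simp [pr]

lemma pr_cons (a : ℝ) (l : List ℝ) (x : ℝ) : pr (a :: l) x = (a - x) * pr l x := by simp [pr]

lemma pr_pos {l : List ℝ} {x : ℝ} (h : ∀ a ∈ l, x < a) : 0 < pr l x := by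
  induction l with
  | nil => simp [pr]
  | cons a l ih =>
    rw [pr_cons]
    refine mul_pos ?_ (ih fun b hb => h b (List.mem_cons_of_mem _ hb))
    have := h a List.mem_cons_self
    linarith

/-- either a short sign pattern or a long alternating chain -/
theorem chain (D : ℝ → ℝ) (η : ℝ) (hη : 0 ≤ η) : ∀ (j : ℕ) (s p q : ℝ), p ≤ q →
    (∃ l : List ℝ, l.length ≤ j ∧ (∀ a ∈ l, p ≤ a ∧ a ≤ q) ∧
      ∀ x ∈ Ioc p q, -(η * |pr l x|) ≤ s * pr l x * D x) ∨
    (∃ f : ℕ → ℝ, (∀ i, i ≤ j → f i ∈ Ioc p q) ∧ (∀ i, i < j → f i < f (i + 1)) ∧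
      ∀ i, i ≤ j → (-1) ^ i * s * D (f i) < -η) := by
  intro j
  induction j with
  | zero =>
    intro s p q hpq
    by_cases h : ∀ x ∈ Ioc p q, -η ≤ s * D x
    · left
      refine ⟨[], le_rfl, by simp, fun x hx => ?_⟩
      rw [pr_nil, abs_one, mul_one, mul_one]
      exact h x hx
    · right
      push Not at h
      obtain ⟨x, hx, h1⟩ := h
      refine ⟨fun _ => x, fun _ _ => hx, fun i hi => absurd hi (Nat.not_lt_zero i), fun i hi => ?_⟩
      have : i = 0 := Nat.le_zero.1 hi
      rw [this, pow_zero, one_mul]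
      exact h1
  | succ j ih =>
    intro s p q hpq
    by_cases h : ∀ x ∈ Ioc p q, -η ≤ s * D x
    · left
      refine ⟨[], Nat.zero_le _, by simp, fun x hx => ?_⟩
      rw [pr_nil, abs_one, mul_one, mul_one]
      exact h x hx
    · push Not at h
      obtain ⟨x0, hx0, h0⟩ := h
      set V : Set ℝ := {x | x ∈ Ioc p q ∧ s * D x < -η} with hV
      have hne : V.Nonempty := ⟨x0, hx0, h0⟩
      have hbb : BddBelow V := ⟨p, fun x hx => hx.1.1.le⟩
      set a : ℝ := sInf V with ha
      have hpa : p ≤ a := le_csInf hne fun x hx => hx.1.1.le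
      have haq : a ≤ q := (csInf_le hbb ⟨hx0, h0⟩).trans hx0.2
      have hlow : ∀ x ∈ Ioc p q, x < a → -η ≤ s * D x := by
        intro x hx hxa
        by_contra hcon
        push Not at hcon
        exact absurd (csInf_le hbb (show x ∈ V from ⟨hx, hcon⟩)) (not_le.2 hxa)
      rcases ih (-s) a q haq with ⟨l, hl, hlm, hlx⟩ | ⟨f, hf1, hf2, hf3⟩
      · left
        refine ⟨a :: l, by simpa using hl, fun b hb => ?_, fun x hx => ?_⟩
        · rcases List.mem_cons.1 hb with h | h
          · rw [h]; exact ⟨hpa, haq⟩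
          · exact ⟨hpa.trans (hlm b h).1, (hlm b h).2⟩
        · rw [pr_cons]
          rcases lt_trichotomy x a with hxa | hxa | hxa
          · have h1 : 0 < pr l x := pr_pos fun b hb => lt_of_lt_of_le hxa (hlm b hb).1
            have h2 : 0 < (a - x) * pr l x := mul_pos (by linarith) h1
            have h3 := hlow x hx hxa
            rw [abs_of_pos h2]
            nlinarith
          · rw [hxa]
            simp
          · have h1 := hlx x ⟨hxa, hx.2⟩
            rw [abs_mul, abs_of_neg (by linarith : a - x < 0)]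
            have h2 : 0 < x - a := by linarith
            have h3 := mul_le_mul_of_nonneg_left h1 h2.le
            nlinarith
      · right
        have h1 := hf1 0 (Nat.zero_le _)
        obtain ⟨y, hyV, hy⟩ := (csInf_lt_iff hbb hne).1 h1.1
        refine ⟨fun i => if i = 0 then y else f (i - 1), fun i hi => ?_, fun i hi => ?_,
          fun i hi => ?_⟩
        · by_cases h : i = 0
          · simp only [h, if_true]; exact hyV.1
          · simp only [if_neg h]
            have := hf1 (i - 1) (by omega)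
            exact ⟨hpa.trans_lt this.1, this.2⟩
        · by_cases h : i = 0
          · simp only [h, if_true, if_neg (by norm_num : ¬ (0 + 1 = 0)), zero_add, Nat.sub_self]
            exact hy
          · simp only [if_neg h, if_neg (Nat.succ_ne_zero i), Nat.add_sub_cancel]
            have := hf2 (i - 1) (by omega)
            rwa [Nat.sub_add_cancel (Nat.one_le_iff_ne_zero.2 h)] at this
        · by_cases h : i = 0
          · simp only [h, if_true, pow_zero, one_mul]
            exact hyV.2
          · simp only [if_neg h]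
            have h3 := hf3 (i - 1) (by omega)
            obtain ⟨k, rfl⟩ := Nat.exists_eq_succ_of_ne_zero h
            rw [Nat.succ_sub_one] at h3 ⊢
            calc (-1) ^ (k.succ) * s * D (f k) = (-1) ^ k * -s * D (f k) := by
                  rw [Nat.succ_eq_add_one, pow_succ]; ring
              _ < -η := h3

/-- a descent takes time -/
lemma down {D : ℝ → ℝ} (lip : ∀ x y, x ≤ y → D x - D y ≤ y - x) {u v η : ℝ}
    (huv : u < v) (hu : η < D u) (hv : D v < -η) :
    ENNReal.ofReal (2 * η) ≤ volume ({x | |D x| ≤ η} ∩ Ioc u v) := by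
  set A : Set ℝ := {x | x ∈ Icc u v ∧ η < D x} with hA
  have hAne : A.Nonempty := ⟨u, ⟨le_rfl, huv.le⟩, hu⟩
  have hAb : BddAbove A := ⟨v, fun x hx => hx.1.2⟩
  set a : ℝ := sSup A with ha
  have hua : u ≤ a := le_csSup hAb ⟨⟨le_rfl, huv.le⟩, hu⟩
  have hav : a ≤ v := csSup_le hAne fun x hx => hx.1.2
  set B : Set ℝ := {x | x ∈ Icc a v ∧ D x < -η} with hB
  have hBne : B.Nonempty := ⟨v, ⟨hav, le_rfl⟩, hv⟩
  have hBb : BddBelow B := ⟨a, fun x hx => hx.1.1⟩
  set b : ℝ := sInf B with hb
  have hab : a ≤ b := le_csInf hBne fun x hx => hx.1.1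
  have hbv : b ≤ v := csInf_le hBb ⟨⟨hav, le_rfl⟩, hv⟩
  have hlen : 2 * η ≤ b - a := by
    refine le_of_forall_pos_le_add fun ε hε => ?_
    obtain ⟨x, hx, hxa⟩ := exists_lt_of_lt_csSup hAne (show a - ε / 2 < a by linarith)
    obtain ⟨y, hy, hyb⟩ := exists_lt_of_csInf_lt hBne (show b < b + ε / 2 by linarith)
    have hxa2 : x ≤ a := le_csSup hAb hx
    have h1 := lip x y (hxa2.trans hy.1.1)
    have h2 := hx.2
    have h3 := hy.2
    linarith
  have hsub : Ioo a b ⊆ {x | |D x| ≤ η} ∩ Ioc u v := by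
    intro x hx
    refine ⟨?_, hua.trans_lt hx.1, hx.2.le.trans hbv⟩
    show |D x| ≤ η
    rw [abs_le]
    constructor
    · by_contra hcon
      push Not at hcon
      exact absurd (csInf_le hBb (show x ∈ B from ⟨⟨hx.1.le, hx.2.le.trans hbv⟩, hcon⟩))
        (not_le.2 hx.2)
    · by_contra hcon
      push Not at hcon
      exact absurd (le_csSup hAb (show x ∈ A from
        ⟨⟨hua.trans hx.1.le, hx.2.le.trans hbv⟩, hcon⟩)) (not_le.2 hx.1)
  calc ENNReal.ofReal (2 * η) ≤ ENNReal.ofReal (b - a) := ENNReal.ofReal_le_ofReal hlen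
    _ = volume (Ioo a b) := Real.volume_Ioo.symm
    _ ≤ _ := measure_mono hsub

/-- several descents -/
lemma downs {D : ℝ → ℝ} (hD : Measurable D) (lip : ∀ x y, x ≤ y → D x - D y ≤ y - x) {η : ℝ}
    (p : ℝ) (g : ℕ → ℝ) : ∀ (n : ℕ) (q : ℝ), p ≤ q →
    (∀ i k, i < k → k < 2 * n → g i < g k) → (∀ i, i < 2 * n → g i ∈ Ioc p q) →
    (∀ i, i < n → η < D (g (2 * i)) ∧ D (g (2 * i + 1)) < -η) →
    n * ENNReal.ofReal (2 * η) ≤ volume ({x | |D x| ≤ η} ∩ Ioc p q) := by
  intro n
  induction n with
  | zero => intro q _ _ _ _; simp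
  | succ n ih =>
    intro q hpq hmono hmem hs
    have h1 := hmem (2 * n) (by omega)
    have h2 := hmem (2 * n + 1) (by omega)
    have h3 := ih (g (2 * n)) h1.1.le (fun i k hik hk => hmono i k hik (by omega))
      (fun i hi => ⟨(hmem i (by omega)).1, (hmono i (2 * n) hi (by omega)).le⟩)
      (fun i hi => hs i (by omega))
    have h4 := down lip (hmono (2 * n) (2 * n + 1) (by omega) (by omega)) (hs n (by omega)).1
      (hs n (by omega)).2
    have hms : MeasurableSet {x | |D x| ≤ η} := measurableSet_le (by fun_prop) measurable_const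
    have hdisj : Disjoint ({x | |D x| ≤ η} ∩ Ioc p (g (2 * n)))
        ({x | |D x| ≤ η} ∩ Ioc (g (2 * n)) (g (2 * n + 1))) := by
      rw [Set.disjoint_left]
      intro x hx hy
      exact absurd hx.2.2 (not_le.2 hy.2.1)
    calc ((n + 1 : ℕ) : ENNReal) * ENNReal.ofReal (2 * η) =
          n * ENNReal.ofReal (2 * η) + ENNReal.ofReal (2 * η) := by push_cast; ring
      _ ≤ volume ({x | |D x| ≤ η} ∩ Ioc p (g (2 * n))) +
          volume ({x | |D x| ≤ η} ∩ Ioc (g (2 * n)) (g (2 * n + 1))) := add_le_add h3 h4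
      _ = volume (({x | |D x| ≤ η} ∩ Ioc p (g (2 * n))) ∪
          ({x | |D x| ≤ η} ∩ Ioc (g (2 * n)) (g (2 * n + 1)))) :=
          (measure_union hdisj (hms.inter measurableSet_Ioc)).symm
      _ ≤ _ := by
          refine measure_mono (union_subset ?_ ?_)
          · exact inter_subset_inter_right _ (Ioc_subset_Ioc_right h1.2)
          · exact inter_subset_inter_right _ (Ioc_subset_Ioc h1.1.le h2.2)

/-- either a sign pattern with at most `2 n` points or a large measure -/
theorem alt {D : ℝ → ℝ} (hD : Measurable D) (lip : ∀ x y, x ≤ y → D x - D y ≤ y - x) {η : ℝ}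
    (hη : 0 ≤ η) (n : ℕ) {p q : ℝ} (hpq : p ≤ q) :
    (∃ l : List ℝ, l.length ≤ 2 * n ∧ (∀ a ∈ l, p ≤ a ∧ a ≤ q) ∧
      ∀ x ∈ Ioc p q, -(η * |pr l x|) ≤ pr l x * D x) ∨
    n * ENNReal.ofReal (2 * η) ≤ volume ({x | |D x| ≤ η} ∩ Ioc p q) := by
  rcases chain D η hη (2 * n) 1 p q hpq with ⟨l, h1, h2, h3⟩ | ⟨f, h1, h2, h3⟩
  · left
    refine ⟨l, h1, h2, fun x hx => ?_⟩
    have := h3 x hx
    rwa [one_mul] at this
  · right
    have hmono : ∀ d i, i + d + 1 ≤ 2 * n → f i < f (i + d + 1) := by
      intro d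
      induction d with
      | zero => intro i hi; exact h2 i (by omega)
      | succ d ih =>
        intro i hi
        have a1 := ih i (by omega)
        have a2 := h2 (i + d + 1) (by omega)
        have e : i + (d + 1) + 1 = i + d + 1 + 1 := by omega
        rw [e]
        exact a1.trans a2
    refine downs hD lip p (fun i => f (i + 1)) n q hpq (fun i k hik hk => ?_)
      (fun i hi => h1 (i + 1) (by omega)) (fun i hi => ⟨?_, ?_⟩)
    · have := hmono (k - i - 1) (i + 1) (by omega)
      have e : i + 1 + (k - i - 1) + 1 = k + 1 := by omega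
      rwa [e] at this
    · have := h3 (2 * i + 1) (by omega)
      rw [pow_succ, pow_mul] at this
      norm_num at this
      linarith
    · have := h3 (2 * i + 1 + 1) (by omega)
      have e : 2 * i + 1 + 1 = 2 * (i + 1) := by ring
      rw [e, pow_mul] at this
      norm_num at this
      have e2 : 2 * i + 1 + 1 = 2 * (i + 1) := by ring
      show D (f (2 * i + 1 + 1)) < -η
      rw [e2]
      linarith

end Pool.Agent.D0H51.AG
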