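import Pool.Agent.D0H51.AG.GapM3
import Pool.Agent.N804.AvgF

/-! # Passage to the limit -/

set_option autoImplicit false

open MeasureTheory Set Filter Topology

namespace Pool.Agent.D0H51.AG

open Pool.Agent.N804
open H370 (Zf mult)

/-- the limit objects of the case `e = 0` have a spectral gap -/
theorem gap_of_LO {Φ : ℝ → ℝ} {μ ν e : ℝ} (H : LO Φ μ ν e) (he : e = 0) {K : ℝ} (hK : 0 < K)
    (h : ∀ y : ℝ, 0 ≤ y → |∫ v in (0 : ℝ)..y, Gd Φ μ v| ≤ K) :
    Gap (od (Gd Φ μ)) (K + 1) (3 / 5) := by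
  refine ⟨od_meas (Gd_meas H), fun x => ?_, od_odd _, fun x y hxy => ?_, fun c hc hz h0 => ?_⟩
  · unfold od
    split_ifs with h1 h2
    · exact pt_of_mean H hK h h1
    · rw [abs_neg]
      exact pt_of_mean H hK h (by linarith)
    · rw [abs_zero]; linarith
  · have h1 := MM_mono H hxy
    have h2 := PP_lip hxy
    unfold MM at h1
    linarith
  · have hpi := Real.pi_pos
    obtain ⟨r, hr, -⟩ := mk_test' (w := fun x => 2 * Real.pi * ST c x) hc h0 hz (by norm_num)
      (fun x => rfl) ((ST_cont hc).const_mul _) (fun n => by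
        obtain ⟨A, hA⟩ := ST_dec hc n
        refine ⟨2 * Real.pi * A, fun x hx => ?_⟩
        rw [abs_mul, abs_of_pos (show 0 < 2 * Real.pi by positivity)]
        have := mul_le_mul_of_nonneg_left (hA x hx) (show 0 ≤ 2 * Real.pi by positivity)
        linarith)
    have h2 := H.id2 he (3 / 5) (by norm_num) (by norm_num) _ _ hr
    have e1 : ∫ x in Ioi (0 : ℝ), 2 * Real.pi * ST c x * (Φ x - PP x + (μ - 1) / 2) =
        2 * Real.pi * ∫ x in Ioi (0 : ℝ), ST c x * od (Gd Φ μ) x := by
      rw [← integral_const_mul]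
      refine setIntegral_congr_fun measurableSet_Ioi fun x hx => ?_
      show 2 * Real.pi * N804.ST c x * (Φ x - PP x + (μ - 1) / 2) =
        2 * Real.pi * (N804.ST c x * od (Gd Φ μ) x)
      rw [od_pos hx]
      unfold Gd
      ring
    rw [e1] at h2
    exact (mul_eq_zero.1 h2).resolve_left (by positivity)

/-- the symmetric error -/
noncomputable def SS (T a : ℝ) : ℝ := 2 * CF T a + MF T - 1 - 2 * PP a

lemma CF_meas (T : ℝ) : Measurable (CF T) := by
  unfold CF
  have h1 : Monotone fun h => Pc (Zf riemannZeta 0 T) h := fun x y h => Pc_mono _ h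
  exact (h1.measurable.comp (by fun_prop)).div_const _

lemma SS_meas (T : ℝ) : Measurable (SS T) := by
  unfold SS
  have h1 := CF_meas T
  have h2 := PP_cont.measurable
  fun_prop

/-- lower semicontinuity of the measure of the set of small values -/
lemma fatou {f : ℕ → ℝ → ℝ} {g : ℝ → ℝ} (hf : ∀ n, Measurable (f n)) {x y : ℝ}
    (h : ∀ᵐ a ∂(volume.restrict (Ioc x y)), Tendsto (fun n => f n a) atTop (𝓝 (g a)))
    {η η' v : ℝ} (hη : η' < η) (hv : v < volume.real ({a | |g a| ≤ η'} ∩ Ioc x y)) :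
    ∀ᶠ n in atTop, v < volume.real ({a | |f n a| ≤ η} ∩ Ioc x y) := by
  set μ : Measure ℝ := volume.restrict (Ioc x y) with hμ
  have hfin : IsFiniteMeasure μ := ⟨by
    rw [hμ, Measure.restrict_apply_univ, Real.volume_Ioc]; exact ENNReal.ofReal_lt_top⟩
  have h1 : TendstoInMeasure μ f atTop g :=
    tendstoInMeasure_of_tendsto_ae (fun n => (hf n).aestronglyMeasurable) h
  rw [tendstoInMeasure_iff_dist] at h1
  have h2 := h1 (η - η') (by linarith)
  have h3 : Tendsto (fun n => μ.real {a | η - η' ≤ dist (f n a) (g a)}) atTop (𝓝 0) := by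
    have := (ENNReal.tendsto_toReal ENNReal.zero_ne_top).comp h2
    rw [ENNReal.toReal_zero] at this
    exact this
  have h4 : ∀ n, volume.real ({a | |g a| ≤ η'} ∩ Ioc x y) ≤
      volume.real ({a | |f n a| ≤ η} ∩ Ioc x y) + μ.real {a | η - η' ≤ dist (f n a) (g a)} := by
    intro n
    have e1 : ∀ s : Set ℝ, volume.real (s ∩ Ioc x y) = μ.real s := by
      intro s
      rw [hμ, measureReal_def, measureReal_def, Measure.restrict_apply' measurableSet_Ioc]
    rw [e1, e1]
    refine (measureReal_mono ?_ (measure_ne_top _ _)).trans (measureReal_union_le _ _)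
    intro a ha
    by_cases hc : |f n a| ≤ η
    · exact Or.inl hc
    · right
      have ha' : |g a| ≤ η' := ha
      push Not at hc
      show η - η' ≤ dist (f n a) (g a)
      rw [Real.dist_eq]
      have := abs_sub_abs_le_abs_sub (f n a) (g a)
      linarith
  have h5 := h3.eventually (gt_mem_nhds
    (show 0 < volume.real ({a | |g a| ≤ η'} ∩ Ioc x y) - v by linarith))
  filter_upwards [h5] with n hn
  have := h4 n
  linarith

/-- convergence of the symmetric errors -/
lemma SS_conv {T : ℕ → ℝ} (hT : Tendsto T atTop atTop) {Φ : ℝ → ℝ} {μ : ℝ}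
    (hg : ∀ᵐ x, x ∈ GP T Φ) (h2 : Tendsto (fun k => mt (T k)) atTop (𝓝 μ)) {x y : ℝ}
    (hx : 0 ≤ x) : ∀ᵐ a ∂(volume.restrict (Ioc x y)), Tendsto (fun n => SS (T n) a) atTop
      (𝓝 (2 * od (Gd Φ μ) a)) := by
  have c2 : Tendsto (fun k => MF (T k)) atTop (𝓝 μ) := by
    have := (mf_lim.comp hT).add h2
    rw [zero_add] at this
    refine this.congr fun k => ?_
    simp only [Function.comp]
    ring
  filter_upwards [ae_restrict_of_ae hg, ae_restrict_mem measurableSet_Ioc] with a ga ha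
  have ha0 : 0 < a := lt_of_le_of_lt hx ha.1
  have c1 := CF_conv hT hg ha0 ga
  have c3 := (((c1.const_mul 2).add c2).sub_const 1).sub_const (2 * PP a)
  rw [od_pos ha0]
  unfold Gd SS
  refine (c3.congr fun n => by ring).trans (le_of_eq ?_)
  congr 1
  ring

/-- **agreement on a set of large measure**, if almost all the zeros lie on the critical line -/
theorem small_RH : ∃ c C : ℝ, 0 < c ∧ 0 < C ∧ (Tendsto OF atTop (𝓝 0) →
    ∀ η : ℝ, 0 < η → η ≤ 1 → ∀ R : ℝ, C * Real.log (2 / η) ≤ R → ∀ x : ℝ, 0 ≤ x →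
      ∀ᶠ T in atTop, c * η * R ≤ volume.real ({a | |SS T a| ≤ η} ∩ Ioc x (x + R))) := by
  obtain ⟨B, K, hB, hK, hext⟩ := extractV
  obtain ⟨c, C, hc, hC, hgap⟩ := gap_small (K := K + 1) (by linarith)
  refine ⟨c / 8, 3 * C, by positivity, by positivity, fun hO η hη hη1 R hR x hx => ?_⟩
  refine ev_of_seq fun T hT => ?_
  obtain ⟨ψ, hψ, Φ, μ, ν, e, H, -, hμ, hmean, hg, h2, -, h4⟩ := hext T hT
  have hT' : Tendsto (fun k => T (ψ k)) atTop atTop := hT.comp hψ.tendsto_atTop
  refine ⟨ψ, ?_⟩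
  have he : e = 0 := tendsto_nhds_unique h4 ((et_of_OF hO).comp hT')
  have G := gap_of_LO H he hK hmean
  have hlog2 : (0 : ℝ) < Real.log 2 := Real.log_pos (by norm_num)
  have hlog : Real.log (2 / (η / 4)) ≤ 3 * Real.log (2 / η) := by
    rw [show 2 / (η / 4) = 4 * (2 / η) by field_simp, Real.log_mul (by norm_num) (by positivity),
      show (4 : ℝ) = 2 ^ 2 by norm_num, Real.log_pow]
    have : Real.log 2 ≤ Real.log (2 / η) := by
      refine Real.log_le_log (by norm_num) ?_
      rw [le_div_iff₀ hη]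
      linarith
    push_cast
    linarith
  have hR0 : 0 < R := by
    refine lt_of_lt_of_le ?_ hR
    have : 0 < Real.log (2 / η) := Real.log_pos (by rw [lt_div_iff₀ hη]; linarith)
    positivity
  have h5 := hgap _ G (η / 4) (by positivity) (by linarith) R
    ((mul_le_mul_of_nonneg_left hlog hC.le).trans (by linarith)) x
  have h6 : volume.real ({a | |od (Gd Φ μ) a| ≤ η / 4} ∩ Ioc x (x + R)) =
      volume.real ({a | |2 * od (Gd Φ μ) a| ≤ η / 2} ∩ Ioc x (x + R)) := by
    congr 2
    ext a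
    show |od (Gd Φ μ) a| ≤ η / 4 ↔ |2 * od (Gd Φ μ) a| ≤ η / 2
    rw [abs_mul, abs_two]
    constructor <;> intro h <;> linarith
  rw [h6] at h5
  have h7 : c / 8 * η * R < volume.real ({a | |2 * od (Gd Φ μ) a| ≤ η / 2} ∩ Ioc x (x + R)) := by
    refine lt_of_lt_of_le ?_ h5
    have : 0 < c * η * R := by positivity
    linarith
  have h8 := fatou (fun n => SS_meas (T (ψ n))) (SS_conv hT' hg h2 hx) (show η / 2 < η by linarith) h7
  exact h8.mono fun n hn => hn.le

end Pool.Agent.D0H51.AG
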