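import Pool.Agent.D0H51.AG.Pos
import Pool.Agent.D0H51.AG.Bm3
import Pool.Agent.D0H51.AG.LimR

/-! # Positivity for the limit of the error -/

set_option autoImplicit false

open MeasureTheory Set Filter Topology

namespace Pool.Agent.D0H51.AG

open Pool.Agent.N804
open H370 (Zf mult mem_Zf good_zeta zset NN NN_eq)

lemma SC.mulid {r : ℝ → ℝ} (H : SC r) : SC fun α => α * r α :=
  ⟨contDiff_id.mul H.sm, H.cs.mul_left⟩

/-- minus the derivative of the cosine transform -/
noncomputable def dr (r : ℝ → ℝ) (x : ℝ) : ℝ := 2 * Real.pi * ST (fun α => α * r α) x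

lemma dr_neg (r : ℝ → ℝ) (x : ℝ) : dr r (-x) = -dr r x := by
  unfold dr
  rw [ST_neg', mul_neg]

lemma dr_cont {r : ℝ → ℝ} (H : SC r) : Continuous (dr r) := (ST_cont (SC.mulid H)).const_mul _

lemma dr_InK {r : ℝ → ℝ} (H : SC r) {δ : ℝ} (hz : ∀ α, δ < |α| → r α = 0) : InK δ (dr r) := by
  refine ⟨fun _ => 0, fun α => 2 * Real.pi * (α * r α), SC.zero, SC.smul (SC.mulid H) _,
    fun _ _ => rfl, fun α hα => by
      show 2 * Real.pi * (α * r α) = 0
      rw [hz α hα]; ring, fun x => ?_⟩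
  rw [CT_zero, ST_smul, zero_add]
  rfl

lemma SC.bound {r : ℝ → ℝ} (H : SC r) : ∃ δ : ℝ, 0 < δ ∧ ∀ α, δ < |α| → r α = 0 := by
  obtain ⟨R, hR⟩ := H.cs.isCompact.isBounded.subset_closedBall 0
  refine ⟨max R 1, lt_max_of_lt_right one_pos, fun α hα => ?_⟩
  by_contra hne
  have h1 : α ∈ tsupport r := subset_tsupport _ hne
  have h2 := hR h1
  rw [mem_closedBall_zero_iff, Real.norm_eq_abs] at h2
  have := le_max_left R 1
  linarith

lemma dr_int {r : ℝ → ℝ} (H : SC r) : Integrable (dr r) := by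
  obtain ⟨δ, -, hz⟩ := SC.bound H
  exact (dr_InK H hz).int

lemma CT_hasDeriv {r : ℝ → ℝ} (H : SC r) (x : ℝ) : HasDerivAt (CT r) (-dr r x) x := by
  have h := hasDerivAt_integral_of_dominated_loc_of_deriv_le (μ := volume)
    (F := fun x α => r α * Real.cos (2 * Real.pi * α * x))
    (F' := fun x α => -(2 * Real.pi) * (α * r α * Real.sin (2 * Real.pi * α * x)))
    (x₀ := x) (s := univ) (bound := fun α => 2 * Real.pi * |α * r α|) univ_mem ?_ ?_ ?_ ?_ ?_ ?_
  · have h2 := h.2
    have e : ∫ α : ℝ, -(2 * Real.pi) * (α * r α * Real.sin (2 * Real.pi * α * x)) = -dr r x := by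
      rw [integral_const_mul]
      unfold dr N804.ST
      ring
    rw [e] at h2
    exact h2
  · have := H.cont
    exact Eventually.of_forall fun y => (by fun_prop : Continuous fun α =>
      r α * Real.cos (2 * Real.pi * α * y)).aestronglyMeasurable
  · exact H.int_cos x
  · have := H.cont
    exact (by fun_prop : Continuous fun α =>
      -(2 * Real.pi) * (α * r α * Real.sin (2 * Real.pi * α * x))).aestronglyMeasurable
  · refine ae_of_all _ fun α y _ => ?_
    have hpi := Real.pi_pos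
    rw [Real.norm_eq_abs, abs_mul, abs_neg, abs_of_pos (by positivity : 0 < 2 * Real.pi), abs_mul]
    have := Real.abs_sin_le_one (2 * Real.pi * α * y)
    have h3 := abs_nonneg (α * r α)
    have : |α * r α| * |Real.sin (2 * Real.pi * α * y)| ≤ |α * r α| * 1 := by gcongr
    rw [mul_one] at this
    gcongr
  · have H2 := SC.mulid H
    exact ((H2.cont.integrable_of_hasCompactSupport H2.cs).abs).const_mul _
  · refine ae_of_all _ fun α y _ => ?_
    have h1 : HasDerivAt (fun y : ℝ => 2 * Real.pi * α * y) (2 * Real.pi * α) y := by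
      simpa using (hasDerivAt_id y).const_mul (2 * Real.pi * α)
    have h2 := h1.cos.const_mul (r α)
    have e : r α * (-Real.sin (2 * Real.pi * α * y) * (2 * Real.pi * α)) =
        -(2 * Real.pi) * (α * r α * Real.sin (2 * Real.pi * α * y)) := by ring
    rw [e] at h2
    exact h2

/-- the test function of a smooth transform -/
lemma test_of_SC {r : ℝ → ℝ} (H : SC r) {δ : ℝ} (hδ : 0 < δ) (hz : ∀ α, δ < |α| → r α = 0) :
    Test (dr r) r δ := by
  have hpi := Real.pi_pos
  have H2 := SC.mulid H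
  obtain ⟨r', hr, hr2⟩ := mk_test' (w := dr r) (k := fun α => α * r α) (κ := δ) H2 (by simp)
    (fun α hα => by
      show α * r α = 0
      rw [hz α hα, mul_zero]) hδ (fun x => rfl) (dr_cont H) (fun n => by
        obtain ⟨A, hA⟩ := ST_dec H2 n
        refine ⟨2 * Real.pi * A, fun x hx => ?_⟩
        unfold dr
        rw [abs_mul, abs_of_pos (show 0 < 2 * Real.pi by positivity)]
        have := mul_le_mul_of_nonneg_left (hA x hx) (show 0 ≤ 2 * Real.pi by positivity)
        linarith)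
  obtain ⟨K, hK⟩ := hr.lip
  have hc : Continuous r' := Pool.Agent.Y750.OM.lip_cont hK
  have e : r' = r := by
    funext x
    refine ext_ne hc H.cont (fun x hx => ?_) x
    exact mul_left_cancel₀ hx (hr2 x)
  rwa [e] at hr

lemma half_line {k D : ℝ → ℝ} (hk : ∀ x, k (-x) = -k x) (hD : ∀ x, D (-x) = -D x)
    (hint : Integrable fun x => k x * D x) :
    ∫ x, k x * D x = 2 * ∫ x in Ioi (0 : ℝ), k x * D x := by
  have e1 : ∫ x, k x * D x = (∫ x in Ioi (0 : ℝ), k x * D x) + ∫ x in Iic (0 : ℝ), k x * D x := by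
    rw [add_comm]
    exact (intervalIntegral.integral_Iic_add_Ioi hint.integrableOn hint.integrableOn).symm
  have e2 : ∫ x in Iic (0 : ℝ), k x * D x = ∫ x in Ioi (0 : ℝ), k x * D x := by
    have h := integral_comp_neg_Ioi (c := (0 : ℝ)) (f := fun x => k x * D x)
    rw [neg_zero] at h
    rw [← h]
    refine integral_congr_ae (ae_of_all _ fun x => ?_)
    show k (-x) * D (-x) = k x * D x
    rw [hk, hD]
    ring
  rw [e1, e2]
  ring

/-- what is known about the limit of the error, under RH -/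
structure LD (D : ℝ → ℝ) (K : ℝ) : Prop where
  meas : Measurable D
  bd : ∀ x, |D x| ≤ K
  odd : ∀ x, D (-x) = -D x
  lip : ∀ x y, x ≤ y → D x - D y ≤ y - x
  low : ∀ r : ℝ → ℝ, SC r → ∀ δ : ℝ, 0 < δ → δ < 1 → (∀ α, δ < |α| → r α = 0) →
    ∫ x, dr r x * D x = 0
  pos : ∀ r : ℝ → ℝ, SC r → PPos r →
    -(CT r 0 + ∫ u : ℝ, CT r u * (1 - Real.sinc (Real.pi * u) ^ 2)) ≤ ∫ x, dr r x * D x
  orth : ∀ δ, δ < 1 → Orth D δ

theorem LD_RH (RH : RiemannHypothesis) {T : ℕ → ℝ} (hT : Tendsto T atTop atTop) {Φ : ℝ → ℝ}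
    {μ ν e : ℝ} (H : LO Φ μ ν e) {K : ℝ} (hK : 0 < K)
    (h : ∀ y : ℝ, 0 ≤ y → |∫ v in (0 : ℝ)..y, Gd Φ μ v| ≤ K)
    (tΦ : ∀ᵐ x, Tendsto (fun k => ct (T k) x) atTop (𝓝 (Φ x)))
    (tμ : Tendsto (fun k => mt (T k)) atTop (𝓝 μ)) :
    LD (od (Gd Φ μ)) (K + 1) := by
  have hbd : ∀ x, |od (Gd Φ μ) x| ≤ K + 1 := by
    intro x
    unfold od
    split_ifs with h1 h2
    · exact pt_of_mean H hK h h1
    · rw [abs_neg]
      exact pt_of_mean H hK h (by linarith)
    · rw [abs_zero]; linarith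
  have hme := od_meas (Gd_meas H)
  have hmain : ∀ r : ℝ → ℝ, SC r → ∫ x, dr r x * od (Gd Φ μ) x =
      2 * ∫ x in Ioi (0 : ℝ), dr r x * (Φ x - PP x + (μ - 1) / 2) := by
    intro r hr
    rw [half_line (dr_neg r) (od_odd _) (int_mulD hme hbd (dr_int hr))]
    congr 1
    refine setIntegral_congr_fun measurableSet_Ioi fun x hx => ?_
    show dr r x * od (Gd Φ μ) x = dr r x * (Φ x - PP x + (μ - 1) / 2)
    rw [od_pos hx]
    unfold Gd
    ring
  have hlow : ∀ r : ℝ → ℝ, SC r → ∀ δ : ℝ, 0 < δ → δ < 1 → (∀ α, δ < |α| → r α = 0) →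
      ∫ x, dr r x * od (Gd Φ μ) x = 0 := by
    intro r hr δ h0 h1 hz
    rw [hmain r hr, lim_RH RH hT tΦ tμ (test_of_SC hr h0 hz) h0 h1, mul_zero]
  have hlip : ∀ x y, x ≤ y → od (Gd Φ μ) x - od (Gd Φ μ) y ≤ y - x := by
    intro x y hxy
    have h1 := MM_mono H hxy
    have h2 := PP_lip hxy
    unfold MM at h1
    linarith
  refine ⟨hme, hbd, od_odd _, hlip, hlow, fun r hr hp => ?_, fun δ hδ => ?_⟩
  · obtain ⟨δ, h0, hz⟩ := SC.bound hr
    rw [hmain r hr]
    exact pos_lim hT tΦ tμ (test_of_SC hr h0 hz) hp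
  · have hmax0 : 0 < max δ (1 / 2) := lt_max_of_lt_right (by norm_num)
    have hmax1 : max δ (1 / 2) < 1 := max_lt hδ (by norm_num)
    have G : Gap (od (Gd Φ μ)) (K + 1) (max δ (1 / 2)) := by
      refine ⟨hme, hbd, od_odd _, hlip, fun c hc hz hc0 => ?_⟩
      have hpi := Real.pi_pos
      obtain ⟨r, hr, -⟩ := mk_test' (w := fun x => 2 * Real.pi * ST c x) hc hc0 hz hmax0
        (fun x => rfl) ((ST_cont hc).const_mul _) (fun n => by
          obtain ⟨A, hA⟩ := ST_dec hc n
          refine ⟨2 * Real.pi * A, fun x hx => ?_⟩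
          rw [abs_mul, abs_of_pos (show 0 < 2 * Real.pi by positivity)]
          have := mul_le_mul_of_nonneg_left (hA x hx) (show 0 ≤ 2 * Real.pi by positivity)
          linarith)
      have h2 := lim_RH RH hT tΦ tμ hr hmax0 hmax1
      have e1 : ∫ x in Ioi (0 : ℝ), 2 * Real.pi * ST c x * (Φ x - PP x + (μ - 1) / 2) =
          2 * Real.pi * ∫ x in Ioi (0 : ℝ), ST c x * od (Gd Φ μ) x := by
        rw [← integral_const_mul]
        refine setIntegral_congr_fun measurableSet_Ioi fun x hx => ?_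
        show 2 * Real.pi * N804.ST c x * (Φ x - PP x + (μ - 1) / 2) =
          2 * Real.pi * (N804.ST c x * od (Gd Φ μ) x)
        rw [od_pos hx]
        unfold Gd
        ring
      rw [e1] at h2
      exact (mul_eq_zero.1 h2).resolve_left (by positivity)
    intro k hk
    exact G.orth (hk.mono (le_max_left _ _))

end Pool.Agent.D0H51.AG
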