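import Mathlib

/-! # The Fejer kernel and its partition of unity -/

set_option autoImplicit false

open MeasureTheory Set Filter Topology

namespace Pool.Agent.D0H51.AG

/-- the Fejer kernel -/
noncomputable def Kf (x : ℝ) : ℝ := Real.sinc (Real.pi * x) ^ 2

lemma Kf_nonneg (x : ℝ) : 0 ≤ Kf x := sq_nonneg _

lemma Kf_le_one (x : ℝ) : Kf x ≤ 1 := by
  unfold Kf
  have := Real.abs_sinc_le_one (Real.pi * x)
  rw [← sq_abs]
  exact pow_le_one₀ (abs_nonneg _) this

lemma Kf_even (x : ℝ) : Kf (-x) = Kf x := by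
  unfold Kf
  rw [mul_neg, Real.sinc_neg]

lemma Kf_cont : Continuous Kf := by
  unfold Kf
  have := Real.continuous_sinc
  fun_prop

lemma Kf_eq {x : ℝ} (hx : x ≠ 0) : Kf x = Real.sin (Real.pi * x) ^ 2 / (Real.pi ^ 2 * x ^ 2) := by
  unfold Kf
  rw [Real.sinc_of_ne_zero (by have := Real.pi_pos; positivity), div_pow, mul_pow]

lemma Kf_shift {x : ℝ} (n : ℤ) (h : x - n ≠ 0) :
    Kf (x - n) = Real.sin (Real.pi * x) ^ 2 / (Real.pi ^ 2 * (x - n) ^ 2) := by
  rw [Kf_eq h]
  congr 1
  rw [mul_sub, mul_comm Real.pi (n : ℝ)]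
  rw [Real.sin_sub_int_mul_pi, mul_pow]
  have : ((-1 : ℝ) ^ n) ^ 2 = 1 := by
    rw [← zpow_natCast, ← zpow_mul, mul_comm, zpow_mul]
    norm_num
  rw [this, one_mul]

/-- the transform of the interval -/
lemma coef (x : ℝ) (n : ℤ) (h : (-(1 / 2) : ℝ) < 1 / 2) :
    fourierCoeffOn h (fun t => Complex.exp (2 * Real.pi * Complex.I * x * t)) n =
      (Real.sinc (Real.pi * (x - n)) : ℂ) := by
  rw [fourierCoeffOn_eq_integral]
  have hT : (1 / 2 : ℝ) - -(1 / 2) = 1 := by norm_num
  have e1 : ∀ t : ℝ, (fourier (-n) (t : AddCircle ((1 / 2 : ℝ) - -(1 / 2)))) •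
      Complex.exp (2 * Real.pi * Complex.I * x * t) =
      Complex.exp ((2 * Real.pi * Complex.I * (x - n)) * t) := by
    intro t
    rw [fourier_coe_apply, smul_eq_mul, ← Complex.exp_add]
    congr 1
    rw [hT]
    push_cast
    ring
  simp_rw [e1]
  rw [hT]
  by_cases hx : x - n = 0
  · have : ((x : ℂ) - n) = 0 := by exact_mod_cast hx
    rw [this, hx]
    simp
    norm_num
  · have hxc : ((x : ℂ) - n) ≠ 0 := by exact_mod_cast hx
    have hpi : (Real.pi : ℂ) ≠ 0 := by exact_mod_cast Real.pi_ne_zero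
    rw [integral_exp_mul_complex (by simp [hxc, hpi])]
    rw [Real.sinc_of_ne_zero (by have := Real.pi_pos; positivity)]
    push_cast
    rw [Complex.sin]
    have h2 : Complex.exp (2 * Real.pi * Complex.I * (x - n) * (1 / 2)) =
        Complex.exp (Real.pi * (x - n) * Complex.I) := by congr 1; ring
    have h3 : Complex.exp (2 * Real.pi * Complex.I * (x - n) * (-(1 / 2))) =
        Complex.exp (-(Real.pi * (x - n)) * Complex.I) := by congr 1; ring
    rw [h2, h3]
    simp only [div_one, one_smul]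
    have h4 : ∀ A B y : ℂ, y ≠ 0 → (A - B) / (2 * Real.pi * Complex.I * y) =
        (B - A) * Complex.I / 2 / (Real.pi * y) := by
      intro A B y hy
      have hI : Complex.I ≠ 0 := Complex.I_ne_zero
      rw [div_div, div_eq_div_iff (by simp [hy, hpi]) (by simp [hy, hpi])]
      linear_combination (-2 * Real.pi * y * (B - A)) * Complex.I_sq
    exact h4 _ _ _ hxc

/-- **partition of unity** -/
theorem Kf_sum (x : ℝ) : HasSum (fun n : ℤ => Kf (x - n)) 1 := by
  have h : (-(1 / 2) : ℝ) < 1 / 2 := by norm_num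
  have h2 := hasSum_sq_fourierCoeffOn (f := fun t : ℝ =>
    Complex.exp (2 * Real.pi * Complex.I * x * t)) (hab := h) (by
      refine MemLp.mono_exponent (q := ⊤) ?_ le_top
      refine memLp_top_of_bound (C := 1) ?_ (ae_of_all _ fun t => ?_)
      · exact (by fun_prop : Continuous fun t : ℝ =>
          Complex.exp (2 * Real.pi * Complex.I * x * t)).aestronglyMeasurable
      · have : (2 * Real.pi * Complex.I * x * t : ℂ) = ((2 * Real.pi * x * t : ℝ) : ℂ) * Complex.I := by
          push_cast; ring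
        rw [this, Complex.norm_exp_ofReal_mul_I])
  have e1 : ∀ n : ℤ, ‖fourierCoeffOn h (fun t : ℝ =>
      Complex.exp (2 * Real.pi * Complex.I * x * t)) n‖ ^ 2 = Kf (x - n) := by
    intro n
    rw [coef, Complex.norm_real, Real.norm_eq_abs, sq_abs]
    rfl
  simp_rw [e1] at h2
  have e2 : ((1 / 2 : ℝ) - -(1 / 2))⁻¹ • ∫ t in (-(1 / 2) : ℝ)..(1 / 2),
      ‖Complex.exp (2 * Real.pi * Complex.I * x * t)‖ ^ 2 = 1 := by
    have e3 : ∀ t : ℝ, ‖Complex.exp (2 * Real.pi * Complex.I * x * t)‖ ^ 2 = 1 := by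
      intro t
      have : (2 * Real.pi * Complex.I * x * t : ℂ) = ((2 * Real.pi * x * t : ℝ) : ℂ) * Complex.I := by
        push_cast; ring
      rw [this, Complex.norm_exp_ofReal_mul_I]
      norm_num
    simp_rw [e3]
    simp
  rw [e2] at h2
  exact h2

end Pool.Agent.D0H51.AG
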