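import Pool.Agent.D0H51.AG.ThmR

/-! # The mass of the extremal function -/

set_option autoImplicit false

open MeasureTheory Set Filter Topology
open scoped FourierTransform

namespace Pool.Agent.D0H51.AG

open Pool.Agent.N804

lemma SC.refl {f : ℝ → ℝ} (H : SC f) : SC fun α => f (-α) :=
  ⟨H.sm.comp contDiff_neg, H.cs.comp_homeomorph (Homeomorph.neg ℝ)⟩

lemma CT_refl (f : ℝ → ℝ) (x : ℝ) : CT (fun α => f (-α)) x = CT f x := by
  unfold CT
  rw [← integral_neg_eq_self]
  congr 1
  funext α
  show f (- -α) * Real.cos (2 * Real.pi * -α * x) = f α * Real.cos (2 * Real.pi * α * x)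
  rw [neg_neg, show 2 * Real.pi * -α * x = -(2 * Real.pi * α * x) by ring, Real.cos_neg]

lemma CT_mass' {f : ℝ → ℝ} (H : SC f) : ∫ x, CT f x = f 0 := by
  have h1 : SC fun α => (1 / 2) * f α + (1 / 2) * f (-α) :=
    SC.add (SC.smul H _) (SC.smul (SC.refl H) _)
  have h2 := CT_mass h1 (fun x => by rw [neg_neg]; ring)
  have h3 : ∀ x, CT (fun α => (1 / 2) * f α + (1 / 2) * f (-α)) x = CT f x := by
    intro x
    rw [CT_add (SC.smul H _) (SC.smul (SC.refl H) _), CT_smul, CT_smul, CT_refl]
    ring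
  simp_rw [h3] at h2
  rw [h2, neg_zero]
  ring

lemma ST_mass (f : ℝ → ℝ) : ∫ x, ST f x = 0 := by
  have h := integral_neg_eq_self (fun x : ℝ => ST f x) volume
  simp only [ST_neg', integral_neg] at h
  linarith

/-- pure waves -/
lemma cos_orth {a δ : ℝ} (ha : δ < a) (h0 : 0 < a) :
    Orth (fun u => Real.cos (2 * Real.pi * a * u)) δ := by
  intro k hk
  have hki := hk.int
  obtain ⟨b, c, hb, hc, h1, h2, h3⟩ := hk
  have e : ∀ u, k u * Real.cos (2 * Real.pi * a * u) =
      CT (fun α => (1 / 2) * b (α + a) + (1 / 2) * b (α + -a)) u +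
        ST (fun α => (1 / 2) * c (α + a) + (1 / 2) * c (α + -a)) u := by
    intro u
    rw [CT_add (SC.smul (SC.tr hb a) _) (SC.smul (SC.tr hb (-a)) _),
      ST_add (SC.smul (SC.tr hc a) _) (SC.smul (SC.tr hc (-a)) _), CT_smul, CT_smul, ST_smul,
      ST_smul, CT_tr hb, CT_tr hb, ST_tr hc, ST_tr hc, h3,
      show 2 * Real.pi * -a * u = -(2 * Real.pi * a * u) by ring, Real.cos_neg, Real.sin_neg]
    ring
  have hB : SC (fun α => (1 / 2) * b (α + a) + (1 / 2) * b (α + -a)) :=
    SC.add (SC.smul (SC.tr hb a) _) (SC.smul (SC.tr hb (-a)) _)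
  have hC : SC (fun α => (1 / 2) * c (α + a) + (1 / 2) * c (α + -a)) :=
    SC.add (SC.smul (SC.tr hc a) _) (SC.smul (SC.tr hc (-a)) _)
  have i1 := CT_integrable hB
  have i2 : Integrable (ST (fun α => (1 / 2) * c (α + a) + (1 / 2) * c (α + -a))) := by
    have hK : InK (|a| + |δ| + 1 + 0) (ST (fun α => (1 / 2) * c (α + a) + (1 / 2) * c (α + -a))) := by
      refine ⟨fun _ => 0, _, SC.zero, hC, fun _ _ => rfl, fun α hα => ?_, fun x => by
        rw [CT_zero, zero_add]⟩
      have hz : ∀ s : ℝ, |s| = |a| → c (α + s) = 0 := by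
        intro s hs
        refine h2 _ ?_
        have := abs_sub_abs_le_abs_sub α (-s)
        rw [abs_neg, hs, sub_neg_eq_add] at this
        have := le_abs_self δ
        linarith
      show (1 / 2) * c (α + a) + (1 / 2) * c (α + -a) = 0
      rw [hz a rfl, hz (-a) (abs_neg a)]
      ring
    exact hK.int
  simp_rw [e]
  rw [integral_add i1 i2, CT_mass' hB, ST_mass, zero_add, zero_add,
    h1 a (by rw [abs_of_pos h0]; exact ha), h1 (-a) (by rw [abs_neg, abs_of_pos h0]; exact ha)]
  ring

/-- the cosine transform of the extremal function -/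
noncomputable def Gh (a : ℝ) : ℝ := ∫ u, gg u * Real.cos (2 * Real.pi * a * u)

lemma gc_int (a s : ℝ) : Integrable fun u => gg u * Real.cos (2 * Real.pi * a * (u + s)) := by
  refine Integrable.mono gg_integrable ?_ (ae_of_all _ fun p => ?_)
  · have := gg_cont
    exact (by fun_prop : Continuous fun u =>
      gg u * Real.cos (2 * Real.pi * a * (u + s))).aestronglyMeasurable
  · rw [norm_mul]
    exact mul_le_of_le_one_right (norm_nonneg _) (Real.abs_cos_le_one _)

lemma tn_cos {h A : ℝ} (hh : 0 < h) (hA : 0 < A) :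
    ∫ u, tn h u * Real.cos (A * u) = 2 * (1 - Real.cos (A * h)) / (A ^ 2 * h ^ 2) := by
  have hsupp : Function.support (fun u => tn h u * Real.cos (A * u)) ⊆ Ioc (-h) h := by
    intro u hu
    by_contra hcon
    apply hu
    show tn h u * Real.cos (A * u) = 0
    rw [tn_zero hh, zero_mul]
    by_contra h2
    push Not at h2
    rw [abs_lt] at h2
    exact hcon ⟨h2.1, h2.2.le⟩
  rw [← intervalIntegral.integral_eq_integral_of_support_subset hsupp]
  have hc : Continuous fun u => tn h u * Real.cos (A * u) := by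
    have := tn_cont h
    fun_prop
  rw [← intervalIntegral.integral_add_adjacent_intervals (a := -h) (b := 0) (c := h)
    (hc.intervalIntegrable _ _) (hc.intervalIntegrable _ _)]
  have e1 : ∫ u in (-h)..0, tn h u * Real.cos (A * u) = (1 - Real.cos (A * h)) / (A ^ 2 * h ^ 2) := by
    have h1 : ∫ u in (-h)..0, tn h u * Real.cos (A * u) =
        ∫ u in (-h)..0, (h + u) / h ^ 2 * Real.cos (A * u) := by
      refine intervalIntegral.integral_congr fun u hu => ?_
      rw [uIcc_of_le (by linarith)] at hu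
      have : tn h u = (h + u) / h ^ 2 := by
        unfold tn
        rw [abs_of_nonneg (by linarith [hu.1]), abs_of_nonpos (by linarith [hu.2] : u - h ≤ 0),
          abs_of_nonpos hu.2]
        field_simp
        ring
      show tn h u * Real.cos (A * u) = (h + u) / h ^ 2 * Real.cos (A * u)
      rw [this]
    rw [h1]
    have hd : ∀ u : ℝ, HasDerivAt (fun u => ((h + u) * Real.sin (A * u) / A +
        Real.cos (A * u) / A ^ 2) / h ^ 2) ((h + u) / h ^ 2 * Real.cos (A * u)) u := by
      intro u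
      have d1 : HasDerivAt (fun u => A * u) A u := by simpa using (hasDerivAt_id u).const_mul A
      have d2 : HasDerivAt (fun u => h + u) 1 u := by simpa using (hasDerivAt_id u).const_add h
      have d3 := (((d2.mul d1.sin).div_const A).add (d1.cos.div_const (A ^ 2))).div_const (h ^ 2)
      refine d3.congr_deriv ?_
      field_simp
      ring
    rw [intervalIntegral.integral_eq_sub_of_hasDerivAt (fun u _ => hd u)
      ((by fun_prop : Continuous fun u => (h + u) / h ^ 2 * Real.cos (A * u)).intervalIntegrable _ _)]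
    simp
    field_simp
  have e2 : ∫ u in (0 : ℝ)..h, tn h u * Real.cos (A * u) = (1 - Real.cos (A * h)) / (A ^ 2 * h ^ 2) := by
    have h1 : ∫ u in (0 : ℝ)..h, tn h u * Real.cos (A * u) =
        ∫ u in (0 : ℝ)..h, (h - u) / h ^ 2 * Real.cos (A * u) := by
      refine intervalIntegral.integral_congr fun u hu => ?_
      rw [uIcc_of_le hh.le] at hu
      have : tn h u = (h - u) / h ^ 2 := by
        unfold tn
        rw [abs_of_nonneg (by linarith [hu.1] : 0 ≤ u + h), abs_of_nonpos (by linarith [hu.2] : u - h ≤ 0),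
          abs_of_nonneg hu.1]
        field_simp
        ring
      show tn h u * Real.cos (A * u) = (h - u) / h ^ 2 * Real.cos (A * u)
      rw [this]
    rw [h1]
    have hd : ∀ u : ℝ, HasDerivAt (fun u => ((h - u) * Real.sin (A * u) / A -
        Real.cos (A * u) / A ^ 2) / h ^ 2) ((h - u) / h ^ 2 * Real.cos (A * u)) u := by
      intro u
      have d1 : HasDerivAt (fun u => A * u) A u := by simpa using (hasDerivAt_id u).const_mul A
      have d2 : HasDerivAt (fun u => h - u) (-1) u := by simpa using (hasDerivAt_id u).const_sub h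
      have d3 := (((d2.mul d1.sin).div_const A).sub (d1.cos.div_const (A ^ 2))).div_const (h ^ 2)
      refine d3.congr_deriv ?_
      field_simp
      ring
    rw [intervalIntegral.integral_eq_sub_of_hasDerivAt (fun u _ => hd u)
      ((by fun_prop : Continuous fun u => (h - u) / h ^ 2 * Real.cos (A * u)).intervalIntegrable _ _)]
    simp
    field_simp
    ring
  rw [e1, e2]
  ring

lemma Gh_eq {a : ℝ} (ha : 1 < a) : Gh a = -(1 / (4 * Real.pi ^ 2 * a ^ 2)) := by
  have hpi := Real.pi_pos
  set h : ℝ := 1 / (2 * a) with hh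
  have hh0 : 0 < h := by positivity
  have h1 := thmR (E := fun u => Real.cos (2 * Real.pi * a * u)) (K := 1) (δ := (1 + a) / 2)
    (by fun_prop) (fun u => Real.abs_cos_le_one _) (by linarith) (cos_orth (by linarith) (by linarith))
    hh0
  rw [tn_cos hh0 (by positivity)] at h1
  have hah : 2 * Real.pi * a * h = Real.pi := by rw [hh]; field_simp
  rw [hah, Real.cos_pi] at h1
  have e1 : ∫ u, dd h gg u * Real.cos (2 * Real.pi * a * u) = -(4 / h ^ 2) * Gh a := by
    have s1 : ∫ u, gg (u + h) * Real.cos (2 * Real.pi * a * u) =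
        ∫ u, gg u * Real.cos (2 * Real.pi * a * (u + -h)) := by
      rw [← integral_add_right_eq_self (fun u => gg u * Real.cos (2 * Real.pi * a * (u + -h))) h]
      congr 1
      funext u
      rw [show u + h + -h = u by ring]
    have s2 : ∫ u, gg (u - h) * Real.cos (2 * Real.pi * a * u) =
        ∫ u, gg u * Real.cos (2 * Real.pi * a * (u + h)) := by
      rw [← integral_sub_right_eq_self (fun u => gg u * Real.cos (2 * Real.pi * a * (u + h))) h]
      congr 1
      funext u
      rw [show u - h + h = u by ring]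
    have c1 : ∀ u, Real.cos (2 * Real.pi * a * (u + -h)) = -Real.cos (2 * Real.pi * a * u) := by
      intro u
      rw [mul_add, mul_neg, hah, ← sub_eq_add_neg, Real.cos_sub_pi]
    have c2 : ∀ u, Real.cos (2 * Real.pi * a * (u + h)) = -Real.cos (2 * Real.pi * a * u) := by
      intro u
      rw [mul_add, hah, Real.cos_add_pi]
    have i0 := gc_int a 0
    simp only [add_zero] at i0
    have i1 : Integrable fun u => gg (u + h) * Real.cos (2 * Real.pi * a * u) := by
      have := (gc_int a (-h)).comp_add_right h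
      refine this.congr (ae_of_all _ fun u => ?_)
      show gg (u + h) * Real.cos (2 * Real.pi * a * (u + h + -h)) = _
      rw [show u + h + -h = u by ring]
    have i2 : Integrable fun u => gg (u - h) * Real.cos (2 * Real.pi * a * u) := by
      have := (gc_int a h).comp_sub_right h
      refine this.congr (ae_of_all _ fun u => ?_)
      show gg (u - h) * Real.cos (2 * Real.pi * a * (u - h + h)) = _
      rw [show u - h + h = u by ring]
    have e2 : ∀ u, dd h gg u * Real.cos (2 * Real.pi * a * u) =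
        (1 / h ^ 2) * (gg (u + h) * Real.cos (2 * Real.pi * a * u) +
          gg (u - h) * Real.cos (2 * Real.pi * a * u) -
          2 * (gg u * Real.cos (2 * Real.pi * a * u))) := by
      intro u
      unfold dd
      ring
    simp_rw [e2]
    have i3 : Integrable fun u => gg (u + h) * Real.cos (2 * Real.pi * a * u) +
          gg (u - h) * Real.cos (2 * Real.pi * a * u) := i1.add i2
    rw [integral_const_mul, integral_sub i3 (i0.const_mul 2), integral_add i1 i2, s1, s2,
      integral_const_mul]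
    simp_rw [c1, c2, mul_neg]
    rw [integral_neg]
    unfold Gh
    ring
  rw [e1] at h1
  have h2 : Gh a = -(h ^ 2 / 4) * (2 * (1 - -1) / ((2 * Real.pi * a) ^ 2 * h ^ 2)) := by
    rw [h1]
    field_simp
  rw [h2]
  field_simp
  norm_num

lemma Gh_cont : Continuous Gh := by
  unfold Gh
  refine continuous_of_dominated (bound := fun u => |gg u|) (fun a => ?_) (fun a => ?_)
    gg_integrable.abs ?_
  · have := gg_cont
    exact (by fun_prop : Continuous fun u =>
      gg u * Real.cos (2 * Real.pi * a * u)).aestronglyMeasurable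
  · refine ae_of_all _ fun u => ?_
    rw [norm_mul]
    exact mul_le_of_le_one_right (norm_nonneg _) (Real.abs_cos_le_one _)
  · refine ae_of_all _ fun u => ?_
    fun_prop

lemma Gh_eq' {a : ℝ} (ha : 1 ≤ a) : Gh a = -(1 / (4 * Real.pi ^ 2 * a ^ 2)) := by
  rcases ha.eq_or_lt with h | h
  · have hpi := Real.pi_pos
    rw [← h]
    have h1 : Tendsto Gh (𝓝[>] 1) (𝓝 (Gh 1)) := (Gh_cont.tendsto 1).mono_left nhdsWithin_le_nhds
    have h2 : Tendsto (fun a : ℝ => -(1 / (4 * Real.pi ^ 2 * a ^ 2))) (𝓝[>] 1)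
        (𝓝 (-(1 / (4 * Real.pi ^ 2 * 1 ^ 2)))) := by
      have : ContinuousAt (fun a : ℝ => -(1 / (4 * Real.pi ^ 2 * a ^ 2))) 1 := by
        refine ContinuousAt.neg (ContinuousAt.div continuousAt_const (by fun_prop) (by positivity))
      exact this.tendsto.mono_left nhdsWithin_le_nhds
    have h3 : (fun a : ℝ => -(1 / (4 * Real.pi ^ 2 * a ^ 2))) =ᶠ[𝓝[>] 1] Gh := by
      filter_upwards [self_mem_nhdsWithin] with a ha
      exact (Gh_eq ha).symm
    exact tendsto_nhds_unique h1 (h2.congr' h3)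
  · exact Gh_eq h

lemma Gh_neg (a : ℝ) : Gh (-a) = Gh a := by
  unfold Gh
  congr 1
  funext u
  rw [show 2 * Real.pi * -a * u = -(2 * Real.pi * a * u) by ring, Real.cos_neg]

lemma gg_fourier (a : ℝ) : 𝓕 (fun x : ℝ => (gg x : ℂ)) a = (Gh a : ℂ) := by
  rw [Real.fourier_eq']
  have hi : Integrable fun v : ℝ => Complex.exp (↑(-2 * Real.pi * inner ℝ v a) * Complex.I) •
      (gg v : ℂ) := by
    refine Integrable.mono gg_integrable ?_ (ae_of_all _ fun v => ?_)
    · have := gg_cont
      exact (by fun_prop : Continuous fun v : ℝ =>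
        Complex.exp (↑(-2 * Real.pi * inner ℝ v a) * Complex.I) • (gg v : ℂ)).aestronglyMeasurable
    · rw [norm_smul, Complex.norm_exp_ofReal_mul_I, one_mul, Complex.norm_real]
  have hin : ∀ v : ℝ, -2 * Real.pi * inner ℝ v a = -(2 * Real.pi * a * v) := by
    intro v
    have : inner ℝ v a = v * a := by simp [mul_comm]
    rw [this]
    ring
  refine Complex.ext ?_ ?_
  · rw [← RCLike.re_eq_complex_re, ← integral_re hi, RCLike.re_eq_complex_re, Complex.ofReal_re]
    unfold Gh
    congr 1
    funext v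
    rw [hin, smul_eq_mul, Complex.re_mul_ofReal,
      Complex.exp_ofReal_mul_I_re, Real.cos_neg, mul_comm]
  · rw [← RCLike.im_eq_complex_im, ← integral_im hi, RCLike.im_eq_complex_im, Complex.ofReal_im]
    have e1 : ∀ v : ℝ, (Complex.exp (↑(-2 * Real.pi * inner ℝ v a) * Complex.I) •
        (gg v : ℂ)).im = -(gg v * Real.sin (2 * Real.pi * a * v)) := by
      intro v
      rw [hin, smul_eq_mul, Complex.im_mul_ofReal,
        Complex.exp_ofReal_mul_I_im, Real.sin_neg]
      ring
    simp_rw [e1]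
    rw [integral_neg, neg_eq_zero]
    have e2 := integral_neg_eq_self (fun v : ℝ => gg v * Real.sin (2 * Real.pi * a * v)) volume
    have e3 : ∀ v : ℝ, gg (-v) * Real.sin (2 * Real.pi * a * (-v)) =
        -(gg v * Real.sin (2 * Real.pi * a * v)) := by
      intro v
      rw [gg_even, mul_neg, Real.sin_neg]
      ring
    simp only [e3, integral_neg] at e2
    linarith

/-- **the mass** -/
theorem gg_mass : ∫ u, gg u = 1 / 12 := by
  have hpi := Real.pi_pos
  have h0 : Gh 0 = ∫ u, gg u := by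
    unfold Gh
    simp
  -- the values at the integers
  have hval : ∀ n : ℕ, Gh n = (if n = 0 then Gh 0 else 0) +
      (-(1 / (4 * Real.pi ^ 2))) * (1 / (n : ℝ) ^ 2) := by
    intro n
    by_cases hn : n = 0
    · rw [hn]; simp
    · rw [if_neg hn, Gh_eq' (by exact_mod_cast Nat.one_le_iff_ne_zero.2 hn)]
      have : (n : ℝ) ≠ 0 := by exact_mod_cast hn
      field_simp
      ring
  set P : ℝ := Gh 0 + (-(1 / (4 * Real.pi ^ 2))) * (Real.pi ^ 2 / 6) with hP
  have hs1 : HasSum (fun n : ℕ => Gh (((n : ℕ) : ℤ) : ℝ)) P := by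
    have h1 : HasSum (fun n : ℕ => if n = 0 then Gh 0 else 0) (Gh 0) := hasSum_ite_eq 0 (Gh 0)
    have h2 := h1.add (hasSum_zeta_two.mul_left (-(1 / (4 * Real.pi ^ 2))))
    have e : (fun n : ℕ => Gh (((n : ℕ) : ℤ) : ℝ)) = fun n : ℕ => (if n = 0 then Gh 0 else 0) +
        (-(1 / (4 * Real.pi ^ 2))) * (1 / (n : ℝ) ^ 2) := by
      funext n
      rw [Int.cast_natCast, hval n]
    rw [e]
    exact h2
  have hs2 : HasSum (fun n : ℕ => Gh ((-(n : ℤ) : ℤ) : ℝ)) P := by
    have e : (fun n : ℕ => Gh ((-(n : ℤ) : ℤ) : ℝ)) = fun n : ℕ => Gh (((n : ℕ) : ℤ) : ℝ) := by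
      funext n
      rw [Int.cast_neg, Gh_neg]
    rw [e]
    exact hs1
  have hs3 := HasSum.of_nat_of_neg (f := fun n : ℤ => Gh (n : ℝ)) hs1 hs2
  have hsum : Summable fun n : ℤ => 𝓕 (fun x : ℝ => (gg x : ℂ)) (n : ℝ) := by
    have e : (fun n : ℤ => 𝓕 (fun x : ℝ => (gg x : ℂ)) (n : ℝ)) = fun n : ℤ => ((Gh n : ℝ) : ℂ) := by
      funext n
      rw [gg_fourier]
    rw [e]
    exact Complex.hasSum_ofReal.2 hs3 |>.summable
  have hdec : Asymptotics.IsBigO (cocompact ℝ) (fun x : ℝ => (gg x : ℂ))
      fun x : ℝ => |x| ^ (-(2 : ℝ)) := by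
    refine Asymptotics.IsBigO.of_bound 1 ?_
    have h1 : ∀ᶠ x : ℝ in cocompact ℝ, 1 ≤ |x| := by
      have := tendsto_norm_cocompact_atTop (E := ℝ)
      exact this.eventually_ge_atTop 1
    filter_upwards [h1] with x hx
    have hx0 : 0 < |x| := by linarith
    rw [Complex.norm_real, Real.norm_eq_abs, abs_of_nonneg (gg_bd x).1, Real.norm_eq_abs,
      abs_of_nonneg (Real.rpow_nonneg hx0.le _), Real.rpow_neg hx0.le, one_mul]
    have h2 := gg_le x
    have h3 : |x| ^ (2 : ℝ) = x ^ 2 := by
      rw [show (2 : ℝ) = ((2 : ℕ) : ℝ) by norm_num, Real.rpow_natCast, sq_abs]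
    rw [h3]
    have hx2 : 0 < x ^ 2 := by rw [← sq_abs]; positivity
    refine h2.trans ?_
    have h4 : (1 + x ^ 2)⁻¹ ≤ (x ^ 2)⁻¹ := inv_anti₀ hx2 (by linarith)
    have h5 : 0 ≤ (1 + x ^ 2)⁻¹ := by positivity
    linarith
  have hpo := Real.tsum_eq_tsum_fourier_of_rpow_decay_of_summable
    (f := fun x : ℝ => (gg x : ℂ)) (by have := gg_cont; fun_prop) (b := 2) (by norm_num) hdec hsum 0
  have hl : ∑' n : ℤ, ((gg (0 + n) : ℝ) : ℂ) = 0 := by
    have : ∀ n : ℤ, ((gg (0 + n) : ℝ) : ℂ) = 0 := by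
      intro n
      rw [zero_add, gg_int_pt]
      simp
    simp_rw [this]
    exact tsum_zero
  have hr : ∑' n : ℤ, 𝓕 (fun x : ℝ => (gg x : ℂ)) (n : ℝ) * fourier n ((0 : ℝ) : UnitAddCircle) =
      ((P + P - Gh 0 : ℝ) : ℂ) := by
    have e : ∀ n : ℤ, 𝓕 (fun x : ℝ => (gg x : ℂ)) (n : ℝ) * fourier n ((0 : ℝ) : UnitAddCircle) =
        ((Gh n : ℝ) : ℂ) := by
      intro n
      rw [gg_fourier]
      simp
    simp_rw [e]
    rw [← Complex.ofReal_tsum, hs3.tsum_eq]
    simp
  rw [hl, hr] at hpo
  have h3 : P + P - Gh 0 = 0 := by exact_mod_cast hpo.symm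
  rw [← h0]
  have h4 : P = Gh 0 - 1 / 24 := by
    rw [hP]
    field_simp
    ring
  linarith

end Pool.Agent.D0H51.AG
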