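import Pool.Agent.D0H51.AG.GapMain

/-! # Small values of functions with a spectral gap: the measure bound -/

set_option autoImplicit false

open MeasureTheory Set Filter Topology

namespace Pool.Agent.D0H51.AG

open Pool.Agent.N804

lemma ms_E {D : ℝ → ℝ} (hD : Measurable D) (η : ℝ) : MeasurableSet {x | |D x| ≤ η} :=
  measurableSet_le (by fun_prop) measurable_const

/-- the sign pattern inequality -/
lemma pattern {D P η : ℝ} (h : -(η * |P|) ≤ P * D) (h2 : η < |D|) : η * |P| ≤ P * D := by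
  rcases le_or_gt 0 (P * D) with h0 | h0
  · rw [← abs_of_nonneg h0, abs_mul, mul_comm |P|]
    exact mul_le_mul_of_nonneg_right h2.le (abs_nonneg _)
  · exfalso
    have h1 : |P * D| = -(P * D) := abs_of_neg h0
    rw [abs_mul] at h1
    have h3 : 0 < |P| := by
      rw [abs_pos]
      rintro rfl
      simp at h0
    nlinarith

/-- the basic inequality -/
theorem basic {D : ℝ → ℝ} {K : ℝ} (G : Gap D K (3 / 5)) {η : ℝ} (hη : 0 < η) {n : ℕ} (hn : 1 ≤ n)
    {s : ℝ} {l : List ℝ} (hl : l.length ≤ 2 * n)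
    (hlm : ∀ a ∈ l, s - 24 * n ≤ a ∧ a ≤ s + 24 * n)
    (hlx : ∀ x ∈ Ioc (s - 24 * n) (s + 24 * n), -(η * |pr l x|) ≤ pr l x * D x) :
    η * (∫ x in (s - 3 * n / 2)..(s + 3 * n / 2), |pr l x * sq (1 / (24 * n)) (x - s) ^ (12 * n)|) ≤
      2 * η * ((2 * (24 * n)) ^ l.length *
        volume.real ({x | |D x| ≤ η} ∩ Ioc (s - 24 * n) (s + 24 * n))) +
      K * ((2 * (24 * n)) ^ l.length * (1 / (2 * Real.pi) ^ (12 * n)) * (2 * (24 * n * Real.pi))) := by
  have hpi := Real.pi_pos
  have hn' : (1 : ℝ) ≤ n := by exact_mod_cast hn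
  have hK : 0 ≤ K := (abs_nonneg _).trans (G.bd 0)
  set L : ℝ := 24 * n with hL
  have hL0 : 0 < L := by rw [hL]; linarith
  set m : ℕ := l.length with hm
  have hla : ∀ a ∈ l, |a - s| ≤ L := by
    intro a ha
    have := hlm a ha
    rw [abs_le]
    constructor <;> linarith
  have hN : m + 2 ≤ 12 * n := by omega
  have hint := ker_int (s := s) (N := 12 * n) hL0 hla hN
  set k : ℝ → ℝ := fun x => pr l x * sq (1 / L) (x - s) ^ (12 * n) with hk
  set I : Set ℝ := Ioc (s - L) (s + L) with hI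
  set E : Set ℝ := {x | |D x| ≤ η} with hE
  have hmE : MeasurableSet E := ms_E G.meas η
  have hmI : MeasurableSet I := measurableSet_Ioc
  have h0 : ∫ x, k x * D x = 0 := by
    refine G.orth' l s (c := 1 / L) (by positivity) ?_ hint
    rw [hL]
    push_cast
    field_simp
    norm_num
  have hkD := int_mulD G.meas G.bd hint
  have hsplit := integral_add_compl hmI hkD
  have hcompl : -(K * (((2 * L) ^ m * (1 / (2 * Real.pi) ^ (12 * n)) * (2 * (L * Real.pi))))) ≤
      ∫ x in Iᶜ, k x * D x := by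
    have e1 : ∫ x, (2 * L) ^ m * (1 / (2 * Real.pi) ^ (12 * n)) * (2 * (1 + ((x - s) / L) ^ 2)⁻¹) =
        (2 * L) ^ m * (1 / (2 * Real.pi) ^ (12 * n)) * (2 * (L * Real.pi)) := by
      rw [integral_const_mul, integral_const_mul, (poisson_int s hL0).2]
    have i1 : Integrable fun x => (2 * L) ^ m * (1 / (2 * Real.pi) ^ (12 * n)) *
        (2 * (1 + ((x - s) / L) ^ 2)⁻¹) := ((poisson_int s hL0).1.const_mul 2).const_mul _
    have e2 : ∫ x in Iᶜ, (2 * L) ^ m * (1 / (2 * Real.pi) ^ (12 * n)) *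
        (2 * (1 + ((x - s) / L) ^ 2)⁻¹) ≤
        ∫ x, (2 * L) ^ m * (1 / (2 * Real.pi) ^ (12 * n)) * (2 * (1 + ((x - s) / L) ^ 2)⁻¹) :=
      setIntegral_le_integral i1 (ae_of_all _ fun x => by positivity)
    rw [e1] at e2
    have e3 : ∫ x in Iᶜ, -(K * ((2 * L) ^ m * (1 / (2 * Real.pi) ^ (12 * n)) *
        (2 * (1 + ((x - s) / L) ^ 2)⁻¹))) ≤ ∫ x in Iᶜ, k x * D x := by
      refine setIntegral_mono_on (i1.const_mul K).neg.integrableOn hkD.integrableOn hmI.compl
        fun x hx => ?_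
      have hx2 : L ≤ |x - s| := by
        by_contra hcon
        push Not at hcon
        rw [abs_lt] at hcon
        exact hx ⟨by linarith, by linarith⟩
      have h1 := ker_far hL0 hla hN hx2
      have h2 : |k x * D x| ≤ ((2 * L) ^ m * (1 / (2 * Real.pi) ^ (12 * n)) *
          (2 * (1 + ((x - s) / L) ^ 2)⁻¹)) * K := by
        rw [abs_mul]
        exact mul_le_mul h1 (G.bd x) (abs_nonneg _) (by positivity)
      have h3 := neg_abs_le (k x * D x)
      show -(K * ((2 * L) ^ m * (1 / (2 * Real.pi) ^ (12 * n)) *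
        (2 * (1 + ((x - s) / L) ^ 2)⁻¹))) ≤ k x * D x
      linarith
    rw [integral_neg, integral_const_mul] at e3
    have := mul_le_mul_of_nonneg_left e2 hK
    linarith
  have hIk : IntegrableOn (fun x => |k x|) I := hint.abs.integrableOn
  have hmain : η * (∫ x in I, |k x|) - 2 * η * ((2 * L) ^ m * volume.real (E ∩ I)) ≤
      ∫ x in I, k x * D x := by
    have e1 : ∫ x in I, (η * |k x| - 2 * η * E.indicator (fun x => |k x|) x) ≤
        ∫ x in I, k x * D x := by
      refine setIntegral_mono_on ((hIk.const_mul η).sub ((hIk.indicator hmE).const_mul (2 * η)))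
        hkD.integrableOn hmI fun x hx => ?_
      have h1 := hlx x hx
      have hw : 0 ≤ sq (1 / L) (x - s) ^ (12 * n) := by
        rw [show 12 * n = 2 * (6 * n) by ring, pow_mul]
        positivity
      have hka : |k x| = |pr l x| * sq (1 / L) (x - s) ^ (12 * n) := by
        show |pr l x * sq (1 / L) (x - s) ^ (12 * n)| = _
        rw [abs_mul, abs_of_nonneg hw]
      by_cases hxE : x ∈ E
      · rw [indicator_of_mem hxE]
        have h2 := mul_le_mul_of_nonneg_right h1 hw
        show η * |k x| - 2 * η * |k x| ≤ pr l x * sq (1 / L) (x - s) ^ (12 * n) * D x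
        rw [hka]
        linarith
      · rw [indicator_of_notMem hxE]
        have h3 : η < |D x| := not_le.1 hxE
        have h2 := mul_le_mul_of_nonneg_right (pattern h1 h3) hw
        show η * |k x| - 2 * η * 0 ≤ pr l x * sq (1 / L) (x - s) ^ (12 * n) * D x
        rw [hka]
        linarith
    rw [integral_sub (hIk.const_mul η) ((hIk.indicator hmE).const_mul (2 * η)),
      integral_const_mul, integral_const_mul, setIntegral_indicator hmE] at e1
    have e2 : ∫ x in I ∩ E, |k x| ≤ (2 * L) ^ m * volume.real (E ∩ I) := by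
      have hfin : volume (I ∩ E) ≠ ⊤ := measure_ne_top_of_subset inter_subset_left
        (by rw [hI, Real.volume_Ioc]; exact ENNReal.ofReal_ne_top)
      have e3 : ∫ x in I ∩ E, |k x| ≤ ∫ x in I ∩ E, (2 * L) ^ m := by
        refine setIntegral_mono_on (hint.abs.integrableOn) (integrableOn_const hfin)
          (hmI.inter hmE) fun x hx => ?_
        refine ker_near hla ?_
        rw [abs_le]
        constructor <;> linarith [hx.1.1, hx.1.2]
      rw [setIntegral_const, smul_eq_mul, inter_comm] at e3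
      rw [inter_comm]
      linarith
    have := mul_le_mul_of_nonneg_left e2 (show 0 ≤ 2 * η by linarith)
    linarith
  have hsub : ∫ x in (s - 3 * n / 2)..(s + 3 * n / 2), |k x| ≤ ∫ x in I, |k x| := by
    rw [intervalIntegral.integral_of_le (by linarith)]
    refine setIntegral_mono_set hIk (ae_of_all _ fun x => abs_nonneg _) ?_
    refine LE.le.eventuallyLE ?_
    exact Ioc_subset_Ioc (by rw [hL]; linarith) (by rw [hL]; linarith)
  have := mul_le_mul_of_nonneg_left hsub hη.le
  linarith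

/-- lower bound for the main part -/
lemma main_lower {n : ℕ} (hn : 1 ≤ n) (s : ℝ) (l : List ℝ) :
    (96 / 100 : ℝ) ^ (12 * n) * (3 * n * Real.exp (l.length * (Real.log (3 * n / 2) - 1))) ≤
      ∫ x in (s - 3 * n / 2)..(s + 3 * n / 2), |pr l x * sq (1 / (24 * n)) (x - s) ^ (12 * n)| := by
  have hpi := Real.pi_pos
  have hn' : (1 : ℝ) ≤ n := by exact_mod_cast hn
  have h1 := pr_mean l (p := s - 3 * n / 2) (q := s + 3 * n / 2) (by linarith)
  have e : s + 3 * (n : ℝ) / 2 - (s - 3 * n / 2) = 3 * n := by ring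
  rw [e] at h1
  have h2 : (96 / 100 : ℝ) ^ (12 * n) * (∫ x in (s - 3 * n / 2)..(s + 3 * n / 2), |pr l x|) ≤
      ∫ x in (s - 3 * n / 2)..(s + 3 * n / 2), |pr l x * sq (1 / (24 * n)) (x - s) ^ (12 * n)| := by
    rw [← intervalIntegral.integral_const_mul]
    refine intervalIntegral.integral_mono_on (by linarith)
      (((pr_cont l).abs.const_mul _).intervalIntegrable _ _)
      ((((pr_cont l).mul (((sq_cont _).comp (by fun_prop)).pow _)).abs).intervalIntegrable _ _)
      fun x hx => ?_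
    rw [abs_mul, abs_pow, mul_comm]
    refine mul_le_mul_of_nonneg_left (pow_le_pow_left₀ (by norm_num) ?_ _) (abs_nonneg _)
    refine le_trans (sinc_ge ?_) (le_abs_self _)
    have h3 : |x - s| ≤ 3 * n / 2 := by rw [abs_le]; constructor <;> linarith [hx.1, hx.2]
    rw [abs_mul, abs_of_pos (by positivity)]
    have h4 : 2 * Real.pi * (1 / (24 * n)) * |x - s| ≤ 2 * Real.pi * (1 / (24 * n)) * (3 * n / 2) := by
      gcongr
    refine h4.trans (le_of_eq ?_)
    field_simp
    norm_num
  refine le_trans ?_ h2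
  exact mul_le_mul_of_nonneg_left h1 (by positivity)

lemma num1 : (6 : ℝ) ^ 12 ≤ (2 * Real.pi * (96 / 100)) ^ 12 := by
  have := Real.pi_gt_d2
  exact pow_le_pow_left₀ (by norm_num) (by linarith) 12

/-- comparison of the sizes -/
lemma PQ {n : ℕ} (hn : 1 ≤ n) {m : ℕ} (hm : m ≤ 2 * n) :
    (2 * (24 * (n : ℝ))) ^ m ≤ 7569 ^ n * Real.exp (m * (Real.log (3 * n / 2) - 1)) := by
  have hn' : (1 : ℝ) ≤ n := by exact_mod_cast hn
  have e1 : Real.exp (m * (Real.log (3 * n / 2) - 1)) = (3 * n / 2 * Real.exp (-1)) ^ m := by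
    rw [mul_comm, Real.exp_mul, Real.rpow_natCast, sub_eq_add_neg, Real.exp_add,
      Real.exp_log (by positivity)]
  rw [e1]
  have h1 : (2 * (24 * (n : ℝ))) ≤ 87 * (3 * n / 2 * Real.exp (-1)) := by
    have h2 : Real.exp 1 ≤ 87 / 32 := by
      have := Real.exp_one_lt_d9
      linarith
    have h3 : (32 : ℝ) / 87 ≤ Real.exp (-1) := by
      rw [Real.exp_neg]
      rw [show (32 : ℝ) / 87 = (87 / 32)⁻¹ by norm_num]
      exact inv_anti₀ (Real.exp_pos 1) h2
    nlinarith
  calc (2 * (24 * (n : ℝ))) ^ m ≤ (87 * (3 * n / 2 * Real.exp (-1))) ^ m := by gcongr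
    _ = 87 ^ m * (3 * n / 2 * Real.exp (-1)) ^ m := mul_pow _ _ _
    _ ≤ 87 ^ (2 * n) * (3 * n / 2 * Real.exp (-1)) ^ m := by
        gcongr
        norm_num
    _ = _ := by rw [pow_mul]; norm_num

/-- the measure of the set of small values on one interval -/
theorem one {D : ℝ → ℝ} {K : ℝ} (G : Gap D K (3 / 5)) {η : ℝ} (hη : 0 < η) {n : ℕ} (hn : 1 ≤ n)
    (hnK : 128 * K ≤ η * 100000 ^ n) (s : ℝ) :
    min (2 * η * n) (3 * n / 4 * (1 / 100000 ^ n)) ≤
      volume.real ({x | |D x| ≤ η} ∩ Ioc (s - 24 * n) (s + 24 * n)) := by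
  have hpi := Real.pi_pos
  have hn' : (1 : ℝ) ≤ n := by exact_mod_cast hn
  have hfin : volume ({x | |D x| ≤ η} ∩ Ioc (s - 24 * n) (s + 24 * n)) ≠ ⊤ :=
    measure_ne_top_of_subset inter_subset_right
      (by rw [Real.volume_Ioc]; exact ENNReal.ofReal_ne_top)
  rcases alt G.meas G.lip hη.le n (p := s - 24 * n) (q := s + 24 * n) (by linarith) with
    ⟨l, h1, h2, h3⟩ | h
  · refine (min_le_right _ _).trans ?_
    set V : ℝ := volume.real ({x | |D x| ≤ η} ∩ Ioc (s - 24 * n) (s + 24 * n)) with hV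
    have hV0 : 0 ≤ V := measureReal_nonneg
    have hb := basic G hη hn h1 h2 h3
    have hm := main_lower hn s l
    have hp := PQ hn h1
    set Q : ℝ := Real.exp (l.length * (Real.log (3 * n / 2) - 1)) with hQ
    have hQ0 : 0 < Q := Real.exp_pos _
    set P : ℝ := (2 * (24 * (n : ℝ))) ^ l.length with hP
    have hP0 : 0 < P := by rw [hP]; positivity
    have hK : 0 ≤ K := (abs_nonneg _).trans (G.bd 0)
    have hb2 : η * ((96 / 100 : ℝ) ^ (12 * n) * (3 * n * Q)) ≤ 2 * η * (P * V) +
        K * (P * (1 / (2 * Real.pi) ^ (12 * n)) * (2 * (24 * n * Real.pi))) :=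
      (mul_le_mul_of_nonneg_left hm hη.le).trans hb
    set r : ℝ := (96 / 100 : ℝ) ^ (12 * n) with hr
    have hr0 : 0 < r := by rw [hr]; positivity
    -- the tail
    have ht : P * (1 / (2 * Real.pi) ^ (12 * n)) * (2 * (24 * n * Real.pi)) ≤
        64 * (r * (3 * n * Q)) * (1 / 100000 ^ n) := by
      have h4 : (7569 : ℝ) ^ n * 100000 ^ n ≤ (2 * Real.pi) ^ (12 * n) * r := by
        rw [hr, ← mul_pow, ← mul_pow, pow_mul]
        exact pow_le_pow_left₀ (by norm_num) (le_trans (by norm_num) num1) n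
      have hpi4 : Real.pi ≤ 4 := Real.pi_le_four
      have h5 : P * (2 * (24 * n * Real.pi)) * 100000 ^ n ≤
          64 * (r * (3 * n * Q)) * (2 * Real.pi) ^ (12 * n) := by
        calc P * (2 * (24 * n * Real.pi)) * 100000 ^ n
            ≤ (7569 ^ n * Q) * (2 * (24 * n * 4)) * 100000 ^ n := by gcongr
          _ = 192 * n * Q * (7569 ^ n * 100000 ^ n) := by ring
          _ ≤ 192 * n * Q * ((2 * Real.pi) ^ (12 * n) * r) := by gcongr
          _ = _ := by ring
      have e1 : P * (1 / (2 * Real.pi) ^ (12 * n)) * (2 * (24 * n * Real.pi)) =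
          (P * (2 * (24 * n * Real.pi))) / (2 * Real.pi) ^ (12 * n) := by ring
      have e2 : 64 * (r * (3 * n * Q)) * (1 / 100000 ^ n) =
          (64 * (r * (3 * n * Q))) / 100000 ^ n := by ring
      rw [e1, e2, div_le_div_iff₀ (by positivity) (by positivity)]
      exact h5
    have ht2 : K * (P * (1 / (2 * Real.pi) ^ (12 * n)) * (2 * (24 * n * Real.pi))) ≤
        η / 2 * (r * (3 * n * Q)) := by
      have hden : (0 : ℝ) < 100000 ^ n := by positivity
      calc K * (P * (1 / (2 * Real.pi) ^ (12 * n)) * (2 * (24 * n * Real.pi)))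
          ≤ K * (64 * (r * (3 * n * Q)) * (1 / 100000 ^ n)) := mul_le_mul_of_nonneg_left ht hK
        _ = (128 * K) * ((r * (3 * n * Q)) * (1 / 100000 ^ n)) / 2 := by ring
        _ ≤ (η * 100000 ^ n) * ((r * (3 * n * Q)) * (1 / 100000 ^ n)) / 2 := by gcongr
        _ = _ := by field_simp
    have h6 : η / 2 * (r * (3 * n * Q)) ≤ 2 * η * (P * V) := by linarith
    have h7 : r * (3 * n * Q) ≤ 4 * (P * V) := by
      have h8 : η / 2 * (r * (3 * n * Q)) ≤ η / 2 * (4 * (P * V)) := by linarith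
      exact le_of_mul_le_mul_left h8 (by linarith)
    have h9 : r * (3 * n * Q) ≤ 4 * ((7569 ^ n * Q) * V) := by
      refine h7.trans ?_
      gcongr
    have h10 : r * (3 * n) ≤ 4 * (7569 ^ n * V) := by
      have : r * (3 * n) * Q ≤ 4 * (7569 ^ n * V) * Q := by linarith
      exact le_of_mul_le_mul_right this hQ0
    have h11 : (7569 : ℝ) ^ n ≤ r * 100000 ^ n := by
      rw [hr, pow_mul, ← mul_pow]
      exact pow_le_pow_left₀ (by norm_num) (by norm_num) n
    have h12 : r * (3 * n) ≤ 4 * (r * 100000 ^ n * V) := by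
      refine h10.trans ?_
      gcongr
    have h13 : 3 * (n : ℝ) ≤ 4 * (100000 ^ n * V) := by
      have : r * (3 * n) ≤ r * (4 * (100000 ^ n * V)) := by linarith
      exact le_of_mul_le_mul_left this hr0
    rw [mul_one_div, div_le_iff₀ (by positivity)]
    linarith
  · refine (min_le_left _ _).trans ?_
    have h1 : ENNReal.ofReal (n * (2 * η)) ≤
        volume ({x | |D x| ≤ η} ∩ Ioc (s - 24 * n) (s + 24 * n)) := by
      rw [ENNReal.ofReal_mul (by positivity), ENNReal.ofReal_natCast]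
      exact h
    rw [measureReal_def]
    have h2 := ENNReal.toReal_mono hfin h1
    rw [ENNReal.toReal_ofReal (by positivity)] at h2
    linarith

/-- choice of the length -/
lemma choose_n {K : ℝ} (hK : 1 ≤ K) {η : ℝ} (hη : 0 < η) (hη1 : η ≤ 1) : ∃ n : ℕ, 1 ≤ n ∧
    128 * K ≤ η * 100000 ^ n ∧ η / (12800000 * K) ≤ 1 / 100000 ^ n ∧
    (n : ℝ) ≤ 1 + Real.log (128 * K / η) := by
  have hx : (1 : ℝ) ≤ 128 * K / η := by
    rw [le_div_iff₀ hη]
    linarith
  obtain ⟨n, h1, h2⟩ := exists_nat_pow_near hx (show (1 : ℝ) < 100000 by norm_num)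
  refine ⟨n + 1, by omega, ?_, ?_, ?_⟩
  · rw [div_lt_iff₀ hη] at h2
    linarith
  · rw [le_div_iff₀ hη] at h1
    rw [div_le_div_iff₀ (by positivity) (by positivity), pow_succ]
    nlinarith
  · push_cast
    have h3 : Real.log (100000 ^ n) ≤ Real.log (128 * K / η) := Real.log_le_log (by positivity) h1
    rw [Real.log_pow] at h3
    have h4 : (1 : ℝ) ≤ Real.log 100000 := by
      rw [Real.le_log_iff_exp_le (by norm_num)]
      have := Real.exp_one_lt_d9
      linarith
    have h5 : (0 : ℝ) ≤ n := Nat.cast_nonneg n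
    nlinarith

end Pool.Agent.D0H51.AG
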