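import Pool.Agent.D0H51.AG.GapM2

/-! # Small values of functions with a spectral gap: long intervals -/

set_option autoImplicit false

open MeasureTheory Set Filter Topology

namespace Pool.Agent.D0H51.AG

open Pool.Agent.N804

lemma fin_I (E : Set ℝ) (a b : ℝ) : volume (E ∩ Ioc a b) ≠ ⊤ :=
  measure_ne_top_of_subset inter_subset_right
    (by rw [Real.volume_Ioc]; exact ENNReal.ofReal_ne_top)

/-- adding up over consecutive intervals -/
lemma tile {E : Set ℝ} (hE : MeasurableSet E) {ℓ v : ℝ} (hℓ : 0 ≤ ℓ)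
    (h : ∀ x, v ≤ volume.real (E ∩ Ioc x (x + ℓ))) (x : ℝ) (q : ℕ) :
    q * v ≤ volume.real (E ∩ Ioc x (x + q * ℓ)) := by
  induction q with
  | zero => simp
  | succ q ih =>
    have h1 := h (x + q * ℓ)
    have hq : 0 ≤ (q : ℝ) * ℓ := by positivity
    have hu : E ∩ Ioc x (x + (q + 1 : ℕ) * ℓ) = (E ∩ Ioc x (x + q * ℓ)) ∪
        (E ∩ Ioc (x + q * ℓ) (x + q * ℓ + ℓ)) := by
      rw [← inter_union_distrib_left, Ioc_union_Ioc_eq_Ioc (by linarith) (by linarith)]
      congr 2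
      push_cast
      ring
    have hd : Disjoint (E ∩ Ioc x (x + q * ℓ)) (E ∩ Ioc (x + q * ℓ) (x + q * ℓ + ℓ)) := by
      rw [Set.disjoint_left]
      intro y hy hy2
      exact absurd hy.2.2 (not_le.2 hy2.2.1)
    rw [hu, measureReal_union hd (hE.inter measurableSet_Ioc) (fin_I _ _ _) (fin_I _ _ _)]
    push_cast
    linarith

/-- the number of pieces -/
lemma tile2 {E : Set ℝ} (hE : MeasurableSet E) {ℓ v : ℝ} (hℓ : 0 < ℓ) (hv : 0 ≤ v)
    (h : ∀ x, v ≤ volume.real (E ∩ Ioc x (x + ℓ))) (x : ℝ) {R : ℝ} (hR : ℓ ≤ R) :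
    R / (2 * ℓ) * v ≤ volume.real (E ∩ Ioc x (x + R)) := by
  set q : ℕ := ⌊R / ℓ⌋₊ with hq
  have h1 : (1 : ℝ) ≤ R / ℓ := by rw [le_div_iff₀ hℓ]; linarith
  have h2 : (q : ℝ) ≤ R / ℓ := Nat.floor_le (by linarith)
  have h3 : R / ℓ < q + 1 := Nat.lt_floor_add_one _
  have h4 : 1 ≤ q := by
    rw [hq, Nat.one_le_floor_iff]
    exact h1
  have h4' : (1 : ℝ) ≤ q := by exact_mod_cast h4
  have h5 : R / (2 * ℓ) ≤ q := by
    rw [show R / (2 * ℓ) = R / ℓ / 2 by field_simp]
    linarith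
  have h6 := tile hE hℓ.le h x q
  have h7 : (q : ℝ) * ℓ ≤ R := by rwa [le_div_iff₀ hℓ] at h2
  have h8 : volume.real (E ∩ Ioc x (x + q * ℓ)) ≤ volume.real (E ∩ Ioc x (x + R)) :=
    measureReal_mono (inter_subset_inter_right _ (Ioc_subset_Ioc_right (by linarith)))
      (fin_I _ _ _)
  calc R / (2 * ℓ) * v ≤ q * v := mul_le_mul_of_nonneg_right h5 hv
    _ ≤ _ := h6.trans h8

/-- small values of a function with a spectral gap -/
theorem gap_small {K : ℝ} (hK : 1 ≤ K) : ∃ c C : ℝ, 0 < c ∧ 0 < C ∧ ∀ D : ℝ → ℝ, Gap D K (3 / 5) →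
    ∀ η : ℝ, 0 < η → η ≤ 1 → ∀ R : ℝ, C * Real.log (2 / η) ≤ R → ∀ x : ℝ,
      c * η * R ≤ volume.real ({x | |D x| ≤ η} ∩ Ioc x (x + R)) := by
  have hlog2 : (0 : ℝ) < Real.log 2 := Real.log_pos (by norm_num)
  have hlogK : 0 ≤ Real.log (128 * K) := Real.log_nonneg (by linarith)
  refine ⟨3 / (4 * (12800000 * K)) / 96, 48 * ((1 + Real.log (128 * K)) / Real.log 2 + 1),
    by positivity, by positivity, fun D G η hη hη1 R hR x => ?_⟩
  obtain ⟨n, hn, hn1, hn2, hn3⟩ := choose_n hK hη hη1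
  have hn' : (1 : ℝ) ≤ n := by exact_mod_cast hn
  have hL : Real.log 2 ≤ Real.log (2 / η) := by
    refine Real.log_le_log (by norm_num) ?_
    rw [le_div_iff₀ hη]
    linarith
  have h1 : (n : ℝ) ≤ ((1 + Real.log (128 * K)) / Real.log 2 + 1) * Real.log (2 / η) := by
    have e1 : Real.log (128 * K / η) ≤ Real.log (128 * K) + Real.log (2 / η) := by
      rw [Real.log_div (by positivity) hη.ne', Real.log_div (by norm_num) hη.ne']
      linarith
    have e2 : 1 + Real.log (128 * K) ≤ (1 + Real.log (128 * K)) / Real.log 2 * Real.log (2 / η) := by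
      rw [div_mul_eq_mul_div, le_div_iff₀ hlog2]
      exact mul_le_mul_of_nonneg_left hL (by linarith)
    linarith
  have h2 : 48 * (n : ℝ) ≤ R := by
    refine le_trans ?_ hR
    linarith
  set v : ℝ := 3 / (4 * (12800000 * K)) * η * n with hv
  have h3 : ∀ y, v ≤ volume.real ({x | |D x| ≤ η} ∩ Ioc y (y + 48 * n)) := by
    intro y
    have := one G hη hn hn1 (y + 24 * n)
    have e1 : y + 24 * (n : ℝ) - 24 * n = y := by ring
    have e2 : y + 24 * (n : ℝ) + 24 * n = y + 48 * n := by ring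
    rw [e1, e2] at this
    refine le_trans (le_min ?_ ?_) this
    · rw [hv]
      have : 3 / (4 * (12800000 * K)) ≤ 2 := by
        rw [div_le_iff₀ (by positivity)]
        linarith
      have h4 : 0 ≤ η * n := by positivity
      nlinarith
    · rw [hv]
      calc 3 / (4 * (12800000 * K)) * η * n = 3 * n / 4 * (η / (12800000 * K)) := by
            field_simp
        _ ≤ _ := by gcongr
  have h4 := tile2 (ms_E G.meas η) (by positivity) (by rw [hv]; positivity) h3 x h2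
  refine le_trans (le_of_eq ?_) h4
  rw [hv]
  field_simp
  ring

end Pool.Agent.D0H51.AG
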