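import Pool.Agent.D0H51.AG.Chain

/-! # A lower bound for the mean of a polynomial and bounds for the sine quotient -/

set_option autoImplicit false

open MeasureTheory Set Filter Topology

namespace Pool.Agent.D0H51.AG

/-- `t log t` on the half line is superadditive -/
lemma mul_log_add {u v : ℝ} (hu : 0 ≤ u) (hv : 0 ≤ v) :
    u * Real.log u + v * Real.log v ≤ (u + v) * Real.log (u + v) := by
  rcases hu.eq_or_lt with h | h
  · rw [← h]; simp
  rcases hv.eq_or_lt with h' | h'
  · rw [← h']; simp
  have h1 : Real.log u ≤ Real.log (u + v) := Real.log_le_log h (by linarith)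
  have h2 : Real.log v ≤ Real.log (u + v) := Real.log_le_log h' (by linarith)
  nlinarith

/-- `t log t` is convex: the sum at `h + a`, `h - a` -/
lemma mul_log_mid {a h : ℝ} (hh : 0 < h) (h1 : 0 ≤ h - a) (h2 : 0 ≤ h + a) :
    2 * (h * Real.log h) ≤ (h + a) * Real.log (h + a) + (h - a) * Real.log (h - a) := by
  have key : ∀ u : ℝ, 0 ≤ u → u * Real.log h + (u - h) ≤ u * Real.log u := by
    intro u hu
    rcases hu.eq_or_lt with h0 | h0
    · rw [← h0]; simp; exact hh.le
    have h3 : Real.log (h / u) ≤ h / u - 1 := Real.log_le_sub_one_of_pos (by positivity)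
    rw [Real.log_div hh.ne' h0.ne'] at h3
    have h4 := mul_le_mul_of_nonneg_left h3 h0.le
    have h5 : u * (h / u - 1) = h - u := by field_simp
    rw [h5] at h4
    linarith
  have k1 := key (h + a) h2
  have k2 := key (h - a) h1
  linarith

lemma log_int (a p q : ℝ) : ∫ x in p..q, Real.log (a - x) =
    (a - p) * Real.log (a - p) - (a - q) * Real.log (a - q) - (q - p) := by
  rw [intervalIntegral.integral_comp_sub_left (fun x => Real.log x), integral_log]
  ring

lemma log_int_ge (a : ℝ) {p q : ℝ} (hpq : p < q) :
    (q - p) * (Real.log ((q - p) / 2) - 1) ≤ ∫ x in p..q, Real.log (a - x) := by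
  rw [log_int]
  set h : ℝ := (q - p) / 2 with hh
  have h0 : 0 < h := by rw [hh]; linarith
  have e : q - p = 2 * h := by rw [hh]; ring
  rw [e]
  suffices H : 2 * (h * Real.log h) ≤ (a - p) * Real.log (a - p) - (a - q) * Real.log (a - q) by
    linarith
  have hlog : 2 * (h * Real.log h) ≤ 2 * h * Real.log (2 * h) := by
    have := Real.log_le_log h0 (by linarith : h ≤ 2 * h)
    nlinarith
  rcases lt_or_ge a p with ha | ha
  · have h1 := mul_log_add (u := p - a) (v := 2 * h) (by linarith) (by linarith)
    have e1 : p - a + 2 * h = q - a := by rw [← e]; ring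
    rw [e1] at h1
    have e2 : Real.log (a - p) = Real.log (p - a) := by rw [← Real.log_neg_eq_log]; ring_nf
    have e3 : Real.log (a - q) = Real.log (q - a) := by rw [← Real.log_neg_eq_log]; ring_nf
    rw [e2, e3]
    linarith
  rcases le_or_gt a q with hb | hb
  · set m : ℝ := a - (p + q) / 2 with hm
    have h1 := mul_log_mid (a := m) h0 (by rw [hh, hm]; linarith) (by rw [hh, hm]; linarith)
    have e1 : h + m = a - p := by rw [hh, hm]; ring
    have e2 : h - m = q - a := by rw [hh, hm]; ring
    rw [e1, e2] at h1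
    have e3 : Real.log (a - q) = Real.log (q - a) := by rw [← Real.log_neg_eq_log]; ring_nf
    rw [e3]
    linarith
  · have h1 := mul_log_add (u := a - q) (v := 2 * h) (by linarith) (by linarith)
    have e1 : a - q + 2 * h = a - p := by rw [← e]; ring
    rw [e1] at h1
    linarith

lemma log_intInt (a p q : ℝ) : IntervalIntegrable (fun x => Real.log (a - x)) volume p q := by
  have h := (intervalIntegral.intervalIntegrable_log' (a := a - p) (b := a - q)).comp_sub_left a
  simpa using h

/-- sum of the logarithms -/
noncomputable def lg (l : List ℝ) (x : ℝ) : ℝ := (l.map fun a => Real.log (a - x)).sum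

lemma lg_int (l : List ℝ) {p q : ℝ} (hpq : p < q) : IntervalIntegrable (lg l) volume p q ∧
    (q - p) * (l.length * (Real.log ((q - p) / 2) - 1)) ≤ ∫ x in p..q, lg l x := by
  induction l with
  | nil =>
    have e : lg [] = fun _ => (0 : ℝ) := by funext x; simp [lg]
    rw [e]
    exact ⟨intervalIntegrable_const, by simp⟩
  | cons a l ih =>
    have e : lg (a :: l) = fun x => Real.log (a - x) + lg l x := by
      funext x; simp [lg]
    rw [e]
    refine ⟨(log_intInt a p q).add ih.1, ?_⟩
    rw [intervalIntegral.integral_add (log_intInt a p q) ih.1]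
    have h1 := log_int_ge a hpq
    have h2 := ih.2
    rw [List.length_cons]
    push_cast
    nlinarith

lemma lg_eq {l : List ℝ} {x : ℝ} (h : ∀ a ∈ l, a - x ≠ 0) : lg l x = Real.log |pr l x| := by
  induction l with
  | nil => simp [lg, pr]
  | cons a l ih =>
    have e : lg (a :: l) x = Real.log (a - x) + lg l x := by simp [lg]
    rw [e, pr_cons, ih fun b hb => h b (List.mem_cons_of_mem _ hb), abs_mul]
    have h1 : a - x ≠ 0 := h a List.mem_cons_self
    have h2 : pr l x ≠ 0 := by
      unfold pr
      rw [Ne, List.prod_eq_zero_iff]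
      intro hcon
      obtain ⟨b, hb, hb2⟩ := List.mem_map.1 hcon
      exact h b (List.mem_cons_of_mem _ hb) hb2
    rw [Real.log_mul (abs_ne_zero.2 h1) (abs_ne_zero.2 h2), Real.log_abs, Real.log_abs]

lemma pr_cont (l : List ℝ) : Continuous (pr l) := by
  induction l with
  | nil => have : pr [] = fun _ => (1 : ℝ) := by funext x; simp [pr]
           rw [this]; exact continuous_const
  | cons a l ih =>
    have : pr (a :: l) = fun x => (a - x) * pr l x := by funext x; rw [pr_cons]
    rw [this]
    fun_prop

lemma pr_ne_zero {l : List ℝ} {x : ℝ} (h : ∀ a ∈ l, a - x ≠ 0) : pr l x ≠ 0 := by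
  unfold pr
  rw [Ne, List.prod_eq_zero_iff]
  intro hcon
  obtain ⟨b, hb, hb2⟩ := List.mem_map.1 hcon
  exact h b hb hb2

lemma ae_ne (l : List ℝ) : ∀ᵐ x : ℝ, ∀ a ∈ l, a - x ≠ 0 := by
  induction l with
  | nil => simp
  | cons a l ih =>
    have h1 : ∀ᵐ x : ℝ, x ≠ a := by
      have := (measure_singleton (μ := (volume : Measure ℝ)) a)
      rw [ae_iff]
      simp
    filter_upwards [ih, h1] with x hx hxa b hb
    rcases List.mem_cons.1 hb with h | h
    · rw [h]
      exact sub_ne_zero.2 (Ne.symm hxa)
    · exact hx b h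

/-- the mean of a polynomial with real roots -/
theorem pr_mean (l : List ℝ) {p q : ℝ} (hpq : p < q) :
    (q - p) * Real.exp (l.length * (Real.log ((q - p) / 2) - 1)) ≤ ∫ x in p..q, |pr l x| := by
  set v : ℝ := l.length * (Real.log ((q - p) / 2) - 1) with hv
  obtain ⟨h1, h2⟩ := lg_int l hpq
  have h3 : ∫ x in p..q, Real.exp v * (1 + (lg l x - v)) ≤ ∫ x in p..q, |pr l x| := by
    refine intervalIntegral.integral_mono_ae hpq.le ?_ ((pr_cont l).abs.intervalIntegrable _ _) ?_
    · exact ((intervalIntegrable_const).add (h1.sub intervalIntegrable_const)).const_mul _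
    · filter_upwards [ae_ne l] with x hx
      have h4 : |pr l x| = Real.exp (lg l x) := by
        rw [lg_eq hx, Real.exp_log (abs_pos.2 (pr_ne_zero hx))]
      show Real.exp v * (1 + (lg l x - v)) ≤ |pr l x|
      rw [h4]
      have h5 := Real.add_one_le_exp (lg l x - v)
      calc Real.exp v * (1 + (lg l x - v)) ≤ Real.exp v * Real.exp (lg l x - v) := by
            refine mul_le_mul_of_nonneg_left (by linarith) (Real.exp_pos v).le
        _ = Real.exp (lg l x) := by rw [← Real.exp_add]; ring_nf
  have h6 : ∫ x in p..q, Real.exp v * (1 + (lg l x - v)) =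
      Real.exp v * ((q - p) + ((∫ x in p..q, lg l x) - (q - p) * v)) := by
    rw [intervalIntegral.integral_const_mul, intervalIntegral.integral_add
      intervalIntegrable_const (h1.sub intervalIntegrable_const), intervalIntegral.integral_sub h1
      intervalIntegrable_const]
    simp
  rw [h6] at h3
  refine le_trans ?_ h3
  have h7 : 0 ≤ (∫ x in p..q, lg l x) - (q - p) * v := by linarith
  have := mul_nonneg (Real.exp_pos v).le h7
  nlinarith

/-- upper bound for the product -/
lemma pr_le (l : List ℝ) {s L x M : ℝ} (hl : ∀ a ∈ l, |a - s| ≤ L) (hx : |x - s| + L ≤ M) :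
    |pr l x| ≤ M ^ l.length := by
  have hM : 0 ≤ M ∨ l = [] := by
    rcases l with _ | ⟨a, l⟩
    · right; rfl
    · left
      have := hl a List.mem_cons_self
      have h2 := abs_nonneg (a - s)
      have h3 := abs_nonneg (x - s)
      linarith
  rcases hM with hM | hM
  · induction l with
    | nil => simp [pr]
    | cons a l ih =>
      rw [pr_cons, List.length_cons, pow_succ, abs_mul, mul_comm]
      refine mul_le_mul (ih fun b hb => hl b (List.mem_cons_of_mem _ hb)) ?_ (abs_nonneg _)
        (by positivity)
      have h1 := hl a List.mem_cons_self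
      have h2 : |a - x| ≤ |a - s| + |x - s| := by
        have := abs_sub_le a s x
        rwa [abs_sub_comm s x] at this
      linarith
  · rw [hM]; simp [pr]

/-- lower bound for the sine quotient -/
lemma sinc_ge {u : ℝ} (hu : |u| ≤ Real.pi / 8) : (96 : ℝ) / 100 ≤ Real.sinc u := by
  wlog h0 : 0 ≤ u generalizing u
  · have := this (u := -u) (by rwa [abs_neg]) (by linarith)
    rwa [Real.sinc_neg] at this
  rcases h0.eq_or_lt with h | h
  · rw [← h, Real.sinc_zero]; norm_num
  rw [Real.sinc_of_ne_zero h.ne', le_div_iff₀ h]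
  have h1 := Real.sin_gt_sub_cube h
  have h2 : u ≤ 2 / 5 := by
    have := Real.pi_lt_d2
    rw [abs_of_pos h] at hu
    linarith
  nlinarith [mul_pos h h, mul_pos (mul_pos h h) h]

end Pool.Agent.D0H51.AG
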