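import Pool.Agent.D0H51.AG.Ker
import Pool.Agent.D0H51.AG.Poly

/-! # Small values of functions with a spectral gap -/

set_option autoImplicit false

open MeasureTheory Set Filter Topology

namespace Pool.Agent.D0H51.AG

open Pool.Agent.N804

/-- a mollifier -/
lemma moll : ∃ b : ℝ → ℝ, SC b ∧ (∀ α, 1 / 10 < |α| → b α = 0) ∧ (∀ α, 0 ≤ b α) ∧
    ∫ α, b α = 1 := by
  let f : ContDiffBump (0 : ℝ) := ⟨1 / 20, 1 / 10, by norm_num, by norm_num⟩
  refine ⟨f.normed volume, ⟨f.contDiff_normed, f.hasCompactSupport_normed⟩, fun α hα => ?_,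
    fun α => f.nonneg_normed α, f.integral_normed⟩
  by_contra hcon
  have h1 : α ∈ Function.support (f.normed volume) := hcon
  rw [f.support_normed_eq, mem_ball_zero_iff, Real.norm_eq_abs] at h1
  have h2 : |α| < 1 / 10 := h1
  linarith

lemma InK_scale {b : ℝ → ℝ} (H : SC b) (hb : ∀ α, 1 / 10 < |α| → b α = 0) {ε : ℝ} (hε : 0 < ε) :
    InK (ε / 10) fun x => CT b (ε * x) := by
  have hsc : SC fun α => (1 / ε) * b (α * ε⁻¹) := by
    refine SC.smul ⟨H.sm.comp (contDiff_id.mul contDiff_const), ?_⟩ _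
    exact H.cs.comp_homeomorph (Homeomorph.mulRight₀ ε⁻¹ (inv_ne_zero hε.ne'))
  refine ⟨_, fun _ => 0, hsc, SC.zero, fun α hα => ?_, fun α _ => rfl, fun x => ?_⟩
  · rw [hb (α * ε⁻¹), mul_zero]
    rw [abs_mul, abs_inv, abs_of_pos hε, ← div_eq_mul_inv, lt_div_iff₀ hε]
    linarith
  · rw [ST_zero, add_zero]
    unfold CT
    have h := Measure.integral_comp_mul_left
      (fun α : ℝ => (1 / ε) * b (α * ε⁻¹) * Real.cos (2 * Real.pi * α * x)) ε
    rw [abs_of_pos (inv_pos.2 hε), smul_eq_mul] at h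
    have e : ∫ α, (1 / ε) * b (α * ε⁻¹) * Real.cos (2 * Real.pi * α * x) =
        ε * ∫ α, (1 / ε) * b (ε * α * ε⁻¹) * Real.cos (2 * Real.pi * (ε * α) * x) := by
      rw [h, mul_inv_cancel_left₀ hε.ne']
    rw [e, ← integral_const_mul]
    show ∫ α, b α * Real.cos (2 * Real.pi * α * (ε * x)) =
      ∫ α, ε * ((1 / ε) * b (ε * α * ε⁻¹) * Real.cos (2 * Real.pi * (ε * α) * x))
    congr 1
    funext α
    rw [show ε * α * ε⁻¹ = α by field_simp, show 2 * Real.pi * (ε * α) * x =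
      2 * Real.pi * α * (ε * x) by ring]
    field_simp

/-- orthogonality extends to integrable kernels with spectrum in a smaller interval -/
theorem Gap.orth' {D : ℝ → ℝ} {K : ℝ} (G : Gap D K (3 / 5)) (l : List ℝ) (s : ℝ) {c : ℝ}
    (hc : 0 < c) {N : ℕ} (hN : N * c = 1 / 2)
    (hint : Integrable fun x => pr l x * sq c (x - s) ^ N) :
    ∫ x, pr l x * sq c (x - s) ^ N * D x = 0 := by
  obtain ⟨b, hb, hb1, hb2, hb3⟩ := moll
  have hA : ∀ j : ℕ, ∫ x, CT b (1 / ((j : ℝ) + 1) * (x - s)) *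
      (pr l x * sq c (x - s) ^ N * D x) = 0 := by
    intro j
    have hj : (0 : ℝ) < 1 / ((j : ℝ) + 1) := by positivity
    have hj1 : 1 / ((j : ℝ) + 1) ≤ 1 := by
      rw [div_le_one (by positivity)]
      have : (0 : ℝ) ≤ j := Nat.cast_nonneg j
      linarith
    have h1 := (((InK_scale hb hb1 hj).mulsqn hc N).shift s).mulprod l
    have h2 := h1.mono (δ' := 3 / 5) (by rw [hN]; linarith)
    have h3 := G.orth h2
    rw [← h3]
    congr 1
    funext x
    unfold pr
    ring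
  have hlim : Tendsto (fun j : ℕ => ∫ x, CT b (1 / ((j : ℝ) + 1) * (x - s)) *
      (pr l x * sq c (x - s) ^ N * D x)) atTop
      (𝓝 (∫ x, 1 * (pr l x * sq c (x - s) ^ N * D x))) := by
    have hCT : Continuous (CT b) := CT_cont hb
    have hCT1 : ∀ x, |CT b x| ≤ 1 := by
      intro x
      unfold CT
      calc |∫ α, b α * Real.cos (2 * Real.pi * α * x)| ≤ ∫ α, |b α * Real.cos (2 * Real.pi * α * x)| :=
            abs_integral_le_integral_abs
        _ ≤ ∫ α, b α := by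
            refine integral_mono (hb.int_cos x).abs (hb.cont.integrable_of_hasCompactSupport hb.cs)
              fun α => ?_
            show |b α * Real.cos (2 * Real.pi * α * x)| ≤ b α
            rw [abs_mul, abs_of_nonneg (hb2 α)]
            exact mul_le_of_le_one_right (hb2 α) (Real.abs_cos_le_one _)
        _ = 1 := hb3
    have hCT0 : CT b 0 = 1 := by
      unfold CT
      rw [← hb3]
      congr 1
      funext α
      simp
    have hI := int_mulD G.meas G.bd hint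
    refine tendsto_integral_of_dominated_convergence
      (fun x => |pr l x * sq c (x - s) ^ N * D x|) (fun j => ?_) hI.abs (fun j => ?_) ?_
    · refine AEStronglyMeasurable.mul ?_ hI.aestronglyMeasurable
      exact (hCT.comp (by fun_prop)).aestronglyMeasurable
    · refine ae_of_all _ fun x => ?_
      rw [Real.norm_eq_abs, abs_mul]
      exact mul_le_of_le_one_left (abs_nonneg _) (hCT1 _)
    · refine ae_of_all _ fun x => ?_
      refine Tendsto.mul_const _ ?_
      have h1 : Tendsto (fun j : ℕ => 1 / ((j : ℝ) + 1) * (x - s)) atTop (𝓝 (0 * (x - s))) :=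
        (tendsto_one_div_add_atTop_nhds_zero_nat (𝕜 := ℝ)).mul_const _
      rw [zero_mul] at h1
      have h2 := (hCT.tendsto 0).comp h1
      rw [hCT0] at h2
      exact h2
  have h0 : (fun j : ℕ => ∫ x, CT b (1 / ((j : ℝ) + 1) * (x - s)) *
      (pr l x * sq c (x - s) ^ N * D x)) = fun _ => 0 := funext hA
  rw [h0] at hlim
  have := tendsto_nhds_unique hlim tendsto_const_nhds
  simpa using this

lemma sq_le_one (c x : ℝ) : |sq c x| ≤ 1 := Real.abs_sinc_le_one _

lemma sq_le_inv {c x : ℝ} (hc : 0 < c) (hx : x ≠ 0) : |sq c x| ≤ 1 / (2 * Real.pi * c * |x|) := by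
  have hpi := Real.pi_pos
  unfold sq
  rw [Real.sinc_of_ne_zero (by positivity), abs_div]
  have e : |2 * Real.pi * c * x| = 2 * Real.pi * c * |x| := by
    rw [abs_mul, abs_of_pos (by positivity)]
  rw [e]
  have hx' : 0 < |x| := abs_pos.2 hx
  gcongr
  exact Real.abs_sin_le_one _

lemma pw_aux {A t p : ℝ} (ht : 0 < t) (hp : 0 < p) (m d : ℕ) :
    (A * t⁻¹) ^ m * (1 / p * t) ^ (m + 2 + d) = A ^ m * (1 / p ^ (m + 2 + d)) * (t ^ 2 * t ^ d) := by
  rw [mul_pow A, mul_pow (1 / p), one_div_pow, inv_pow, pow_add t, pow_add t]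
  field_simp

/-- bound for the kernel far away -/
lemma ker_far {l : List ℝ} {s L x : ℝ} {N : ℕ} (hL : 0 < L) (hl : ∀ a ∈ l, |a - s| ≤ L)
    (hN : l.length + 2 ≤ N) (hx : L ≤ |x - s|) :
    |pr l x * sq (1 / L) (x - s) ^ N| ≤
      (2 * L) ^ l.length * (1 / (2 * Real.pi) ^ N) * (2 * (1 + ((x - s) / L) ^ 2)⁻¹) := by
  have hpi := Real.pi_pos
  have hy : 0 < |x - s| := hL.trans_le hx
  have h1 : |pr l x| ≤ (2 * |x - s|) ^ l.length := pr_le l hl (by linarith)
  have h2 : |sq (1 / L) (x - s)| ≤ 1 / (2 * Real.pi * (1 / L) * |x - s|) :=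
    sq_le_inv (by positivity) (abs_pos.1 hy)
  set t : ℝ := L / |x - s| with ht
  have ht0 : 0 < t := by positivity
  have ht1 : t ≤ 1 := by rw [ht, div_le_one hy]; exact hx
  have e1 : 1 / (2 * Real.pi * (1 / L) * |x - s|) = 1 / (2 * Real.pi) * t := by
    rw [ht]; field_simp
  have e2 : 2 * |x - s| = 2 * L * t⁻¹ := by rw [ht]; field_simp
  rw [e1] at h2
  rw [e2] at h1
  obtain ⟨d, hd⟩ := Nat.exists_eq_add_of_le hN
  have h3 : (2 : ℝ) * (1 + ((x - s) / L) ^ 2)⁻¹ ≥ t ^ 2 := by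
    have e3 : ((x - s) / L) ^ 2 = (t ^ 2)⁻¹ := by
      rw [ht, div_pow, div_pow, sq_abs, inv_div]
    rw [e3]
    have h4 : 0 < t ^ 2 := by positivity
    have h5 : t ^ 2 ≤ 1 := pow_le_one₀ ht0.le ht1
    rw [ge_iff_le, ← div_eq_mul_inv, le_div_iff₀ (by positivity)]
    have e4 : t ^ 2 * (1 + (t ^ 2)⁻¹) = t ^ 2 + 1 := by field_simp
    rw [e4]
    linarith
  calc |pr l x * sq (1 / L) (x - s) ^ N| = |pr l x| * |sq (1 / L) (x - s)| ^ N := by
        rw [abs_mul, abs_pow]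
    _ ≤ (2 * L * t⁻¹) ^ l.length * (1 / (2 * Real.pi) * t) ^ N := by gcongr
    _ = (2 * L) ^ l.length * (1 / (2 * Real.pi) ^ N) * (t ^ 2 * t ^ d) := by
        rw [hd]
        exact pw_aux ht0 (by positivity) _ _
    _ ≤ (2 * L) ^ l.length * (1 / (2 * Real.pi) ^ N) * (t ^ 2 * 1) := by
        gcongr
        exact pow_le_one₀ ht0.le ht1
    _ ≤ _ := by
        rw [mul_one]
        gcongr

lemma ker_near {l : List ℝ} {s L x : ℝ} {N : ℕ} (hl : ∀ a ∈ l, |a - s| ≤ L)
    (hx : |x - s| ≤ L) : |pr l x * sq (1 / L) (x - s) ^ N| ≤ (2 * L) ^ l.length := by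
  have h1 : |pr l x| ≤ (2 * L) ^ l.length := pr_le l hl (by linarith)
  rw [abs_mul, abs_pow]
  exact (mul_le_of_le_one_right (abs_nonneg _) (pow_le_one₀ (abs_nonneg _) (sq_le_one _ _))).trans h1

lemma poisson_int (s : ℝ) {L : ℝ} (hL : 0 < L) : Integrable (fun x : ℝ => (1 + ((x - s) / L) ^ 2)⁻¹) ∧
    ∫ x : ℝ, (1 + ((x - s) / L) ^ 2)⁻¹ = L * Real.pi := by
  have h0 : Integrable fun x : ℝ => (1 + (x / L) ^ 2)⁻¹ :=
    integrable_inv_one_add_sq.comp_div hL.ne'
  refine ⟨h0.comp_sub_right s, ?_⟩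
  rw [integral_sub_right_eq_self (fun x : ℝ => (1 + (x / L) ^ 2)⁻¹) s,
    Measure.integral_comp_div (fun x : ℝ => (1 + x ^ 2)⁻¹) L, integral_univ_inv_one_add_sq,
    abs_of_pos hL, smul_eq_mul]

lemma ker_int {l : List ℝ} {s L : ℝ} {N : ℕ} (hL : 0 < L) (hl : ∀ a ∈ l, |a - s| ≤ L)
    (hN : l.length + 2 ≤ N) : Integrable fun x => pr l x * sq (1 / L) (x - s) ^ N := by
  have hpi := Real.pi_gt_three
  refine Integrable.mono' ((poisson_int s hL).1.const_mul ((2 * L) ^ l.length * 2))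
    (((pr_cont l).mul (((sq_cont (1 / L)).comp (by fun_prop)).pow N)).aestronglyMeasurable)
    (ae_of_all _ fun x => ?_)
  rw [Real.norm_eq_abs]
  rcases le_total (|x - s|) L with h | h
  · refine (ker_near hl h).trans ?_
    have h1 : ((x - s) / L) ^ 2 ≤ 1 := by
      rw [div_pow, div_le_one (by positivity), ← sq_abs]
      exact pow_le_pow_left₀ (abs_nonneg _) h 2
    have h2 : (1 : ℝ) / 2 ≤ (1 + ((x - s) / L) ^ 2)⁻¹ := by
      rw [← one_div]
      exact one_div_le_one_div_of_le (by positivity) (by linarith)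
    have h3 : 0 ≤ (2 * L) ^ l.length := by positivity
    nlinarith
  · refine (ker_far hL hl hN h).trans ?_
    have h1 : 1 / (2 * Real.pi) ^ N ≤ 1 := by
      rw [div_le_one (by positivity)]
      exact one_le_pow₀ (by linarith)
    have h3 : 0 ≤ (2 * L) ^ l.length := by positivity
    have h4 : 0 ≤ (1 + ((x - s) / L) ^ 2)⁻¹ := by positivity
    calc (2 * L) ^ l.length * (1 / (2 * Real.pi) ^ N) * (2 * (1 + ((x - s) / L) ^ 2)⁻¹)
        ≤ (2 * L) ^ l.length * 1 * (2 * (1 + ((x - s) / L) ^ 2)⁻¹) := by gcongr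
      _ = _ := by ring

end Pool.Agent.D0H51.AG
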