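import Pool.Agent.D0H51.AG.Fej

/-! # The extremal minorant of the absolute value -/

set_option autoImplicit false

open MeasureTheory Set Filter Topology

namespace Pool.Agent.D0H51.AG

/-- the sign of an integer -/
noncomputable def sg (n : ℤ) : ℝ := (Int.sign n : ℝ)

lemma sg_abs (n : ℤ) : |sg n| ≤ 1 := by
  unfold sg
  rcases lt_trichotomy n 0 with h | h | h
  · rw [Int.sign_eq_neg_one_of_neg h]; simp
  · rw [h]; simp
  · rw [Int.sign_eq_one_of_pos h]; simp

lemma sg_neg (n : ℤ) : sg (-n) = -sg n := by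
  unfold sg
  rw [Int.sign_neg]
  push_cast
  rfl

lemma sgK_summable (x : ℝ) : Summable fun n : ℤ => sg n * Kf (x - n) := by
  refine Summable.of_norm_bounded (Kf_sum x).summable fun n => ?_
  rw [norm_mul, Real.norm_eq_abs, Real.norm_eq_abs, abs_of_nonneg (Kf_nonneg _)]
  exact mul_le_of_le_one_left (Kf_nonneg _) (sg_abs n)

/-- the interpolation of the sign function -/
noncomputable def HH (x : ℝ) : ℝ := ∑' n : ℤ, sg n * Kf (x - n)

lemma HH_neg (x : ℝ) : HH (-x) = -HH x := by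
  unfold HH
  rw [← tsum_neg, ← (Equiv.neg ℤ).tsum_eq]
  congr 1
  funext n
  rw [Equiv.neg_apply, sg_neg]
  push_cast
  rw [show -x - -(n : ℝ) = -(x - n) by ring, Kf_even]
  ring

/-- partial sums -/
lemma part_bd (x : ℝ) (s : Finset ℤ) : |∑ n ∈ s, sg n * Kf (x - n)| ≤ 1 := by
  refine (Finset.abs_sum_le_sum_abs _ _).trans ?_
  have h1 : ∑ n ∈ s, |sg n * Kf (x - n)| ≤ ∑ n ∈ s, Kf (x - n) := by
    refine Finset.sum_le_sum fun n _ => ?_
    rw [abs_mul, abs_of_nonneg (Kf_nonneg _)]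
    exact mul_le_of_le_one_left (Kf_nonneg _) (sg_abs n)
  exact h1.trans (sum_le_hasSum s (fun n _ => Kf_nonneg _) (Kf_sum x))

/-- telescoping series -/
lemma tele {f : ℕ → ℝ} (hf : ∀ n, f (n + 1) ≤ f n) (h0 : Tendsto f atTop (𝓝 0)) :
    HasSum (fun n => f n - f (n + 1)) (f 0) := by
  rw [hasSum_iff_tendsto_nat_of_nonneg fun n => by linarith [hf n]]
  have h1 : (fun n => ∑ i ∈ Finset.range n, (f i - f (i + 1))) = fun n => f 0 - f n := by
    funext n
    exact Finset.sum_range_sub' f n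
  rw [h1]
  have := (tendsto_const_nhds (x := f 0)).sub h0
  rwa [sub_zero] at this

lemma inv_lim (x : ℝ) : Tendsto (fun n : ℕ => 1 / (x + n)) atTop (𝓝 0) := by
  have h1 : Tendsto (fun n : ℕ => x + (n : ℝ)) atTop atTop :=
    tendsto_atTop_add_const_left _ _ tendsto_natCast_atTop_atTop
  have h2 := h1.inv_tendsto_atTop
  refine h2.congr fun n => ?_
  rw [one_div]
  rfl

/-- the series `∑ 1 / (x + n + 1)²` -/
noncomputable def Sx (x : ℝ) : ℝ := ∑' n : ℕ, 1 / (x + (n + 1)) ^ 2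

lemma Sx_facts {x : ℝ} (hx : 0 < x) : Summable (fun n : ℕ => 1 / (x + (n + 1)) ^ 2) ∧
    Sx x ≤ 1 / (x + 1 / 2) ∧ 1 / x - 1 / (2 * x ^ 2) ≤ Sx x := by
  have t1 := tele (f := fun n : ℕ => 1 / (x + 1 / 2 + n)) (fun n => by
    push_cast
    exact one_div_le_one_div_of_le (by positivity) (by linarith)) (inv_lim _)
  have hle : ∀ n : ℕ, 1 / (x + (n + 1)) ^ 2 ≤ 1 / (x + 1 / 2 + n) - 1 / (x + 1 / 2 + (n + 1 : ℕ)) := by
    intro n
    push_cast
    rw [div_sub_div _ _ (by positivity) (by positivity), div_le_div_iff₀ (by positivity)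
      (by positivity)]
    nlinarith
  have hs : Summable (fun n : ℕ => 1 / (x + (n + 1)) ^ 2) :=
    Summable.of_nonneg_of_le (fun n => by positivity) hle t1.summable
  refine ⟨hs, ?_, ?_⟩
  · have := hs.tsum_le_tsum hle t1.summable
    rw [t1.tsum_eq] at this
    simpa [Sx] using this
  · have t2 := tele (f := fun n : ℕ => 1 / (x + n)) (fun n => by
      push_cast
      exact one_div_le_one_div_of_le (by positivity) (by linarith)) (inv_lim _)
    have hs0 : HasSum (fun n : ℕ => 1 / (x + n) ^ 2) (1 / x ^ 2 + Sx x) := by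
      have h1 : HasSum (fun n : ℕ => 1 / (x + (n + 1 : ℕ)) ^ 2) (Sx x) := by
        have := hs.hasSum
        unfold Sx
        push_cast
        exact this
      have := (hasSum_nat_add_iff (f := fun n : ℕ => 1 / (x + n) ^ 2) 1).1 h1
      simpa [add_comm] using this
    have hge : ∀ n : ℕ, 1 / (x + n) - 1 / (x + (n + 1 : ℕ)) ≤
        (1 / 2) * (1 / (x + n) ^ 2) + (1 / 2) * (1 / (x + (n + 1)) ^ 2) := by
      intro n
      push_cast
      have h1 : 0 < x + (n : ℝ) := by positivity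
      have h2 : 0 < x + ((n : ℝ) + 1) := by positivity
      have e1 : 1 / (x + n) - 1 / (x + ((n : ℝ) + 1)) = (1 / (x + n)) * (1 / (x + ((n : ℝ) + 1))) := by
        field_simp
        ring
      have e2 : 1 / (x + (n : ℝ)) ^ 2 = (1 / (x + n)) ^ 2 := by rw [one_div_pow]
      have e3 : 1 / (x + ((n : ℝ) + 1)) ^ 2 = (1 / (x + (n + 1))) ^ 2 := by rw [one_div_pow]
      rw [e1, e2, e3]
      nlinarith [sq_nonneg (1 / (x + (n : ℝ)) - 1 / (x + (n + 1)))]
    have h3 := hasSum_le hge t2 ((hs0.mul_left (1 / 2)).add (hs.hasSum.mul_left (1 / 2)))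
    have e4 : ∑' n : ℕ, 1 / (x + ((n : ℝ) + 1)) ^ 2 = Sx x := rfl
    rw [e4] at h3
    simp only [Nat.cast_zero, add_zero] at h3
    have e5 : 1 / (2 * x ^ 2) = (1 / 2) * (1 / x ^ 2) := by field_simp
    rw [e5]
    linarith

/-- the terms of the complementary series -/
noncomputable def Ft (x : ℝ) (n : ℤ) : ℝ := (1 - sg n) * Kf (x - n)

lemma Ft_nat (x : ℝ) : HasSum (fun n : ℕ => Ft x n) (Kf x) := by
  have h : ∀ n : ℕ, n ≠ 0 → Ft x n = 0 := by
    intro n hn
    have : sg n = 1 := by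
      unfold sg
      rw [Int.sign_eq_one_of_pos (by omega)]
      simp
    unfold Ft
    rw [this]
    ring
  have h2 := hasSum_single (f := fun n : ℕ => Ft x n) 0 h
  have h3 : Ft x ((0 : ℕ) : ℤ) = Kf x := by simp [Ft, sg]
  rwa [h3] at h2

lemma Ft_neg {x : ℝ} (hx : 0 < x) (n : ℕ) : Ft x (-((n : ℤ) + 1)) =
    2 * (Real.sin (Real.pi * x) ^ 2 / Real.pi ^ 2 * (1 / (x + (n + 1)) ^ 2)) := by
  have hpi := Real.pi_pos
  have e1 : sg (-((n : ℤ) + 1)) = -1 := by
    unfold sg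
    rw [Int.sign_eq_neg_one_of_neg (by omega)]
    simp
  have e2 : x - ((-((n : ℤ) + 1) : ℤ) : ℝ) = x + (n + 1) := by
    push_cast
    ring
  have hne : x - ((-((n : ℤ) + 1) : ℤ) : ℝ) ≠ 0 := by
    rw [e2]
    positivity
  unfold Ft
  rw [e1, Kf_shift _ hne, e2]
  have h3 : (x + ((n : ℝ) + 1)) ≠ 0 := by positivity
  rw [show (1 : ℝ) - -1 = 2 by norm_num, div_mul_div_comm, mul_one]

/-- the interpolation on the positive half line -/
lemma HH_pos {x : ℝ} (hx : 0 < x) : 1 - HH x =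
    Real.sin (Real.pi * x) ^ 2 / Real.pi ^ 2 * (1 / x ^ 2 + 2 * Sx x) := by
  have hpi := Real.pi_pos
  have h1 : HasSum (Ft x) (1 - HH x) := by
    have h0 := (Kf_sum x).sub (sgK_summable x).hasSum
    have e : (fun n : ℤ => Kf (x - n) - sg n * Kf (x - n)) = Ft x := by
      funext n
      unfold Ft
      ring
    rw [e] at h0
    exact h0
  have hs := (Sx_facts hx).1
  have h3 : HasSum (fun n : ℕ => Ft x (-((n : ℤ) + 1)))
      (2 * (Real.sin (Real.pi * x) ^ 2 / Real.pi ^ 2 * Sx x)) := by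
    have h0 := (hs.hasSum.mul_left (Real.sin (Real.pi * x) ^ 2 / Real.pi ^ 2)).mul_left 2
    have e : (fun n : ℕ => 2 * (Real.sin (Real.pi * x) ^ 2 / Real.pi ^ 2 *
        (1 / (x + ((n : ℝ) + 1)) ^ 2))) = fun n : ℕ => Ft x (-((n : ℤ) + 1)) := by
      funext n
      exact (Ft_neg hx n).symm
    rw [e] at h0
    exact h0
  have h4 := HasSum.of_nat_of_neg_add_one (f := Ft x) (Ft_nat x) h3
  have h5 := h1.unique h4
  rw [h5, Kf_eq hx.ne']
  have e2 : Real.sin (Real.pi * x) ^ 2 / (Real.pi ^ 2 * x ^ 2) =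
      Real.sin (Real.pi * x) ^ 2 / Real.pi ^ 2 * (1 / x ^ 2) := by
    rw [div_mul_div_comm, mul_one]
  rw [e2]
  ring

end Pool.Agent.D0H51.AG
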