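import Pool.Agent.D0H51.AG.Gx

/-! # The extremal minorant of the absolute value: bounds and continuity -/

set_option autoImplicit false

open MeasureTheory Set Filter Topology

namespace Pool.Agent.D0H51.AG

/-- the minorant of the absolute value -/
noncomputable def LL (x : ℝ) : ℝ := x * HH x + (1 - Real.cos (2 * Real.pi * x)) / Real.pi ^ 2

/-- half the difference -/
noncomputable def gg (x : ℝ) : ℝ := (|x| - LL x) / 2

lemma gg_even (x : ℝ) : gg (-x) = gg x := by
  unfold gg LL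
  rw [abs_neg, HH_neg, show 2 * Real.pi * -x = -(2 * Real.pi * x) by ring, Real.cos_neg]
  ring

lemma gg_zero : gg 0 = 0 := by simp [gg, LL]

lemma gg_pos {x : ℝ} (hx : 0 < x) : gg x =
    Real.sin (Real.pi * x) ^ 2 / Real.pi ^ 2 * (1 / x + 2 * x * Sx x - 2) / 2 := by
  have hpi := Real.pi_pos
  have h1 := HH_pos hx
  have h2 : 1 - Real.cos (2 * Real.pi * x) = 2 * Real.sin (Real.pi * x) ^ 2 := by
    rw [mul_assoc, Real.cos_two_mul, Real.cos_sq']
    ring
  unfold gg LL
  rw [abs_of_pos hx, h2]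
  have h3 : HH x = 1 - Real.sin (Real.pi * x) ^ 2 / Real.pi ^ 2 * (1 / x ^ 2 + 2 * Sx x) := by
    linarith
  rw [h3]
  field_simp
  ring

lemma gg_bd (x : ℝ) : 0 ≤ gg x ∧ gg x ≤ Kf x / 4 := by
  wlog hx : 0 < x generalizing x
  · rcases (not_lt.1 hx).eq_or_lt with h | h
    · rw [h, gg_zero]
      have := Kf_nonneg 0
      constructor <;> linarith
    · have := this (-x) (by linarith)
      rwa [gg_even, Kf_even] at this
  obtain ⟨-, hS1, hS2⟩ := Sx_facts hx
  have hpi := Real.pi_pos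
  set w : ℝ := Real.sin (Real.pi * x) ^ 2 / Real.pi ^ 2 with hw
  have hw0 : 0 ≤ w := by positivity
  rw [gg_pos hx, Kf_eq hx.ne']
  have e : Real.sin (Real.pi * x) ^ 2 / (Real.pi ^ 2 * x ^ 2) / 4 = w * (1 / (2 * x ^ 2)) / 2 := by
    rw [hw]
    field_simp
    norm_num
  rw [e]
  have h2 : 2 * x * Sx x ≤ 2 * x * (1 / (x + 1 / 2)) := by gcongr
  have h3 : 2 * x * (1 / x - 1 / (2 * x ^ 2)) ≤ 2 * x * Sx x := by gcongr
  have h4 : 2 * x * (1 / x - 1 / (2 * x ^ 2)) = 2 - 1 / x := by field_simp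
  have h5 : 1 / x + 2 * x * (1 / (x + 1 / 2)) - 2 ≤ 1 / (2 * x ^ 2) := by
    have e1 : 1 / x + 2 * x * (1 / (x + 1 / 2)) - 2 = (1 / 2) / (x * (x + 1 / 2)) := by
      field_simp
      ring
    rw [e1, div_le_div_iff₀ (by positivity) (by positivity)]
    nlinarith
  constructor
  · have : 0 ≤ 1 / x + 2 * x * Sx x - 2 := by linarith
    positivity
  · have : 1 / x + 2 * x * Sx x - 2 ≤ 1 / (2 * x ^ 2) := by linarith
    gcongr

lemma Kf_bd (x : ℝ) : Kf x ≤ 2 * (1 + x ^ 2)⁻¹ := by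
  rw [← div_eq_mul_inv, le_div_iff₀ (by positivity)]
  have h1 := Kf_le_one x
  have h0 := Kf_nonneg x
  by_cases hx : x = 0
  · rw [hx]
    have := Kf_le_one 0
    linarith
  have h2 : Kf x * x ^ 2 ≤ 1 := by
    have hpi := Real.pi_gt_three
    have hx2 : 0 < x ^ 2 := by positivity
    rw [Kf_eq hx]
    have h3 : Real.sin (Real.pi * x) ^ 2 ≤ 1 := Real.sin_sq_le_one _
    have e : Real.sin (Real.pi * x) ^ 2 / (Real.pi ^ 2 * x ^ 2) * x ^ 2 =
        Real.sin (Real.pi * x) ^ 2 / Real.pi ^ 2 := by field_simp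
    rw [e, div_le_one (by positivity)]
    nlinarith
  nlinarith

lemma gg_le (x : ℝ) : gg x ≤ (1 / 2) * (1 + x ^ 2)⁻¹ := by
  have h1 := (gg_bd x).2
  have h2 := Kf_bd x
  linarith

lemma gg_int_pt (n : ℤ) : gg n = 0 := by
  by_cases h : n = 0
  · rw [h]; simp [gg_zero]
  have hn : (n : ℝ) ≠ 0 := by exact_mod_cast h
  have h1 := gg_bd n
  have h2 : Kf n = 0 := by
    rw [Kf_eq hn, mul_comm Real.pi, Real.sin_int_mul_pi]
    simp
  rw [h2] at h1
  linarith [h1.1, h1.2]

lemma sum_bnd : Summable fun n : ℤ => (1 + (n : ℝ) ^ 2)⁻¹ := by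
  have h1 : Summable fun n : ℤ => 1 / (n : ℝ) ^ 2 := Real.summable_one_div_int_pow.2 (by norm_num)
  have h2 : Summable fun n : ℤ => if n = 0 then (1 : ℝ) else 0 :=
    (hasSum_ite_eq (0 : ℤ) (1 : ℝ)).summable
  refine Summable.of_nonneg_of_le (fun n => by positivity) (fun n => ?_) (h1.add h2)
  by_cases h : n = 0
  · rw [h]; simp
  · rw [if_neg h, add_zero, ← one_div]
    have hn : (n : ℝ) ≠ 0 := by exact_mod_cast h
    have : 0 < (n : ℝ) ^ 2 := by positivity
    exact one_div_le_one_div_of_le this (by linarith)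

lemma HH_cont : Continuous HH := by
  rw [continuous_iff_continuousAt]
  intro x0
  set M : ℝ := |x0| + 1 with hM
  have hM0 : 0 < M := by positivity
  have h : ContinuousOn HH (Metric.ball 0 M) := by
    unfold HH
    refine continuousOn_tsum (u := fun n : ℤ => 4 * (1 + M ^ 2) * (1 + (n : ℝ) ^ 2)⁻¹)
      (fun n => ?_) (sum_bnd.mul_left _) fun n x hx => ?_
    · have := Kf_cont
      exact (by fun_prop : Continuous fun x => sg n * Kf (x - n)).continuousOn
    · rw [mem_ball_zero_iff, Real.norm_eq_abs] at hx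
      rw [norm_mul, Real.norm_eq_abs, Real.norm_eq_abs, abs_of_nonneg (Kf_nonneg _)]
      refine (mul_le_of_le_one_left (Kf_nonneg _) (sg_abs n)).trans ((Kf_bd _).trans ?_)
      have hx2 : x ^ 2 ≤ M ^ 2 := by
        rw [← sq_abs x]
        exact pow_le_pow_left₀ (abs_nonneg _) hx.le 2
      have h1 : (1 + (n : ℝ) ^ 2) ≤ 2 * (1 + M ^ 2) * (1 + (x - n) ^ 2) := by
        nlinarith [sq_nonneg (2 * x - n), sq_nonneg (x - n), mul_nonneg (sq_nonneg M)
          (sq_nonneg (x - n))]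
      rw [← div_eq_mul_inv, ← div_eq_mul_inv, div_le_div_iff₀ (by positivity) (by positivity)]
      nlinarith
  refine h.continuousAt (Metric.isOpen_ball.mem_nhds ?_)
  rw [mem_ball_zero_iff, Real.norm_eq_abs, hM]
  linarith

lemma LL_cont : Continuous LL := by
  unfold LL
  have := HH_cont
  fun_prop

lemma gg_cont : Continuous gg := by
  unfold gg
  have := LL_cont
  fun_prop

lemma gg_integrable : Integrable gg := by
  refine Integrable.mono' (integrable_inv_one_add_sq.const_mul (1 / 2))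
    gg_cont.aestronglyMeasurable (ae_of_all _ fun x => ?_)
  rw [Real.norm_eq_abs, abs_of_nonneg (gg_bd x).1]
  exact gg_le x

/-- finite approximations -/
noncomputable def LN (N : ℕ) (x : ℝ) : ℝ :=
  x * (∑ n ∈ Finset.Icc (-(N : ℤ)) N, sg n * Kf (x - n)) +
    (1 - Real.cos (2 * Real.pi * x)) / Real.pi ^ 2

lemma LN_bd (N : ℕ) (x : ℝ) : |LN N x| ≤ |x| + 1 := by
  have hpi := Real.pi_gt_three
  unfold LN
  refine (abs_add_le _ _).trans (add_le_add ?_ ?_)
  · rw [abs_mul]
    exact mul_le_of_le_one_right (abs_nonneg _) (part_bd x _)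
  · rw [abs_div, abs_of_pos (by positivity : 0 < Real.pi ^ 2), div_le_one (by positivity), abs_le]
    have h1 := Real.cos_le_one (2 * Real.pi * x)
    have h2 := Real.neg_one_le_cos (2 * Real.pi * x)
    constructor <;> nlinarith

lemma LN_lim (x : ℝ) : Tendsto (fun N => LN N x) atTop (𝓝 (LL x)) := by
  unfold LN LL HH
  refine Tendsto.add_const _ (Tendsto.const_mul _ ?_)
  exact (sgK_summable x).hasSum.comp Finset.tendsto_Icc_neg

end Pool.Agent.D0H51.AG
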