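import Pool.Agent.N804.Mean2

/-! # Kernels with compactly supported transforms -/

set_option autoImplicit false

open MeasureTheory Set Filter Topology

namespace Pool.Agent.D0H51.AG

open Pool.Agent.N804

/-- real functions with smooth transform supported in `[-δ, δ]` -/
def InK (δ : ℝ) (k : ℝ → ℝ) : Prop := ∃ b c : ℝ → ℝ, SC b ∧ SC c ∧ (∀ α, δ < |α| → b α = 0) ∧
  (∀ α, δ < |α| → c α = 0) ∧ ∀ x, k x = CT b x + ST c x

lemma SC.zero : SC (fun _ => (0 : ℝ)) := ⟨contDiff_const, HasCompactSupport.zero⟩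

lemma SC.smul {b : ℝ → ℝ} (H : SC b) (t : ℝ) : SC (fun α => t * b α) :=
  ⟨contDiff_const.mul H.sm, H.cs.mul_left⟩

lemma SC.add {b c : ℝ → ℝ} (H : SC b) (H' : SC c) : SC (fun α => b α + c α) :=
  ⟨H.sm.add H'.sm, H.cs.add H'.cs⟩

lemma CT_smul (b : ℝ → ℝ) (t x : ℝ) : CT (fun α => t * b α) x = t * CT b x := by
  unfold CT
  rw [← integral_const_mul]
  congr 1
  funext α
  ring

lemma ST_smul (b : ℝ → ℝ) (t x : ℝ) : ST (fun α => t * b α) x = t * ST b x := by
  unfold N804.ST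
  rw [← integral_const_mul]
  congr 1
  funext α
  ring

lemma CT_add {b c : ℝ → ℝ} (H : SC b) (H' : SC c) (x : ℝ) :
    CT (fun α => b α + c α) x = CT b x + CT c x := by
  unfold CT
  rw [← integral_add (H.int_cos x) (H'.int_cos x)]
  congr 1
  funext α
  ring

lemma ST_add {b c : ℝ → ℝ} (H : SC b) (H' : SC c) (x : ℝ) :
    ST (fun α => b α + c α) x = ST b x + ST c x := by
  unfold N804.ST
  rw [← integral_add (H.int_sin x) (H'.int_sin x)]
  congr 1
  funext α
  ring

lemma CT_zero (x : ℝ) : CT (fun _ => (0 : ℝ)) x = 0 := by simp [CT]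

lemma ST_zero (x : ℝ) : ST (fun _ => (0 : ℝ)) x = 0 := by simp [N804.ST]

lemma CT_neg' (b : ℝ → ℝ) (x : ℝ) : CT b (-x) = CT b x := by
  unfold CT
  congr 1
  funext α
  rw [show 2 * Real.pi * α * -x = -(2 * Real.pi * α * x) by ring, Real.cos_neg]

lemma ST_neg' (b : ℝ → ℝ) (x : ℝ) : ST b (-x) = -ST b x := by
  unfold N804.ST
  rw [← integral_neg]
  congr 1
  funext α
  rw [show 2 * Real.pi * α * -x = -(2 * Real.pi * α * x) by ring, Real.sin_neg, mul_neg]

lemma InK.mono {δ δ' : ℝ} {k : ℝ → ℝ} (H : InK δ k) (h : δ ≤ δ') : InK δ' k := by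
  obtain ⟨b, c, hb, hc, h1, h2, h3⟩ := H
  exact ⟨b, c, hb, hc, fun α hα => h1 α (h.trans_lt hα), fun α hα => h2 α (h.trans_lt hα), h3⟩

lemma InK.smul {δ : ℝ} {k : ℝ → ℝ} (H : InK δ k) (t : ℝ) : InK δ fun x => t * k x := by
  obtain ⟨b, c, hb, hc, h1, h2, h3⟩ := H
  refine ⟨_, _, SC.smul hb t, SC.smul hc t, fun α hα => by rw [h1 α hα, mul_zero],
    fun α hα => by rw [h2 α hα, mul_zero], fun x => ?_⟩
  show t * k x = _
  rw [CT_smul, ST_smul, h3]
  ring

lemma InK.add {δ : ℝ} {k k' : ℝ → ℝ} (H : InK δ k) (H' : InK δ k') : InK δ fun x => k x + k' x := by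
  obtain ⟨b, c, hb, hc, h1, h2, h3⟩ := H
  obtain ⟨b', c', hb', hc', h1', h2', h3'⟩ := H'
  refine ⟨_, _, SC.add hb hb', SC.add hc hc', fun α hα => by rw [h1 α hα, h1' α hα, add_zero],
    fun α hα => by rw [h2 α hα, h2' α hα, add_zero], fun x => ?_⟩
  show k x + k' x = _
  rw [CT_add hb hb', ST_add hc hc', h3, h3']
  ring

lemma InK.mulx {δ : ℝ} {k : ℝ → ℝ} (H : InK δ k) : InK δ fun x => x * k x := by
  obtain ⟨b, c, hb, hc, h1, h2, h3⟩ := H
  have hpi := Real.pi_pos
  refine ⟨_, _, SC.smul hc.deriv (1 / (2 * Real.pi)), SC.smul hb.deriv (-(1 / (2 * Real.pi))),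
    fun α hα => by rw [deriv_supp h2 α hα, mul_zero], fun α hα => by
      rw [deriv_supp h1 α hα, mul_zero], fun x => ?_⟩
  show x * k x = _
  rw [CT_smul, ST_smul, CT_deriv hc, ST_deriv hb, h3]
  field_simp
  ring

lemma InK.mulroot {δ : ℝ} {k : ℝ → ℝ} (H : InK δ k) (a : ℝ) : InK δ fun x => (a - x) * k x := by
  have h1 := (H.smul a).add (H.mulx.smul (-1))
  obtain ⟨b, c, hb, hc, h1, h2, h3⟩ := h1
  exact ⟨b, c, hb, hc, h1, h2, fun x => by rw [← h3]; ring⟩

lemma InK.mulprod {δ : ℝ} {k : ℝ → ℝ} (H : InK δ k) (l : List ℝ) :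
    InK δ fun x => (l.map fun a => a - x).prod * k x := by
  induction l with
  | nil =>
    obtain ⟨b, c, hb, hc, h1, h2, h3⟩ := H
    exact ⟨b, c, hb, hc, h1, h2, fun x => by simp [h3]⟩
  | cons a l ih =>
    obtain ⟨b, c, hb, hc, h1, h2, h3⟩ := ih.mulroot a
    exact ⟨b, c, hb, hc, h1, h2, fun x => by
      rw [← h3]
      show ((a :: l).map fun a => a - x).prod * k x = (a - x) * ((l.map fun a => a - x).prod * k x)
      rw [List.map_cons, List.prod_cons]; ring⟩

lemma SC.mulc {b : ℝ → ℝ} (H : SC b) {u : ℝ → ℝ} (hu : ContDiff ℝ (⊤ : ℕ∞) u) :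
    SC fun α => b α * u α := ⟨H.sm.mul hu, H.cs.mul_right⟩

lemma cd_cos (s : ℝ) : ContDiff ℝ (⊤ : ℕ∞) fun α : ℝ => Real.cos (2 * Real.pi * s * α) :=
  Real.contDiff_cos.comp (contDiff_const.mul contDiff_id)

lemma cd_sin (s : ℝ) : ContDiff ℝ (⊤ : ℕ∞) fun α : ℝ => Real.sin (2 * Real.pi * s * α) :=
  Real.contDiff_sin.comp (contDiff_const.mul contDiff_id)

/-- translation of the transforms -/
lemma CT_shift' {b : ℝ → ℝ} (H : SC b) (s x : ℝ) : CT b (x - s) =
    CT (fun α => b α * Real.cos (2 * Real.pi * s * α)) x +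
      ST (fun α => b α * Real.sin (2 * Real.pi * s * α)) x := by
  unfold CT N804.ST
  rw [← integral_add ((SC.mulc H (cd_cos s)).int_cos x) ((SC.mulc H (cd_sin s)).int_sin x)]
  congr 1
  funext α
  rw [show 2 * Real.pi * α * (x - s) = 2 * Real.pi * α * x - 2 * Real.pi * s * α by ring,
    Real.cos_sub]
  ring

lemma ST_shift' {b : ℝ → ℝ} (H : SC b) (s x : ℝ) : ST b (x - s) =
    ST (fun α => b α * Real.cos (2 * Real.pi * s * α)) x -
      CT (fun α => b α * Real.sin (2 * Real.pi * s * α)) x := by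
  unfold CT N804.ST
  rw [← integral_sub ((SC.mulc H (cd_cos s)).int_sin x) ((SC.mulc H (cd_sin s)).int_cos x)]
  congr 1
  funext α
  rw [show 2 * Real.pi * α * (x - s) = 2 * Real.pi * α * x - 2 * Real.pi * s * α by ring,
    Real.sin_sub]
  ring

lemma InK.shift {δ : ℝ} {k : ℝ → ℝ} (H : InK δ k) (s : ℝ) : InK δ fun x => k (x - s) := by
  obtain ⟨b, c, hb, hc, h1, h2, h3⟩ := H
  have g1 := SC.mulc hb (cd_cos s)
  have g2 := SC.mulc hb (cd_sin s)
  have g3 := SC.mulc hc (cd_cos s)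
  have g4 := SC.mulc hc (cd_sin s)
  refine ⟨_, _, SC.add g1 (SC.smul g4 (-1)), SC.add g2 g3, fun α hα => ?_, fun α hα => ?_,
    fun x => ?_⟩
  · rw [h1 α hα, h2 α hα]; ring
  · rw [h1 α hα, h2 α hα]; ring
  · show k (x - s) = _
    rw [CT_add g1 (SC.smul g4 (-1)), ST_add g2 g3, CT_smul, h3, CT_shift' hb, ST_shift' hc]
    ring

/-- averages over intervals of the frequency -/
noncomputable def av (c : ℝ) (b : ℝ → ℝ) (α : ℝ) : ℝ := (1 / (2 * c)) * ∫ t in (α - c)..(α + c), b t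

lemma av_eq {c : ℝ} {b : ℝ → ℝ} (H : SC b) (α : ℝ) : av c b α =
    (1 / (2 * c)) * ((∫ t in (0 : ℝ)..(α + c), b t) - ∫ t in (0 : ℝ)..(α - c), b t) := by
  unfold av
  rw [intervalIntegral.integral_interval_sub_left (H.cont.intervalIntegrable _ _)
    (H.cont.intervalIntegrable _ _)]

lemma prim_deriv {b : ℝ → ℝ} (H : SC b) (α : ℝ) :
    HasDerivAt (fun α => ∫ t in (0 : ℝ)..α, b t) (b α) α :=
  intervalIntegral.integral_hasDerivAt_right (H.cont.intervalIntegrable _ _)
    (H.cont.stronglyMeasurableAtFilter _ _) H.cont.continuousAt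

lemma prim_cd {b : ℝ → ℝ} (H : SC b) : ContDiff ℝ (⊤ : ℕ∞) fun α => ∫ t in (0 : ℝ)..α, b t := by
  rw [contDiff_infty_iff_deriv]
  refine ⟨fun α => (prim_deriv H α).differentiableAt, ?_⟩
  have : deriv (fun α => ∫ t in (0 : ℝ)..α, b t) = b := funext fun α => (prim_deriv H α).deriv
  rw [this]
  exact H.sm

lemma av_deriv {c : ℝ} {b : ℝ → ℝ} (H : SC b) (α : ℝ) :
    HasDerivAt (av c b) ((1 / (2 * c)) * (b (α + c) - b (α - c))) α := by
  have e : av c b = fun α => (1 / (2 * c)) * ((∫ t in (0 : ℝ)..(α + c), b t) -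
      ∫ t in (0 : ℝ)..(α - c), b t) := funext fun α => av_eq H α
  rw [e]
  have h1 : HasDerivAt (fun α => ∫ t in (0 : ℝ)..(α + c), b t) (b (α + c)) α := by
    have := (prim_deriv H (α + c)).comp α ((hasDerivAt_id α).add_const c)
    rw [mul_one] at this
    exact this
  have h2 : HasDerivAt (fun α => ∫ t in (0 : ℝ)..(α - c), b t) (b (α - c)) α := by
    have := (prim_deriv H (α - c)).comp α ((hasDerivAt_id α).sub_const c)
    rw [mul_one] at this
    exact this
  exact (h1.sub h2).const_mul _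

lemma av_zero {c δ : ℝ} {b : ℝ → ℝ} (hc : 0 < c) (h : ∀ α, δ < |α| → b α = 0) {α : ℝ}
    (hα : δ + c < |α|) : av c b α = 0 := by
  unfold av
  have : ∫ t in (α - c)..(α + c), b t = ∫ t in (α - c)..(α + c), (0 : ℝ) := by
    refine intervalIntegral.integral_congr fun t ht => ?_
    rw [uIcc_of_le (by linarith)] at ht
    refine h t ?_
    have h1 : |α| ≤ |t| + c := by
      have h2 : |α| ≤ |t| + |α - t| := by
        have := abs_add_le t (α - t)
        rwa [add_sub_cancel] at this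
      have h3 : |α - t| ≤ c := by rw [abs_le]; constructor <;> linarith [ht.1, ht.2]
      linarith
    linarith
  rw [this]
  simp

lemma av_SC {c δ : ℝ} {b : ℝ → ℝ} (hc : 0 < c) (H : SC b) (h : ∀ α, δ < |α| → b α = 0) :
    SC (av c b) := by
  refine ⟨?_, ?_⟩
  · have e : av c b = fun α => (1 / (2 * c)) * ((∫ t in (0 : ℝ)..(α + c), b t) -
        ∫ t in (0 : ℝ)..(α - c), b t) := funext fun α => av_eq H α
    rw [e]
    refine contDiff_const.mul ?_
    exact ((prim_cd H).comp (contDiff_id.add contDiff_const)).sub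
      ((prim_cd H).comp (contDiff_id.sub contDiff_const))
  · refine HasCompactSupport.intro (isCompact_Icc (a := -(δ + c)) (b := δ + c)) fun x hx => ?_
    refine av_zero hc h ?_
    by_contra hcon
    push Not at hcon
    exact hx (abs_le.1 hcon)

lemma CT_tr {b : ℝ → ℝ} (H : SC b) (c x : ℝ) : CT (fun α => b (α + c)) x =
    CT b x * Real.cos (2 * Real.pi * c * x) + ST b x * Real.sin (2 * Real.pi * c * x) := by
  unfold CT N804.ST
  have h := integral_add_right_eq_self (μ := volume)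
    (fun α : ℝ => b α * Real.cos (2 * Real.pi * (α - c) * x)) c
  simp only [add_sub_cancel_right] at h
  rw [h, ← integral_mul_const, ← integral_mul_const, ← integral_add ((H.int_cos x).mul_const _)
    ((H.int_sin x).mul_const _)]
  congr 1
  funext α
  rw [show 2 * Real.pi * (α - c) * x = 2 * Real.pi * α * x - 2 * Real.pi * c * x by ring,
    Real.cos_sub]
  ring

lemma ST_tr {b : ℝ → ℝ} (H : SC b) (c x : ℝ) : ST (fun α => b (α + c)) x =
    ST b x * Real.cos (2 * Real.pi * c * x) - CT b x * Real.sin (2 * Real.pi * c * x) := by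
  unfold CT N804.ST
  have h := integral_add_right_eq_self (μ := volume)
    (fun α : ℝ => b α * Real.sin (2 * Real.pi * (α - c) * x)) c
  simp only [add_sub_cancel_right] at h
  rw [h, ← integral_mul_const, ← integral_mul_const, ← integral_sub ((H.int_sin x).mul_const _)
    ((H.int_cos x).mul_const _)]
  congr 1
  funext α
  rw [show 2 * Real.pi * (α - c) * x = 2 * Real.pi * α * x - 2 * Real.pi * c * x by ring,
    Real.sin_sub]
  ring

lemma SC.tr {b : ℝ → ℝ} (H : SC b) (c : ℝ) : SC fun α => b (α + c) :=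
  ⟨H.sm.comp (contDiff_id.add contDiff_const),
    H.cs.comp_homeomorph (Homeomorph.addRight c)⟩

/-- the sine quotient -/
noncomputable def sq (c x : ℝ) : ℝ := Real.sinc (2 * Real.pi * c * x)

lemma sq_cont (c : ℝ) : Continuous (sq c) := by
  unfold sq
  have := Real.continuous_sinc
  fun_prop

lemma ext_ne {f g : ℝ → ℝ} (hf : Continuous f) (hg : Continuous g) (h : ∀ x, x ≠ 0 → f x = g x)
    (x : ℝ) : f x = g x := by
  have hd : Dense ({0}ᶜ : Set ℝ) := dense_compl_singleton 0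
  exact congrFun (Continuous.ext_on hd hf hg fun y hy => h y hy) x

lemma CT_av {c δ : ℝ} {b : ℝ → ℝ} (hc : 0 < c) (H : SC b) (h : ∀ α, δ < |α| → b α = 0) (x : ℝ) :
    CT (av c b) x = sq c x * CT b x := by
  have hS := av_SC hc H h
  have hpi := Real.pi_pos
  refine ext_ne (CT_cont hS) ((sq_cont c).mul (CT_cont H)) (fun x hx => ?_) x
  have h1 := ST_deriv hS x
  have e : deriv (av c b) = fun α => (1 / (2 * c)) * b (α + c) + (-(1 / (2 * c))) * b (α + -c) := by
    funext α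
    rw [(av_deriv H α).deriv, sub_eq_add_neg α c]
    ring
  have g1 := SC.tr H c
  have g2 := SC.tr H (-c)
  rw [e, ST_add (SC.smul g1 _) (SC.smul g2 _), ST_smul, ST_smul, ST_tr H, ST_tr H] at h1
  have h2 : sq c x = Real.sin (2 * Real.pi * c * x) / (2 * Real.pi * c * x) := by
    unfold sq
    rw [Real.sinc_of_ne_zero (by positivity)]
  show CT (av c b) x = sq c x * CT b x
  rw [h2]
  have e2 : 2 * Real.pi * -c * x = -(2 * Real.pi * c * x) := by ring
  rw [e2, Real.cos_neg, Real.sin_neg] at h1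
  have h3 : 2 * Real.pi * x * CT (av c b) x =
      (1 / c) * (CT b x * Real.sin (2 * Real.pi * c * x)) := by
    rw [← neg_inj, ← h1]
    field_simp
    ring
  have hx' : 2 * Real.pi * x ≠ 0 := by positivity
  have h4 : CT (av c b) x = (1 / c) * (CT b x * Real.sin (2 * Real.pi * c * x)) /
      (2 * Real.pi * x) := by
    rw [← h3]
    field_simp
  rw [h4]
  field_simp

lemma ST_av {c δ : ℝ} {b : ℝ → ℝ} (hc : 0 < c) (H : SC b) (h : ∀ α, δ < |α| → b α = 0) (x : ℝ) :
    ST (av c b) x = sq c x * ST b x := by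
  have hS := av_SC hc H h
  have hpi := Real.pi_pos
  refine ext_ne (ST_cont hS) ((sq_cont c).mul (ST_cont H)) (fun x hx => ?_) x
  have h1 := CT_deriv hS x
  have e : deriv (av c b) = fun α => (1 / (2 * c)) * b (α + c) + (-(1 / (2 * c))) * b (α + -c) := by
    funext α
    rw [(av_deriv H α).deriv, sub_eq_add_neg α c]
    ring
  have g1 := SC.tr H c
  have g2 := SC.tr H (-c)
  rw [e, CT_add (SC.smul g1 _) (SC.smul g2 _), CT_smul, CT_smul, CT_tr H, CT_tr H] at h1
  have h2 : sq c x = Real.sin (2 * Real.pi * c * x) / (2 * Real.pi * c * x) := by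
    unfold sq
    rw [Real.sinc_of_ne_zero (by positivity)]
  show N804.ST (av c b) x = sq c x * N804.ST b x
  rw [h2]
  have e2 : 2 * Real.pi * -c * x = -(2 * Real.pi * c * x) := by ring
  rw [e2, Real.cos_neg, Real.sin_neg] at h1
  have h3 : 2 * Real.pi * x * ST (av c b) x =
      (1 / c) * (ST b x * Real.sin (2 * Real.pi * c * x)) := by
    rw [← h1]
    field_simp
    ring
  have h4 : ST (av c b) x = (1 / c) * (ST b x * Real.sin (2 * Real.pi * c * x)) /
      (2 * Real.pi * x) := by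
    rw [← h3]
    field_simp
  rw [h4]
  field_simp

lemma InK.mulsq {δ c : ℝ} {k : ℝ → ℝ} (hc : 0 < c) (H : InK δ k) :
    InK (δ + c) fun x => sq c x * k x := by
  obtain ⟨b, d, hb, hd, h1, h2, h3⟩ := H
  refine ⟨av c b, av c d, av_SC hc hb h1, av_SC hc hd h2, fun α hα => av_zero hc h1 hα,
    fun α hα => av_zero hc h2 hα, fun x => ?_⟩
  show sq c x * k x = _
  rw [CT_av hc hb h1, ST_av hc hd h2, h3]
  ring

lemma InK.mulsqn {δ c : ℝ} {k : ℝ → ℝ} (hc : 0 < c) (H : InK δ k) (n : ℕ) :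
    InK (δ + n * c) fun x => sq c x ^ n * k x := by
  induction n with
  | zero =>
    obtain ⟨b, d, hb, hd, h1, h2, h3⟩ := H
    exact ⟨b, d, hb, hd, fun α hα => h1 α (by simpa using hα), fun α hα => h2 α (by simpa using hα),
      fun x => by simp [h3]⟩
  | succ n ih =>
    have h := InK.mulsq hc ih
    have e : δ + n * c + c = δ + (n + 1 : ℕ) * c := by push_cast; ring
    rw [e] at h
    obtain ⟨b, d, hb, hd, h1, h2, h3⟩ := h
    exact ⟨b, d, hb, hd, h1, h2, fun x => by rw [← h3]; ring⟩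

lemma ST_dec2 {h : ℝ → ℝ} (H : SC h) (n : ℕ) : ∃ A : ℝ, ∀ x : ℝ, |x| ^ n * |ST h x| ≤ A := by
  obtain ⟨A, hA⟩ := ST_dec H n
  refine ⟨A, fun x => ?_⟩
  have h1 := hA |x| (abs_nonneg x)
  have h2 : |ST h (|x|)| = |ST h x| := by
    rcases abs_choice x with h | h
    · rw [h]
    · rw [h, ST_neg', abs_neg]
  rwa [h2] at h1

lemma InK.dec {δ : ℝ} {k : ℝ → ℝ} (H : InK δ k) (n : ℕ) : ∃ A : ℝ, ∀ x : ℝ, |x| ^ n * |k x| ≤ A := by
  obtain ⟨b, c, hb, hc, h1, h2, h3⟩ := H
  obtain ⟨A, hA0, hA⟩ := CT_dec' hb n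
  obtain ⟨A', hA'⟩ := ST_dec2 hc n
  refine ⟨A + A', fun x => ?_⟩
  rw [h3]
  calc |x| ^ n * |CT b x + ST c x| ≤ |x| ^ n * (|CT b x| + |ST c x|) := by
        gcongr
        exact abs_add_le _ _
    _ = |x| ^ n * |CT b x| + |x| ^ n * |ST c x| := by ring
    _ ≤ _ := add_le_add (hA x) (hA' x)

lemma InK.cont {δ : ℝ} {k : ℝ → ℝ} (H : InK δ k) : Continuous k := by
  obtain ⟨b, c, hb, hc, h1, h2, h3⟩ := H
  have e : k = fun x => CT b x + ST c x := funext h3
  rw [e]
  exact (CT_cont hb).add (ST_cont hc)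

lemma InK.int {δ : ℝ} {k : ℝ → ℝ} (H : InK δ k) : Integrable k := by
  obtain ⟨A0, h0⟩ := H.dec 0
  obtain ⟨A2, h2⟩ := H.dec 2
  refine Integrable.mono' (integrable_inv_one_add_sq.const_mul (A0 + A2))
    H.cont.aestronglyMeasurable (ae_of_all _ fun x => ?_)
  have e0 := h0 x
  have e2 := h2 x
  rw [pow_zero, one_mul] at e0
  rw [sq_abs] at e2
  rw [Real.norm_eq_abs, ← div_eq_mul_inv, le_div_iff₀ (by positivity)]
  linarith

/-- a bounded odd function orthogonal to the sine transforms with small support -/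
structure Gap (D : ℝ → ℝ) (K δ : ℝ) : Prop where
  meas : Measurable D
  bd : ∀ x, |D x| ≤ K
  odd : ∀ x, D (-x) = -D x
  lip : ∀ x y, x ≤ y → D x - D y ≤ y - x
  zero : ∀ c : ℝ → ℝ, SC c → (∀ α, δ < |α| → c α = 0) → c 0 = 0 →
    ∫ x in Ioi (0 : ℝ), ST c x * D x = 0

lemma int_mulD {D : ℝ → ℝ} {K : ℝ} (hm : Measurable D) (hb : ∀ x, |D x| ≤ K) {k : ℝ → ℝ}
    (hk : Integrable k) : Integrable fun x => k x * D x := by
  refine Integrable.mono' (hk.abs.mul_const K) (hk.aestronglyMeasurable.mul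
    hm.aestronglyMeasurable) (ae_of_all _ fun x => ?_)
  rw [Real.norm_eq_abs, abs_mul]
  exact mul_le_mul_of_nonneg_left (hb x) (abs_nonneg _)

/-- orthogonality to all kernels -/
theorem Gap.orth {D : ℝ → ℝ} {K δ : ℝ} (G : Gap D K δ) {k : ℝ → ℝ} (H : InK δ k) :
    ∫ x, k x * D x = 0 := by
  have hint := int_mulD G.meas G.bd H.int
  obtain ⟨b, c, hb, hc, h1, h2, h3⟩ := H
  have e1 : ∫ x, k x * D x = (∫ x in Ioi (0 : ℝ), k x * D x) + ∫ x in Iic (0 : ℝ), k x * D x := by
    rw [add_comm]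
    exact (intervalIntegral.integral_Iic_add_Ioi hint.integrableOn hint.integrableOn).symm
  have e2 : ∫ x in Iic (0 : ℝ), k x * D x = ∫ x in Ioi (0 : ℝ), -(k (-x) * D x) := by
    have h := integral_comp_neg_Ioi (c := (0 : ℝ)) (f := fun x => k x * D x)
    rw [neg_zero] at h
    rw [← h]
    refine integral_congr_ae (ae_of_all _ fun x => ?_)
    show k (-x) * D (-x) = -(k (-x) * D x)
    rw [G.odd]
    ring
  have hco : SC (fun α => (1 / 2) * c α + (-(1 / 2)) * c (-α)) := by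
    have hcn : SC fun α => c (-α) :=
      ⟨hc.sm.comp contDiff_neg, hc.cs.comp_homeomorph (Homeomorph.neg ℝ)⟩
    exact SC.add (SC.smul hc _) (SC.smul hcn _)
  have hcn : SC fun α => c (-α) :=
    ⟨hc.sm.comp contDiff_neg, hc.cs.comp_homeomorph (Homeomorph.neg ℝ)⟩
  have hST : ∀ x, ST (fun α => (1 / 2) * c α + (-(1 / 2)) * c (-α)) x = ST c x := by
    intro x
    rw [ST_add (SC.smul hc _) (SC.smul hcn _), ST_smul, ST_smul]
    have : ST (fun α => c (-α)) x = -ST c x := by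
      unfold N804.ST
      rw [← integral_neg_eq_self, ← integral_neg]
      congr 1
      funext α
      show c (- -α) * Real.sin (2 * Real.pi * -α * x) = _
      rw [neg_neg, show 2 * Real.pi * -α * x = -(2 * Real.pi * α * x) by ring, Real.sin_neg]
      ring
    rw [this]
    ring
  have h4 := G.zero _ hco (fun α hα => by
    rw [h2 α hα, h2 (-α) (by rwa [abs_neg])]; ring) (by rw [neg_zero]; ring)
  have i1 : IntegrableOn (fun x => k x * D x) (Ioi 0) := hint.integrableOn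
  have i2 : IntegrableOn (fun x => -(k (-x) * D x)) (Ioi 0) := by
    have hk2 : Integrable fun x => k (-x) := by
      have : Integrable k := by
        have H : InK δ k := ⟨b, c, hb, hc, h1, h2, h3⟩
        exact H.int
      exact this.comp_neg
    exact (int_mulD G.meas G.bd hk2).neg.integrableOn
  rw [e1, e2, ← integral_add i1 i2]
  have e3 : ∫ x in Ioi (0 : ℝ), (k x * D x + -(k (-x) * D x)) =
      ∫ x in Ioi (0 : ℝ), 2 * (ST (fun α => (1 / 2) * c α + (-(1 / 2)) * c (-α)) x * D x) := by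
    refine integral_congr_ae (ae_of_all _ fun x => ?_)
    show k x * D x + -(k (-x) * D x) =
      2 * (N804.ST (fun α => (1 / 2) * c α + (-(1 / 2)) * c (-α)) x * D x)
    rw [hST, h3, h3, CT_neg', ST_neg']
    ring
  rw [e3, integral_const_mul, h4, mul_zero]

end Pool.Agent.D0H51.AG
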