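import Pool.Agent.D0H51.AG.G0

/-! # The mean square of functions with a spectral gap: continuous functions -/

set_option autoImplicit false

open MeasureTheory Set Filter Topology

namespace Pool.Agent.D0H51.AG

open Pool.Agent.N804

section

variable {D : ℝ → ℝ}

/-- primitive -/
noncomputable def I1 (D : ℝ → ℝ) (x : ℝ) : ℝ := ∫ t in (0 : ℝ)..x, D t

lemma I1_deriv (hc : Continuous D) (x : ℝ) : HasDerivAt (I1 D) (D x) x :=
  intervalIntegral.integral_hasDerivAt_right (hc.intervalIntegrable _ _)
    (hc.stronglyMeasurableAtFilter _ _) hc.continuousAt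

lemma I1_cont (hc : Continuous D) : Continuous (I1 D) :=
  continuous_iff_continuousAt.2 fun x => (I1_deriv hc x).continuousAt

lemma dd_deriv {f f' : ℝ → ℝ} (hf : ∀ x, HasDerivAt f (f' x) x) (h x : ℝ) :
    HasDerivAt (dd h f) (dd h f' x) x := by
  have h1 : HasDerivAt (fun x => f (x + h)) (f' (x + h)) x := by
    have := (hf (x + h)).comp x ((hasDerivAt_id x).add_const h)
    rw [mul_one] at this
    exact this
  have h2 : HasDerivAt (fun x => f (x - h)) (f' (x - h)) x := by
    have := (hf (x - h)).comp x ((hasDerivAt_id x).sub_const h)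
    rw [mul_one] at this
    exact this
  exact ((h1.add h2).sub ((hf x).const_mul 2)).div_const _

lemma dd_cont {f : ℝ → ℝ} (hf : Continuous f) (h : ℝ) : Continuous (dd h f) := by
  unfold dd
  fun_prop

/-- the tent smoothing is a second difference -/
lemma tn_conv (hc : Continuous D) {h : ℝ} (hh : 0 < h) (x : ℝ) :
    ∫ u, tn h u * D (x - u) = dd h (I1 (I1 D)) x := by
  have hsupp : Function.support (fun u => tn h u * D (x - u)) ⊆ Ioc (-h) h := by
    intro u hu
    by_contra hcon
    apply hu
    show tn h u * D (x - u) = 0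
    rw [tn_zero hh, zero_mul]
    by_contra h2
    push Not at h2
    rw [abs_lt] at h2
    exact hcon ⟨h2.1, h2.2.le⟩
  rw [← intervalIntegral.integral_eq_integral_of_support_subset hsupp]
  have hcc : Continuous fun u => tn h u * D (x - u) := by
    have := tn_cont h
    fun_prop
  have d1 : ∀ u : ℝ, HasDerivAt (fun u => I1 D (x - u)) (-D (x - u)) u := by
    intro u
    have e : HasDerivAt (fun u : ℝ => x - u) (-1) u := by simpa using (hasDerivAt_id u).const_sub x
    have := (I1_deriv hc (x - u)).comp u e
    rw [mul_neg_one] at this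
    exact this
  have d2 : ∀ u : ℝ, HasDerivAt (fun u => I1 (I1 D) (x - u)) (-I1 D (x - u)) u := by
    intro u
    have e : HasDerivAt (fun u : ℝ => x - u) (-1) u := by simpa using (hasDerivAt_id u).const_sub x
    have := (I1_deriv (I1_cont hc) (x - u)).comp u e
    rw [mul_neg_one] at this
    exact this
  rw [← intervalIntegral.integral_add_adjacent_intervals (a := -h) (b := 0) (c := h)
    (hcc.intervalIntegrable _ _) (hcc.intervalIntegrable _ _)]
  have e1 : ∫ u in (-h)..0, tn h u * D (x - u) =
      -(1 / h) * I1 D x - 1 / h ^ 2 * I1 (I1 D) x + 1 / h ^ 2 * I1 (I1 D) (x + h) := by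
    have h1 : ∫ u in (-h)..0, tn h u * D (x - u) = ∫ u in (-h)..0, (h + u) / h ^ 2 * D (x - u) := by
      refine intervalIntegral.integral_congr fun u hu => ?_
      rw [uIcc_of_le (by linarith)] at hu
      have : tn h u = (h + u) / h ^ 2 := by
        unfold tn
        rw [abs_of_nonneg (by linarith [hu.1]), abs_of_nonpos (by linarith [hu.2] : u - h ≤ 0),
          abs_of_nonpos hu.2]
        field_simp
        ring
      show tn h u * D (x - u) = (h + u) / h ^ 2 * D (x - u)
      rw [this]
    rw [h1]
    have hd : ∀ u : ℝ, HasDerivAt (fun u => -((h + u) / h ^ 2) * I1 D (x - u) -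
        1 / h ^ 2 * I1 (I1 D) (x - u)) ((h + u) / h ^ 2 * D (x - u)) u := by
      intro u
      have d3 : HasDerivAt (fun u => -((h + u) / h ^ 2)) (-(1 / h ^ 2)) u := by
        have := (((hasDerivAt_id u).const_add h).div_const (h ^ 2)).neg
        exact this
      refine ((d3.mul (d1 u)).sub ((d2 u).const_mul (1 / h ^ 2))).congr_deriv ?_
      ring
    rw [intervalIntegral.integral_eq_sub_of_hasDerivAt (fun u _ => hd u)
      ((by fun_prop : Continuous fun u => (h + u) / h ^ 2 * D (x - u)).intervalIntegrable _ _)]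
    simp only [add_zero, sub_zero, sub_neg_eq_add, add_neg_cancel, zero_div, neg_zero, zero_mul]
    field_simp
    ring
  have e2 : ∫ u in (0 : ℝ)..h, tn h u * D (x - u) =
      1 / h ^ 2 * I1 (I1 D) (x - h) + (1 / h) * I1 D x - 1 / h ^ 2 * I1 (I1 D) x := by
    have h1 : ∫ u in (0 : ℝ)..h, tn h u * D (x - u) =
        ∫ u in (0 : ℝ)..h, (h - u) / h ^ 2 * D (x - u) := by
      refine intervalIntegral.integral_congr fun u hu => ?_
      rw [uIcc_of_le hh.le] at hu
      have : tn h u = (h - u) / h ^ 2 := by
        unfold tn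
        rw [abs_of_nonneg (by linarith [hu.1] : 0 ≤ u + h), abs_of_nonpos (by linarith [hu.2] : u - h ≤ 0),
          abs_of_nonneg hu.1]
        field_simp
        ring
      show tn h u * D (x - u) = (h - u) / h ^ 2 * D (x - u)
      rw [this]
    rw [h1]
    have hd : ∀ u : ℝ, HasDerivAt (fun u => -((h - u) / h ^ 2) * I1 D (x - u) +
        1 / h ^ 2 * I1 (I1 D) (x - u)) ((h - u) / h ^ 2 * D (x - u)) u := by
      intro u
      have d3 : HasDerivAt (fun u => -((h - u) / h ^ 2)) (-(-1 / h ^ 2)) u := by
        have := (((hasDerivAt_id u).const_sub h).div_const (h ^ 2)).neg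
        exact this
      refine ((d3.mul (d1 u)).add ((d2 u).const_mul (1 / h ^ 2))).congr_deriv ?_
      ring
    rw [intervalIntegral.integral_eq_sub_of_hasDerivAt (fun u _ => hd u)
      ((by fun_prop : Continuous fun u => (h - u) / h ^ 2 * D (x - u)).intervalIntegrable _ _)]
    simp only [sub_self, sub_zero, zero_div, neg_zero, zero_mul]
    field_simp
    ring
  rw [e1, e2]
  unfold dd
  ring

lemma tn_nonneg {h : ℝ} (hh : 0 < h) (u : ℝ) : 0 ≤ tn h u := by
  unfold tn
  have h1 := abs_add_le (u + h) (u - h)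
  rw [show u + h + (u - h) = 2 * u by ring, abs_mul, abs_two] at h1
  have : 0 ≤ |u + h| + |u - h| - 2 * |u| := by linarith
  positivity

lemma tn_mass {h : ℝ} (hh : 0 < h) : ∫ u, tn h u = 1 := by
  have h1 := tn_conv (D := fun _ => (1 : ℝ)) continuous_const hh 0
  simp only [mul_one] at h1
  rw [h1]
  have e1 : I1 (fun _ => (1 : ℝ)) = fun x => x := by
    funext x
    simp [I1]
  have e2 : I1 (fun x : ℝ => x) = fun x => x ^ 2 / 2 := by
    funext x
    unfold I1
    rw [integral_id]
    ring
  rw [e1, e2]
  unfold dd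
  field_simp
  ring

/-- bound for averages -/
lemma avg_bd {w f : ℝ → ℝ} {K : ℝ} (hw : Integrable w) (hw0 : ∀ u, 0 ≤ w u) (hf : Measurable f)
    (hK : ∀ u, |f u| ≤ K) : |∫ u, w u * f u| ≤ (∫ u, w u) * K := by
  calc |∫ u, w u * f u| ≤ ∫ u, |w u * f u| := abs_integral_le_integral_abs
    _ ≤ ∫ u, w u * K := by
        refine integral_mono (int_mulD hf hK hw).abs (hw.mul_const K) fun u => ?_
        show |w u * f u| ≤ w u * K
        rw [abs_mul, abs_of_nonneg (hw0 u)]
        exact mul_le_mul_of_nonneg_left (hK u) (hw0 u)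
    _ = _ := integral_mul_const _ _

/-- differentiation of averages -/
lemma avg_deriv {w f f' : ℝ → ℝ} {K K' : ℝ} (hw : Integrable w) (hf : ∀ x, HasDerivAt f (f' x) x)
    (hfK : ∀ x, |f x| ≤ K) (hfK' : ∀ x, |f' x| ≤ K') (hf'm : Continuous f') (x : ℝ) :
    HasDerivAt (fun x => ∫ u, w u * f (x - u)) (∫ u, w u * f' (x - u)) x := by
  have hfc : Continuous f := continuous_iff_continuousAt.2 fun x => (hf x).continuousAt
  refine (hasDerivAt_integral_of_dominated_loc_of_deriv_le (F := fun x u => w u * f (x - u))
    (F' := fun x u => w u * f' (x - u)) (s := univ) (bound := fun u => |w u| * K')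
    univ_mem (Eventually.of_forall fun y => ?_) ?_ ?_ (ae_of_all _ fun u y _ => ?_)
    (hw.abs.mul_const K') (ae_of_all _ fun u y _ => ?_)).2
  · exact hw.aestronglyMeasurable.mul (by fun_prop : Continuous fun u => f (y - u)).aestronglyMeasurable
  · exact int_mulD (by fun_prop : Continuous fun u => f (x - u)).measurable (fun u => hfK _) hw
  · exact hw.aestronglyMeasurable.mul (by fun_prop : Continuous fun u => f' (x - u)).aestronglyMeasurable
  · rw [norm_mul, Real.norm_eq_abs, Real.norm_eq_abs]
    exact mul_le_mul_of_nonneg_left (hfK' _) (abs_nonneg _)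
  · have e : HasDerivAt (fun y : ℝ => y - u) 1 y := by simpa using (hasDerivAt_id y).sub_const u
    have := (hf (y - u)).comp y e
    rw [mul_one] at this
    exact this.const_mul (w u)

end

end Pool.Agent.D0H51.AG
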