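import Pool.Agent.D0H51.AG.L2

/-! # The mean square of functions with a spectral gap: the inequality -/

set_option autoImplicit false

open MeasureTheory Set Filter Topology

namespace Pool.Agent.D0H51.AG

open Pool.Agent.N804

/-- shifting a second difference -/
lemma dd_shift {f : ℝ → ℝ} {K : ℝ} (hf : Measurable f) (hK : ∀ x, |f x| ≤ K) (h x : ℝ) :
    ∫ u, dd h gg u * f (x - u) = ∫ u, gg u * dd h f (x - u) := by
  have hm : ∀ s, Measurable fun u => f (x - u + s) := fun s => hf.comp (by fun_prop)
  have j : ∀ s t : ℝ, Integrable fun u => gg (u + s) * f (x - u + t) := fun s t =>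
    int_mulD (hm t) (fun u => hK _) (gg_integrable.comp_add_right s)
  have s1 : ∫ u, gg (u + h) * f (x - u + 0) = ∫ u, gg (u + 0) * f (x - u + h) := by
    rw [← integral_sub_right_eq_self (fun u => gg (u + h) * f (x - u + 0)) h]
    congr 1
    funext u
    rw [show u - h + h = u + 0 by ring, show x - (u - h) + 0 = x - u + h by ring]
  have s2 : ∫ u, gg (u + -h) * f (x - u + 0) = ∫ u, gg (u + 0) * f (x - u + -h) := by
    rw [← integral_add_right_eq_self (fun u => gg (u + -h) * f (x - u + 0)) h]
    congr 1
    funext u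
    rw [show u + h + -h = u + 0 by ring, show x - (u + h) + 0 = x - u + -h by ring]
  have e1 : ∀ u, dd h gg u * f (x - u) = (1 / h ^ 2) * (gg (u + h) * f (x - u + 0) +
      gg (u + -h) * f (x - u + 0) - 2 * (gg (u + 0) * f (x - u + 0))) := by
    intro u
    unfold dd
    rw [add_zero, add_zero, ← sub_eq_add_neg]
    ring
  have e2 : ∀ u, gg u * dd h f (x - u) = (1 / h ^ 2) * (gg (u + 0) * f (x - u + h) +
      gg (u + 0) * f (x - u + -h) - 2 * (gg (u + 0) * f (x - u + 0))) := by
    intro u
    unfold dd
    rw [add_zero, add_zero, ← sub_eq_add_neg (x - u)]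
    ring
  simp_rw [e1, e2]
  have k1 : Integrable fun u => gg (u + h) * f (x - u + 0) + gg (u + -h) * f (x - u + 0) :=
    (j h 0).add (j (-h) 0)
  have k2 : Integrable fun u => gg (u + 0) * f (x - u + h) + gg (u + 0) * f (x - u + -h) :=
    (j 0 h).add (j 0 (-h))
  rw [integral_const_mul, integral_const_mul, integral_sub k1 ((j 0 0).const_mul 2),
    integral_sub k2 ((j 0 0).const_mul 2), integral_add (j h 0) (j (-h) 0),
    integral_add (j 0 h) (j 0 (-h)), s1, s2]

/-- **the inequality for the smoothed function** -/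
theorem ineq_smooth {D : ℝ → ℝ} {K δ : ℝ} (hc : Continuous D) (hK : ∀ x, |D x| ≤ K)
    (hlip : ∀ x y, x ≤ y → D x - D y ≤ y - x) (hδ : 1 < δ) (H : Orth D δ) {h : ℝ} (hh : 0 < h)
    {a b : ℝ} (hab : a ≤ b) :
    ∫ x in a..b, (∫ u, tn h u * D (x - u)) ^ 2 ≤ (b - a) / 12 + (K / 3 + 4 * K ^ 2) := by
  have hK0 : 0 ≤ K := (abs_nonneg _).trans (hK 0)
  set I := I1 D with hI
  set B : ℝ → ℝ := dd h (I1 I) with hB
  set P : ℝ → ℝ := dd h I with hP
  have hIc : Continuous I := I1_cont hc
  have hBd : ∀ x, HasDerivAt B (P x) x := dd_deriv (fun x => I1_deriv hIc x) h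
  have hPd : ∀ x, HasDerivAt P (dd h D x) x := dd_deriv (fun x => I1_deriv hc x) h
  have hBe : ∀ x, ∫ u, tn h u * D (x - u) = B x := fun x => tn_conv hc hh x
  have hPc : Continuous P := dd_cont hIc h
  have hBc : Continuous B := continuous_iff_continuousAt.2 fun x => (hBd x).continuousAt
  -- bounds
  have hBK : ∀ x, |B x| ≤ K := by
    intro x
    rw [← hBe]
    have := avg_bd (w := tn h) (f := fun u => D (x - u)) (K := K) (tn_integrable hh) (tn_nonneg hh)
      (by fun_prop : Continuous fun u => D (x - u)).measurable (fun u => hK _)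
    rwa [tn_mass hh, one_mul] at this
  have hIlip : ∀ x y, x ≤ y → |I y - I x| ≤ K * (y - x) := by
    intro x y hxy
    have e : I y - I x = ∫ t in x..y, D t := by
      rw [hI]
      unfold I1
      rw [intervalIntegral.integral_interval_sub_left (hc.intervalIntegrable _ _)
        (hc.intervalIntegrable _ _)]
    rw [e]
    have := intervalIntegral.norm_integral_le_of_norm_le_const (a := x) (b := y) (f := D) (C := K)
      (fun t _ => hK t)
    rwa [Real.norm_eq_abs, abs_of_nonneg (by linarith : 0 ≤ y - x)] at this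
  have hPK : ∀ x, |P x| ≤ 2 * K / h := by
    intro x
    have h1 := abs_le.1 (hIlip x (x + h) (by linarith))
    have h2 := abs_le.1 (hIlip (x - h) x (by linarith))
    rw [hP]
    unfold dd
    rw [abs_div, abs_of_pos (by positivity : 0 < h ^ 2), div_le_div_iff₀ (by positivity) hh]
    have h3 : |I (x + h) + I (x - h) - 2 * I x| ≤ 2 * K * h := by
      rw [abs_le]
      constructor <;> linarith [h1.1, h1.2, h2.1, h2.2]
    calc |I (x + h) + I (x - h) - 2 * I x| * h ≤ (2 * K * h) * h := by gcongr
      _ = 2 * K * h ^ 2 := by ring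
  have hP1 : ∀ x, -1 ≤ P x := by
    intro x
    have e1 : I (x + h) - I x = ∫ t in (x - h)..x, D (t + h) := by
      rw [intervalIntegral.integral_comp_add_right, sub_add_cancel, hI]
      unfold I1
      rw [intervalIntegral.integral_interval_sub_left (hc.intervalIntegrable _ _)
        (hc.intervalIntegrable _ _)]
    have e2 : I x - I (x - h) = ∫ t in (x - h)..x, D t := by
      rw [hI]
      unfold I1
      rw [intervalIntegral.integral_interval_sub_left (hc.intervalIntegrable _ _)
        (hc.intervalIntegrable _ _)]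
    have e3 : (∫ t in (x - h)..x, D (t + h)) - ∫ t in (x - h)..x, D t =
        ∫ t in (x - h)..x, (D (t + h) - D t) :=
      (intervalIntegral.integral_sub
        ((by fun_prop : Continuous fun t => D (t + h)).intervalIntegrable _ _)
        (hc.intervalIntegrable _ _)).symm
    have e4 : ∫ t in (x - h)..x, (-h) ≤ ∫ t in (x - h)..x, (D (t + h) - D t) := by
      refine intervalIntegral.integral_mono_on (by linarith) intervalIntegrable_const
        ((by fun_prop : Continuous fun t => D (t + h) - D t).intervalIntegrable _ _) fun t _ => ?_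
      have := hlip t (t + h) (by linarith)
      linarith
    rw [intervalIntegral.integral_const, smul_eq_mul] at e4
    have e5 : P x = ((I (x + h) - I x) - (I x - I (x - h))) / h ^ 2 := by
      rw [hP]
      unfold dd
      ring
    rw [e5, le_div_iff₀ (by positivity), e1, e2, e3]
    linarith
  set Φ : ℝ → ℝ := fun x => ∫ u, gg u * P (x - u) with hΦ
  set Ψ : ℝ → ℝ := fun x => ∫ u, gg u * B (x - u) with hΨ
  have hDD : ∀ x, |dd h D x| ≤ 4 * K / h ^ 2 := by
    intro x
    unfold dd
    rw [abs_div, abs_of_pos (by positivity : 0 < h ^ 2)]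
    gcongr
    have h1 := abs_le.1 (hK (x + h))
    have h2 := abs_le.1 (hK (x - h))
    have h3 := abs_le.1 (hK x)
    rw [abs_le]
    constructor <;> linarith [h1.1, h1.2, h2.1, h2.2, h3.1, h3.2]
  have hΦd : ∀ x, HasDerivAt Φ (B x) x := by
    intro x
    have h1 := avg_deriv (w := gg) gg_integrable hPd hPK hDD (dd_cont hc h) x
    have h2 : ∫ u, gg u * dd h D (x - u) = B x := by
      rw [← dd_shift hc.measurable hK h x, ← hBe]
      exact (thmR (E := fun u => D (x - u)) (by fun_prop : Continuous fun u => D (x - u)).measurable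
        (fun u => hK _) hδ (H.reflect x) hh).symm
    rw [h2] at h1
    exact h1
  have hΨd : ∀ x, HasDerivAt Ψ (Φ x) x := fun x =>
    avg_deriv (w := gg) gg_integrable hBd hBK hPK hPc x
  have hΦc : Continuous Φ := continuous_iff_continuousAt.2 fun x => (hΦd x).continuousAt
  have hΨK : ∀ x, |Ψ x| ≤ K / 12 := by
    intro x
    have := avg_bd (w := gg) (f := fun u => B (x - u)) (K := K) gg_integrable
      (fun u => (gg_bd u).1) (by fun_prop : Continuous fun u => B (x - u)).measurable
      (fun u => hBK _)
    rw [gg_mass] at this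
    linarith
  have hΦ1 : ∀ x, -(1 / 12) ≤ Φ x := by
    intro x
    have h1 : ∫ u, gg u * (-1) ≤ ∫ u, gg u * P (x - u) := by
      refine integral_mono (gg_integrable.mul_const _)
        (int_mulD (by fun_prop : Continuous fun u => P (x - u)).measurable (fun u => hPK _)
          gg_integrable) fun u => ?_
      exact mul_le_mul_of_nonneg_left (hP1 _) (gg_bd u).1
    rw [integral_mul_const, gg_mass] at h1
    linarith
  have hΦlip : ∀ x y, |Φ y - Φ x| ≤ K * |y - x| := by
    intro x y
    have := Convex.norm_image_sub_le_of_norm_hasDerivWithin_le (f := Φ) (f' := B) (s := univ)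
      (C := K) (fun z _ => (hΦd z).hasDerivWithinAt) (fun z _ => hBK z) convex_univ (mem_univ x)
      (mem_univ y)
    simpa using this
  have hΦK : ∀ x, |Φ x| ≤ 2 * K := by
    intro x
    have e1 : ∫ t in x..(x + 1), Φ t = Ψ (x + 1) - Ψ x :=
      intervalIntegral.integral_eq_sub_of_hasDerivAt (fun t _ => hΨd t)
        (hΦc.intervalIntegrable _ _)
    have e2 : ∫ t in x..(x + 1), (Φ x - Φ t) = Φ x - ∫ t in x..(x + 1), Φ t := by
      rw [intervalIntegral.integral_sub intervalIntegrable_const (hΦc.intervalIntegrable _ _),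
        intervalIntegral.integral_const, smul_eq_mul]
      ring
    have e3 : |∫ t in x..(x + 1), (Φ x - Φ t)| ≤ K := by
      have := intervalIntegral.norm_integral_le_of_norm_le_const (a := x) (b := x + 1)
        (f := fun t => Φ x - Φ t) (C := K) (fun t ht => by
          rw [uIoc_of_le (by linarith)] at ht
          rw [Real.norm_eq_abs]
          refine (hΦlip t x).trans ?_
          have : |x - t| ≤ 1 := by rw [abs_le]; constructor <;> linarith [ht.1, ht.2]
          nlinarith)
      rw [Real.norm_eq_abs, add_sub_cancel_left, abs_one, mul_one] at this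
      exact this
    rw [e2, e1] at e3
    have h1 := abs_le.1 (hΨK (x + 1))
    have h2 := abs_le.1 (hΨK x)
    have h3 := abs_le.1 e3
    rw [abs_le]
    constructor <;> linarith [h1.1, h1.2, h2.1, h2.2, h3.1, h3.2]
  -- the computation
  have m1 : ∫ x in a..b, B x * B x = B b * Φ b - B a * Φ a - ∫ x in a..b, P x * Φ x :=
    intervalIntegral.integral_mul_deriv_eq_deriv_mul (fun x _ => hBd x) (fun x _ => hΦd x)
      (hPc.intervalIntegrable _ _) (hBc.intervalIntegrable _ _)
  have m2 : -(∫ x in a..b, P x * Φ x) ≤ ∫ x in a..b, (P x / 12 + Φ x + 1 / 12) := by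
    rw [← intervalIntegral.integral_neg]
    refine intervalIntegral.integral_mono_on hab
      ((hPc.mul hΦc).neg.intervalIntegrable _ _)
      ((by fun_prop : Continuous fun x => P x / 12 + Φ x + 1 / 12).intervalIntegrable _ _)
      fun x _ => ?_
    have h1 : 0 ≤ (P x + 1) * (Φ x + 1 / 12) :=
      mul_nonneg (by linarith [hP1 x]) (by linarith [hΦ1 x])
    nlinarith
  have m3 : ∫ x in a..b, (P x / 12 + Φ x + 1 / 12) =
      (B b - B a) / 12 + (Ψ b - Ψ a) + (b - a) / 12 := by
    have q1 : ∫ x in a..b, P x = B b - B a :=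
      intervalIntegral.integral_eq_sub_of_hasDerivAt (fun t _ => hBd t) (hPc.intervalIntegrable _ _)
    have q2 : ∫ x in a..b, Φ x = Ψ b - Ψ a :=
      intervalIntegral.integral_eq_sub_of_hasDerivAt (fun t _ => hΨd t) (hΦc.intervalIntegrable _ _)
    rw [intervalIntegral.integral_add
      ((by fun_prop : Continuous fun x => P x / 12 + Φ x).intervalIntegrable _ _)
      intervalIntegrable_const, intervalIntegral.integral_add
      ((hPc.div_const 12).intervalIntegrable _ _) (hΦc.intervalIntegrable _ _),
      intervalIntegral.integral_div, q1, q2, intervalIntegral.integral_const, smul_eq_mul]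
    ring
  have m4 : ∫ x in a..b, (∫ u, tn h u * D (x - u)) ^ 2 = ∫ x in a..b, B x * B x := by
    refine intervalIntegral.integral_congr fun x _ => ?_
    show (∫ u, tn h u * D (x - u)) ^ 2 = B x * B x
    rw [hBe, pow_two]
  rw [m4, m1]
  have b1 := abs_le.1 (hBK a)
  have b2 := abs_le.1 (hBK b)
  have b3 := abs_le.1 (hΨK a)
  have b4 := abs_le.1 (hΨK b)
  have b5 : |B b * Φ b| ≤ K * (2 * K) := by
    rw [abs_mul]
    exact mul_le_mul (hBK b) (hΦK b) (abs_nonneg _) hK0
  have b6 : |B a * Φ a| ≤ K * (2 * K) := by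
    rw [abs_mul]
    exact mul_le_mul (hBK a) (hΦK a) (abs_nonneg _) hK0
  have b7 := abs_le.1 b5
  have b8 := abs_le.1 b6
  nlinarith [b1.1, b1.2, b2.1, b2.2, b3.1, b3.2, b4.1, b4.2, b7.1, b7.2, b8.1, b8.2]

/-- **the inequality for continuous functions** -/
theorem ineq_cont {D : ℝ → ℝ} {K δ : ℝ} (hc : Continuous D) (hK : ∀ x, |D x| ≤ K)
    (hlip : ∀ x y, x ≤ y → D x - D y ≤ y - x) (hδ : 1 < δ) (H : Orth D δ)
    {a b : ℝ} (hab : a ≤ b) :
    ∫ x in a..b, (D x) ^ 2 ≤ (b - a) / 12 + (K / 3 + 4 * K ^ 2) := by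
  have hK0 : 0 ≤ K := (abs_nonneg _).trans (hK 0)
  set h : ℕ → ℝ := fun j => 1 / ((j : ℝ) + 1) with hh
  have hh0 : ∀ j, 0 < h j := fun j => by rw [hh]; positivity
  have hlim0 : Tendsto h atTop (𝓝 0) := tendsto_one_div_add_atTop_nhds_zero_nat
  have hBK : ∀ j x, |∫ u, tn (h j) u * D (x - u)| ≤ K := by
    intro j x
    have := avg_bd (w := tn (h j)) (f := fun u => D (x - u)) (K := K) (tn_integrable (hh0 j))
      (tn_nonneg (hh0 j)) (by fun_prop : Continuous fun u => D (x - u)).measurable (fun u => hK _)
    rwa [tn_mass (hh0 j), one_mul] at this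
  have hpt : ∀ x, Tendsto (fun j => ∫ u, tn (h j) u * D (x - u)) atTop (𝓝 (D x)) := by
    intro x
    rw [Metric.tendsto_atTop]
    intro ε hε
    obtain ⟨η, hη, hη2⟩ := Metric.continuousAt_iff.1 (hc.continuousAt (x := x)) (ε / 2) (by positivity)
    obtain ⟨N, hN⟩ := eventually_atTop.1 (hlim0.eventually (gt_mem_nhds hη))
    refine ⟨N, fun j hj => ?_⟩
    have hjη : h j < η := hN j hj
    rw [Real.dist_eq]
    have hi := tn_integrable (hh0 j)
    have e1 : (∫ u, tn (h j) u * D (x - u)) - D x = ∫ u, tn (h j) u * (D (x - u) - D x) := by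
      have i1 : Integrable fun u => tn (h j) u * D (x - u) :=
        int_mulD (by fun_prop : Continuous fun u => D (x - u)).measurable (fun u => hK _) hi
      have h1 : ∫ u, tn (h j) u * D x = D x := by rw [integral_mul_const, tn_mass (hh0 j), one_mul]
      have h2 : ∫ u, tn (h j) u * (D (x - u) - D x) =
          (∫ u, tn (h j) u * D (x - u)) - ∫ u, tn (h j) u * D x := by
        rw [← integral_sub i1 (hi.mul_const _)]
        congr 1
        funext u
        ring
      rw [h2, h1]
    rw [e1]
    calc |∫ u, tn (h j) u * (D (x - u) - D x)| ≤ ∫ u, |tn (h j) u * (D (x - u) - D x)| :=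
          abs_integral_le_integral_abs
      _ ≤ ∫ u, tn (h j) u * (ε / 2) := by
          refine integral_mono_of_nonneg (ae_of_all _ fun u => abs_nonneg _) (hi.mul_const _)
            (ae_of_all _ fun u => ?_)
          show |tn (h j) u * (D (x - u) - D x)| ≤ tn (h j) u * (ε / 2)
          rw [abs_mul, abs_of_nonneg (tn_nonneg (hh0 j) u)]
          rcases le_or_gt (h j) |u| with hu | hu
          · rw [tn_zero (hh0 j) hu]
            simp
          · refine mul_le_mul_of_nonneg_left ?_ (tn_nonneg (hh0 j) u)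
            have := hη2 (x := x - u) (by
              rw [Real.dist_eq, show x - u - x = -u by ring, abs_neg]
              linarith)
            rw [Real.dist_eq] at this
            exact this.le
      _ = ε / 2 := by rw [integral_mul_const, tn_mass (hh0 j), one_mul]
      _ < ε := by linarith
  have hcB : ∀ j, Continuous fun x => ∫ u, tn (h j) u * D (x - u) := by
    intro j
    have : (fun x => ∫ u, tn (h j) u * D (x - u)) = dd (h j) (I1 (I1 D)) := by
      funext x
      exact tn_conv hc (hh0 j) x
    rw [this]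
    exact dd_cont (I1_cont (I1_cont hc)) _
  have hlim : Tendsto (fun j => ∫ x in a..b, (∫ u, tn (h j) u * D (x - u)) ^ 2) atTop
      (𝓝 (∫ x in a..b, (D x) ^ 2)) := by
    refine intervalIntegral.tendsto_integral_filter_of_dominated_convergence (fun _ => K ^ 2)
      (Eventually.of_forall fun j => ((hcB j).pow 2).aestronglyMeasurable)
      (Eventually.of_forall fun j => ae_of_all _ fun x _ => ?_) intervalIntegrable_const
      (ae_of_all _ fun x _ => (hpt x).pow 2)
    rw [Real.norm_eq_abs, abs_pow]
    exact pow_le_pow_left₀ (abs_nonneg _) (hBK j x) 2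
  exact le_of_tendsto' hlim fun j => ineq_smooth hc hK hlip hδ H (hh0 j) hab

end Pool.Agent.D0H51.AG
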