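import Pool.Agent.D0H51.AG.UM

/-! # Passage to the limit, unconditionally -/

set_option autoImplicit false

open MeasureTheory Set Filter Topology

namespace Pool.Agent.D0H51.AG

open Pool.Agent.N804
open H370 (Zf mult)

lemma ab_full {G : ℝ → ℝ} (hG : Measurable G) {K : ℝ} (hK : ∀ x, |od G x| ≤ K) {b : ℝ → ℝ}
    (H : SC b) (s : ℝ) : ∫ x, CT b (x - s) * od G x = ab G b s := by
  have hi : ∀ u, Integrable fun x => CT b (x - u) * od G x := fun u =>
    int_mulD (od_meas hG) hK ((CT_integrable H).comp_sub_right u)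
  have e1 : ∫ x, CT b (x - s) * od G x = (∫ x in Ioi (0 : ℝ), CT b (x - s) * od G x) +
      ∫ x in Iic (0 : ℝ), CT b (x - s) * od G x := by
    rw [add_comm]
    exact (intervalIntegral.integral_Iic_add_Ioi (hi s).integrableOn (hi s).integrableOn).symm
  have e2 : ∫ x in Iic (0 : ℝ), CT b (x - s) * od G x =
      ∫ x in Ioi (0 : ℝ), -(CT b (x + s) * od G x) := by
    have h := integral_comp_neg_Ioi (c := (0 : ℝ)) (f := fun x => CT b (x - s) * od G x)
    rw [neg_zero] at h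
    rw [← h]
    refine integral_congr_ae (ae_of_all _ fun x => ?_)
    show CT b (-x - s) * od G (-x) = -(CT b (x + s) * od G x)
    rw [od_odd, show -x - s = -(x + s) by ring, CT_evenf]
    ring
  have i2 : IntegrableOn (fun x => -(CT b (x + s) * od G x)) (Ioi 0) := by
    have := (hi (-s)).neg.integrableOn (s := Ioi (0 : ℝ))
    refine this.congr (ae_of_all _ fun x => ?_)
    show -(CT b (x - -s) * od G x) = -(CT b (x + s) * od G x)
    rw [sub_neg_eq_add]
  rw [e1, e2, ← integral_add (hi s).integrableOn i2]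
  unfold ab
  refine setIntegral_congr_fun measurableSet_Ioi fun x hx => ?_
  show CT b (x - s) * od G x + -(CT b (x + s) * od G x) = (CT b (x - s) - CT b (x + s)) * G x
  rw [od_pos hx]
  ring

/-- the limit objects have small low frequencies -/
theorem gapU_of_LU {B C : ℝ} (hB : 0 < B) (hC : 0 < C) {Φ : ℝ → ℝ} {μ ν e : ℝ}
    (H : LU B C Φ μ ν e) {K : ℝ} (hK : 0 < K)
    (h : ∀ y : ℝ, 0 ≤ y → |∫ v in (0 : ℝ)..y, Gd Φ μ v| ≤ K) :
    GapU (od (Gd Φ μ)) (K + 1) C := by
  have HL := H.toLO hB hC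
  have hbd : ∀ x, |od (Gd Φ μ) x| ≤ K + 1 := by
    intro x
    unfold od
    split_ifs with h1 h2
    · exact pt_of_mean HL hK h h1
    · rw [abs_neg]
      exact pt_of_mean HL hK h (by linarith)
    · rw [abs_zero]; linarith
  have hpi := Real.pi_gt_three
  refine ⟨od_meas (Gd_meas HL), hbd, fun x y hxy => ?_, ?_, ?_⟩
  · have h1 := MM_mono HL hxy
    have h2 := PP_lip hxy
    unfold MM at h1
    linarith
  · intro b Hb κ hκ hκ1 hs M hM s
    rw [ab_full (Gd_meas HL) hbd Hb]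
    obtain ⟨r, W, hr⟩ := testw hκ Hb hs s
    refine H.id1 κ hκ hκ1 _ r W M (fun α => ?_)
    refine r_bd hr (fun β => ?_) W.lip α
    rw [abs_mul, abs_div, abs_of_pos Real.pi_pos]
    have h1 : |Real.sin (2 * Real.pi * s * β)| / Real.pi ≤ 1 := by
      rw [div_le_one Real.pi_pos]
      have := Real.abs_sin_le_one (2 * Real.pi * s * β)
      linarith
    have h2 := hM β
    have h3 : 0 ≤ M * |β| := (abs_nonneg _).trans h2
    calc |Real.sin (2 * Real.pi * s * β)| / Real.pi * |b β| ≤ 1 * (M * |β|) :=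
          mul_le_mul h1 h2 (abs_nonneg _) zero_le_one
      _ = M * |β| := one_mul _
  · intro b Hb κ hκ hκ1 hs hM s
    rw [ab_full (Gd_meas HL) hbd Hb]
    have := ab_bd H Hb hκ hκ1 hs hM s
    rwa [mul_one] at this

/-- **agreement on a set of positive measure**, unconditionally -/
theorem small_U : ∃ c C : ℝ, 0 < c ∧ 0 < C ∧
    ∀ η : ℝ, 0 < η → η ≤ 1 → ∀ R : ℝ, C / Real.sqrt η ≤ R → ∀ x : ℝ, 0 ≤ x →
      ∀ᶠ T in atTop, c * (η * Real.sqrt η) * R ≤
        volume.real ({a | |SS T a| ≤ η} ∩ Ioc x (x + R)) := by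
  obtain ⟨B, A, hB, hA, hext⟩ := extractU
  obtain ⟨B', hB', hloc⟩ := loc_lim
  obtain ⟨K, hK, hmean⟩ := mean_bd hB hA hB'
  obtain ⟨c, C, hc, hC, hgap⟩ := gapU_small (K := K + 1) (A := A) hA.le (by linarith)
  refine ⟨c / 16, 2 * C, by positivity, by positivity, fun η hη hη1 R hR x hx => ?_⟩
  refine ev_of_seq fun T hT => ?_
  obtain ⟨ψ, hψ, Φ, μ, ν, e, H, h1, h2, h3, h4⟩ := hext T hT
  have hT' : Tendsto (fun k => T (ψ k)) atTop atTop := hT.comp hψ.tendsto_atTop
  refine ⟨ψ, ?_⟩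
  have HL := H.toLO hB hA
  have hg := GP_ae H.mono h1
  have hm := hmean Φ μ ν e H (hloc _ hT' Φ H.mono h1)
  have G := gapU_of_LU hB hA H hK hm
  have hsq : 0 < Real.sqrt η := Real.sqrt_pos.2 hη
  have hs4 : Real.sqrt (η / 4) = Real.sqrt η / 2 := by
    rw [Real.sqrt_div hη.le, show (4 : ℝ) = 2 ^ 2 by norm_num, Real.sqrt_sq (by norm_num)]
  have hR0 : 0 < R := lt_of_lt_of_le (by positivity) hR
  have h5 := hgap _ G (η / 4) (by positivity) (by linarith) R (by
    rw [hs4, div_div_eq_mul_div, mul_comm C 2]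
    exact hR) x
  have h6 : volume.real ({a | |od (Gd Φ μ) a| ≤ η / 4} ∩ Ioc x (x + R)) =
      volume.real ({a | |2 * od (Gd Φ μ) a| ≤ η / 2} ∩ Ioc x (x + R)) := by
    congr 2
    ext a
    show |od (Gd Φ μ) a| ≤ η / 4 ↔ |2 * od (Gd Φ μ) a| ≤ η / 2
    rw [abs_mul, abs_two]
    constructor <;> intro h <;> linarith
  rw [h6, hs4] at h5
  have h7 : c / 16 * (η * Real.sqrt η) * R <
      volume.real ({a | |2 * od (Gd Φ μ) a| ≤ η / 2} ∩ Ioc x (x + R)) := by
    refine lt_of_lt_of_le ?_ h5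
    have : 0 < c * (η * Real.sqrt η) * R := by positivity
    linarith
  have h8 := fatou (fun n => SS_meas (T (ψ n))) (SS_conv hT' hg h2 hx)
    (show η / 2 < η by linarith) h7
  exact h8.mono fun n hn => hn.le

end Pool.Agent.D0H51.AG
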