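import Pool.Agent.D0H51.AG.RHb
import Pool.Agent.D0H51.AG.LimR
import Pool.Agent.D0H51.AG.L2c

/-! # The mean square of the error in Montgomery's conjecture, under RH -/

set_option autoImplicit false

open MeasureTheory Set Filter Topology

namespace Pool.Agent.D0H51.AG

open Pool.Agent.N804
open H370 (Zf mult)

/-- the limit objects have a spectral gap, under RH -/
theorem gap_RH (RH : RiemannHypothesis) {T : ℕ → ℝ} (hT : Tendsto T atTop atTop) {Φ : ℝ → ℝ}
    {μ ν e : ℝ} (H : LO Φ μ ν e) {K : ℝ} (hK : 0 < K)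
    (h : ∀ y : ℝ, 0 ≤ y → |∫ v in (0 : ℝ)..y, Gd Φ μ v| ≤ K)
    (tΦ : ∀ᵐ x, Tendsto (fun k => ct (T k) x) atTop (𝓝 (Φ x)))
    (tμ : Tendsto (fun k => mt (T k)) atTop (𝓝 μ)) {δ : ℝ} (h0 : 0 < δ) (h1 : δ < 1) :
    Gap (od (Gd Φ μ)) (K + 1) δ := by
  refine ⟨od_meas (Gd_meas H), fun x => ?_, od_odd _, fun x y hxy => ?_, fun c hc hz hc0 => ?_⟩
  · unfold od
    split_ifs with h1 h2
    · exact pt_of_mean H hK h h1
    · rw [abs_neg]
      exact pt_of_mean H hK h (by linarith)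
    · rw [abs_zero]; linarith
  · have h1 := MM_mono H hxy
    have h2 := PP_lip hxy
    unfold MM at h1
    linarith
  · have hpi := Real.pi_pos
    obtain ⟨r, hr, -⟩ := mk_test' (w := fun x => 2 * Real.pi * ST c x) hc hc0 hz h0
      (fun x => rfl) ((ST_cont hc).const_mul _) (fun n => by
        obtain ⟨A, hA⟩ := ST_dec hc n
        refine ⟨2 * Real.pi * A, fun x hx => ?_⟩
        rw [abs_mul, abs_of_pos (show 0 < 2 * Real.pi by positivity)]
        have := mul_le_mul_of_nonneg_left (hA x hx) (show 0 ≤ 2 * Real.pi by positivity)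
        linarith)
    have h2 := lim_RH RH hT tΦ tμ hr h0 h1
    have e1 : ∫ x in Ioi (0 : ℝ), 2 * Real.pi * ST c x * (Φ x - PP x + (μ - 1) / 2) =
        2 * Real.pi * ∫ x in Ioi (0 : ℝ), ST c x * od (Gd Φ μ) x := by
      rw [← integral_const_mul]
      refine setIntegral_congr_fun measurableSet_Ioi fun x hx => ?_
      show 2 * Real.pi * N804.ST c x * (Φ x - PP x + (μ - 1) / 2) =
        2 * Real.pi * (N804.ST c x * od (Gd Φ μ) x)
      rw [od_pos hx]
      unfold Gd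
      ring
    rw [e1] at h2
    exact (mul_eq_zero.1 h2).resolve_left (by positivity)

lemma CF_nonneg {T : ℝ} (hT : 1 < T) (a : ℝ) : 0 ≤ CF T a := by
  have hX := XX_pos hT
  exact div_nonneg (Pc_nonneg _ _) hX.le

lemma CF_mono {T : ℝ} (hT : 1 < T) {a b : ℝ} (hab : a ≤ b) : CF T a ≤ CF T b := by
  have hX := XX_pos hT
  have hL : 0 < Real.log T := Real.log_pos hT
  have hpi := Real.pi_pos
  unfold CF
  refine div_le_div_of_nonneg_right (Pc_mono _ ?_) hX.le
  gcongr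

lemma MF_nonneg {T : ℝ} (hT : 1 < T) : 0 ≤ MF T := by
  have hX := XX_pos hT
  exact div_nonneg (Pe_nonneg _) hX.le

/-- convergence of the integrals of the squares -/
lemma SS_sq_conv {T : ℕ → ℝ} (hT : Tendsto T atTop atTop) {Φ : ℝ → ℝ} {μ : ℝ}
    (hg : ∀ᵐ x, x ∈ GP T Φ) (h2 : Tendsto (fun k => mt (T k)) atTop (𝓝 μ)) {x y : ℝ}
    (hx : 0 ≤ x) (hxy : x ≤ y) : Tendsto (fun n => ∫ a in x..y, (SS (T n) a) ^ 2) atTop
      (𝓝 (∫ a in x..y, (2 * od (Gd Φ μ) a) ^ 2)) := by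
  have hconv := SS_conv hT hg h2 (y := y) hx
  have c2 : Tendsto (fun k => MF (T k)) atTop (𝓝 μ) := by
    have := (mf_lim.comp hT).add h2
    rw [zero_add] at this
    refine this.congr fun k => ?_
    simp only [Function.comp]
    ring
  obtain ⟨z, hz, gz⟩ := ae_Ioo hg (show y < y + 1 by linarith)
  have hz0 : 0 < z := lt_of_le_of_lt (hx.trans hxy) hz.1
  have c1 := CF_conv hT hg hz0 gz
  have ev1 := c1.eventually (gt_mem_nhds (show Φ z < Φ z + 1 by linarith))
  have ev2 := c2.eventually (gt_mem_nhds (show μ < μ + 1 by linarith))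
  set M : ℝ := 2 * (Φ z + 1) + (μ + 1) + 1 + 2 * PP y with hM
  simp only [intervalIntegral.integral_of_le hxy]
  refine tendsto_integral_filter_of_dominated_convergence (fun _ => M ^ 2) ?_ ?_ ?_ ?_
  · exact Eventually.of_forall fun n => ((SS_meas (T n)).pow_const 2).aestronglyMeasurable
  · filter_upwards [ev1, ev2, hT.eventually_gt_atTop 1] with n e1 e2 e3
    refine (ae_restrict_iff' measurableSet_Ioc).2 (ae_of_all _ fun a ha => ?_)
    have ha0 : 0 ≤ a := hx.trans ha.1.le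
    have f1 := CF_nonneg e3 a
    have f2 := CF_mono e3 (show a ≤ z by linarith [ha.2, hz.1])
    have f3 := MF_nonneg e3
    have f4 := PP_nonneg ha0
    have f5 := PP_mono ha.2
    have f6 : |SS (T n) a| ≤ M := by
      unfold SS
      rw [abs_le]
      constructor <;> linarith
    rw [Real.norm_eq_abs, abs_pow]
    exact pow_le_pow_left₀ (abs_nonneg _) f6 2
  · exact integrable_const _
  · filter_upwards [hconv] with a ha
    exact ha.pow 2

/-- integrability of the square -/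
lemma SS_sq_int {T : ℝ} (hT : 1 < T) {x y : ℝ} (hx : 0 ≤ x) (hxy : x ≤ y) :
    IntervalIntegrable (fun a => (SS T a) ^ 2) volume x y := by
  rw [intervalIntegrable_iff_integrableOn_Ioc_of_le hxy]
  set M : ℝ := 2 * CF T y + MF T + 1 + 2 * PP y with hM
  refine Integrable.mono' (integrable_const (M ^ 2))
    ((SS_meas T).pow_const 2).aestronglyMeasurable ?_
  refine (ae_restrict_iff' measurableSet_Ioc).2 (ae_of_all _ fun a ha => ?_)
  have ha0 : 0 ≤ a := hx.trans ha.1.le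
  have f1 := CF_nonneg hT a
  have f2 := CF_mono hT ha.2
  have f3 := MF_nonneg hT
  have f4 := PP_nonneg ha0
  have f5 := PP_mono ha.2
  have f6 : |SS T a| ≤ M := by
    unfold SS
    rw [abs_le]
    constructor <;> linarith
  rw [Real.norm_eq_abs, abs_pow]
  exact pow_le_pow_left₀ (abs_nonneg _) f6 2

/-- the limit case `t = 1` of the quadratic inequality -/
theorem ineq_one {D : ℝ → ℝ} {K : ℝ} (hD : Measurable D) (hK : ∀ x, |D x| ≤ K)
    (hlip : ∀ x y, x ≤ y → D x - D y ≤ y - x) (H : ∀ δ, δ < 1 → Orth D δ) {a b : ℝ} (hab : a ≤ b) :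
    ∫ x in a..b, (D x) ^ 2 ≤ (b - a) / 12 + (K / 3 + 4 * K ^ 2) := by
  have hc : Tendsto (fun t : ℝ => (b - a) / (12 * t ^ 2) + (K / 3 + 4 * K ^ 2) / t ^ 3)
      (𝓝[<] 1) (𝓝 ((b - a) / (12 * 1 ^ 2) + (K / 3 + 4 * K ^ 2) / 1 ^ 3)) := by
    refine Tendsto.mono_left ?_ nhdsWithin_le_nhds
    refine ContinuousAt.tendsto (f := fun t : ℝ => (b - a) / (12 * t ^ 2) +
      (K / 3 + 4 * K ^ 2) / t ^ 3) ?_
    refine ContinuousAt.add (ContinuousAt.div (by fun_prop) (by fun_prop) (by norm_num))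
      (ContinuousAt.div (by fun_prop) (by fun_prop) (by norm_num))
  have h2 := ge_of_tendsto hc (b := ∫ x in a..b, (D x) ^ 2) (by
    have ev : ∀ᶠ t : ℝ in 𝓝[<] 1, 0 < t ∧ t < 1 := by
      filter_upwards [self_mem_nhdsWithin,
        nhdsWithin_le_nhds (lt_mem_nhds (show (0 : ℝ) < 1 by norm_num))] with t h1 h2
      exact ⟨h2, h1⟩
    filter_upwards [ev] with t ht
    exact ineq_gap hD hK hlip H ht.1 ht.2 hab)
  simpa using h2

/-- **mean square of the error**, under RH -/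
theorem ms_RH (RH : RiemannHypothesis) : ∃ C : ℝ, 0 < C ∧ ∀ A : ℝ, 0 ≤ A →
    ∀ x : ℝ, 0 ≤ x → ∀ᶠ T in atTop, ∫ a in x..(x + A), (SS T a) ^ 2 ≤ A / 3 + C := by
  obtain ⟨B, K, hB, hK, hext⟩ := extractV
  refine ⟨4 * ((K + 1) / 3 + 4 * (K + 1) ^ 2) + 1, by positivity, fun A hA x hx => ?_⟩
  refine ev_of_seq fun T hT => ?_
  obtain ⟨ψ, hψ, Φ, μ, ν, e, H, -, hμ, hmean, hg, h2, -, h4⟩ := hext T hT
  have hT' : Tendsto (fun k => T (ψ k)) atTop atTop := hT.comp hψ.tendsto_atTop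
  refine ⟨ψ, ?_⟩
  have hgap := fun δ (h0 : 0 < δ) (h1 : δ < 1) => gap_RH RH hT' H hK hmean
    (hg.mono fun x hx => hx.1) h2 h0 h1
  have hO : ∀ δ, δ < 1 → Orth (od (Gd Φ μ)) δ := by
    intro δ hδ k hk
    have h5 := hk.mono (δ' := max δ (1 / 2)) (le_max_left _ _)
    exact (hgap (max δ (1 / 2)) (lt_max_of_lt_right (by norm_num))
      (max_lt hδ (by norm_num))).orth h5
  have G := hgap (1 / 2) (by norm_num) (by norm_num)
  have h6 := ineq_one G.meas G.bd G.lip hO (a := x) (b := x + A) (by linarith)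
  have e1 : ∫ a in x..(x + A), (2 * od (Gd Φ μ) a) ^ 2 =
      4 * ∫ a in x..(x + A), (od (Gd Φ μ) a) ^ 2 := by
    rw [← intervalIntegral.integral_const_mul]
    congr 1
    funext a
    ring
  have h10 := SS_sq_conv hT' hg h2 hx (show x ≤ x + A by linarith)
  have h11 : ∫ a in x..(x + A), (2 * od (Gd Φ μ) a) ^ 2 <
      A / 3 + (4 * ((K + 1) / 3 + 4 * (K + 1) ^ 2) + 1) := by
    rw [e1]
    rw [add_sub_cancel_left] at h6
    linarith
  exact (h10.eventually (gt_mem_nhds h11)).mono fun n hn => hn.le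

end Pool.Agent.D0H51.AG
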