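import Pool.Agent.D0H51.AG.Vt
import Pool.Agent.D0H51.AG.MS

/-! # The pointwise bound for large windows, under RH -/

set_option autoImplicit false

open MeasureTheory Set Filter Topology

namespace Pool.Agent.D0H51.AG

open Pool.Agent.N804
open H370 (Zf mult)

/-- **the pointwise bound**: for `a` large, any value `c` between `CF T a⁻` and `CF T a` is within
`49 / 100` of the prediction, for `T` large -/
theorem pb_RH (RH : RiemannHypothesis) : ∃ a₀ : ℝ, 0 < a₀ ∧ ∀ a : ℝ, a₀ ≤ a →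
    ∀ᶠ T in atTop, ∀ c : ℝ, (∀ z : ℝ, z < a → CF T z ≤ c) → c ≤ CF T a →
      |c - PP a + (MF T - 1) / 2| ≤ 49 / 100 := by
  obtain ⟨B, K, hB, hK, hext⟩ := extractV
  obtain ⟨x₁, hx₁, hpt⟩ := ptBound
  refine ⟨x₁ + 1, by linarith, fun a ha => ev_of_seq fun T hT => ?_⟩
  obtain ⟨ψ, hψ, Φ, μ, ν, e, H, -, hμ, hmean, hg, h2, -, h4⟩ := hext T hT
  have hT' : Tendsto (fun k => T (ψ k)) atTop atTop := hT.comp hψ.tendsto_atTop
  refine ⟨ψ, ?_⟩
  have L := LD_RH RH hT' H hK hmean (hg.mono fun x hx => hx.1) h2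
  have hb := hpt _ _ L
  have c3 : Tendsto (fun k => MF (T (ψ k))) atTop (𝓝 μ) := by
    have := (mf_lim.comp hT').add h2
    rw [zero_add] at this
    refine this.congr fun k => ?_
    simp only [Function.comp]
    ring
  obtain ⟨z, hz, gz⟩ := ae_Ioo hg (show a < a + 1 / 100000 by linarith)
  obtain ⟨z', hz', gz'⟩ := ae_Ioo hg (show a - 1 / 100000 < a by linarith)
  have hz0 : 0 < z := by linarith [hz.1]
  have hz0' : 0 < z' := by linarith [hz'.1]
  have c1 := CF_conv hT' hg hz0 gz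
  have c2 := CF_conv hT' hg hz0' gz'
  have g1 := (abs_le.1 (hb z (by rw [abs_of_pos hz0]; linarith [hz.1]))).2
  have g2 := (abs_le.1 (hb z' (by rw [abs_of_pos hz0']; linarith [hz'.1]))).1
  rw [od_pos hz0] at g1
  rw [od_pos hz0'] at g2
  unfold Gd at g1 g2
  have p1 := PP_lip hz.1.le
  have p2 := PP_lip hz'.2.le
  filter_upwards [c1.eventually (gt_mem_nhds (show Φ z < Φ z + 1 / 100000 by linarith)),
    c2.eventually (lt_mem_nhds (show Φ z' - 1 / 100000 < Φ z' by linarith)),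
    c3.eventually (gt_mem_nhds (show μ < μ + 1 / 100000 by linarith)),
    c3.eventually (lt_mem_nhds (show μ - 1 / 100000 < μ by linarith)),
    hT'.eventually_ge_atTop 2] with k k1 k2 k3 k4 k5 c hc1 hc2
  have m1 := CF_mono (T := T (ψ k)) (by linarith) hz.1.le
  have m2 := hc1 z' hz'.2
  rw [abs_le]
  constructor
  · linarith [hz.2, hz'.1]
  · linarith [hz.2, hz'.1]

/-- pairs of zeros from `S` with difference of the ordinates in `(0, h)` -/
noncomputable def Pm (S : Finset ℂ) (h : ℝ) : ℝ := by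
  classical
  exact ∑ s ∈ S, ∑ s' ∈ S, if 0 < s.im - s'.im ∧ s.im - s'.im < h then
    (mult riemannZeta s : ℝ) * (mult riemannZeta s' : ℝ) else 0

lemma Pm_le (S : Finset ℂ) (h : ℝ) : Pm S h ≤ Pc S h := by
  classical
  unfold Pm Pc
  refine Finset.sum_le_sum fun s _ => Finset.sum_le_sum fun s' _ => ?_
  by_cases h1 : 0 < s.im - s'.im ∧ s.im - s'.im < h
  · rw [if_pos h1, if_pos ⟨h1.1, h1.2.le⟩]
  · rw [if_neg h1]
    split_ifs
    · positivity
    · exact le_rfl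

lemma Pc_le_Pm (S : Finset ℂ) {h h' : ℝ} (hh : h < h') : Pc S h ≤ Pm S h' := by
  classical
  unfold Pm Pc
  refine Finset.sum_le_sum fun s _ => Finset.sum_le_sum fun s' _ => ?_
  by_cases h1 : 0 < s.im - s'.im ∧ s.im - s'.im ≤ h
  · rw [if_pos h1, if_pos ⟨h1.1, h1.2.trans_lt hh⟩]
  · rw [if_neg h1]
    split_ifs
    · positivity
    · exact le_rfl

/-- normalised number of pairs with a difference in `(0, 2πa / log T)` -/
noncomputable def CM (T a : ℝ) : ℝ :=
  Pm (Zf riemannZeta 0 T) (2 * Real.pi * a / Real.log T) / XX T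

lemma CM_le {T : ℝ} (hT : 1 < T) (a : ℝ) : CM T a ≤ CF T a := by
  unfold CM CF
  exact div_le_div_of_nonneg_right (Pm_le _ _) (XX_pos hT).le

lemma CF_le_CM {T : ℝ} (hT : 1 < T) {z a : ℝ} (h : z < a) : CF T z ≤ CM T a := by
  have hL : 0 < Real.log T := Real.log_pos hT
  have hpi := Real.pi_pos
  unfold CM CF
  refine div_le_div_of_nonneg_right (Pc_le_Pm _ ?_) (XX_pos hT).le
  gcongr

/-- weighted number of pairs of zeros from `S` with difference in `[x, y]` -/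
noncomputable def Pw (S : Finset ℂ) (x y : ℝ) : ℝ := by
  classical
  exact ∑ s ∈ S, ∑ s' ∈ S, if x ≤ s.im - s'.im ∧ s.im - s'.im ≤ y then
    (mult riemannZeta s : ℝ) * (mult riemannZeta s' : ℝ) else 0

lemma Pw_pos (S : Finset ℂ) {x y : ℝ} (hx : 0 < x) (hxy : x ≤ y) : Pw S x y = Pc S y - Pm S x := by
  classical
  unfold Pw Pc Pm
  rw [← Finset.sum_sub_distrib]
  refine Finset.sum_congr rfl fun s _ => ?_
  rw [← Finset.sum_sub_distrib]
  refine Finset.sum_congr rfl fun s' _ => ?_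
  by_cases h1 : 0 < s.im - s'.im ∧ s.im - s'.im ≤ y
  · rw [if_pos h1]
    by_cases h2 : x ≤ s.im - s'.im
    · rw [if_pos ⟨h2, h1.2⟩, if_neg (by rintro ⟨-, h3⟩; linarith), sub_zero]
    · rw [if_neg (by rintro ⟨h3, -⟩; exact h2 h3), if_pos ⟨h1.1, by linarith [not_le.1 h2]⟩,
        sub_self]
  · rw [if_neg h1, if_neg (by rintro ⟨h3, h4⟩; exact h1 ⟨by linarith, h4⟩),
      if_neg (by rintro ⟨h3, h4⟩; exact h1 ⟨h3, by linarith⟩), sub_zero]

lemma Pw_neg (S : Finset ℂ) (x y : ℝ) : Pw S x y = Pw S (-y) (-x) := by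
  classical
  unfold Pw
  rw [Finset.sum_comm]
  refine Finset.sum_congr rfl fun s _ => Finset.sum_congr rfl fun s' _ => ?_
  by_cases h1 : x ≤ s'.im - s.im ∧ s'.im - s.im ≤ y
  · rw [if_pos h1, if_pos ⟨by linarith [h1.2], by linarith [h1.1]⟩]
    ring
  · rw [if_neg h1, if_neg (by rintro ⟨h3, h4⟩; exact h1 ⟨by linarith, by linarith⟩)]

lemma Pw_mix (S : Finset ℂ) {x y : ℝ} (hx : 0 ≤ x) (hy : 0 ≤ y) :
    Pw S (-x) y = Pc S x + Pc S y + Pe S := by
  classical
  have e4 : Pc S x = ∑ s ∈ S, ∑ s' ∈ S, if 0 < s'.im - s.im ∧ s'.im - s.im ≤ x then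
      (mult riemannZeta s : ℝ) * (mult riemannZeta s' : ℝ) else 0 := by
    unfold Pc
    rw [Finset.sum_comm]
    refine Finset.sum_congr rfl fun s _ => Finset.sum_congr rfl fun s' _ => ?_
    split_ifs
    · ring
    · rfl
  rw [e4]
  unfold Pc Pe Pw
  rw [← Finset.sum_add_distrib, ← Finset.sum_add_distrib]
  refine Finset.sum_congr rfl fun s _ => ?_
  rw [← Finset.sum_add_distrib, ← Finset.sum_add_distrib]
  refine Finset.sum_congr rfl fun s' _ => ?_
  rcases lt_trichotomy s.im s'.im with h1 | h1 | h1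
  · have c1 : ¬(0 < s.im - s'.im ∧ s.im - s'.im ≤ y) := by rintro ⟨h2, -⟩; linarith
    have c2 : ¬(s.im = s'.im) := h1.ne
    rw [if_neg c1, if_neg c2]
    by_cases c3 : s'.im - s.im ≤ x
    · rw [if_pos ⟨by linarith, by linarith⟩, if_pos ⟨by linarith, c3⟩]
      ring
    · rw [if_neg (by rintro ⟨h2, h3⟩; exact c3 (by linarith)), if_neg (by
        rintro ⟨h2, h3⟩; exact c3 h3)]
      ring
  · have c1 : ¬(0 < s.im - s'.im ∧ s.im - s'.im ≤ y) := by rintro ⟨h2, -⟩; linarith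
    have c2 : ¬(0 < s'.im - s.im ∧ s'.im - s.im ≤ x) := by rintro ⟨h2, -⟩; linarith
    rw [if_neg c1, if_neg c2, if_pos h1, if_pos ⟨by linarith, by linarith⟩]
    ring
  · have c1 : ¬(0 < s'.im - s.im ∧ s'.im - s.im ≤ x) := by rintro ⟨h2, -⟩; linarith
    have c2 : ¬(s.im = s'.im) := h1.ne'
    rw [if_neg c1, if_neg c2]
    by_cases c3 : s.im - s'.im ≤ y
    · rw [if_pos ⟨by linarith, by linarith⟩, if_pos ⟨by linarith, c3⟩]
      ring
    · rw [if_neg (by rintro ⟨h2, h3⟩; exact c3 (by linarith)), if_neg (by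
        rintro ⟨h2, h3⟩; exact c3 h3)]
      ring

/-- normalised weighted number of pairs in the window `[α, β]` -/
noncomputable def WF (T α β : ℝ) : ℝ :=
  Pw (Zf riemannZeta 0 T) (2 * Real.pi * α / Real.log T) (2 * Real.pi * β / Real.log T) / XX T

lemma WF_neg (T α β : ℝ) : WF T α β = WF T (-β) (-α) := by
  unfold WF
  rw [Pw_neg]
  congr 2 <;> ring

lemma WF_pos {T : ℝ} (hT : 1 < T) {α β : ℝ} (h0 : 0 < α) (h1 : α ≤ β) :
    WF T α β = CF T β - CM T α := by
  have hL : 0 < Real.log T := Real.log_pos hT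
  have hpi := Real.pi_pos
  unfold WF CF CM
  rw [Pw_pos _ (by positivity) (by gcongr), sub_div]

lemma WF_mix {T : ℝ} (hT : 1 < T) {α β : ℝ} (h0 : 0 ≤ α) (h1 : 0 ≤ β) :
    WF T (-α) β = CF T α + CF T β + MF T := by
  have hL : 0 < Real.log T := Real.log_pos hT
  have hpi := Real.pi_pos
  unfold WF CF MF
  rw [show 2 * Real.pi * -α / Real.log T = -(2 * Real.pi * α / Real.log T) by ring,
    Pw_mix _ (by positivity) (by positivity), add_div, add_div]

/-- **all large windows** -/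
theorem win_RH (RH : RiemannHypothesis) : ∃ a₀ : ℝ, 0 < a₀ ∧ ∀ α β : ℝ, α < β → a₀ ≤ |α| →
    a₀ ≤ |β| → ∀ᶠ T in atTop,
      |WF T α β - (PP β - PP α + if α ≤ 0 ∧ 0 ≤ β then 1 else 0)| ≤ 49 / 50 := by
  obtain ⟨a₀, ha₀, h⟩ := pb_RH RH
  have hA : ∀ a : ℝ, a₀ ≤ a → ∀ᶠ T in atTop, 1 < T ∧ |CF T a - PP a + (MF T - 1) / 2| ≤ 49 / 100 ∧
      |CM T a - PP a + (MF T - 1) / 2| ≤ 49 / 100 := by
    intro a ha
    filter_upwards [h a ha, eventually_gt_atTop 1] with T h1 h2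
    exact ⟨h2, h1 _ (fun z hz => CF_mono h2 hz.le) le_rfl, h1 _ (fun z hz => CF_le_CM h2 hz)
      (CM_le h2 a)⟩
  have hpos : ∀ α β : ℝ, α < β → a₀ ≤ α → ∀ᶠ T in atTop,
      |WF T α β - (PP β - PP α)| ≤ 49 / 50 := by
    intro α β hab h1
    filter_upwards [hA α h1, hA β (by linarith)] with T ⟨k1, k2, k3⟩ ⟨k4, k5, k6⟩
    rw [WF_pos k1 (by linarith) hab.le]
    rw [abs_le] at *
    constructor <;> linarith [k3.1, k3.2, k5.1, k5.2]
  refine ⟨a₀, ha₀, fun α β hab hα hβ => ?_⟩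
  rcases le_or_gt 0 α with h0 | h0
  · rw [abs_of_nonneg h0] at hα
    have hα0 : 0 < α := by linarith
    rw [if_neg (by rintro ⟨h3, -⟩; linarith)]
    refine (hpos α β hab hα).mono fun T hT => ?_
    rwa [add_zero]
  · rw [abs_of_neg h0] at hα
    rcases le_or_gt 0 β with h1 | h1
    · rw [abs_of_nonneg h1] at hβ
      rw [if_pos ⟨h0.le, h1⟩]
      filter_upwards [hA (-α) hα, hA β hβ] with T ⟨k1, k2, k3⟩ ⟨k4, k5, k6⟩
      have e := WF_mix k1 (α := -α) (β := β) (by linarith) h1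
      rw [neg_neg] at e
      rw [e]
      rw [PP_odd] at k2
      rw [abs_le] at *
      constructor <;> linarith [k2.1, k2.2, k5.1, k5.2]
    · rw [abs_of_neg h1] at hβ
      rw [if_neg (by rintro ⟨-, h3⟩; linarith)]
      filter_upwards [hpos (-β) (-α) (by linarith) hβ] with T hT
      rw [WF_neg, add_zero]
      rw [PP_odd, PP_odd] at hT
      rw [abs_le] at *
      constructor <;> linarith [hT.1, hT.2]

end Pool.Agent.D0H51.AG
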