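import Pool.Agent.D0H51.AG.RHb
import Pool.Agent.D0H51.AG.G0

/-! # Positivity of the pair sums in the limit -/

set_option autoImplicit false

open MeasureTheory Set Filter Topology

namespace Pool.Agent.D0H51.AG

open Pool.Agent.N804
open H370 (Zf mult mem_Zf good_zeta zset NN NN_eq)

/-- the pair sums of the transform of `r` are nonnegative -/
def PPos (r : ℝ → ℝ) : Prop := ∀ (S : Finset ℂ) (L : ℝ), 0 ≤ ∑ s ∈ S, ∑ s' ∈ S,
  (mult riemannZeta s : ℝ) * (mult riemannZeta s' : ℝ) *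
    CT r ((s.im - s'.im) * L / (2 * Real.pi))

lemma PPos_of_CT {r : ℝ → ℝ} (h : ∀ x, 0 ≤ CT r x) : PPos r := by
  intro S L
  refine Finset.sum_nonneg fun s _ => Finset.sum_nonneg fun s' _ => ?_
  have := h ((s.im - s'.im) * L / (2 * Real.pi))
  positivity

lemma PPos_of_nonneg {r : ℝ → ℝ} (H : SC r) (h : ∀ α, 0 ≤ r α) : PPos r := by
  intro S L
  have hpi := Real.pi_pos
  set m : ℂ → ℝ := fun s => (mult riemannZeta s : ℝ) with hm
  have e : ∑ s ∈ S, ∑ s' ∈ S, m s * m s' * CT r ((s.im - s'.im) * L / (2 * Real.pi)) =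
      ∫ α, r α * ((∑ s ∈ S, m s * Real.cos (α * L * s.im)) ^ 2 +
        (∑ s ∈ S, m s * Real.sin (α * L * s.im)) ^ 2) := by
    have h1 : ∀ α : ℝ, r α * ((∑ s ∈ S, m s * Real.cos (α * L * s.im)) ^ 2 +
        (∑ s ∈ S, m s * Real.sin (α * L * s.im)) ^ 2) = ∑ s ∈ S, ∑ s' ∈ S,
        m s * m s' * (r α * Real.cos (2 * Real.pi * α * ((s.im - s'.im) * L / (2 * Real.pi)))) := by
      intro α
      rw [pow_two, pow_two, Finset.sum_mul_sum, Finset.sum_mul_sum, ← Finset.sum_add_distrib,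
        Finset.mul_sum]
      refine Finset.sum_congr rfl fun s _ => ?_
      rw [← Finset.sum_add_distrib, Finset.mul_sum]
      refine Finset.sum_congr rfl fun s' _ => ?_
      have e2 : 2 * Real.pi * α * ((s.im - s'.im) * L / (2 * Real.pi)) =
          α * L * s.im - α * L * s'.im := by
        field_simp
      rw [e2, Real.cos_sub]
      ring
    simp_rw [h1]
    rw [integral_finsetSum _ fun s _ => integrable_finsetSum _ fun s' _ =>
      (H.int_cos _).const_mul _]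
    refine Finset.sum_congr rfl fun s _ => ?_
    rw [integral_finsetSum _ fun s' _ => (H.int_cos _).const_mul _]
    refine Finset.sum_congr rfl fun s' _ => ?_
    rw [integral_const_mul]
    rfl
  show 0 ≤ ∑ s ∈ S, ∑ s' ∈ S, m s * m s' * CT r ((s.im - s'.im) * L / (2 * Real.pi))
  rw [e]
  refine integral_nonneg fun α => ?_
  show 0 ≤ r α * _
  have := h α
  positivity

lemma pos_block {w r : ℝ → ℝ} {δ : ℝ} (H : Test w r δ) (hp : PPos r) {V : ℝ} (hV : 1 < V) :
    0 ≤ mb V * CT r 0 + 2 * ∫ x in Ioi (0 : ℝ), w x * cb V x := by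
  have hL : 0 < Real.log V := Real.log_pos hV
  obtain ⟨hpI, hpS⟩ := pair_int H hL (Zf riemannZeta V (2 * V))
  have h1 := hp (Zf riemannZeta V (2 * V)) (Real.log V)
  rw [hpS] at h1
  have h2 : 0 ≤ nb V := nb_nonneg V
  have h3 := div_nonneg h1 h2
  have e1 : ∫ x in Ioi (0 : ℝ), w x * cb V x = (∫ x in Ioi (0 : ℝ), w x *
      Pc (Zf riemannZeta V (2 * V)) (2 * Real.pi * x / Real.log V)) / nb V := by
    rw [← integral_div]
    congr 1
    funext x
    simp only [cb]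
    ring
  rw [e1]
  have e2 : mb V = Pe (Zf riemannZeta V (2 * V)) / nb V := rfl
  rw [e2]
  refine h3.trans (le_of_eq ?_)
  ring

lemma pos_avg {w r : ℝ → ℝ} {δ : ℝ} (H : Test w r δ) (hp : PPos r) : ∃ T0 : ℝ, ∀ T : ℝ, T0 ≤ T →
    0 ≤ mt T * CT r 0 + 2 * ∫ x in Ioi (0 : ℝ), w x * ct T x := by
  obtain ⟨T2, hV2⟩ := ct_int H
  obtain ⟨T3, hT3, hV⟩ := Vj_large 10
  refine ⟨max T2 T3, fun T hT => ?_⟩
  obtain ⟨-, ect⟩ := hV2 T ((le_max_left _ _).trans hT)
  rw [ect]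
  have e : N804.mt T * CT r 0 + 2 * avg (fun V => ∫ x in Ioi (0 : ℝ), w x * cb V x) T =
      avg (fun V => CT r 0 * mb V + 2 * ∫ x in Ioi (0 : ℝ), w x * cb V x) T := by
    rw [avg_add, avg_mul, avg_mul]
    unfold N804.mt
    ring
  rw [e]
  have h1 : avg (fun _ => (0 : ℝ)) T ≤
      avg (fun V => CT r 0 * mb V + 2 * ∫ x in Ioi (0 : ℝ), w x * cb V x) T := by
    refine avg_le fun j hj => ?_
    have h10 := hV T ((le_max_right _ _).trans hT) j hj
    have := pos_block H hp (V := Vj T j) (by linarith)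
    show 0 ≤ CT r 0 * mb (Vj T j) + 2 * ∫ x in Ioi (0 : ℝ), w x * cb (Vj T j) x
    linarith
  rwa [avg_const, mul_zero] at h1

/-- convergence of the integrals against a test function -/
theorem int_lim {T : ℕ → ℝ} (hT : Tendsto T atTop atTop) {Φ : ℝ → ℝ}
    {μ : ℝ} (tΦ : ∀ᵐ x, Tendsto (fun k => ct (T k) x) atTop (𝓝 (Φ x)))
    (tμ : Tendsto (fun k => mt (T k)) atTop (𝓝 μ)) {w r : ℝ → ℝ} {δ : ℝ} (H : Test w r δ) :
    Tendsto (fun k => ∫ x in Ioi (0 : ℝ), w x * (ct (T k) x - PP x +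
        (mt (T k) - 1) / 2)) atTop
        (𝓝 (∫ x in Ioi (0 : ℝ), w x * (Φ x - PP x + (μ - 1) / 2))) := by
  obtain ⟨B, T0, hB, hT0, hp⟩ := ct_props
  refine tendsto_integral_filter_of_dominated_convergence
    (fun x => (B + 1) * (x ^ 1 * |w x|) + (2 * B + 1) * (x ^ 0 * |w x|)) ?_ ?_ ?_ ?_
  · filter_upwards [hT.eventually_ge_atTop T0] with k hk
    have h1 := (hp _ hk).1.measurable
    have h2 := H.cont.measurable
    have h3 := PP_cont.measurable
    exact (h2.mul ((h1.sub h3).add_const _)).aestronglyMeasurable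
  · filter_upwards [hT.eventually_ge_atTop T0] with k hk
    refine (ae_restrict_iff' measurableSet_Ioi).2 (ae_of_all _ fun x hx => ?_)
    have hx0 : 0 ≤ x := le_of_lt hx
    have hw := abs_nonneg (w x)
    obtain ⟨c1, c2⟩ := (hp _ hk).2.1 x hx0
    have c3 := PP_nonneg hx0
    have c4 := PP_le hx0
    have c5 := (hp _ hk).2.2.1
    have c6 := (hp _ hk).2.2.2.1
    rw [Real.norm_eq_abs, abs_mul]
    have h7 : |ct (T k) x - PP x + (mt (T k) - 1) / 2| ≤ (B + 1) * x + (2 * B + 1) := by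
      rw [abs_le]
      constructor <;> nlinarith
    calc |w x| * |ct (T k) x - PP x + (mt (T k) - 1) / 2| ≤
        |w x| * ((B + 1) * x + (2 * B + 1)) := by gcongr
      _ = _ := by ring
  · exact ((H.inta 1 le_rfl).const_mul _).add ((H.inta 0 le_rfl).const_mul _)
  · refine ae_restrict_of_ae ?_
    filter_upwards [tΦ] with x hx
    exact ((hx.sub_const _).add ((tμ.sub_const 1).div_const 2)).const_mul _

/-- **positivity in the limit** -/
theorem pos_lim {T : ℕ → ℝ} (hT : Tendsto T atTop atTop) {Φ : ℝ → ℝ}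
    {μ : ℝ} (tΦ : ∀ᵐ x, Tendsto (fun k => ct (T k) x) atTop (𝓝 (Φ x)))
    (tμ : Tendsto (fun k => mt (T k)) atTop (𝓝 μ)) {w r : ℝ → ℝ} {δ : ℝ} (H : Test w r δ)
    (hp : PPos r) :
    -(CT r 0 + ∫ u : ℝ, CT r u * (1 - Real.sinc (Real.pi * u) ^ 2)) ≤
      2 * ∫ x in Ioi (0 : ℝ), w x * (Φ x - PP x + (μ - 1) / 2) := by
  obtain ⟨T1, hT1⟩ := pos_avg H hp
  obtain ⟨T2, hV2⟩ := ct_int H
  rw [main_int H]
  refine ge_of_tendsto ((int_lim hT tΦ tμ H).const_mul 2) ?_
  filter_upwards [hT.eventually_ge_atTop T1, hT.eventually_ge_atTop T2] with k h1 h2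
  have h3 := hT1 _ h1
  obtain ⟨ict, -⟩ := hV2 _ h2
  have iw := w_int H
  have iwP := wP_int H
  have hc0 : CT r 0 = ∫ x in Ioi (0 : ℝ), w x := by
    have := H.eq 0
    rwa [abs_zero] at this
  have e1 : ∫ x in Ioi (0 : ℝ), w x * (1 + 2 * PP x) =
      (∫ x in Ioi (0 : ℝ), w x) + 2 * ∫ x in Ioi (0 : ℝ), w x * PP x := by
    rw [← integral_const_mul, ← integral_add iw (iwP.const_mul 2)]
    congr 1
    funext x
    ring
  have e4 : ∫ x in Ioi (0 : ℝ), w x * (ct (T k) x - PP x + (mt (T k) - 1) / 2) =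
      (∫ x in Ioi (0 : ℝ), w x * ct (T k) x) - (∫ x in Ioi (0 : ℝ), w x * PP x) +
        (mt (T k) - 1) / 2 * ∫ x in Ioi (0 : ℝ), w x := by
    have i2 : IntegrableOn (fun x => w x * ct (T k) x - w x * PP x) (Ioi 0) := ict.sub iwP
    rw [← integral_const_mul, ← integral_sub ict iwP, ← integral_add i2 (iw.const_mul _)]
    congr 1
    funext x
    ring
  rw [e1, e4]
  rw [hc0] at h3
  linarith

end Pool.Agent.D0H51.AG
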