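import Pool.Agent.N804.AggI
import Pool.Agent.Results.MP_103a5c_nt.BohrSetPairs

/-! # Montgomery's theorem in a dyadic block under RH, in the full range -/

set_option autoImplicit false

open MeasureTheory Set Filter Topology

namespace Pool.Agent.D0H51.AG

open Pool.Agent.N804
open H370 (Zf mult mem_Zf good_zeta zset NN NN_eq)
open Pool.Agent.Y750.OM (NO PO rh bl bl_eq main_eq lip_cont rh_of_bl)
open Pool.Agent.Results.MP_103a5c_nt.BohrSetPairs (TestFn pairSum mont dyadic APm_one)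

/-- the even part of the transform -/
lemma Test.evenize {w r : ℝ → ℝ} {δ : ℝ} (H : Test w r δ) :
    Test w (fun α => (r α + r (-α)) / 2) δ where
  cont := H.cont
  dec := H.dec
  lip := by
    obtain ⟨K, hK⟩ := H.lip
    refine ⟨K, fun x y => ?_⟩
    have h1 := hK x y
    have h2 := hK (-x) (-y)
    have h3 : |(-x) - (-y)| = |x - y| := by rw [← abs_neg]; congr 1; ring
    rw [h3] at h2
    show |(r x + r (-x)) / 2 - (r y + r (-y)) / 2| ≤ K * |x - y|
    have e : (r x + r (-x)) / 2 - (r y + r (-y)) / 2 = ((r x - r y) + (r (-x) - r (-y))) / 2 := by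
      ring
    rw [e, abs_div, abs_two]
    have := abs_add_le (r x - r y) (r (-x) - r (-y))
    linarith
  supp := by
    intro α hα
    show (r α + r (-α)) / 2 = 0
    rw [H.supp α hα, H.supp (-α) (by rwa [abs_neg])]
    norm_num
  eq := by
    intro u
    rw [← H.eq u]
    obtain ⟨K, hK⟩ := H.lip
    have hrc : Continuous r := lip_cont hK
    have hcs : HasCompactSupport r := by
      refine HasCompactSupport.intro (isCompact_Icc (a := -δ) (b := δ)) fun x hx => H.supp x ?_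
      by_contra hcon
      push Not at hcon
      exact hx (abs_le.1 hcon)
    have hi : Integrable fun α => r α * Real.cos (2 * Real.pi * α * u) :=
      (hrc.mul (by fun_prop)).integrable_of_hasCompactSupport hcs.mul_right
    have e2 : ∫ α : ℝ, r (-α) * Real.cos (2 * Real.pi * α * u) =
        ∫ α : ℝ, r α * Real.cos (2 * Real.pi * α * u) := by
      rw [← integral_neg_eq_self]
      congr 1
      funext α
      rw [neg_neg]
      congr 1
      rw [← Real.cos_neg]
      congr 1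
      ring
    have hi2 : Integrable fun α => r (-α) * Real.cos (2 * Real.pi * α * u) := by
      have h3 := hi.comp_neg
      refine h3.congr (ae_of_all _ fun α => ?_)
      show r (-α) * Real.cos (2 * Real.pi * -α * u) = r (-α) * Real.cos (2 * Real.pi * α * u)
      congr 1
      rw [← Real.cos_neg]
      congr 1
      ring
    unfold CT
    have e3 : ∀ α : ℝ, (r α + r (-α)) / 2 * Real.cos (2 * Real.pi * α * u) =
        (1 / 2) * (r α * Real.cos (2 * Real.pi * α * u)) +
        (1 / 2) * (r (-α) * Real.cos (2 * Real.pi * α * u)) := fun α => by ring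
    simp_rw [e3]
    rw [integral_add (hi.const_mul _) (hi2.const_mul _), integral_const_mul, integral_const_mul, e2]
    ring

/-- Montgomery's theorem in a dyadic block -/
theorem pair_RH (RH : RiemannHypothesis) {w r : ℝ → ℝ} {δ : ℝ} (H : Test w r δ) (h0 : 0 < δ)
    (h1 : δ < 1) (he : ∀ α, r (-α) = r α) {ε : ℝ} (hε : 0 < ε) : ∃ T0 : ℝ, 10 ≤ T0 ∧
    ∀ T : ℝ, T0 ≤ T →
    |PO (rh r) T (2 * T) (Real.log T) - NN riemannZeta T (2 * T) * (r 0 + ∫ α : ℝ, |α| * r α)| ≤
      ε * NN riemannZeta T (2 * T) := by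
  obtain ⟨K, hK⟩ := H.lip
  have hrc : Continuous r := lip_cont hK
  obtain ⟨A, hA⟩ := H.decay
  set κ : ℝ := (1 + δ) / 2 with hκ
  have hκ0 : 0 < κ := by rw [hκ]; linarith
  have hκ1 : κ < 1 := by rw [hκ]; linarith
  have hδκ : δ < κ := by rw [hκ]; linarith
  have hz : ∀ x, 1 ≤ |x| → r x = 0 := fun x hx => H.supp x (by linarith)
  have hr1 : ∀ x, Pool.Agent.Results.MP_103a5c_nt.BohrSetPairs.r r x = CT r x := by
    intro x
    unfold Pool.Agent.Results.MP_103a5c_nt.BohrSetPairs.r CT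
    rw [Pool.Agent.Y750.OM.whole_int one_pos fun α hα => by rw [hz α hα.le, zero_mul]]
    refine intervalIntegral.integral_congr fun α _ => ?_
    show r α * Real.cos (2 * Real.pi * x * α) = r α * Real.cos (2 * Real.pi * α * x)
    congr 2
    ring
  have hT : TestFn r κ := ⟨hrc, he, fun α hα => H.supp α (by linarith), ⟨A, fun x => by
    rw [le_div_iff₀ (by positivity), hr1]
    exact hA x⟩⟩
  obtain ⟨T0, hT0⟩ := dyadic RH hT hκ0 hκ1 APm_one hε
  refine ⟨max 10 T0, le_max_left _ _, fun T hTT => ?_⟩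
  have hT10 : 10 ≤ T := (le_max_left _ _).trans hTT
  have h := hT0 T ((le_max_right _ _).trans hTT)
  have hm : mont r = r 0 + ∫ α : ℝ, |α| * r α := by
    unfold mont
    rw [Pool.Agent.Y750.OM.whole_int one_pos fun α hα => by rw [hz α hα.le, mul_zero]]
    have hc : Continuous fun α : ℝ => |α| * r α := continuous_abs.mul hrc
    rw [← intervalIntegral.integral_add_adjacent_intervals (a := -1) (b := 0) (c := 1)
      (hc.intervalIntegrable _ _) (hc.intervalIntegrable _ _)]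
    have e1 : ∫ α in (-1 : ℝ)..0, |α| * r α = ∫ α in (0 : ℝ)..1, |α| * r α := by
      have := intervalIntegral.integral_comp_neg (a := (0 : ℝ)) (b := 1)
        (f := fun α : ℝ => |α| * r α)
      rw [neg_zero] at this
      rw [← this]
      refine intervalIntegral.integral_congr fun α _ => ?_
      show |-α| * r (-α) = |α| * r α
      rw [abs_neg, he]
    have e2 : ∫ α in (0 : ℝ)..1, |α| * r α = ∫ α in (0 : ℝ)..1, α * r α := by
      refine intervalIntegral.integral_congr fun α hα => ?_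
      rw [Set.uIcc_of_le zero_le_one] at hα
      show |α| * r α = α * r α
      rw [abs_of_nonneg hα.1]
    rw [e1, e2]
    ring
  have hps : pairSum r (fun _ => 1) T T (2 * T) = PO (rh r) T (2 * T) (Real.log T) := by
    unfold pairSum PO
    rw [Pool.Agent.Results.MP_103a5c_nt.BohrSetPairs.zeros_eq,
      H370.finsum_Zf good_zeta (by linarith)]
    refine Finset.sum_congr rfl fun s _ => ?_
    rw [H370.finsum_Zf good_zeta (by linarith)]
    refine Finset.sum_congr rfl fun s' _ => ?_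
    rw [hr1, mul_one, ← bl_eq]
    rfl
  rw [hps, hm, Pool.Agent.Results.MP_103a5c_nt.BohrSetPairs.N_eq, one_mul, mul_comm (r 0 + _)] at h
  exact h

/-- Montgomery's theorem in a block, under RH -/
theorem block_RH (RH : RiemannHypothesis) {w r : ℝ → ℝ} {δ : ℝ} (H : Test w r δ) (h0 : 0 < δ)
    (h1 : δ < 1) {ε : ℝ} (hε : 0 < ε) : ∃ T0 : ℝ, 10 ≤ T0 ∧ ∀ T : ℝ, T0 ≤ T →
      |∫ x in Ioi (0 : ℝ), w x * (cb T x - PP x + (mb T - 1) / 2)| ≤ ε := by
  obtain ⟨r', H, he⟩ : ∃ r' : ℝ → ℝ, Test w r' δ ∧ ∀ α, r' (-α) = r' α :=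
    ⟨_, Test.evenize H, fun α => by
      show (r (-α) + r (- -α)) / 2 = (r α + r (-α)) / 2
      rw [neg_neg]; ring⟩
  clear! r
  obtain ⟨T0, hT0, h⟩ := pair_RH RH H h0 h1 he hε
  obtain ⟨T1, hT1, hnb⟩ := nb_large
  obtain ⟨K, hK⟩ := H.lip
  obtain ⟨A, hA⟩ := H.decay
  have hA' : ∀ u, |bl r' u| * (1 + u ^ 2) ≤ A := hA
  refine ⟨max T0 T1, le_max_of_le_left hT0, fun T hT => ?_⟩
  have hT0' : T0 ≤ T := (le_max_left _ _).trans hT
  have hn1 := hnb T ((le_max_right _ _).trans hT)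
  have hn0 : 0 < nb T := by linarith
  have hT10 : 10 ≤ T := hT0.trans hT0'
  have hL : 0 < Real.log T := Real.log_pos (by linarith)
  have hh := h T hT0'
  have hmain := main_int H
  have hme := main_eq (lip_cont hK) hA' (fun x hx => H.supp x (by linarith))
  have hbl : ∀ u, bl r' u = CT r' u := fun _ => rfl
  simp_rw [hbl] at hme
  rw [← hme, hmain] at hh
  obtain ⟨hpI, hpS⟩ := pair_int H hL (Zf riemannZeta T (2 * T))
  have hPO : PO (rh r') T (2 * T) (Real.log T) =
      Pe (Zf riemannZeta T (2 * T)) * CT r' 0 + 2 * ∫ x in Ioi (0 : ℝ),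
        w x * Pc (Zf riemannZeta T (2 * T)) (2 * Real.pi * x / Real.log T) := by
    rw [← hpS]
    unfold PO
    refine Finset.sum_congr rfl fun s _ => Finset.sum_congr rfl fun s' _ => ?_
    rw [← bl_eq]
    rfl
  rw [hPO] at hh
  have i0 := H.int 0 le_rfl
  simp only [pow_zero, one_mul] at i0
  have hc0 : CT r' 0 = ∫ x in Ioi (0 : ℝ), w x := by
    have := H.eq 0
    rwa [abs_zero] at this
  have hwP := wP_int H
  have hcI : IntegrableOn (fun x => w x * cb T x) (Ioi 0) := cb_int H (by linarith)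
  have hcc : ∫ x in Ioi (0 : ℝ), w x * Pc (Zf riemannZeta T (2 * T))
      (2 * Real.pi * x / Real.log T) = nb T * ∫ x in Ioi (0 : ℝ), w x * cb T x := by
    rw [← integral_const_mul]
    congr 1
    funext x
    simp only [cb]
    field_simp
  have e1 : ∫ x in Ioi (0 : ℝ), w x * (1 + 2 * PP x) =
      (∫ x in Ioi (0 : ℝ), w x) + 2 * ∫ x in Ioi (0 : ℝ), w x * PP x := by
    rw [← integral_const_mul, ← integral_add i0 (hwP.const_mul 2)]
    congr 1
    funext x
    ring
  have e2 : ∫ x in Ioi (0 : ℝ), w x * (cb T x - PP x + (mb T - 1) / 2) =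
      (∫ x in Ioi (0 : ℝ), w x * cb T x) - (∫ x in Ioi (0 : ℝ), w x * PP x) +
        (mb T - 1) / 2 * ∫ x in Ioi (0 : ℝ), w x := by
    have i2 : IntegrableOn (fun x => w x * cb T x - w x * PP x) (Ioi 0) := hcI.sub hwP
    rw [← integral_const_mul, ← integral_sub hcI hwP, ← integral_add i2 (i0.const_mul _)]
    congr 1
    funext x
    ring
  have hmb : Pe (Zf riemannZeta T (2 * T)) = nb T * mb T := by
    unfold mb
    field_simp
  rw [hcc, hc0, hmb, e1] at hh
  have hnb' : (NN riemannZeta T (2 * T) : ℝ) = nb T := rfl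
  rw [hnb'] at hh
  rw [e2]
  set X := ∫ x in Ioi (0 : ℝ), w x * cb T x
  set Y := ∫ x in Ioi (0 : ℝ), w x * PP x
  set W := ∫ x in Ioi (0 : ℝ), w x
  have e3 : nb T * mb T * W + 2 * (nb T * X) - nb T * (W + 2 * Y) =
      (2 * nb T) * (X - Y + (mb T - 1) / 2 * W) := by ring
  rw [e3, abs_mul, abs_of_pos (by positivity : 0 < 2 * nb T)] at hh
  have h5 : 2 * |X - Y + (mb T - 1) / 2 * W| ≤ ε := by
    refine le_of_mul_le_mul_right ?_ hn0
    linarith
  have h6 := abs_nonneg (X - Y + (mb T - 1) / 2 * W)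
  linarith

/-- the averaged identity under RH -/
theorem agg_RH (RH : RiemannHypothesis) {w r : ℝ → ℝ} {δ : ℝ} (H : Test w r δ) (h0 : 0 < δ)
    (h1 : δ < 1) {ε : ℝ} (hε : 0 < ε) : ∃ T0 : ℝ, ∀ T : ℝ, T0 ≤ T →
      |∫ x in Ioi (0 : ℝ), w x * (ct T x - PP x + (mt T - 1) / 2)| ≤ ε := by
  obtain ⟨T1, hT1, hb⟩ := block_RH RH H h0 h1 (show 0 < ε / 2 by positivity)
  obtain ⟨T2, hV2⟩ := ct_int H
  obtain ⟨T3, hT3, hV⟩ := Vj_large T1
  set Cw : ℝ := ∫ x in Ioi (0 : ℝ), w x * (PP x + 1 / 2) with hCw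
  have iw := w_int H
  have iwP := wP_int H
  obtain ⟨T4, hT4⟩ := half_small (show 0 < ε / 2 / (|Cw| + 1) by positivity)
  refine ⟨max (max T2 T3) T4, fun T hT => ?_⟩
  have g1 : T2 ≤ T := (le_max_left _ _).trans ((le_max_left _ _).trans hT)
  have g2 : T3 ≤ T := (le_max_right _ _).trans ((le_max_left _ _).trans hT)
  have g3 := hT4 T ((le_max_right _ _).trans hT)
  obtain ⟨ict, ect⟩ := hV2 T g1
  have hterm : ∀ j < Jn T, |∫ x in Ioi (0 : ℝ), w x * (cb (Vj T j) x - PP x +
      (mb (Vj T j) - 1) / 2)| ≤ ε / 2 := fun j hj => hb _ (hV T g2 j hj)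
  have hblk : ∀ j < Jn T, ∫ x in Ioi (0 : ℝ), w x * (cb (Vj T j) x - PP x +
      (mb (Vj T j) - 1) / 2) = (∫ x in Ioi (0 : ℝ), w x * cb (Vj T j) x) -
        (∫ x in Ioi (0 : ℝ), w x * PP x) + (mb (Vj T j) - 1) / 2 * ∫ x in Ioi (0 : ℝ), w x := by
    intro j hj
    have hcI := cb_int H (T := Vj T j) (by linarith [hV T g2 j hj])
    have i2 : IntegrableOn (fun x => w x * cb (Vj T j) x - w x * PP x) (Ioi 0) := hcI.sub iwP
    rw [← integral_const_mul, ← integral_sub hcI iwP, ← integral_add i2 (iw.const_mul _)]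
    congr 1
    funext x
    ring
  have havg : |avg (fun V => ∫ x in Ioi (0 : ℝ), w x * (cb V x - PP x + (mb V - 1) / 2)) T| ≤
      ε / 2 := by
    refine (avg_abs _ T).trans ?_
    refine (avg_le (G := fun _ => ε / 2) hterm).trans ?_
    rw [avg_const]
    have := half_pow_le (Jn T)
    nlinarith
  have e1 : avg (fun V => ∫ x in Ioi (0 : ℝ), w x * (cb V x - PP x + (mb V - 1) / 2)) T =
      (∫ x in Ioi (0 : ℝ), w x * ct T x) -
        (1 - (1 / 2) ^ Jn T) * (∫ x in Ioi (0 : ℝ), w x * PP x) +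
        (mt T - (1 - (1 / 2) ^ Jn T)) / 2 * ∫ x in Ioi (0 : ℝ), w x := by
    have e2 : avg (fun V => ∫ x in Ioi (0 : ℝ), w x * (cb V x - PP x + (mb V - 1) / 2)) T =
        avg (fun V => ((∫ x in Ioi (0 : ℝ), w x * cb V x) -
        (∫ x in Ioi (0 : ℝ), w x * PP x)) + (mb V - 1) / 2 * ∫ x in Ioi (0 : ℝ), w x) T := by
      unfold avg
      refine Finset.sum_congr rfl fun j hj => ?_
      have e := hblk j (Finset.mem_range.1 hj)
      exact congrArg (fun z => (1 / 2 : ℝ) ^ (j + 1) * z) e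
    rw [e2, avg_add, avg_sub, avg_const, ← ect]
    have e3 : avg (fun V => (mb V - 1) / 2 * ∫ x in Ioi (0 : ℝ), w x) T =
        (mt T - (1 - (1 / 2) ^ Jn T)) / 2 * ∫ x in Ioi (0 : ℝ), w x := by
      have : (fun V => (mb V - 1) / 2 * ∫ x in Ioi (0 : ℝ), w x) =
          fun V => ((∫ x in Ioi (0 : ℝ), w x) / 2) * (mb V - 1) := by
        funext V
        ring
      rw [this, avg_mul, avg_sub, avg_const]
      unfold N804.mt
      ring
    rw [e3]
  have e4 : ∫ x in Ioi (0 : ℝ), w x * (ct T x - PP x + (mt T - 1) / 2) =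
      (∫ x in Ioi (0 : ℝ), w x * ct T x) - (∫ x in Ioi (0 : ℝ), w x * PP x) +
        (mt T - 1) / 2 * ∫ x in Ioi (0 : ℝ), w x := by
    have i2 : IntegrableOn (fun x => w x * ct T x - w x * PP x) (Ioi 0) := ict.sub iwP
    rw [← integral_const_mul, ← integral_sub ict iwP, ← integral_add i2 (iw.const_mul _)]
    congr 1
    funext x
    ring
  have e5 : Cw = (∫ x in Ioi (0 : ℝ), w x * PP x) + (1 / 2) * ∫ x in Ioi (0 : ℝ), w x := by
    rw [hCw, ← integral_const_mul, ← integral_add iwP (iw.const_mul _)]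
    congr 1
    funext x
    ring
  rw [e4]
  rw [e1] at havg
  set X := ∫ x in Ioi (0 : ℝ), w x * ct T x
  set Y := ∫ x in Ioi (0 : ℝ), w x * PP x
  set W := ∫ x in Ioi (0 : ℝ), w x
  have e6 : X - Y + (mt T - 1) / 2 * W = (X - (1 - (1 / 2) ^ Jn T) * Y +
      (mt T - (1 - (1 / 2) ^ Jn T)) / 2 * W) - (1 / 2) ^ Jn T * Cw := by
    rw [e5]
    ring
  rw [e6]
  refine (abs_sub _ _).trans ?_
  have h5 : |(1 / 2 : ℝ) ^ Jn T * Cw| ≤ ε / 2 := by
    rw [abs_mul, abs_of_nonneg (half_pow_le _).1]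
    calc (1 / 2 : ℝ) ^ Jn T * |Cw| ≤ ε / 2 / (|Cw| + 1) * |Cw| := by gcongr
      _ ≤ ε / 2 / (|Cw| + 1) * (|Cw| + 1) := by gcongr; linarith
      _ = ε / 2 := by field_simp
  linarith

/-- passage to the limit -/
theorem lim_RH (RH : RiemannHypothesis) {T : ℕ → ℝ} (hT : Tendsto T atTop atTop) {Φ : ℝ → ℝ}
    {μ : ℝ} (tΦ : ∀ᵐ x, Tendsto (fun k => ct (T k) x) atTop (𝓝 (Φ x)))
    (tμ : Tendsto (fun k => mt (T k)) atTop (𝓝 μ)) {w r : ℝ → ℝ} {δ : ℝ} (H : Test w r δ)
    (h0 : 0 < δ) (h1 : δ < 1) :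
    ∫ x in Ioi (0 : ℝ), w x * (Φ x - PP x + (μ - 1) / 2) = 0 := by
  obtain ⟨B, T0, hB, hT0, hp⟩ := ct_props
  obtain ⟨N, hN⟩ := eventually_atTop.1 (hT.eventually_ge_atTop T0)
  set T1 : ℕ → ℝ := fun k => T (k + N) with hT1
  have hT1t : Tendsto T1 atTop atTop := hT.comp (tendsto_add_atTop_nat N)
  have hP := fun k => hp (T1 k) (hN (k + N) (by omega))
  have hint : Tendsto (fun k => ∫ x in Ioi (0 : ℝ), w x * (ct (T1 k) x - PP x +
        (mt (T1 k) - 1) / 2)) atTop
        (𝓝 (∫ x in Ioi (0 : ℝ), w x * (Φ x - PP x + (μ - 1) / 2))) := by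
    refine tendsto_integral_of_dominated_convergence
      (fun x => (B + 1) * (x ^ 1 * |w x|) + (2 * B + 1) * (x ^ 0 * |w x|)) (fun k => ?_) ?_
      (fun k => ?_) ?_
    · have h1 := (hP k).1.measurable
      have h2 := H.cont.measurable
      have h3 := PP_cont.measurable
      exact (h2.mul ((h1.sub h3).add_const _)).aestronglyMeasurable
    · exact ((H.inta 1 le_rfl).const_mul _).add ((H.inta 0 le_rfl).const_mul _)
    · refine (ae_restrict_iff' measurableSet_Ioi).2 (ae_of_all _ fun x hx => ?_)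
      have hx0 : 0 ≤ x := le_of_lt hx
      have hw := abs_nonneg (w x)
      obtain ⟨c1, c2⟩ := (hP k).2.1 x hx0
      have c3 := PP_nonneg hx0
      have c4 := PP_le hx0
      have c5 := (hP k).2.2.1
      have c6 := (hP k).2.2.2.1
      rw [Real.norm_eq_abs, abs_mul]
      have h7 : |ct (T1 k) x - PP x + (mt (T1 k) - 1) / 2| ≤
          (B + 1) * x + (2 * B + 1) := by
        rw [abs_le]
        constructor <;> nlinarith
      calc |w x| * |ct (T1 k) x - PP x + (mt (T1 k) - 1) / 2| ≤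
          |w x| * ((B + 1) * x + (2 * B + 1)) := by gcongr
        _ = _ := by ring
    · refine ae_restrict_of_ae ?_
      filter_upwards [tΦ] with x hx
      have hx' : Tendsto (fun k => ct (T1 k) x) atTop (𝓝 (Φ x)) :=
        hx.comp (tendsto_add_atTop_nat N)
      have tμ' : Tendsto (fun k => mt (T1 k)) atTop (𝓝 μ) := tμ.comp (tendsto_add_atTop_nat N)
      exact ((hx'.sub_const _).add ((tμ'.sub_const 1).div_const 2)).const_mul _
  have hall : ∀ ε : ℝ, 0 < ε →
      |∫ x in Ioi (0 : ℝ), w x * (Φ x - PP x + (μ - 1) / 2)| ≤ ε := by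
    intro ε hε
    obtain ⟨T2, hT2⟩ := agg_RH RH H h0 h1 hε
    refine le_of_tendsto hint.abs ?_
    filter_upwards [hT1t.eventually_ge_atTop T2] with k hk using hT2 _ hk
  have h2 : |∫ x in Ioi (0 : ℝ), w x * (Φ x - PP x + (μ - 1) / 2)| ≤ 0 :=
    le_of_forall_pos_le_add fun ε hε => by rw [zero_add]; exact hall ε hε
  exact abs_eq_zero.1 (le_antisymm h2 (abs_nonneg _))

end Pool.Agent.D0H51.AG
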