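import Pool.Agent.D0H51.AG.Dl

/-! # The lower bound from the positivity of the form factor -/

set_option autoImplicit false

open MeasureTheory Set Filter Topology

namespace Pool.Agent.D0H51.AG

open Pool.Agent.N804

lemma Kf_def' (x : ℝ) : Real.sinc (Real.pi * x) ^ 2 = Kf x := rfl

lemma sq_half (x : ℝ) : sq (1 / 2) x ^ 2 = Kf x := by
  unfold sq Kf
  rw [show 2 * Real.pi * (1 / 2) * x = Real.pi * x by ring]

lemma CT_int {r : ℝ → ℝ} (H : SC r) : Integrable (CT r) := by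
  obtain ⟨δ, -, hz⟩ := SC.bound H
  have : InK δ (CT r) := ⟨r, fun _ => 0, H, SC.zero, hz, fun _ _ => rfl, fun x => by
    rw [ST_zero, add_zero]⟩
  exact this.int

/-- the mass against the Fejér kernel -/
lemma CT_Kf {r : ℝ → ℝ} (H : SC r) : ∫ x, CT r x * Kf x = av (1 / 2) (av (1 / 2) r) 0 := by
  obtain ⟨δ, -, hz⟩ := SC.bound H
  have h1 := av_SC (c := 1 / 2) (by norm_num) H hz
  have hz1 : ∀ α, δ + 1 / 2 < |α| → av (1 / 2) r α = 0 := fun α hα =>
    av_zero (by norm_num) hz hα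
  have h2 := av_SC (c := 1 / 2) (by norm_num) h1 hz1
  rw [← CT_mass' h2]
  congr 1
  funext x
  rw [CT_av (by norm_num) h1 hz1, CT_av (by norm_num) H hz, ← sq_half]
  ring

lemma av_nonneg {c : ℝ} (hc : 0 < c) {r : ℝ → ℝ} (h : ∀ α, 0 ≤ r α) (α : ℝ) : 0 ≤ av c r α := by
  unfold av
  refine mul_nonneg (by positivity) ?_
  exact intervalIntegral.integral_nonneg (by linarith) fun t _ => h t

lemma cut {κ : ℝ} (h0 : 0 < κ) (h1 : κ < 1) : ∃ χ : ℝ → ℝ, SC χ ∧ (∀ α, χ (-α) = χ α) ∧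
    (∀ α, 0 ≤ χ α) ∧ (∀ α, χ α ≤ 1) ∧ (∀ α, |α| ≤ κ → χ α = 1) ∧
    ∀ α, (1 + κ) / 2 < |α| → χ α = 0 := by
  let f : ContDiffBump (0 : ℝ) := ⟨κ, (1 + κ) / 2, h0, by linarith⟩
  refine ⟨f, ⟨f.contDiff, f.hasCompactSupport⟩, fun α => f.neg α, fun α => f.nonneg,
    fun α => f.le_one, fun α hα => ?_, fun α hα => ?_⟩
  · refine f.one_of_mem_closedBall ?_
    rwa [mem_closedBall_zero_iff, Real.norm_eq_abs]
  · refine f.zero_of_le_dist ?_
    rw [dist_zero_right, Real.norm_eq_abs]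
    exact hα.le

lemma SC.mul {a b : ℝ → ℝ} (H : SC a) (H' : SC b) : SC fun α => a α * b α :=
  ⟨H.sm.mul H'.sm, H.cs.mul_right⟩

lemma SC.sub {a b : ℝ → ℝ} (H : SC a) (H' : SC b) : SC fun α => a α - b α :=
  ⟨H.sm.sub H'.sm, H.cs.sub H'.cs⟩

lemma dr_sub {a b : ℝ → ℝ} (H : SC a) (H' : SC b) (x : ℝ) :
    dr (fun α => a α - b α) x = dr a x - dr b x := by
  unfold dr
  have h := ST_add (SC.mulid H) (SC.smul (SC.mulid H') (-1)) x
  rw [ST_smul] at h
  have e : (fun α => α * (a α - b α)) = fun α => α * a α + -1 * (α * b α) := by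
    funext α
    ring
  rw [e, h]
  ring

/-- **spectral positivity** -/
theorem spos {D : ℝ → ℝ} {K : ℝ} (L : LD D K) {κ : ℝ} (h1 : κ < 1) {χ : ℝ → ℝ}
    (hχ : SC χ) (hχ1 : ∀ α, χ α ≤ 1) (hχ2 : ∀ α, |α| ≤ κ → χ α = 1)
    (hχ3 : ∀ α, (1 + κ) / 2 < |α| → χ α = 0) (h0 : 0 < κ) {r : ℝ → ℝ} (hr : SC r)
    (hpos : ∀ α, κ ≤ |α| → 0 ≤ r α) :
    -(∫ α, (r α - χ α * r α)) ≤ ∫ x, dr r x * D x := by
  have H1 : SC fun α => χ α * r α := SC.mul hχ hr
  have H2 : SC fun α => r α - χ α * r α := SC.sub hr H1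
  have hn : ∀ α, 0 ≤ r α - χ α * r α := by
    intro α
    rcases le_total κ |α| with h | h
    · have h2 := hpos α h
      have h3 := hχ1 α
      nlinarith
    · rw [hχ2 α h]
      linarith
  have e1 : ∫ x, dr (fun α => χ α * r α) x * D x = 0 := by
    refine L.low _ H1 ((1 + κ) / 2) (by linarith) (by linarith) fun α hα => ?_
    show χ α * r α = 0
    rw [hχ3 α hα, zero_mul]
  have e2 := L.pos _ H2 (PPos_of_nonneg H2 hn)
  have e3 : ∫ x, dr (fun α => r α - χ α * r α) x * D x =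
      (∫ x, dr r x * D x) - ∫ x, dr (fun α => χ α * r α) x * D x := by
    rw [← integral_sub (int_mulD L.meas L.bd (dr_int hr)) (int_mulD L.meas L.bd (dr_int H1))]
    congr 1
    funext x
    rw [dr_sub hr H1]
    ring
  rw [e3, e1, sub_zero] at e2
  refine le_trans ?_ e2
  rw [neg_le_neg_iff]
  have e4 : ∫ u, CT (fun α => r α - χ α * r α) u * (1 - Real.sinc (Real.pi * u) ^ 2) =
      (∫ u, CT (fun α => r α - χ α * r α) u) - ∫ u, CT (fun α => r α - χ α * r α) u * Kf u := by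
    rw [← integral_sub (CT_int H2)]
    · congr 1
      funext u
      rw [Kf_def']
      ring
    · refine Integrable.mono' (CT_int H2).abs
        ((CT_cont H2).mul Kf_cont).aestronglyMeasurable (ae_of_all _ fun u => ?_)
      rw [Real.norm_eq_abs, abs_mul, abs_of_nonneg (Kf_nonneg u)]
      exact mul_le_of_le_one_right (abs_nonneg _) (Kf_le_one u)
  rw [e4, CT_mass' H2, CT_Kf H2]
  have h2 : 0 ≤ av (1 / 2) (av (1 / 2) fun α => r α - χ α * r α) 0 :=
    av_nonneg (by norm_num) (fun α => av_nonneg (by norm_num) hn α) 0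
  have h3 : CT (fun α => r α - χ α * r α) 0 = ∫ α, (r α - χ α * r α) := by
    unfold CT
    congr 1
    funext α
    simp
  have h4 : r 0 - χ 0 * r 0 = 0 := by
    rw [hχ2 0 (by rw [abs_zero]; exact h0.le)]
    ring
  rw [h3, h4]
  linarith

lemma cos_SC {v : ℝ → ℝ} (hv : SC v) (x : ℝ) : SC fun α => v α * Real.cos (2 * Real.pi * α * x) :=
  ⟨hv.sm.mul (by fun_prop), hv.cs.mul_right⟩

lemma dr_cos {v : ℝ → ℝ} (hv : SC v) (x y : ℝ) :
    dr (fun α => v α * Real.cos (2 * Real.pi * α * x)) y =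
      (1 / 2) * (dr v (y - x) + dr v (y + x)) := by
  have hm := SC.mulid hv
  unfold dr N804.ST
  have e : ∀ α : ℝ, α * (v α * Real.cos (2 * Real.pi * α * x)) * Real.sin (2 * Real.pi * α * y) =
      (1 / 2) * (α * v α * Real.sin (2 * Real.pi * α * (y - x))) +
      (1 / 2) * (α * v α * Real.sin (2 * Real.pi * α * (y + x))) := by
    intro α
    rw [mul_sub, mul_add, Real.sin_sub, Real.sin_add]
    ring
  simp_rw [e]
  rw [integral_add ((hm.int_sin _).const_mul _) ((hm.int_sin _).const_mul _),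
    integral_const_mul, integral_const_mul]
  ring

/-- **the lower bound** -/
theorem sBound {D : ℝ → ℝ} {K : ℝ} (L : LD D K) {κ : ℝ} (h1 : κ < 1) {χ : ℝ → ℝ}
    (hχ : SC χ) (hχ1 : ∀ α, χ α ≤ 1) (hχ2 : ∀ α, |α| ≤ κ → χ α = 1)
    (hχ3 : ∀ α, (1 + κ) / 2 < |α| → χ α = 0) (h0 : 0 < κ) {v : ℝ → ℝ} (hv : SC v)
    (hC : ∀ x, 0 ≤ CT v x) (hC0 : CT v 0 = 0) (hneg : ∀ α, κ ≤ |α| → v α ≤ 0) (x : ℝ) :
    (∫ u, CT v u * Kf u) + (∫ α, (v α - χ α * v α)) - CT (fun α => v α - χ α * v α) x ≤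
      (∫ u, CT v u) + ∫ u, dr v u * D (x + u) := by
  have Hc := cos_SC hv x
  have HR : SC fun α => v α * Real.cos (2 * Real.pi * α * x) - v α := SC.sub Hc hv
  have H2 : SC fun α => v α - χ α * v α := SC.sub hv (SC.mul hχ hv)
  have a1 := spos L h1 hχ hχ1 hχ2 hχ3 h0 HR fun α hα => by
    show 0 ≤ v α * Real.cos (2 * Real.pi * α * x) - v α
    have h2 := hneg α hα
    have h3 := Real.cos_le_one (2 * Real.pi * α * x)
    nlinarith
  have a2 := L.pos v hv (PPos_of_CT hC)
  have i1 := int_mulD L.meas L.bd (dr_int hv)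
  have hDm : ∀ s : ℝ, Measurable fun y => D (s + y) := fun s => L.meas.comp (by fun_prop)
  have e1 : ∫ y, dr (fun α => v α * Real.cos (2 * Real.pi * α * x) - v α) y * D y =
      (∫ u, dr v u * D (x + u)) - ∫ u, dr v u * D u := by
    have j1 : Integrable fun y => dr v (y - x) * D y :=
      int_mulD L.meas L.bd ((dr_int hv).comp_sub_right x)
    have j2 : Integrable fun y => dr v (y + x) * D y :=
      int_mulD L.meas L.bd ((dr_int hv).comp_add_right x)
    have e2 : ∫ y, dr v (y - x) * D y = ∫ u, dr v u * D (x + u) := by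
      rw [← integral_add_right_eq_self (fun y => dr v (y - x) * D y) x]
      congr 1
      funext u
      rw [add_sub_cancel_right, add_comm u x]
    have e3 : ∫ y, dr v (y + x) * D y = ∫ u, dr v u * D (x + u) := by
      rw [← e2, ← integral_neg_eq_self]
      congr 1
      funext y
      rw [L.odd, show -y + x = -(y - x) by ring, dr_neg]
      ring
    have j3 : Integrable fun y => (1 / 2) * (dr v (y - x) * D y) + (1 / 2) * (dr v (y + x) * D y) :=
      (j1.const_mul _).add (j2.const_mul _)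
    have e4 : ∫ y, dr (fun α => v α * Real.cos (2 * Real.pi * α * x) - v α) y * D y =
        (∫ y, ((1 / 2) * (dr v (y - x) * D y) + (1 / 2) * (dr v (y + x) * D y))) -
          ∫ y, dr v y * D y := by
      rw [← integral_sub j3 i1]
      congr 1
      funext y
      rw [dr_sub Hc hv, dr_cos hv]
      ring
    rw [e4, integral_add (j1.const_mul _) (j2.const_mul _), integral_const_mul,
      integral_const_mul, e2, e3]
    ring
  rw [e1] at a1
  have e5 : ∫ α, (v α * Real.cos (2 * Real.pi * α * x) - v α -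
      χ α * (v α * Real.cos (2 * Real.pi * α * x) - v α)) =
      CT (fun α => v α - χ α * v α) x - ∫ α, (v α - χ α * v α) := by
    unfold CT
    rw [← integral_sub (H2.int_cos x) (H2.cont.integrable_of_hasCompactSupport H2.cs)]
    congr 1
    funext α
    ring
  rw [e5] at a1
  have e6 : ∫ u, CT v u * (1 - Real.sinc (Real.pi * u) ^ 2) =
      (∫ u, CT v u) - ∫ u, CT v u * Kf u := by
    rw [← integral_sub (CT_int hv)]
    · congr 1
      funext u
      rw [Kf_def']
      ring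
    · refine Integrable.mono' (CT_int hv).abs
        ((CT_cont hv).mul Kf_cont).aestronglyMeasurable (ae_of_all _ fun u => ?_)
      rw [Real.norm_eq_abs, abs_mul, abs_of_nonneg (Kf_nonneg u)]
      exact mul_le_of_le_one_right (abs_nonneg _) (Kf_le_one u)
  rw [e6, hC0] at a2
  linarith

end Pool.Agent.D0H51.AG
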