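import Pool.Agent.D0H51.AG.Gx2
import Pool.Agent.D0H51.AG.GapMain

/-! # The representation formula for functions with a spectral gap -/

set_option autoImplicit false

open MeasureTheory Set Filter Topology

namespace Pool.Agent.D0H51.AG

open Pool.Agent.N804

lemma InK.congr {δ : ℝ} {k k' : ℝ → ℝ} (H : InK δ k) (h : ∀ x, k' x = k x) : InK δ k' := by
  obtain ⟨b, c, hb, hc, h1, h2, h3⟩ := H
  exact ⟨b, c, hb, hc, h1, h2, fun x => by rw [h, h3]⟩

lemma InK.mulcos {δ : ℝ} {k : ℝ → ℝ} (H : InK δ k) :
    InK (δ + 1) fun x => Real.cos (2 * Real.pi * x) * k x := by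
  obtain ⟨b, c, hb, hc, h1, h2, h3⟩ := H
  have hz : ∀ f : ℝ → ℝ, (∀ α, δ < |α| → f α = 0) → ∀ s : ℝ, |s| = 1 → ∀ α, δ + 1 < |α| →
      f (α + s) = 0 := by
    intro f hf s hs α hα
    refine hf _ ?_
    have := abs_sub_abs_le_abs_sub α (-s)
    rw [abs_neg, hs, sub_neg_eq_add] at this
    linarith
  refine ⟨fun α => (1 / 2) * b (α + 1) + (1 / 2) * b (α + -1),
    fun α => (1 / 2) * c (α + 1) + (1 / 2) * c (α + -1),
    SC.add (SC.smul (SC.tr hb 1) _) (SC.smul (SC.tr hb (-1)) _),
    SC.add (SC.smul (SC.tr hc 1) _) (SC.smul (SC.tr hc (-1)) _), fun α hα => ?_, fun α hα => ?_,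
    fun x => ?_⟩
  · show (1 / 2) * b (α + 1) + (1 / 2) * b (α + -1) = 0
    rw [hz b h1 1 (by norm_num) α hα, hz b h1 (-1) (by norm_num) α hα]
    ring
  · show (1 / 2) * c (α + 1) + (1 / 2) * c (α + -1) = 0
    rw [hz c h2 1 (by norm_num) α hα, hz c h2 (-1) (by norm_num) α hα]
    ring
  · rw [CT_add (SC.smul (SC.tr hb 1) _) (SC.smul (SC.tr hb (-1)) _),
      ST_add (SC.smul (SC.tr hc 1) _) (SC.smul (SC.tr hc (-1)) _), CT_smul, CT_smul, ST_smul,
      ST_smul, CT_tr hb, CT_tr hb, ST_tr hc, ST_tr hc]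
    show Real.cos (2 * Real.pi * x) * k x = _
    rw [h3, show 2 * Real.pi * -1 * x = -(2 * Real.pi * x) by ring,
      show 2 * Real.pi * 1 * x = 2 * Real.pi * x by ring, Real.cos_neg, Real.sin_neg]
    ring

lemma InK.mulKf {δ : ℝ} {k : ℝ → ℝ} (H : InK δ k) (s : ℝ) :
    InK (δ + 1) fun x => Kf (x - s) * k x := by
  have h1 := (InK.mulsqn (c := 1 / 2) (by norm_num) (H.shift (-s)) 2).shift s
  have e : δ + ((2 : ℕ) : ℝ) * (1 / 2) = δ + 1 := by push_cast; ring
  rw [e] at h1
  refine h1.congr fun x => ?_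
  show Kf (x - s) * k x = sq (1 / 2) (x - s) ^ 2 * k (x - s - -s)
  unfold sq Kf
  rw [show 2 * Real.pi * (1 / 2) * (x - s) = Real.pi * (x - s) by ring,
    show x - s - -s = x by ring]

lemma InK.zero (δ : ℝ) : InK δ fun _ => 0 :=
  ⟨fun _ => 0, fun _ => 0, SC.zero, SC.zero, fun _ _ => rfl, fun _ _ => rfl, fun x => by
    rw [CT_zero, ST_zero, add_zero]⟩

lemma InK.sum {δ : ℝ} {ι : Type*} (s : Finset ι) {k : ι → ℝ → ℝ} (h : ∀ i, InK δ (k i)) :
    InK δ fun x => ∑ i ∈ s, k i x := by
  classical
  induction s using Finset.induction_on with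
  | empty => exact (InK.zero δ).congr fun x => by simp
  | insert a s ha ih =>
    exact ((h a).add ih).congr fun x => by rw [Finset.sum_insert ha]

lemma InK.mulLN {δ : ℝ} {k : ℝ → ℝ} (H : InK δ k) (N : ℕ) :
    InK (δ + 1) fun x => LN N x * k x := by
  have h1 : InK (δ + 1) fun x => ∑ n ∈ Finset.Icc (-(N : ℤ)) N, sg n * (Kf (x - n) * k x) :=
    InK.sum _ fun n => (H.mulKf n).smul (sg n)
  have h2 := h1.mulx
  have h3 := (H.mono (show δ ≤ δ + 1 by linarith)).smul (1 / Real.pi ^ 2)
  have h4 := H.mulcos.smul (-(1 / Real.pi ^ 2))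
  refine ((h2.add h3).add h4).congr fun x => ?_
  unfold LN
  have e : ∑ n ∈ Finset.Icc (-(N : ℤ)) N, sg n * (Kf (x - n) * k x) =
      (∑ n ∈ Finset.Icc (-(N : ℤ)) N, sg n * Kf (x - n)) * k x := by
    rw [Finset.sum_mul]
    refine Finset.sum_congr rfl fun n _ => ?_
    ring
  rw [e]
  ring

/-- a shifted factor -/
lemma InK.mulLNs {δ : ℝ} {k : ℝ → ℝ} (H : InK δ k) (N : ℕ) (h : ℝ) :
    InK (δ + 1) fun x => LN N (x + h) * k x := by
  have h1 := ((H.shift h).mulLN N).shift (-h)
  refine h1.congr fun x => ?_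
  show LN N (x + h) * k x = LN N (x - -h) * k (x - -h - h)
  rw [show x - -h = x + h by ring, show x + h - h = x by ring]

/-- orthogonality to all the kernels -/
def Orth (E : ℝ → ℝ) (δ : ℝ) : Prop := ∀ k : ℝ → ℝ, InK δ k → ∫ x, k x * E x = 0

lemma InK.reflect {δ : ℝ} {k : ℝ → ℝ} (H : InK δ k) (s : ℝ) : InK δ fun x => k (s - x) := by
  have h1 : InK δ fun x => k (-x) := by
    obtain ⟨b, c, hb, hc, h1, h2, h3⟩ := H
    refine ⟨b, fun α => -1 * c α, hb, SC.smul hc (-1), h1, fun α hα => by
      show -1 * c α = 0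
      rw [h2 α hα, mul_zero], fun x => ?_⟩
    show k (-x) = _
    rw [h3, CT_neg', ST_neg', ST_smul]
    ring
  refine (h1.shift s).congr fun x => ?_
  show k (s - x) = k (-(x - s))
  rw [neg_sub]

lemma Orth.reflect {E : ℝ → ℝ} {δ : ℝ} (H : Orth E δ) (s : ℝ) : Orth (fun u => E (s - u)) δ := by
  intro k hk
  have h := H _ (hk.reflect s)
  rw [← integral_sub_left_eq_self (fun x => k (s - x) * E x) volume s] at h
  rw [← h]
  congr 1
  funext x
  rw [sub_sub_cancel]

/-- the tent -/
noncomputable def tn (h u : ℝ) : ℝ := (|u + h| + |u - h| - 2 * |u|) / (2 * h ^ 2)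

lemma tn_cont (h : ℝ) : Continuous (tn h) := by
  unfold tn
  fun_prop

lemma tn_zero {h u : ℝ} (hh : 0 < h) (hu : h ≤ |u|) : tn h u = 0 := by
  unfold tn
  rcases le_total 0 u with h1 | h1
  · rw [abs_of_nonneg h1] at hu
    rw [abs_of_nonneg h1, abs_of_nonneg (by linarith), abs_of_nonneg (by linarith)]
    ring
  · rw [abs_of_nonpos h1] at hu
    rw [abs_of_nonpos h1, abs_of_nonpos (by linarith), abs_of_nonpos (by linarith)]
    ring

lemma tn_integrable {h : ℝ} (hh : 0 < h) : Integrable (tn h) := by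
  refine Continuous.integrable_of_hasCompactSupport (tn_cont h) ?_
  refine HasCompactSupport.intro (isCompact_Icc (a := -h) (b := h)) fun x hx => tn_zero hh ?_
  by_contra hcon
  push Not at hcon
  exact hx (abs_le.1 hcon.le)

/-- second difference -/
noncomputable def dd (h : ℝ) (f : ℝ → ℝ) (u : ℝ) : ℝ := (f (u + h) + f (u - h) - 2 * f u) / h ^ 2

lemma dd_gg_integrable (h : ℝ) : Integrable (dd h gg) := by
  unfold dd
  exact (((gg_integrable.comp_add_right h).add (gg_integrable.comp_sub_right h)).sub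
    (gg_integrable.const_mul 2)).div_const _

/-- **the representation formula** -/
theorem thmR {E : ℝ → ℝ} {K δ : ℝ} (hE : Measurable E) (hK : ∀ x, |E x| ≤ K) (hδ : 1 < δ)
    (H : Orth E δ) {h : ℝ} (hh : 0 < h) : ∫ u, tn h u * E u = ∫ u, dd h gg u * E u := by
  obtain ⟨b, hb, hb1, hb2, hb3⟩ := moll
  have hK0 : 0 ≤ K := (abs_nonneg _).trans (hK 0)
  -- the kernel
  set Q : ℝ → ℝ := fun u => tn h u - dd h gg u with hQ
  have hQL : ∀ u, Q u = (LL (u + h) + LL (u - h) - 2 * LL u) / (2 * h ^ 2) := by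
    intro u
    rw [hQ]
    unfold tn dd gg
    field_simp
    ring
  have hQint : Integrable Q := (tn_integrable hh).sub (dd_gg_integrable h)
  set ε : ℕ → ℝ := fun j => (δ - 1) / ((j : ℝ) + 1) with hε
  have hεpos : ∀ j, 0 < ε j := fun j => by rw [hε]; have : 0 < δ - 1 := by linarith
                                           positivity
  have hmK : ∀ j, InK (δ - 1) fun x => CT b (ε j * x) := by
    intro j
    refine (InK_scale hb hb1 (hεpos j)).mono ?_
    have h1 : ε j ≤ δ - 1 := by
      rw [hε]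
      have : (0 : ℝ) ≤ j := Nat.cast_nonneg j
      exact div_le_self (by linarith) (by linarith)
    have := hεpos j
    linarith
  have hN0 : ∀ j N, ∫ u, (LN N (u + h) + LN N (u - h) - 2 * LN N u) / (2 * h ^ 2) *
      CT b (ε j * u) * E u = 0 := by
    intro j N
    have h1 := (hmK j).mulLNs N h
    have h2 := (hmK j).mulLNs N (-h)
    have h3 := (hmK j).mulLN N
    have h4 := (((h1.add h2).add (h3.smul (-2))).smul (1 / (2 * h ^ 2))).mono
      (δ' := δ) (by linarith)
    rw [← H _ h4]
    congr 1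
    funext u
    rw [show u + -h = u - h by ring]
    ring
  have hj0 : ∀ j, ∫ u, Q u * CT b (ε j * u) * E u = 0 := by
    intro j
    have hlim : Tendsto (fun N : ℕ => ∫ u, (LN N (u + h) + LN N (u - h) - 2 * LN N u) /
        (2 * h ^ 2) * CT b (ε j * u) * E u) atTop (𝓝 (∫ u, Q u * CT b (ε j * u) * E u)) := by
      have i1 := (hmK j).int
      have i2 := (hmK j).mulx.int
      have hcm : Continuous fun x => CT b (ε j * x) := (hmK j).cont
      refine tendsto_integral_of_dominated_convergence
        (fun u => (1 / (2 * h ^ 2)) * ((4 + 2 * h) * |CT b (ε j * u)| +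
          4 * |u * CT b (ε j * u)|) * K) (fun N => ?_) ?_ (fun N => ?_) ?_
      · refine AEStronglyMeasurable.mul (Continuous.aestronglyMeasurable ?_) hE.aestronglyMeasurable
        have hLN : Continuous (LN N) := by
          unfold LN
          have hc : Continuous fun x : ℝ => ∑ n ∈ Finset.Icc (-(N : ℤ)) N, sg n * Kf (x - n) := by
            have := Kf_cont
            exact continuous_finsetSum _ fun n _ => by fun_prop
          fun_prop
        fun_prop
      · exact (((i1.abs.const_mul _).add (i2.abs.const_mul _)).const_mul _).mul_const _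
      · refine ae_of_all _ fun u => ?_
        rw [Real.norm_eq_abs, abs_mul, abs_mul, abs_div, abs_of_pos (by positivity : 0 < 2 * h ^ 2)]
        have a1 := LN_bd N (u + h)
        have a2 := LN_bd N (u - h)
        have a3 := LN_bd N u
        have a4 := abs_add_le u h
        have a5 : |u - h| ≤ |u| + |h| := abs_sub u h
        rw [abs_of_pos hh] at a4 a5
        have a6 : |LN N (u + h) + LN N (u - h) - 2 * LN N u| ≤ (4 + 2 * h) + 4 * |u| := by
          calc |LN N (u + h) + LN N (u - h) - 2 * LN N u| ≤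
                |LN N (u + h) + LN N (u - h)| + |2 * LN N u| := abs_sub _ _
            _ ≤ |LN N (u + h)| + |LN N (u - h)| + 2 * |LN N u| := by
                rw [abs_mul, abs_two]
                have := abs_add_le (LN N (u + h)) (LN N (u - h))
                linarith
            _ ≤ _ := by linarith
        have a7 := hK u
        have a8 : |LN N (u + h) + LN N (u - h) - 2 * LN N u| / (2 * h ^ 2) * |CT b (ε j * u)| ≤
            (1 / (2 * h ^ 2)) * ((4 + 2 * h) * |CT b (ε j * u)| + 4 * |u * CT b (ε j * u)|) := by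
          rw [abs_mul u]
          have : (1 / (2 * h ^ 2)) * ((4 + 2 * h) * |CT b (ε j * u)| + 4 * (|u| * |CT b (ε j * u)|)) =
              ((4 + 2 * h) + 4 * |u|) / (2 * h ^ 2) * |CT b (ε j * u)| := by ring
          rw [this]
          gcongr
        exact mul_le_mul a8 a7 (abs_nonneg _) (by positivity)
      · refine ae_of_all _ fun u => ?_
        refine Tendsto.mul_const _ (Tendsto.mul_const _ ?_)
        rw [hQL]
        exact (((LN_lim (u + h)).add (LN_lim (u - h))).sub ((LN_lim u).const_mul 2)).div_const _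
    have h0 : (fun N : ℕ => ∫ u, (LN N (u + h) + LN N (u - h) - 2 * LN N u) /
        (2 * h ^ 2) * CT b (ε j * u) * E u) = fun _ => 0 := funext fun N => hN0 j N
    rw [h0] at hlim
    exact tendsto_nhds_unique hlim tendsto_const_nhds |>.symm ▸ rfl
  have hfin : ∫ u, Q u * E u = 0 := by
    have hCT : Continuous (CT b) := CT_cont hb
    have hCT1 : ∀ x, |CT b x| ≤ 1 := by
      intro x
      unfold CT
      calc |∫ α, b α * Real.cos (2 * Real.pi * α * x)| ≤ ∫ α, |b α * Real.cos (2 * Real.pi * α * x)| :=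
            abs_integral_le_integral_abs
        _ ≤ ∫ α, b α := by
            refine integral_mono (hb.int_cos x).abs (hb.cont.integrable_of_hasCompactSupport hb.cs)
              fun α => ?_
            show |b α * Real.cos (2 * Real.pi * α * x)| ≤ b α
            rw [abs_mul, abs_of_nonneg (hb2 α)]
            exact mul_le_of_le_one_right (hb2 α) (Real.abs_cos_le_one _)
        _ = 1 := hb3
    have hCT0 : CT b 0 = 1 := by
      unfold CT
      rw [← hb3]
      congr 1
      funext α
      simp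
    have hlim : Tendsto (fun j : ℕ => ∫ u, Q u * CT b (ε j * u) * E u) atTop
        (𝓝 (∫ u, Q u * 1 * E u)) := by
      refine tendsto_integral_of_dominated_convergence (fun u => |Q u| * K) (fun j => ?_)
        (hQint.abs.mul_const K) (fun j => ?_) ?_
      · refine (hQint.aestronglyMeasurable.mul ?_).mul hE.aestronglyMeasurable
        exact (hCT.comp (by fun_prop)).aestronglyMeasurable
      · refine ae_of_all _ fun u => ?_
        rw [Real.norm_eq_abs, abs_mul, abs_mul]
        refine mul_le_mul ?_ (hK u) (abs_nonneg _) (abs_nonneg _)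
        exact mul_le_of_le_one_right (abs_nonneg _) (hCT1 _)
      · refine ae_of_all _ fun u => ?_
        refine Tendsto.mul_const _ (Tendsto.const_mul _ ?_)
        have h1 : Tendsto (fun j : ℕ => ε j * u) atTop (𝓝 (0 * u)) := by
          refine Tendsto.mul_const _ ?_
          have := (tendsto_one_div_add_atTop_nhds_zero_nat (𝕜 := ℝ)).const_mul (δ - 1)
          rw [mul_zero] at this
          refine this.congr fun j => ?_
          rw [hε]
          ring
        rw [zero_mul] at h1
        have h2 := (hCT.tendsto 0).comp h1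
        rw [hCT0] at h2
        exact h2
    have h0 : (fun j : ℕ => ∫ u, Q u * CT b (ε j * u) * E u) = fun _ => 0 := funext hj0
    rw [h0] at hlim
    have := tendsto_nhds_unique hlim tendsto_const_nhds
    simpa using this
  have e : ∫ u, Q u * E u = (∫ u, tn h u * E u) - ∫ u, dd h gg u * E u := by
    rw [← integral_sub (int_mulD hE hK (tn_integrable hh)) (int_mulD hE hK (dd_gg_integrable h))]
    congr 1
    funext u
    rw [hQ]
    ring
  rw [e] at hfin
  linarith

end Pool.Agent.D0H51.AG
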