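import Pool.Agent.D0H51.AG.UKer

/-! # Smoothed values of a function with small low frequencies -/

set_option autoImplicit false

open MeasureTheory Set Filter Topology

namespace Pool.Agent.D0H51.AG

open Pool.Agent.N804

/-- a bounded odd function with small low frequencies -/
structure GapU (D : ℝ → ℝ) (K A : ℝ) : Prop where
  meas : Measurable D
  bd : ∀ x, |D x| ≤ K
  lip : ∀ x y, x ≤ y → D x - D y ≤ y - x
  small : ∀ b : ℝ → ℝ, SC b → ∀ κ : ℝ, 0 < κ → κ ≤ 1 / 2 → (∀ α, κ < |α| → b α = 0) →
    ∀ M : ℝ, (∀ α, |b α| ≤ M * |α|) → ∀ s : ℝ, |∫ x, CT b (x - s) * D x| ≤ A * M * κ ^ 3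
  small0 : ∀ b : ℝ → ℝ, SC b → ∀ κ : ℝ, 0 < κ → κ ≤ 1 / 2 → (∀ α, κ < |α| → b α = 0) →
    (∀ α, |b α| ≤ 1) → ∀ s : ℝ, |∫ x, CT b (x - s) * D x| ≤ A * (2 * |s|) * κ ^ 3

lemma int_supp_bd {f : ℝ → ℝ} {a b c : ℝ} (hab : a ≤ b) (h0 : ∀ x, x ∉ Icc a b → f x = 0)
    (hc : ∀ x, |f x| ≤ c) : |∫ x, f x| ≤ c * (b - a) := by
  rw [← setIntegral_eq_integral_of_forall_compl_eq_zero (s := Icc a b) h0]
  have h := norm_setIntegral_le_of_norm_le_const (μ := volume) (s := Icc a b) (f := f) (C := c)
    (by rw [Real.volume_Icc]; exact ENNReal.ofReal_lt_top) (fun x _ => hc x)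
  rw [Real.norm_eq_abs, measureReal_def, Real.volume_Icc, ENNReal.toReal_ofReal (by linarith)] at h
  exact h

/-- smoothed values -/
noncomputable def JJ (D : ℝ → ℝ) (R s : ℝ) : ℝ := ∫ x, kR R (x - s) * D x

lemma kR_diff2 : ∃ M : ℝ, 0 ≤ M ∧ ∀ R : ℝ, 1 ≤ R → ∀ D : ℝ → ℝ, ∀ K : ℝ, (∀ x, |D x| ≤ K) →
    Measurable D → ∀ s t : ℝ, |2 * JJ D R s - JJ D R (s + t) - JJ D R (s - t)| ≤
      K * M * (1 + |t|) * t ^ 2 / R ^ 2 := by
  obtain ⟨M, hM0, hM⟩ := k1_diff2
  refine ⟨2 * M, by positivity, fun R hR D K hK hD s t => ?_⟩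
  have hR0 : 0 < R := by linarith
  have hK0 : 0 ≤ K := (abs_nonneg _).trans (hK 0)
  have i0 : ∀ u : ℝ, Integrable fun x => kR R (x - u) * D x := fun u =>
    int_mulD hD hK ((kR_integrable hR0).comp_sub_right u)
  have e1 : 2 * JJ D R s - JJ D R (s + t) - JJ D R (s - t) =
      ∫ x, (2 * kR R (x - s) - kR R (x - s - t) - kR R (x - s + t)) * D x := by
    unfold JJ
    have j2 : Integrable fun x => 2 * (kR R (x - s) * D x) - kR R (x - (s + t)) * D x :=
      ((i0 s).const_mul 2).sub (i0 (s + t))
    rw [← integral_const_mul, ← integral_sub ((i0 s).const_mul 2) (i0 (s + t)),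
      ← integral_sub j2 (i0 (s - t))]
    congr 1
    funext x
    rw [show x - (s + t) = x - s - t by ring, show x - (s - t) = x - s + t by ring]
    ring
  rw [e1]
  have h2 := int_supp_bd (f := fun x => (2 * kR R (x - s) - kR R (x - s - t) -
    kR R (x - s + t)) * D x) (a := s - (R + |t|)) (b := s + (R + |t|))
    (c := (1 / R) * (M * (t / R) ^ 2) * K) (by linarith [abs_nonneg t]) (fun x hx => ?_)
    (fun x => ?_)
  · refine h2.trans ?_
    have e3 : (1 / R) * (M * (t / R) ^ 2) * K * (s + (R + |t|) - (s - (R + |t|))) =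
        K * (2 * M) * ((R + |t|) / R) * t ^ 2 / R ^ 2 := by
      field_simp
      ring
    rw [e3]
    have h4 : (R + |t|) / R ≤ 1 + |t| := by
      rw [div_le_iff₀ hR0]
      nlinarith [abs_nonneg t]
    gcongr
  · have h3 : R + |t| < |x - s| := by
      by_contra hcon
      push Not at hcon
      rw [abs_le] at hcon
      exact hx ⟨by linarith, by linarith⟩
    have ht := abs_nonneg t
    have z1 : kR R (x - s) = 0 := kR_zero hR0 (by linarith)
    have z2 : kR R (x - s - t) = 0 := kR_zero hR0 (by
      have := abs_sub_abs_le_abs_sub (x - s) t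
      linarith)
    have z3 : kR R (x - s + t) = 0 := kR_zero hR0 (by
      have := abs_sub_abs_le_abs_sub (x - s) (-t)
      rw [abs_neg, sub_neg_eq_add] at this
      linarith)
    rw [z1, z2, z3]
    ring
  · show |(2 * kR R (x - s) - kR R (x - s - t) - kR R (x - s + t)) * D x| ≤ _
    rw [abs_mul]
    refine mul_le_mul ?_ (hK x) (abs_nonneg _) (by positivity)
    unfold kR
    have h5 := hM ((x - s) / R) (t / R)
    have e4 : 2 * (1 / R * k1 ((x - s) / R)) - 1 / R * k1 ((x - s - t) / R) -
        1 / R * k1 ((x - s + t) / R) =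
        (1 / R) * (2 * k1 ((x - s) / R) - k1 ((x - s) / R - t / R) - k1 ((x - s) / R + t / R)) := by
      rw [sub_div (x - s) t, add_div (x - s) t]
      ring
    rw [e4, abs_mul, abs_of_pos (by positivity : 0 < 1 / R)]
    gcongr

/-- convolution of the kernel with a transform -/
lemma conv1 {b : ℝ → ℝ} (H : SC b) {R : ℝ} (hR : 0 < R) (y : ℝ) :
    ∫ t, CT b t * kR R (y - t) = CT (fun α => b α * CT k1 (R * α)) y := by
  have hb := H.cont
  have hbi : Integrable b := hb.integrable_of_hasCompactSupport H.cs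
  have hk : Integrable fun t => kR R (y - t) := (kR_integrable hR).comp_sub_left y
  have hprod : Integrable (fun p : ℝ × ℝ => (kR R (y - p.1) * b p.2) *
      Real.cos (2 * Real.pi * p.2 * p.1)) (volume.prod volume) := by
    have h1 : Integrable (fun p : ℝ × ℝ => kR R (y - p.1) * b p.2) (volume.prod volume) :=
      hk.mul_prod hbi
    refine Integrable.mono h1 ?_ (ae_of_all _ fun p => ?_)
    · refine h1.aestronglyMeasurable.mul ?_
      exact (by fun_prop : Continuous fun p : ℝ × ℝ =>
        Real.cos (2 * Real.pi * p.2 * p.1)).aestronglyMeasurable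
    · rw [norm_mul]
      exact mul_le_of_le_one_right (norm_nonneg _) (Real.abs_cos_le_one _)
  have e1 : ∫ t, CT b t * kR R (y - t) =
      ∫ t, ∫ α, (kR R (y - t) * b α) * Real.cos (2 * Real.pi * α * t) := by
    congr 1
    funext t
    unfold CT
    rw [← integral_mul_const]
    congr 1
    funext α
    ring
  rw [e1, integral_integral_swap hprod]
  unfold CT
  congr 1
  funext α
  have e2 : ∫ t, kR R (y - t) * b α * Real.cos (2 * Real.pi * α * t) =
      b α * ∫ u, kR R u * Real.cos (2 * Real.pi * α * (y - u)) := by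
    rw [← integral_const_mul]
    have h := integral_sub_left_eq_self
      (fun t : ℝ => kR R (y - t) * b α * Real.cos (2 * Real.pi * α * t)) volume y
    rw [← h]
    congr 1
    funext u
    rw [sub_sub_cancel]
    ring
  rw [e2]
  have ic : Integrable fun u => kR R u * Real.cos (2 * Real.pi * α * u) := by
    refine Integrable.mono (kR_integrable hR) ?_ (ae_of_all _ fun p => ?_)
    · have := kR_cont R
      exact (by fun_prop : Continuous fun u =>
        kR R u * Real.cos (2 * Real.pi * α * u)).aestronglyMeasurable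
    · rw [norm_mul]
      exact mul_le_of_le_one_right (norm_nonneg _) (Real.abs_cos_le_one _)
  have is : Integrable fun u => kR R u * Real.sin (2 * Real.pi * α * u) := by
    refine Integrable.mono (kR_integrable hR) ?_ (ae_of_all _ fun p => ?_)
    · have := kR_cont R
      exact (by fun_prop : Continuous fun u =>
        kR R u * Real.sin (2 * Real.pi * α * u)).aestronglyMeasurable
    · rw [norm_mul]
      exact mul_le_of_le_one_right (norm_nonneg _) (Real.abs_sin_le_one _)
  have e3 : ∫ u, kR R u * Real.cos (2 * Real.pi * α * (y - u)) =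
      Real.cos (2 * Real.pi * α * y) * ∫ u, kR R u * Real.cos (2 * Real.pi * α * u) := by
    have h1 : ∀ u, kR R u * Real.cos (2 * Real.pi * α * (y - u)) =
        Real.cos (2 * Real.pi * α * y) * (kR R u * Real.cos (2 * Real.pi * α * u)) +
        Real.sin (2 * Real.pi * α * y) * (kR R u * Real.sin (2 * Real.pi * α * u)) := by
      intro u
      rw [mul_sub, Real.cos_sub]
      ring
    simp_rw [h1]
    rw [integral_add (ic.const_mul _) (is.const_mul _), integral_const_mul, integral_const_mul,
      kR_ST, mul_zero, add_zero]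
  rw [e3, kR_CT hR]
  unfold CT
  ring

/-- convolution with the function -/
lemma conv2 {D : ℝ → ℝ} {K : ℝ} (hD : Measurable D) (hK : ∀ x, |D x| ≤ K) {b : ℝ → ℝ} (H : SC b)
    {R : ℝ} (hR : 0 < R) (s : ℝ) :
    Integrable (fun t => CT b t * JJ D R (s + t)) ∧
    ∫ t, CT b t * JJ D R (s + t) = ∫ x, CT (fun α => b α * CT k1 (R * α)) (x - s) * D x := by
  have hK0 : 0 ≤ K := (abs_nonneg _).trans (hK 0)
  have hg := CT_integrable H
  have hk := (kR_integrable hR).comp_sub_right s
  have h1 : Integrable (fun p : ℝ × ℝ => CT b p.2 * kR R (p.1 - p.2 - s)) (volume.prod volume) := by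
    have := hg.convolution_integrand (ContinuousLinearMap.mul ℝ ℝ) hk (μ := volume)
    exact this
  have h2 : Integrable (fun p : ℝ × ℝ => CT b p.2 * kR R (p.1 - p.2 - s) * D p.1)
      (volume.prod volume) := by
    refine Integrable.mono' (h1.norm.mul_const K) (h1.aestronglyMeasurable.mul
      (hD.comp measurable_fst).aestronglyMeasurable) (ae_of_all _ fun p => ?_)
    rw [norm_mul]
    exact mul_le_mul_of_nonneg_left (hK _) (norm_nonneg _)
  have e0 : ∀ t, ∫ x, CT b t * kR R (x - t - s) * D x = CT b t * JJ D R (s + t) := by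
    intro t
    unfold JJ
    rw [← integral_const_mul]
    congr 1
    funext x
    rw [show x - (s + t) = x - t - s by ring]
    ring
  constructor
  · have := h2.integral_prod_right
    refine this.congr (ae_of_all _ fun t => ?_)
    exact e0 t
  · have e1 : ∫ t, CT b t * JJ D R (s + t) = ∫ t, ∫ x, CT b t * kR R (x - t - s) * D x := by
      congr 1
      funext t
      exact (e0 t).symm
    rw [e1, ← integral_integral_swap h2]
    congr 1
    funext x
    rw [← conv1 H hR, ← integral_mul_const]
    congr 1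
    funext t
    rw [show x - s - t = x - t - s by ring]

end Pool.Agent.D0H51.AG
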