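import Pool.Agent.D0H51.AG.UJ

/-! # Smoothed values of a function with small low frequencies: the bound -/

set_option autoImplicit false

open MeasureTheory Set Filter Topology

namespace Pool.Agent.D0H51.AG

open Pool.Agent.N804

lemma CTk1_le (ξ : ℝ) : |CT k1 ξ| ≤ 1 := by
  unfold CT
  calc |∫ α, k1 α * Real.cos (2 * Real.pi * α * ξ)| ≤
        ∫ α, |k1 α * Real.cos (2 * Real.pi * α * ξ)| := abs_integral_le_integral_abs
    _ ≤ ∫ α, k1 α := by
        refine integral_mono (k1_SC.int_cos ξ).abs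
          (k1_SC.cont.integrable_of_hasCompactSupport k1_SC.cs) fun α => ?_
        show |k1 α * Real.cos (2 * Real.pi * α * ξ)| ≤ k1 α
        rw [abs_mul, abs_of_nonneg (k1_nonneg α)]
        exact mul_le_of_le_one_right (k1_nonneg α) (Real.abs_cos_le_one _)
    _ = 1 := k1_int

/-- the dyadic pieces -/
noncomputable def be (R : ℝ) (n : ℕ) (α : ℝ) : ℝ := bn n α * CT k1 (R * α)

/-- the dyadic pieces -/
noncomputable def de (R : ℝ) (n : ℕ) (α : ℝ) : ℝ := dn n α * CT k1 (R * α)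

lemma CTR_cd (R : ℝ) : ContDiff ℝ (⊤ : ℕ∞) fun α : ℝ => CT k1 (R * α) :=
  (CT_smooth k1_SC).comp (contDiff_const.mul contDiff_id)

lemma be_SC (R : ℝ) (n : ℕ) : SC (be R n) := SC.mulc (bn_SC n) (CTR_cd R)

lemma de_SC (R : ℝ) (n : ℕ) : SC (de R n) := SC.mulc (dn_SC n) (CTR_cd R)

lemma be_step (R : ℝ) (n : ℕ) (x : ℝ) : CT (be R n) x = CT (de R n) x + CT (be R (n + 1)) x := by
  rw [← CT_add (de_SC R n) (be_SC R (n + 1))]
  congr 1
  funext α
  unfold be de dn
  ring

lemma bn_abs (n : ℕ) (α : ℝ) : 0 ≤ bn n α ∧ bn n α ≤ 1 := ⟨bb.nonneg, bb.le_one⟩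

lemma min_aux {c r : ℝ} (hr : 0 < r) : min 1 (c * r ^ 2) / r ≤
    max 1 c * (10 / 3) * (4 * r / (1 + 4 * r) - r / (1 + r)) := by
  have h1 : 4 * r / (1 + 4 * r) - r / (1 + r) = 3 * r / ((1 + 4 * r) * (1 + r)) := by
    field_simp
    ring
  rw [h1]
  have hm : 1 ≤ max 1 c := le_max_left _ _
  have hm2 : c ≤ max 1 c := le_max_right _ _
  rcases le_total r 1 with h | h
  · have h2 : min 1 (c * r ^ 2) / r ≤ max 1 c * r := by
      rw [div_le_iff₀ hr]
      refine (min_le_right _ _).trans ?_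
      have : c * r ^ 2 ≤ max 1 c * r ^ 2 := by gcongr
      linarith
    refine h2.trans ?_
    rw [mul_assoc]
    refine mul_le_mul_of_nonneg_left ?_ (by linarith)
    rw [show 10 / 3 * (3 * r / ((1 + 4 * r) * (1 + r))) = 10 * r / ((1 + 4 * r) * (1 + r)) by ring,
      le_div_iff₀ (by positivity)]
    nlinarith [mul_nonneg hr.le (sub_nonneg.2 h), mul_nonneg (mul_nonneg hr.le hr.le)
      (sub_nonneg.2 h)]
  · have h2 : min 1 (c * r ^ 2) / r ≤ max 1 c * (1 / r) := by
      rw [div_le_iff₀ hr]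
      refine (min_le_left _ _).trans ?_
      rw [mul_assoc, one_div, inv_mul_cancel₀ hr.ne', mul_one]
      exact hm
    refine h2.trans ?_
    rw [mul_assoc]
    refine mul_le_mul_of_nonneg_left ?_ (by linarith)
    rw [show 10 / 3 * (3 * r / ((1 + 4 * r) * (1 + r))) = 10 * r / ((1 + 4 * r) * (1 + r)) by ring,
      div_le_div_iff₀ hr (by positivity)]
    nlinarith [mul_nonneg hr.le (sub_nonneg.2 h)]

/-- the bound for one piece -/
lemma de_bd {c4 : ℝ} (hc4 : 0 ≤ c4) (h4 : ∀ ξ : ℝ, |ξ| ^ 4 * |CT k1 ξ| ≤ c4) {R : ℝ} (hR : 1 ≤ R)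
    (n : ℕ) (α : ℝ) : |de R n α| ≤ (8 * 2 ^ n * min 1 (4096 * c4 * (4 ^ n / R ^ 2) ^ 2)) * |α| := by
  have hR0 : 0 < R := by linarith
  have h2n : (0 : ℝ) < 2 ^ n := by positivity
  have hmin : 0 ≤ min 1 (4096 * c4 * (4 ^ n / R ^ 2) ^ 2) := le_min zero_le_one (by positivity)
  unfold de
  rcases le_or_gt (|α|) (1 / 8 / 2 ^ n) with h | h
  · have h1 : dn n α = 0 := by
      have h2 : |2 ^ n * α| ≤ 1 / 8 := by
        rw [abs_mul, abs_of_pos h2n]
        rw [le_div_iff₀ h2n] at h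
        linarith
      have h3 := cz_near h2
      unfold dn bn
      rw [show (2 : ℝ) ^ (n + 1) * α = 2 * (2 ^ n * α) by ring]
      exact h3
    rw [h1, zero_mul, abs_zero]
    positivity
  · have hα : 0 < |α| := lt_trans (by positivity) h
    have h1 : |dn n α| ≤ 1 := by
      have a1 := bn_abs n α
      have a2 := bn_abs (n + 1) α
      unfold dn
      rw [abs_le]
      constructor <;> linarith [a1.1, a1.2, a2.1, a2.2]
    have h8 : 1 ≤ 8 * 2 ^ n * |α| := by
      rw [div_div, div_lt_iff₀ (by positivity)] at h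
      linarith
    have h2 : |CT k1 (R * α)| ≤ min 1 (4096 * c4 * (4 ^ n / R ^ 2) ^ 2) := by
      refine le_min (CTk1_le _) ?_
      have h3 := h4 (R * α)
      have h5 : R / (8 * 2 ^ n) ≤ |R * α| := by
        rw [abs_mul, abs_of_pos hR0, div_le_iff₀ (by positivity)]
        nlinarith
      have h6 : (R / (8 * 2 ^ n)) ^ 4 * |CT k1 (R * α)| ≤ c4 := by
        refine le_trans ?_ h3
        gcongr
      have h7 : 0 < (R / (8 * 2 ^ n)) ^ 4 := by positivity
      have h9 : |CT k1 (R * α)| ≤ c4 / (R / (8 * 2 ^ n)) ^ 4 := by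
        rw [le_div_iff₀ h7]
        linarith
      refine h9.trans (le_of_eq ?_)
      have e4 : (4 : ℝ) ^ n = 2 ^ n * 2 ^ n := by
        rw [← mul_pow]
        norm_num
      rw [e4]
      field_simp
      norm_num
    rw [abs_mul]
    calc |dn n α| * |CT k1 (R * α)| ≤ 1 * min 1 (4096 * c4 * (4 ^ n / R ^ 2) ^ 2) := by
          gcongr
      _ ≤ (8 * 2 ^ n * |α|) * min 1 (4096 * c4 * (4 ^ n / R ^ 2) ^ 2) := by gcongr
      _ = _ := by ring

/-- **the low frequencies** -/
theorem low_bd : ∃ c : ℝ, 0 < c ∧ ∀ (D : ℝ → ℝ) (K A : ℝ), 0 ≤ A → GapU D K A → ∀ R : ℝ, 1 ≤ R →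
    ∀ s : ℝ, |∫ x, CT (be R 0) (x - s) * D x| ≤ A * c / R ^ 2 := by
  obtain ⟨c4, hc4, h4⟩ := CT_dec' k1_SC 4
  refine ⟨max 1 (4096 * c4) * (10 / 3), by positivity, fun D K A hA G R hR s => ?_⟩
  have hR0 : 0 < R := by linarith
  set r : ℕ → ℝ := fun n => 4 ^ n / R ^ 2 with hr
  have hr0 : ∀ n, 0 < r n := fun n => by rw [hr]; positivity
  set f : ℕ → ℝ := fun n => r n / (1 + r n) with hf
  have hint : ∀ b, SC b → Integrable fun x => CT b (x - s) * D x := fun b hb =>
    int_mulD G.meas G.bd ((CT_integrable hb).comp_sub_right s)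
  have hpiece : ∀ n, |∫ x, CT (de R n) (x - s) * D x| ≤
      A * (max 1 (4096 * c4) * (10 / 3)) / R ^ 2 * (f (n + 1) - f n) := by
    intro n
    have h2n : (0 : ℝ) < 2 ^ n := by positivity
    have h1 := G.small (de R n) (de_SC R n) (1 / 2 / 2 ^ n) (by positivity) (by
      rw [div_le_iff₀ h2n]
      have : (1 : ℝ) ≤ 2 ^ n := one_le_pow₀ (by norm_num)
      linarith) (fun α hα => by
        unfold de dn
        have h2 : (1 : ℝ) / 2 / 2 ^ (n + 1) < |α| := by
          refine lt_of_le_of_lt ?_ hα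
          have : (2 : ℝ) ^ n ≤ 2 ^ (n + 1) := pow_le_pow_right₀ (by norm_num) (by omega)
          gcongr
        rw [bn_zero n hα, bn_zero (n + 1) h2]
        ring) _ (fun α => de_bd hc4 h4 hR n α) s
    refine h1.trans ?_
    have h3 := min_aux (c := 4096 * c4) (hr0 n)
    have e1 : f (n + 1) - f n = 4 * r n / (1 + 4 * r n) - r n / (1 + r n) := by
      have : r (n + 1) = 4 * r n := by rw [hr]; simp only [pow_succ]; ring
      rw [hf]
      simp only [this]
    rw [e1]
    have e4 : (4 : ℝ) ^ n = 2 ^ n * 2 ^ n := by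
      rw [← mul_pow]
      norm_num
    have e2 : A * (8 * 2 ^ n * min 1 (4096 * c4 * (4 ^ n / R ^ 2) ^ 2)) * (1 / 2 / 2 ^ n) ^ 3 =
        A / R ^ 2 * (min 1 (4096 * c4 * (r n) ^ 2) / r n) := by
      rw [hr]
      simp only
      rw [e4]
      field_simp
      ring
    rw [e2]
    calc A / R ^ 2 * (min 1 (4096 * c4 * (r n) ^ 2) / r n) ≤ A / R ^ 2 *
          (max 1 (4096 * c4) * (10 / 3) * (4 * r n / (1 + 4 * r n) - r n / (1 + r n))) := by
          gcongr
      _ = _ := by ring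
  have hsum : ∀ N : ℕ, |∫ x, CT (be R 0) (x - s) * D x| ≤
      A * (max 1 (4096 * c4) * (10 / 3)) / R ^ 2 * (f N - f 0) +
        |∫ x, CT (be R N) (x - s) * D x| := by
    intro N
    induction N with
    | zero => simp
    | succ N ih =>
      have e : ∫ x, CT (be R N) (x - s) * D x = (∫ x, CT (de R N) (x - s) * D x) +
          ∫ x, CT (be R (N + 1)) (x - s) * D x := by
        rw [← integral_add (hint _ (de_SC R N)) (hint _ (be_SC R (N + 1)))]
        congr 1
        funext x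
        rw [be_step]
        ring
      rw [e] at ih
      have h1 := abs_add_le (∫ x, CT (de R N) (x - s) * D x)
        (∫ x, CT (be R (N + 1)) (x - s) * D x)
      have h2 := hpiece N
      have e3 : A * (max 1 (4096 * c4) * (10 / 3)) / R ^ 2 * (f (N + 1) - f 0) =
          A * (max 1 (4096 * c4) * (10 / 3)) / R ^ 2 * (f N - f 0) +
          A * (max 1 (4096 * c4) * (10 / 3)) / R ^ 2 * (f (N + 1) - f N) := by ring
      rw [e3]
      linarith
  have hlast : ∀ N : ℕ, |∫ x, CT (be R 0) (x - s) * D x| ≤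
      A * (max 1 (4096 * c4) * (10 / 3)) / R ^ 2 + A * (2 * |s|) * (1 / 2 / 2 ^ N) ^ 3 := by
    intro N
    refine (hsum N).trans (add_le_add ?_ ?_)
    · have h1 : f N ≤ 1 := by
        have := hr0 N
        rw [hf]
        simp only
        rw [div_le_one (by positivity)]
        linarith
      have h2 : 0 ≤ f 0 := by
        have := hr0 0
        rw [hf]
        simp only
        positivity
      have h3 : 0 ≤ A * (max 1 (4096 * c4) * (10 / 3)) / R ^ 2 := by positivity
      calc A * (max 1 (4096 * c4) * (10 / 3)) / R ^ 2 * (f N - f 0) ≤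
            A * (max 1 (4096 * c4) * (10 / 3)) / R ^ 2 * 1 := by
            gcongr
            linarith
        _ = _ := mul_one _
    · have h2n : (0 : ℝ) < 2 ^ N := by positivity
      refine G.small0 (be R N) (be_SC R N) (1 / 2 / 2 ^ N) (by positivity) (by
        rw [div_le_iff₀ h2n]
        have : (1 : ℝ) ≤ 2 ^ N := one_le_pow₀ (by norm_num)
        linarith) (fun α hα => by
          unfold be
          rw [bn_zero N hα, zero_mul]) (fun α => ?_) s
      unfold be
      rw [abs_mul]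
      have a1 := bn_abs N α
      rw [abs_of_nonneg a1.1]
      exact mul_le_one₀ a1.2 (abs_nonneg _) (CTk1_le _)
  have hlim : Tendsto (fun N : ℕ => A * (max 1 (4096 * c4) * (10 / 3)) / R ^ 2 +
      A * (2 * |s|) * (1 / 2 / 2 ^ N) ^ 3) atTop
      (𝓝 (A * (max 1 (4096 * c4) * (10 / 3)) / R ^ 2 + A * (2 * |s|) * (0 : ℝ) ^ 3)) := by
    refine tendsto_const_nhds.add (Tendsto.const_mul _ (Tendsto.pow ?_ 3))
    have h1 : Tendsto (fun N : ℕ => (1 / 2 : ℝ) * (1 / 2) ^ N) atTop (𝓝 ((1 / 2) * 0)) :=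
      (tendsto_pow_atTop_nhds_zero_of_lt_one (by norm_num) (by norm_num)).const_mul _
    rw [mul_zero] at h1
    refine h1.congr fun N => ?_
    rw [one_div_pow]
    ring
  have := ge_of_tendsto' hlim hlast
  simpa using this

/-- **smoothed values are small** -/
theorem J_small : ∃ c : ℝ, 0 < c ∧ ∀ (D : ℝ → ℝ) (K A : ℝ), 0 ≤ A → GapU D K A → ∀ R : ℝ, 1 ≤ R →
    ∀ s : ℝ, |JJ D R s| ≤ (A + K) * c / R ^ 2 := by
  obtain ⟨c1, hc1, hlow⟩ := low_bd
  obtain ⟨M, hM0, hM⟩ := kR_diff2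
  set I : ℝ := ∫ t, (|t| ^ 2 * |CT (bn 0) t| + |t| ^ 3 * |CT (bn 0) t|) with hI
  have hI0 : 0 ≤ I := integral_nonneg fun t => by positivity
  refine ⟨c1 + M * I, by positivity, fun D K A hA G R hR s => ?_⟩
  have hR0 : 0 < R := by linarith
  have hK0 : 0 ≤ K := (abs_nonneg _).trans (G.bd 0)
  have hmass : ∫ t, CT (bn 0) t = 1 := by
    rw [CT_mass (bn_SC 0) (bn_even 0)]
    unfold bn
    rw [mul_zero]
    exact bb_one (by simp)
  obtain ⟨i1, e1⟩ := conv2 G.meas G.bd (bn_SC 0) hR0 s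
  have hlow' := hlow D K A hA G R hR s
  have e2 : ∫ t, CT (bn 0) t * JJ D R (s - t) = ∫ t, CT (bn 0) t * JJ D R (s + t) := by
    rw [← integral_neg_eq_self (fun t => CT (bn 0) t * JJ D R (s + t))]
    congr 1
    funext t
    show CT (bn 0) t * JJ D R (s - t) = CT (bn 0) (-t) * JJ D R (s + -t)
    rw [CT_evenf, sub_eq_add_neg]
  have i2 : Integrable fun t => CT (bn 0) t * JJ D R (s - t) := by
    have := i1.comp_neg
    refine this.congr (ae_of_all _ fun t => ?_)
    show CT (bn 0) (-t) * JJ D R (s + -t) = CT (bn 0) t * JJ D R (s - t)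
    rw [CT_evenf, sub_eq_add_neg]
  have i3 : Integrable fun t => CT (bn 0) t * (2 * JJ D R s) := (CT_integrable (bn_SC 0)).mul_const _
  have i4 : Integrable fun t => CT (bn 0) t * (2 * JJ D R s) - CT (bn 0) t * JJ D R (s + t) :=
    i3.sub i1
  have e3 : 2 * (JJ D R s - ∫ t, CT (bn 0) t * JJ D R (s + t)) =
      ∫ t, CT (bn 0) t * (2 * JJ D R s - JJ D R (s + t) - JJ D R (s - t)) := by
    have : ∫ t, CT (bn 0) t * (2 * JJ D R s - JJ D R (s + t) - JJ D R (s - t)) =
        ∫ t, (CT (bn 0) t * (2 * JJ D R s) - CT (bn 0) t * JJ D R (s + t) -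
          CT (bn 0) t * JJ D R (s - t)) := by
      congr 1
      funext t
      ring
    rw [this, integral_sub i4 i2, integral_sub i3 i1, e2, integral_mul_const, hmass]
    ring
  have h5 : |∫ t, CT (bn 0) t * (2 * JJ D R s - JJ D R (s + t) - JJ D R (s - t))| ≤
      K * M / R ^ 2 * I := by
    calc |∫ t, CT (bn 0) t * (2 * JJ D R s - JJ D R (s + t) - JJ D R (s - t))| ≤
          ∫ t, |CT (bn 0) t * (2 * JJ D R s - JJ D R (s + t) - JJ D R (s - t))| :=
          abs_integral_le_integral_abs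
      _ ≤ ∫ t, K * M / R ^ 2 * (|t| ^ 2 * |CT (bn 0) t| + |t| ^ 3 * |CT (bn 0) t|) := by
          refine integral_mono_of_nonneg (ae_of_all _ fun t => abs_nonneg _)
            (((CT_intp (bn_SC 0) 2).add (CT_intp (bn_SC 0) 3)).const_mul _)
            (ae_of_all _ fun t => ?_)
          show |CT (bn 0) t * (2 * JJ D R s - JJ D R (s + t) - JJ D R (s - t))| ≤
            K * M / R ^ 2 * (|t| ^ 2 * |CT (bn 0) t| + |t| ^ 3 * |CT (bn 0) t|)
          rw [abs_mul]
          have h6 := hM R hR D K G.bd G.meas s t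
          calc |CT (bn 0) t| * |2 * JJ D R s - JJ D R (s + t) - JJ D R (s - t)| ≤
                |CT (bn 0) t| * (K * M * (1 + |t|) * t ^ 2 / R ^ 2) := by gcongr
            _ = _ := by rw [← sq_abs t]; ring
      _ = _ := by rw [integral_const_mul]
  rw [← e3, abs_mul, abs_two] at h5
  have h6 : |JJ D R s| ≤ |JJ D R s - ∫ t, CT (bn 0) t * JJ D R (s + t)| +
      |∫ t, CT (bn 0) t * JJ D R (s + t)| := by
    have := abs_add_le (JJ D R s - ∫ t, CT (bn 0) t * JJ D R (s + t))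
      (∫ t, CT (bn 0) t * JJ D R (s + t))
    rwa [sub_add_cancel] at this
  have h7 : |∫ t, CT (bn 0) t * JJ D R (s + t)| ≤ A * c1 / R ^ 2 := by
    rw [e1]
    exact hlow'
  have h8 : |JJ D R s - ∫ t, CT (bn 0) t * JJ D R (s + t)| ≤ K * M / R ^ 2 * I := by
    have : 0 ≤ |JJ D R s - ∫ t, CT (bn 0) t * JJ D R (s + t)| := abs_nonneg _
    linarith
  have h9 : A * c1 / R ^ 2 + K * M / R ^ 2 * I ≤ (A + K) * (c1 + M * I) / R ^ 2 := by
    have e4 : A * c1 / R ^ 2 + K * M / R ^ 2 * I = (A * c1 + K * (M * I)) / R ^ 2 := by ring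
    rw [e4]
    gcongr
    have : 0 ≤ A * (M * I) := by positivity
    have : 0 ≤ K * c1 := by positivity
    nlinarith
  linarith

end Pool.Agent.D0H51.AG
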