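import Pool.Agent.D0H51.AG.Ker
import Pool.Agent.N804.Mean4

/-! # A smooth kernel with compact support and its dilations -/

set_option autoImplicit false

open MeasureTheory Set Filter Topology
open scoped FourierTransform

namespace Pool.Agent.D0H51.AG

open Pool.Agent.N804

/-- the bump -/
noncomputable def kbp : ContDiffBump (0 : ℝ) := ⟨1 / 2, 1, by norm_num, by norm_num⟩

/-- the kernel -/
noncomputable def k1 (x : ℝ) : ℝ := kbp.normed volume x

lemma k1_SC : SC k1 := ⟨kbp.contDiff_normed, kbp.hasCompactSupport_normed⟩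

lemma k1_nonneg (x : ℝ) : 0 ≤ k1 x := kbp.nonneg_normed x

lemma k1_int : ∫ x, k1 x = 1 := kbp.integral_normed

lemma k1_even (x : ℝ) : k1 (-x) = k1 x := kbp.normed_neg x

lemma k1_zero {x : ℝ} (h : 1 ≤ |x|) : k1 x = 0 := by
  by_contra hcon
  have h1 : x ∈ Function.support (kbp.normed volume) := hcon
  rw [kbp.support_normed_eq, mem_ball_zero_iff, Real.norm_eq_abs] at h1
  have h2 : |x| < 1 := h1
  linarith

lemma k1_bd : ∃ M : ℝ, 1 ≤ M ∧ ∀ x, |k1 x| ≤ M := by
  obtain ⟨M, hM⟩ := k1_SC.cs.exists_bound_of_continuous k1_SC.cont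
  exact ⟨max 1 M, le_max_left _ _, fun x => (hM x).trans (le_max_right _ _)⟩

/-- second differences -/
lemma k1_diff2 : ∃ M : ℝ, 0 ≤ M ∧ ∀ x u, |2 * k1 x - k1 (x - u) - k1 (x + u)| ≤ M * u ^ 2 := by
  obtain ⟨M, hM⟩ := k1_SC.deriv.deriv.cs.exists_bound_of_continuous k1_SC.deriv.deriv.cont
  have hM0 : 0 ≤ M := (norm_nonneg _).trans (hM 0)
  have hlip : ∀ x y, |deriv k1 y - deriv k1 x| ≤ M * |y - x| := by
    intro x y
    have := Convex.norm_image_sub_le_of_norm_deriv_le (f := deriv k1) (s := univ) (C := M)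
      (fun z _ => k1_SC.deriv.diff z) (fun z _ => hM z) convex_univ (mem_univ x) (mem_univ y)
    simpa using this
  refine ⟨2 * M, by positivity, fun x u => ?_⟩
  set φ : ℝ → ℝ := fun v => k1 (x - v) + k1 (x + v) with hφ
  have hd : ∀ v, HasDerivAt φ (-deriv k1 (x - v) + deriv k1 (x + v)) v := by
    intro v
    have h1 : HasDerivAt (fun v => k1 (x - v)) (-deriv k1 (x - v)) v := by
      have h2 : HasDerivAt (fun v => x - v) (-1) v := by
        have := (hasDerivAt_id v).const_sub x
        simpa using this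
      have := (k1_SC.diff (x - v)).hasDerivAt.comp v h2
      rw [mul_neg_one] at this
      exact this
    have h3 : HasDerivAt (fun v => k1 (x + v)) (deriv k1 (x + v)) v := by
      have h2 : HasDerivAt (fun v => x + v) 1 v := by
        have := (hasDerivAt_id v).const_add x
        simpa using this
      have := (k1_SC.diff (x + v)).hasDerivAt.comp v h2
      rw [mul_one] at this
      exact this
    exact h1.add h3
  have hb : ∀ v ∈ Icc (-|u|) |u|, ‖deriv φ v‖ ≤ 2 * M * |u| := by
    intro v hv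
    rw [(hd v).deriv, Real.norm_eq_abs]
    have h1 := hlip (x - v) (x + v)
    have h2 : |v| ≤ |u| := abs_le.2 hv
    have h3 : |x + v - (x - v)| = 2 * |v| := by
      rw [show x + v - (x - v) = 2 * v by ring, abs_mul, abs_two]
    rw [h3] at h1
    rw [show -deriv k1 (x - v) + deriv k1 (x + v) = deriv k1 (x + v) - deriv k1 (x - v) by ring]
    nlinarith
  have h4 := Convex.norm_image_sub_le_of_norm_deriv_le (f := φ) (C := 2 * M * |u|)
    (fun z _ => (hd z).differentiableAt) hb (convex_Icc _ _)
    (show (0 : ℝ) ∈ Icc (-|u|) |u| by constructor <;> linarith [abs_nonneg u])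
    (show u ∈ Icc (-|u|) |u| by exact abs_le.1 le_rfl)
  have e1 : 2 * k1 x - k1 (x - u) - k1 (x + u) = -(φ u - φ 0) := by
    rw [hφ]
    simp only [sub_zero, add_zero]
    ring
  rw [e1, abs_neg]
  rw [Real.norm_eq_abs, Real.norm_eq_abs, sub_zero] at h4
  refine h4.trans (le_of_eq ?_)
  rw [mul_assoc, ← pow_two, sq_abs]

/-- the dilated kernel -/
noncomputable def kR (R x : ℝ) : ℝ := (1 / R) * k1 (x / R)

lemma kR_cont (R : ℝ) : Continuous (kR R) := by
  unfold kR
  have := k1_SC.cont
  fun_prop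

lemma kR_nonneg {R : ℝ} (hR : 0 < R) (x : ℝ) : 0 ≤ kR R x := by
  unfold kR
  have := k1_nonneg (x / R)
  positivity

lemma kR_even (R x : ℝ) : kR R (-x) = kR R x := by
  unfold kR
  rw [neg_div, k1_even]

lemma kR_zero {R : ℝ} (hR : 0 < R) {x : ℝ} (h : R ≤ |x|) : kR R x = 0 := by
  unfold kR
  rw [k1_zero, mul_zero]
  rw [abs_div, abs_of_pos hR, le_div_iff₀ hR]
  linarith

lemma kR_integrable {R : ℝ} (hR : 0 < R) : Integrable (kR R) := by
  refine Continuous.integrable_of_hasCompactSupport (kR_cont R) ?_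
  refine HasCompactSupport.intro (isCompact_Icc (a := -R) (b := R)) fun x hx => kR_zero hR ?_
  by_contra hcon
  push Not at hcon
  exact hx (abs_le.1 hcon.le)

lemma kR_int {R : ℝ} (hR : 0 < R) : ∫ x, kR R x = 1 := by
  unfold kR
  rw [integral_const_mul, Measure.integral_comp_div (fun x => k1 x) R, k1_int, abs_of_pos hR,
    smul_eq_mul, mul_one, one_div, inv_mul_cancel₀ hR.ne']

/-- the transform of the kernel -/
lemma kR_CT {R : ℝ} (hR : 0 < R) (α : ℝ) :
    ∫ x, kR R x * Real.cos (2 * Real.pi * α * x) = CT k1 (R * α) := by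
  unfold kR CT
  have h := Measure.integral_comp_mul_left
    (fun x : ℝ => (1 / R) * k1 (x / R) * Real.cos (2 * Real.pi * α * x)) R
  rw [abs_of_pos (inv_pos.2 hR), smul_eq_mul] at h
  have e : ∫ x, (1 / R) * k1 (x / R) * Real.cos (2 * Real.pi * α * x) =
      R * ∫ x, (1 / R) * k1 (R * x / R) * Real.cos (2 * Real.pi * α * (R * x)) := by
    rw [h, mul_inv_cancel_left₀ hR.ne']
  rw [e, ← integral_const_mul]
  congr 1
  funext x
  rw [show R * x / R = x by field_simp, show 2 * Real.pi * α * (R * x) =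
    2 * Real.pi * x * (R * α) by ring]
  field_simp

lemma kR_ST {R : ℝ} (α : ℝ) : ∫ x, kR R x * Real.sin (2 * Real.pi * α * x) = 0 := by
  have h := integral_neg_eq_self (fun x : ℝ => kR R x * Real.sin (2 * Real.pi * α * x)) volume
  have e : ∀ x : ℝ, kR R (-x) * Real.sin (2 * Real.pi * α * (-x)) =
      -(kR R x * Real.sin (2 * Real.pi * α * x)) := by
    intro x
    rw [kR_even, mul_neg, Real.sin_neg]
    ring
  simp only [e, integral_neg] at h
  linarith

/-- smoothness of the transform -/
lemma CT_smooth {b : ℝ → ℝ} (H : SC b) : ContDiff ℝ (⊤ : ℕ∞) (CT b) := by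
  have h1 : ContDiff ℝ (⊤ : ℕ∞) (𝓕 fun α : ℝ => (b α : ℂ)) := by
    refine Real.contDiff_fourier fun n _ => ?_
    have hc := H.cont
    refine Continuous.integrable_of_hasCompactSupport (by fun_prop) ?_
    refine H.cs.mono fun v hv => ?_
    simp only [Function.mem_support, ne_eq, mul_eq_zero, not_or, norm_eq_zero,
      Complex.ofReal_eq_zero] at hv
    exact hv.2
  have h2 : CT b = fun x => (𝓕 (fun α : ℝ => (b α : ℂ)) x).re := by
    funext x
    rw [Real.fourier_eq']
    have hi : Integrable fun v : ℝ => Complex.exp (↑(-2 * Real.pi * inner ℝ v x) * Complex.I) •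
        (b v : ℂ) := by
      have hbc := H.cont
      refine Continuous.integrable_of_hasCompactSupport (by fun_prop) ?_
      refine H.cs.mono ?_
      intro v hv
      simp only [Function.mem_support, smul_eq_mul, ne_eq, mul_eq_zero, not_or] at hv
      simpa using hv.2
    rw [← RCLike.re_eq_complex_re, ← integral_re hi]
    unfold CT
    congr 1
    funext v
    have hin : -2 * Real.pi * inner ℝ v x = -(2 * Real.pi * v * x) := by
      have : inner ℝ v x = v * x := by simp [mul_comm]
      rw [this]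
      ring
    rw [RCLike.re_eq_complex_re, hin, smul_eq_mul, Complex.re_mul_ofReal,
      Complex.exp_ofReal_mul_I_re, Real.cos_neg, mul_comm]
  rw [h2]
  exact Complex.reCLM.contDiff.comp h1

end Pool.Agent.D0H51.AG
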