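import Pool.Agent.D0H51.AG.UJ2
import Pool.Agent.D0H51.AG.LimR

/-! # Small values of functions with small low frequencies: the measure bound -/

set_option autoImplicit false

open MeasureTheory Set Filter Topology

namespace Pool.Agent.D0H51.AG

open Pool.Agent.N804

/-- one-signed intervals contain many small values -/
lemma one_sign {D : ℝ → ℝ} {K : ℝ} (hD : Measurable D) (hK : ∀ x, |D x| ≤ K) {η R s M σ : ℝ}
    (hσ : σ = 1 ∨ σ = -1) (hη : 0 < η) (hR : 0 < R) (hM : ∀ x, |k1 x| ≤ M) (hM0 : 0 < M)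
    (hJ : |JJ D R s| ≤ η / 4) (h : ∀ x ∈ Ioc (s - R) (s + R), -(η / 4) ≤ σ * D x) :
    3 / 5 * R / M ≤ volume.real ({x | |D x| ≤ η} ∩ Ioc (s - R) (s + R)) := by
  set E : Set ℝ := {x | |D x| ≤ η} with hE
  set I : Set ℝ := Ioc (s - R) (s + R) with hI
  have hmE : MeasurableSet E := ms_E hD η
  have hmI : MeasurableSet I := measurableSet_Ioc
  have hk : Integrable fun x => kR R (x - s) := (kR_integrable hR).comp_sub_right s
  have hkD := int_mulD hD hK hk
  have hout : ∀ x, x ∉ I → kR R (x - s) = 0 := by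
    intro x hx
    refine kR_zero hR ?_
    by_contra hcon
    push Not at hcon
    rw [abs_lt] at hcon
    exact hx ⟨by linarith, by linarith⟩
  have h1 : ∫ x in I, kR R (x - s) * D x = JJ D R s := by
    refine setIntegral_eq_integral_of_forall_compl_eq_zero fun x hx => ?_
    rw [hout x hx, zero_mul]
  have h2 : ∫ x in I, kR R (x - s) = 1 := by
    rw [setIntegral_eq_integral_of_forall_compl_eq_zero fun x hx => hout x hx,
      integral_sub_right_eq_self, kR_int hR]
  have h3 : ∫ x in I, (η * kR R (x - s) - 5 * η / 4 * E.indicator (fun x => kR R (x - s)) x) ≤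
      ∫ x in I, σ * (kR R (x - s) * D x) := by
    refine setIntegral_mono_on ((hk.integrableOn.const_mul η).sub
      ((hk.integrableOn.indicator hmE).const_mul _)) (hkD.integrableOn.const_mul σ) hmI
      fun x hx => ?_
    have hk0 := kR_nonneg hR (x - s)
    have h4 := h x hx
    have hs : |σ * D x| = |D x| := by
      rcases hσ with h | h <;> rw [h] <;> simp
    by_cases hxE : x ∈ E
    · rw [indicator_of_mem hxE]
      show η * kR R (x - s) - 5 * η / 4 * kR R (x - s) ≤ σ * (kR R (x - s) * D x)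
      have := mul_le_mul_of_nonneg_left h4 hk0
      linarith
    · rw [indicator_of_notMem hxE]
      have h5 : η < |D x| := not_le.1 hxE
      have h6 : η < σ * D x := by
        rw [← hs] at h5
        rcases le_or_gt 0 (σ * D x) with h7 | h7
        · rwa [abs_of_nonneg h7] at h5
        · rw [abs_of_neg h7] at h5
          linarith
      show η * kR R (x - s) - 5 * η / 4 * 0 ≤ σ * (kR R (x - s) * D x)
      have := mul_le_mul_of_nonneg_left h6.le hk0
      linarith
  rw [integral_sub (hk.integrableOn.const_mul η) ((hk.integrableOn.indicator hmE).const_mul _),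
    integral_const_mul, integral_const_mul, integral_const_mul, setIntegral_indicator hmE, h1, h2]
    at h3
  have h8 : σ * JJ D R s ≤ η / 4 := by
    refine le_trans (le_abs_self _) ?_
    rw [abs_mul]
    rcases hσ with h | h <;> rw [h] <;> simpa using hJ
  have h9 : 3 / 5 ≤ ∫ x in I ∩ E, kR R (x - s) := by
    have h10 : 5 * η / 4 * (3 / 5) ≤ 5 * η / 4 * ∫ x in I ∩ E, kR R (x - s) := by linarith
    exact le_of_mul_le_mul_left h10 (by positivity)
  have h11 : ∫ x in I ∩ E, kR R (x - s) ≤ (M / R) * volume.real (E ∩ I) := by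
    have hfin : volume (I ∩ E) ≠ ⊤ := measure_ne_top_of_subset inter_subset_left
      (by rw [hI, Real.volume_Ioc]; exact ENNReal.ofReal_ne_top)
    have e3 : ∫ x in I ∩ E, kR R (x - s) ≤ ∫ x in I ∩ E, M / R := by
      refine setIntegral_mono_on hk.integrableOn (integrableOn_const hfin)
        (hmI.inter hmE) fun x _ => ?_
      unfold kR
      have := (le_abs_self _).trans (hM ((x - s) / R))
      rw [one_div, inv_mul_eq_div]
      gcongr
    rw [setIntegral_const, smul_eq_mul, inter_comm] at e3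
    rw [inter_comm]
    linarith
  have h12 := h9.trans h11
  rw [div_mul_eq_mul_div, le_div_iff₀ hR] at h12
  rw [div_le_iff₀ hM0]
  linarith

/-- small values on intervals of length `C / √η` -/
theorem gapU_small {K A : ℝ} (hA : 0 ≤ A) (hK : 0 ≤ K) : ∃ c C : ℝ, 0 < c ∧ 0 < C ∧
    ∀ D : ℝ → ℝ, GapU D K A → ∀ η : ℝ, 0 < η → η ≤ 1 → ∀ R : ℝ, C / Real.sqrt η ≤ R → ∀ x : ℝ,
      c * (η * Real.sqrt η) * R ≤ volume.real ({x | |D x| ≤ η} ∩ Ioc x (x + R)) := by
  obtain ⟨c1, hc1, hJ⟩ := J_small
  obtain ⟨M, hM1, hM⟩ := k1_bd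
  set B : ℝ := (A + K) * c1 + 1 with hB
  have hB1 : 1 ≤ B := by rw [hB]; have : 0 ≤ (A + K) * c1 := by positivity
                         linarith
  have hM0 : 0 < M := by linarith
  refine ⟨1 / (2 * (8 * B)) * (1 / (2 * M)), 8 * B, by positivity, by positivity,
    fun D G η hη hη1 R hR x => ?_⟩
  have hsq : 0 < Real.sqrt η := Real.sqrt_pos.2 hη
  have hsq1 : Real.sqrt η ≤ 1 := Real.sqrt_le_one.2 hη1
  have hss : Real.sqrt η * Real.sqrt η = η := Real.mul_self_sqrt hη.le
  set ℓ : ℝ := 8 * B / Real.sqrt η with hℓ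
  have hℓ0 : 0 < ℓ := by positivity
  set ρ : ℝ := 2 * B / Real.sqrt η with hρ
  have hρℓ : ℓ = 4 * ρ := by rw [hℓ, hρ]; ring
  have hρ1 : 1 ≤ ρ := by
    rw [hρ, le_div_iff₀ hsq]
    linarith
  have hρ0 : 0 < ρ := by linarith
  have hJs : ∀ s, |JJ D ρ s| ≤ η / 4 := by
    intro s
    refine (hJ D K A hA G ρ hρ1 s).trans ?_
    have e1 : ρ ^ 2 = 4 * B ^ 2 / η := by
      rw [hρ, div_pow, mul_pow, pow_two (Real.sqrt η), hss]
      norm_num
    rw [e1, div_div_eq_mul_div, div_le_iff₀ (by positivity)]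
    have : (A + K) * c1 ≤ B ^ 2 := by
      have h1 : (A + K) * c1 ≤ B := by rw [hB]; linarith
      nlinarith
    nlinarith
  have hv : ∀ y, η * (1 / (2 * M)) ≤ volume.real ({x | |D x| ≤ η} ∩ Ioc y (y + ℓ)) := by
    intro y
    have hη4 : η * (1 / (2 * M)) ≤ 3 / 5 * ρ / M := by
      rw [mul_one_div, div_le_div_iff₀ (by positivity) hM0]
      nlinarith
    by_cases h1 : ∀ x ∈ Ioc y (y + 2 * ρ), D x ≤ η / 4
    · have h2 := one_sign (σ := -1) G.meas G.bd (s := y + ρ) (Or.inr rfl) hη hρ0 hM hM0 (hJs _)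
        (fun x hx => by
          have := h1 x ⟨by linarith [hx.1], by linarith [hx.2]⟩
          linarith)
      refine hη4.trans (h2.trans ?_)
      exact measureReal_mono (inter_subset_inter_right _
        (Ioc_subset_Ioc (by linarith) (by linarith))) (fin_I _ _ _)
    · push Not at h1
      obtain ⟨u, hu, hu2⟩ := h1
      by_cases h3 : ∀ x ∈ Ioc (y + 2 * ρ) (y + 4 * ρ), -(η / 4) ≤ D x
      · have h2 := one_sign (σ := 1) G.meas G.bd (s := y + 3 * ρ) (Or.inl rfl) hη hρ0 hM hM0
          (hJs _) (fun x hx => by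
            have := h3 x ⟨by linarith [hx.1], by linarith [hx.2]⟩
            linarith)
        refine hη4.trans (h2.trans ?_)
        exact measureReal_mono (inter_subset_inter_right _
          (Ioc_subset_Ioc (by linarith) (by linarith))) (fin_I _ _ _)
      · push Not at h3
        obtain ⟨v, hv, hv2⟩ := h3
        have h4 := down G.lip (u := u) (v := v) (η := η / 4) (by linarith [hu.2, hv.1]) hu2 hv2
        have h5 : volume ({x | |D x| ≤ η / 4} ∩ Ioc u v) ≤
            volume ({x | |D x| ≤ η} ∩ Ioc y (y + ℓ)) := by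
          refine measure_mono (inter_subset_inter (fun z hz => ?_) (Ioc_subset_Ioc hu.1.le ?_))
          · have : |D z| ≤ η / 4 := hz
            show |D z| ≤ η
            linarith
          · rw [hρℓ]; exact hv.2
        have h6 := ENNReal.toReal_mono (fin_I _ _ _) (h4.trans h5)
        rw [ENNReal.toReal_ofReal (by positivity)] at h6
        rw [measureReal_def]
        refine le_trans ?_ h6
        rw [mul_one_div, div_le_iff₀ (by positivity)]
        nlinarith
  have h7 := tile2 (ms_E G.meas η) hℓ0 (by positivity) hv x hR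
  refine le_trans (le_of_eq ?_) h7
  rw [hℓ]
  field_simp

end Pool.Agent.D0H51.AG
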