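import Pool.Agent.D0H51.AG.Sp

/-! # The test function -/

set_option autoImplicit false

open MeasureTheory Set Filter Topology

namespace Pool.Agent.D0H51.AG

open Pool.Agent.N804

/-! ## the mollifier -/

section

variable {e : ℝ} (he : 0 < e)

lemma bp_int_pos : 0 < ∫ α, bp e he α := (bp e he).integral_pos

lemma CT_bp0 : CT (bp e he) 0 = ∫ α, bp e he α := by
  unfold CT
  congr 1
  funext α
  simp

lemma CT_bp_le (x : ℝ) : |CT (bp e he) x| ≤ ∫ α, bp e he α := by
  have H := bp_SC he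
  unfold CT
  calc |∫ α, bp e he α * Real.cos (2 * Real.pi * α * x)| ≤
        ∫ α, |bp e he α * Real.cos (2 * Real.pi * α * x)| := abs_integral_le_integral_abs
    _ ≤ ∫ α, bp e he α := by
        refine integral_mono (H.int_cos x).abs (H.cont.integrable_of_hasCompactSupport H.cs)
          fun α => ?_
        show |bp e he α * Real.cos (2 * Real.pi * α * x)| ≤ bp e he α
        have h0 : 0 ≤ bp e he α := (bp e he).nonneg
        rw [abs_mul, abs_of_nonneg h0]
        exact mul_le_of_le_one_right h0 (Real.abs_cos_le_one _)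

/-- the normalised mollifier -/
noncomputable def Bn (α : ℝ) : ℝ := (1 / (∫ α, bp e he α) ^ 2) * B2 e he α

lemma Bn_SC : SC (Bn he) := SC.smul (B2_SC he) _

lemma Bn_even (α : ℝ) : Bn he (-α) = Bn he α := by
  unfold Bn
  rw [B2_even]

lemma Bn_nonneg (α : ℝ) : 0 ≤ Bn he α := by
  unfold Bn
  refine mul_nonneg (by positivity) ?_
  unfold B2
  exact integral_nonneg fun t => mul_nonneg (bp e he).nonneg (bp e he).nonneg

lemma Bn_zero {α : ℝ} (h : e < |α|) : Bn he α = 0 := by
  unfold Bn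
  rw [B2_zero he h, mul_zero]

lemma CT_Bn (x : ℝ) : 0 ≤ CT (Bn he) x ∧ CT (Bn he) x ≤ 1 ∧ CT (Bn he) 0 = 1 := by
  have hm := bp_int_pos he
  have h : ∀ x, CT (Bn he) x = (1 / (∫ α, bp e he α) ^ 2) * CT (bp e he) x ^ 2 := by
    intro x
    rw [← CT_B2, ← CT_smul]
    rfl
  refine ⟨?_, ?_, ?_⟩
  · rw [h]
    positivity
  · rw [h, one_div, ← div_eq_inv_mul, div_le_one (by positivity), ← sq_abs]
    exact pow_le_pow_left₀ (abs_nonneg _) (CT_bp_le he x) 2
  · rw [h, CT_bp0]
    field_simp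

lemma Bn_mass : ∫ α, Bn he α = 1 := by
  rw [← (CT_Bn he 0).2.2]
  unfold CT
  congr 1
  funext α
  simp

end

/-! ## averages -/

lemma av_even {c : ℝ} {r : ℝ → ℝ} (h : ∀ α, r (-α) = r α) (α : ℝ) : av c r (-α) = av c r α := by
  unfold av
  congr 1
  have := intervalIntegral.integral_comp_neg (a := α - c) (b := α + c) r
  rw [show -(α + c) = -α - c by ring, show -(α - c) = -α + c by ring] at this
  rw [← this]
  refine intervalIntegral.integral_congr fun t _ => ?_
  exact h t

lemma int_le_mass {r : ℝ → ℝ} (H : SC r) (h : ∀ α, 0 ≤ r α) {a b : ℝ} (hab : a ≤ b) :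
    ∫ t in a..b, r t ≤ ∫ t, r t := by
  rw [intervalIntegral.integral_of_le hab]
  exact setIntegral_le_integral (H.cont.integrable_of_hasCompactSupport H.cs)
    (ae_of_all _ fun t => h t)

/-! ## the profile -/

section

variable {e : ℝ} (he : 0 < e)

/-- the first average -/
noncomputable def b1 : ℝ → ℝ := av (3 / 10) (Bn he)

/-- the transform of the profile -/
noncomputable def be (α : ℝ) : ℝ := (3 / 5) * av (3 / 10) (b1 he) α

lemma b1_SC : SC (b1 he) := av_SC (by norm_num) (Bn_SC he) (fun α hα => Bn_zero he hα)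

lemma b1_zero {α : ℝ} (h : e + 3 / 10 < |α|) : b1 he α = 0 :=
  av_zero (by norm_num) (fun α hα => Bn_zero he hα) h

lemma be_SC : SC (be he) := SC.smul (av_SC (by norm_num) (b1_SC he) fun α hα => b1_zero he hα) _

lemma be_zero {α : ℝ} (h : e + 3 / 5 < |α|) : be he α = 0 := by
  unfold be
  rw [av_zero (δ := e + 3 / 10) (by norm_num) (fun α hα => b1_zero he hα) (by linarith), mul_zero]

lemma b1_nonneg (α : ℝ) : 0 ≤ b1 he α := av_nonneg (by norm_num) (Bn_nonneg he) α

lemma be_nonneg (α : ℝ) : 0 ≤ be he α :=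
  mul_nonneg (by norm_num) (av_nonneg (by norm_num) (b1_nonneg he) α)

lemma be_even (α : ℝ) : be he (-α) = be he α := by
  unfold be
  have h : ∀ α, b1 he (-α) = b1 he α := fun α => av_even (Bn_even he) α
  rw [av_even h]

lemma b1_le (α : ℝ) : b1 he α ≤ 5 / 3 := by
  unfold b1 av
  have h := int_le_mass (Bn_SC he) (Bn_nonneg he) (show α - 3 / 10 ≤ α + 3 / 10 by linarith)
  rw [Bn_mass] at h
  linarith

lemma be_le_one (α : ℝ) : be he α ≤ 1 := by
  unfold be av
  have h : ∫ t in (α - 3 / 10)..(α + 3 / 10), b1 he t ≤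
      ∫ t in (α - 3 / 10)..(α + 3 / 10), (5 / 3 : ℝ) :=
    intervalIntegral.integral_mono_on (by linarith) ((b1_SC he).cont.intervalIntegrable _ _)
      intervalIntegrable_const fun t _ => b1_le he t
  rw [intervalIntegral.integral_const, smul_eq_mul] at h
  linarith

lemma be_le {α : ℝ} (_ : 0 ≤ α) (h1 : α ≤ e + 3 / 5) :
    be he α ≤ (5 / 3) * (e + 3 / 5 - α) := by
  unfold be av
  have hii : ∀ a b, IntervalIntegrable (b1 he) volume a b := fun a b =>
    (b1_SC he).cont.intervalIntegrable _ _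
  have h2 : ∫ t in (α - 3 / 10)..(α + 3 / 10), b1 he t ≤ (5 / 3) * (e + 3 / 5 - α) := by
    by_cases hc : α + 3 / 10 ≤ e + 3 / 10
    · have h : ∫ t in (α - 3 / 10)..(α + 3 / 10), b1 he t ≤
          ∫ t in (α - 3 / 10)..(α + 3 / 10), (5 / 3 : ℝ) :=
        intervalIntegral.integral_mono_on (by linarith) (hii _ _)
          intervalIntegrable_const fun t _ => b1_le he t
      rw [intervalIntegral.integral_const, smul_eq_mul] at h
      linarith
    · push Not at hc
      rw [← intervalIntegral.integral_add_adjacent_intervals (hii (α - 3 / 10) (e + 3 / 10))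
        (hii (e + 3 / 10) (α + 3 / 10))]
      have h3 : ∫ t in (e + 3 / 10)..(α + 3 / 10), b1 he t = 0 := by
        rw [intervalIntegral.integral_of_le hc.le]
        refine setIntegral_eq_zero_of_forall_eq_zero fun t ht => ?_
        exact b1_zero he (lt_of_lt_of_le ht.1 (le_abs_self t))
      have h : ∫ t in (α - 3 / 10)..(e + 3 / 10), b1 he t ≤
          ∫ t in (α - 3 / 10)..(e + 3 / 10), (5 / 3 : ℝ) :=
        intervalIntegral.integral_mono_on (by linarith) (hii _ _)
          intervalIntegrable_const fun t _ => b1_le he t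
      rw [intervalIntegral.integral_const, smul_eq_mul] at h
      rw [h3]
      linarith
  linarith

lemma CT_be (x : ℝ) : CT (be he) x = (3 / 5) * (sq (3 / 10) x ^ 2 * CT (Bn he) x) := by
  have h1 : CT (be he) x = (3 / 5) * CT (av (3 / 10) (b1 he)) x := CT_smul _ _ _
  rw [h1, CT_av (by norm_num) (b1_SC he) (fun α hα => b1_zero he hα)]
  have h2 : CT (b1 he) x = sq (3 / 10) x * CT (Bn he) x :=
    CT_av (by norm_num) (Bn_SC he) (fun α hα => Bn_zero he hα) x
  rw [h2]
  ring

lemma CT_be_nonneg (x : ℝ) : 0 ≤ CT (be he) x := by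
  rw [CT_be]
  have := (CT_Bn he x).1
  positivity

lemma be_mass : ∫ α, be he α = 3 / 5 := by
  have h : CT (be he) 0 = 3 / 5 := by
    rw [CT_be, (CT_Bn he 0).2.2]
    unfold sq
    simp
  rw [← h]
  unfold CT
  congr 1
  funext α
  simp

lemma even_whole {f : ℝ → ℝ} (hf : Continuous f) (hfe : ∀ x, f (-x) = f x) {δ : ℝ} (hδ : 0 < δ)
    (hz : ∀ x, δ < |x| → f x = 0) : ∫ x, f x = 2 * ∫ x in (0 : ℝ)..δ, f x := by
  rw [Pool.Agent.Y750.OM.whole_int hδ hz, ← intervalIntegral.integral_add_adjacent_intervals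
    (hf.intervalIntegrable (-δ) 0) (hf.intervalIntegrable 0 δ)]
  have h := intervalIntegral.integral_comp_neg (a := (0 : ℝ)) (b := δ) f
  rw [neg_zero] at h
  have e1 : ∫ x in (0 : ℝ)..δ, f (-x) = ∫ x in (0 : ℝ)..δ, f x :=
    intervalIntegral.integral_congr fun x _ => hfe x
  rw [← h, e1]
  ring

lemma be_half (h1 : e ≤ 1 / 10) : ∫ α in (0 : ℝ)..1, be he α = 3 / 10 := by
  have h := even_whole (be_SC he).cont (be_even he) one_pos fun x hx => be_zero he (by linarith)
  rw [be_mass] at h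
  linarith

/-- the primitive -/
noncomputable def Ib (x : ℝ) : ℝ := ∫ t in (0 : ℝ)..x, be he t

lemma Ib_deriv (x : ℝ) : HasDerivAt (Ib he) (be he x) x := prim_deriv (be_SC he) x

lemma Ib_cont : Continuous (Ib he) :=
  continuous_iff_continuousAt.2 fun x => (Ib_deriv he x).continuousAt

lemma Ib_neg (x : ℝ) : Ib he (-x) = -Ib he x := by
  unfold Ib
  have h := intervalIntegral.integral_comp_neg (a := (0 : ℝ)) (b := x) (be he)
  rw [neg_zero] at h
  have e1 : ∫ t in (0 : ℝ)..x, be he (-t) = ∫ t in (0 : ℝ)..x, be he t :=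
    intervalIntegral.integral_congr fun t _ => be_even he t
  rw [e1] at h
  rw [h, intervalIntegral.integral_symm]

lemma Ib_large (h1 : e ≤ 1 / 10) {x : ℝ} (hx : 1 ≤ x) : Ib he x = 3 / 10 := by
  have hc := (be_SC he).cont
  unfold Ib
  rw [← intervalIntegral.integral_add_adjacent_intervals (hc.intervalIntegrable 0 1)
    (hc.intervalIntegrable 1 x), be_half he h1, intervalIntegral.integral_of_le hx]
  have : ∫ t in Ioc 1 x, be he t = 0 := by
    refine setIntegral_eq_zero_of_forall_eq_zero fun t ht => ?_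
    refine be_zero he ?_
    rw [abs_of_pos (by linarith [ht.1])]
    linarith [ht.1]
  rw [this, add_zero]

lemma av_half (t : ℝ) : av (1 / 2) (be he) t = Ib he (t + 1 / 2) - Ib he (t - 1 / 2) := by
  rw [av_eq (be_SC he)]
  unfold Ib
  ring

lemma av_av (a : ℝ) : av (1 / 2) (av (1 / 2) (be he)) a =
    (∫ t in a..(a + 1), Ib he t) - ∫ t in (a - 1)..a, Ib he t := by
  have hc := Ib_cont he
  have e : av (1 / 2) (be he) = fun t => Ib he (t + 1 / 2) - Ib he (t - 1 / 2) :=
    funext fun t => av_half he t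
  rw [e]
  unfold av
  rw [intervalIntegral.integral_sub (Continuous.intervalIntegrable (by fun_prop) _ _)
    (Continuous.intervalIntegrable (by fun_prop) _ _)]
  have e1 := intervalIntegral.integral_comp_add_right (a := a - 1 / 2) (b := a + 1 / 2)
    (f := Ib he) (1 / 2)
  have e2 := intervalIntegral.integral_comp_sub_right (a := a - 1 / 2) (b := a + 1 / 2)
    (f := Ib he) (1 / 2)
  rw [e1, e2]
  rw [show a - 1 / 2 + 1 / 2 = a by ring, show a + 1 / 2 + 1 / 2 = a + 1 by ring,
    show a - 1 / 2 - 1 / 2 = a - 1 by ring, show a + 1 / 2 - 1 / 2 = a by ring]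
  ring

/-- the integral of the primitive -/
noncomputable def Jb : ℝ := ∫ t in (0 : ℝ)..1, Ib he t

lemma M0 : av (1 / 2) (av (1 / 2) (be he)) 0 = 2 * Jb he := by
  rw [av_av]
  have h := intervalIntegral.integral_comp_neg (a := (0 : ℝ)) (b := 1) (Ib he)
  rw [neg_zero] at h
  have e1 : ∫ t in (0 : ℝ)..1, Ib he (-t) = -∫ t in (0 : ℝ)..1, Ib he t := by
    rw [← intervalIntegral.integral_neg]
    exact intervalIntegral.integral_congr fun t _ => Ib_neg he t
  rw [e1] at h
  rw [zero_add, zero_sub, ← h]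
  unfold Jb
  ring

lemma M1 (h1 : e ≤ 1 / 10) : av (1 / 2) (av (1 / 2) (be he)) 1 = 3 / 10 - Jb he := by
  rw [av_av]
  have e1 : ∫ t in (1 : ℝ)..(1 + 1), Ib he t = 3 / 10 := by
    have : ∫ t in (1 : ℝ)..(1 + 1), Ib he t = ∫ t in (1 : ℝ)..(1 + 1), (3 / 10 : ℝ) := by
      refine intervalIntegral.integral_congr fun t ht => ?_
      rw [uIcc_of_le (by norm_num)] at ht
      exact Ib_large he h1 ht.1
    rw [this, intervalIntegral.integral_const, smul_eq_mul]
    norm_num
  rw [e1, sub_self]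
  rfl

lemma Mm1 (h1 : e ≤ 1 / 10) : av (1 / 2) (av (1 / 2) (be he)) (-1) = 3 / 10 - Jb he := by
  rw [← M1 he h1, av_even fun α => av_even (be_even he) α]

lemma Jb_ge (h1 : e ≤ 1 / 10) : 3 / 10 - 5 / 18 * (e + 3 / 5) ^ 3 ≤ Jb he := by
  have hc := (be_SC he).cont
  have e1 : Jb he = 3 / 10 - ∫ t in (0 : ℝ)..1, t * be he t := by
    have h := intervalIntegral.integral_mul_deriv_eq_deriv_mul (a := (0 : ℝ)) (b := 1)
      (u := fun t : ℝ => t) (v := Ib he) (u' := fun _ => 1) (v' := be he)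
      (fun t _ => hasDerivAt_id t) (fun t _ => Ib_deriv he t) intervalIntegrable_const
      (hc.intervalIntegrable _ _)
    simp only [one_mul, zero_mul, sub_zero] at h
    rw [h, Ib_large he h1 le_rfl]
    unfold Jb
    ring
  have hS1 : e + 3 / 5 ≤ 1 := by linarith
  have e2 : ∫ t in (0 : ℝ)..1, t * be he t = ∫ t in (0 : ℝ)..(e + 3 / 5), t * be he t := by
    have hc2 : Continuous fun t => t * be he t := continuous_id.mul hc
    rw [← intervalIntegral.integral_add_adjacent_intervals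
      (hc2.intervalIntegrable 0 (e + 3 / 5)) (hc2.intervalIntegrable (e + 3 / 5) 1),
      intervalIntegral.integral_of_le hS1]
    have : ∫ t in Ioc (e + 3 / 5) 1, t * be he t = 0 := by
      refine setIntegral_eq_zero_of_forall_eq_zero fun t ht => ?_
      rw [be_zero he (lt_of_lt_of_le ht.1 (le_abs_self t)), mul_zero]
    rw [this, add_zero]
  have e3 : ∫ t in (0 : ℝ)..(e + 3 / 5), t * be he t ≤
      ∫ t in (0 : ℝ)..(e + 3 / 5), ((5 / 3) * (e + 3 / 5) * t - (5 / 3) * t ^ 2) := by
    refine intervalIntegral.integral_mono_on (by linarith)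
      (Continuous.intervalIntegrable (continuous_id.mul hc) _ _)
      (Continuous.intervalIntegrable (by fun_prop) _ _) fun t ht => ?_
    have h2 := be_le he ht.1 ht.2
    have h3 := mul_le_mul_of_nonneg_left h2 ht.1
    linarith
  have e4 : ∫ t in (0 : ℝ)..(e + 3 / 5), ((5 / 3) * (e + 3 / 5) * t - (5 / 3) * t ^ 2) =
      5 / 18 * (e + 3 / 5) ^ 3 := by
    rw [intervalIntegral.integral_sub (Continuous.intervalIntegrable (by fun_prop) _ _)
      (Continuous.intervalIntegrable (by fun_prop) _ _), intervalIntegral.integral_const_mul,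
      intervalIntegral.integral_const_mul, integral_id, integral_pow]
    ring
  rw [e1, e2]
  linarith

/-- the transform of the test function -/
noncomputable def vv (α : ℝ) : ℝ := be he α + (-(1 / 2)) * be he (α + 1) + (-(1 / 2)) * be he (α + -1)

lemma vv_SC : SC (vv he) := by
  have h := be_SC he
  exact SC.add (SC.add h (SC.smul (SC.tr h 1) _)) (SC.smul (SC.tr h (-1)) _)

lemma vv_even (α : ℝ) : vv he (-α) = vv he α := by
  unfold vv
  rw [be_even, show -α + 1 = -(α + -1) by ring, show -α + -1 = -(α + 1) by ring, be_even, be_even]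
  ring

lemma CT_vv (x : ℝ) : CT (vv he) x = CT (be he) x * (1 - Real.cos (2 * Real.pi * x)) := by
  have h := be_SC he
  have h1 := CT_add (SC.add h (SC.smul (SC.tr h 1) (-(1 / 2)))) (SC.smul (SC.tr h (-1)) (-(1 / 2))) x
  have h2 := CT_add h (SC.smul (SC.tr h 1) (-(1 / 2))) x
  rw [h2, CT_smul, CT_smul, CT_tr h, CT_tr h] at h1
  have e : CT (vv he) x = CT (fun α => be he α + -(1 / 2) * be he (α + 1) +
    -(1 / 2) * be he (α + -1)) x := rfl
  rw [e, h1, show 2 * Real.pi * -1 * x = -(2 * Real.pi * x) by ring,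
    show 2 * Real.pi * 1 * x = 2 * Real.pi * x by ring, Real.cos_neg, Real.sin_neg]
  ring

lemma av_lin {c : ℝ} {a b : ℝ → ℝ} (ha : Continuous a) (hb : Continuous b) (s : ℝ) (α : ℝ) :
    av c (fun x => a x + s * b x) α = av c a α + s * av c b α := by
  unfold av
  rw [intervalIntegral.integral_add (ha.intervalIntegrable _ _)
    ((hb.const_mul s).intervalIntegrable _ _), intervalIntegral.integral_const_mul]
  ring

lemma av_shift {c : ℝ} (b : ℝ → ℝ) (s α : ℝ) : av c (fun x => b (x + s)) α = av c b (α + s) := by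
  unfold av
  rw [intervalIntegral.integral_comp_add_right, show α - c + s = α + s - c by ring,
    show α + c + s = α + s + c by ring]

lemma vv_Kf (h1 : e ≤ 1 / 10) : ∫ x, CT (vv he) x * Kf x = 3 * Jb he - 3 / 10 := by
  rw [CT_Kf (vv_SC he)]
  have h := be_SC he
  have hc := h.cont
  have hA : Continuous (av (1 / 2) (be he)) := by
    have e : av (1 / 2) (be he) = fun t => Ib he (t + 1 / 2) - Ib he (t - 1 / 2) :=
      funext fun t => av_half he t
    rw [e]
    have := Ib_cont he
    fun_prop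
  have c1 : Continuous fun x => be he (x + 1) := by fun_prop
  have c2 : Continuous fun x => be he (x + -1) := by fun_prop
  have e1 : av (1 / 2) (vv he) = fun t => (av (1 / 2) (be he) t +
      -(1 / 2) * av (1 / 2) (be he) (t + 1)) + -(1 / 2) * av (1 / 2) (be he) (t + -1) := by
    funext t
    have f1 := av_lin (c := 1 / 2) (a := fun x => be he x + -(1 / 2) * be he (x + 1))
      (b := fun x => be he (x + -1)) (by fun_prop) c2 (-(1 / 2)) t
    have f2 := av_lin (c := 1 / 2) (a := be he) (b := fun x => be he (x + 1)) hc c1 (-(1 / 2)) t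
    rw [f2, av_shift, av_shift] at f1
    exact f1
  rw [e1]
  have c3 : Continuous fun x => av (1 / 2) (be he) (x + 1) := by fun_prop
  have c4 : Continuous fun x => av (1 / 2) (be he) (x + -1) := by fun_prop
  have f1 := av_lin (c := 1 / 2) (a := fun x => av (1 / 2) (be he) x +
    -(1 / 2) * av (1 / 2) (be he) (x + 1))
    (b := fun x => av (1 / 2) (be he) (x + -1)) (by fun_prop) c4 (-(1 / 2)) 0
  have f2 := av_lin (c := 1 / 2) (a := av (1 / 2) (be he))
    (b := fun x => av (1 / 2) (be he) (x + 1)) hA c3 (-(1 / 2)) 0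
  rw [f2, av_shift, av_shift, zero_add, zero_add, M0, M1 he h1, Mm1 he h1] at f1
  rw [f1]
  ring

lemma vv_neg (h1 : e ≤ 1 / 10) {α : ℝ} (hα : 7 / 10 < |α|) : vv he α ≤ 0 := by
  unfold vv
  rw [be_zero he (show e + 3 / 5 < |α| by linarith)]
  have h2 := be_nonneg he (α + 1)
  have h3 := be_nonneg he (α + -1)
  linarith

/-- the mass beyond the cutoff -/
lemma vv_tail (h1 : e ≤ 1 / 10) {κ : ℝ} (hκ : 7 / 10 < κ) (hκ1 : κ < 1) {χ : ℝ → ℝ}
    (hχ : SC χ) (hχe : ∀ α, χ (-α) = χ α) (hχ0 : ∀ α, 0 ≤ χ α)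
    (hχ2 : ∀ α, |α| ≤ κ → χ α = 1) :
    -(3 / 10) - (1 - κ) ≤ ∫ α, (vv he α - χ α * vv he α) := by
  have hv := vv_SC he
  have hc := (be_SC he).cont
  have hcv := hv.cont
  have hcχ := hχ.cont
  have e1 := even_whole (f := fun α => vv he α - χ α * vv he α) (by fun_prop) (fun x => by
    show vv he (-x) - χ (-x) * vv he (-x) = vv he x - χ x * vv he x
    rw [vv_even, hχe]) (δ := 2) (by norm_num) (fun x hx => by
      have : vv he x = 0 := by
        unfold vv
        have a1 : e + 3 / 5 < |x + 1| := by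
          have := abs_sub_abs_le_abs_sub x (-1)
          rw [abs_neg, abs_one, sub_neg_eq_add] at this
          linarith
        have a2 : e + 3 / 5 < |x + -1| := by
          have := abs_sub_abs_le_abs_sub x 1
          rw [abs_one] at this
          rw [← sub_eq_add_neg]
          linarith
        rw [be_zero he (show e + 3 / 5 < |x| by linarith), be_zero he a1, be_zero he a2]
        ring
      show vv he x - χ x * vv he x = 0
      rw [this]
      ring)
  have hcf : Continuous fun α => vv he α - χ α * vv he α := by fun_prop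
  have e2 : ∫ α in (0 : ℝ)..2, (vv he α - χ α * vv he α) =
      ∫ α in κ..2, (vv he α - χ α * vv he α) := by
    rw [← intervalIntegral.integral_add_adjacent_intervals (hcf.intervalIntegrable 0 κ)
      (hcf.intervalIntegrable κ 2)]
    have : ∫ α in (0 : ℝ)..κ, (vv he α - χ α * vv he α) = ∫ α in (0 : ℝ)..κ, (0 : ℝ) := by
      refine intervalIntegral.integral_congr fun α hα => ?_
      rw [uIcc_of_le (by linarith)] at hα
      show vv he α - χ α * vv he α = 0
      rw [hχ2 α (by rw [abs_of_nonneg hα.1]; exact hα.2)]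
      ring
    rw [this]
    simp
  have e3 : ∫ α in κ..2, (-(1 / 2) * be he (α - 1)) ≤ ∫ α in κ..2, (vv he α - χ α * vv he α) := by
    refine intervalIntegral.integral_mono_on (by linarith)
      (Continuous.intervalIntegrable (by fun_prop) _ _) (hcf.intervalIntegrable _ _) fun α hα => ?_
    have a0 : 0 < α := by linarith [hα.1]
    have a1 : be he (α + 1) = 0 := be_zero he (by
      rw [abs_of_pos (by linarith)]
      linarith)
    have a2 : be he α = 0 := be_zero he (by
      rw [abs_of_pos a0]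
      linarith [hα.1])
    have a3 : vv he α = -(1 / 2) * be he (α - 1) := by
      unfold vv
      rw [a1, a2, ← sub_eq_add_neg]
      ring
    have a4 := be_nonneg he (α - 1)
    rw [a3]
    have a5 := mul_nonneg (hχ0 α) a4
    linarith
  have e4 : ∫ α in κ..2, (-(1 / 2) * be he (α - 1)) =
      -(1 / 2) * ((∫ t in (κ - 1)..0, be he t) + ∫ t in (0 : ℝ)..1, be he t) := by
    rw [intervalIntegral.integral_const_mul, intervalIntegral.integral_comp_sub_right,
      show (2 : ℝ) - 1 = 1 by norm_num,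
      intervalIntegral.integral_add_adjacent_intervals (hc.intervalIntegrable _ _)
        (hc.intervalIntegrable _ _)]
  have e5 : ∫ t in (κ - 1)..0, be he t ≤ 1 - κ := by
    have h : ∫ t in (κ - 1)..0, be he t ≤ ∫ t in (κ - 1)..0, (1 : ℝ) :=
      intervalIntegral.integral_mono_on (by linarith) (hc.intervalIntegrable _ _)
        intervalIntegrable_const fun t _ => be_le_one he t
    rw [intervalIntegral.integral_const, smul_eq_mul] at h
    linarith
  rw [be_half he h1] at e4
  rw [e1, e2]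
  linarith

end

/-! ## comparison with Beurling's function -/

lemma sin_quad {u : ℝ} (h0 : 0 ≤ u) (h1 : u ≤ 5 / 3) :
    Real.sin (3 / 5 * Real.pi * u) ^ 2 ≤ 12 / 5 * u - 36 / 25 * u ^ 2 := by
  have hpi := Real.pi_pos
  have e1 : Real.cos (Real.pi - 6 / 5 * Real.pi * u) = -(Real.cos (6 / 5 * Real.pi * u)) :=
    Real.cos_pi_sub _
  have e2 : Real.cos (6 / 5 * Real.pi * u) = 1 - 2 * Real.sin (3 / 5 * Real.pi * u) ^ 2 := by
    rw [show 6 / 5 * Real.pi * u = 2 * (3 / 5 * Real.pi * u) by ring, Real.cos_two_mul,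
      Real.cos_sq']
    ring
  have h2 : |Real.pi - 6 / 5 * Real.pi * u| ≤ Real.pi := by
    rw [abs_le]
    constructor <;> nlinarith
  have h3 := Real.cos_le_one_sub_mul_cos_sq h2
  have e3 : 2 / Real.pi ^ 2 * (Real.pi - 6 / 5 * Real.pi * u) ^ 2 = 2 * (1 - 6 / 5 * u) ^ 2 := by
    field_simp
  rw [e3, e1, e2] at h3
  nlinarith

lemma key_ineq {u : ℝ} (h0 : 0 < u) :
    7 * (Real.sin (3 / 5 * Real.pi * u) ^ 2 * (2 * u + 1)) ≤ 24 * u := by
  by_cases h1 : u ≤ 1
  · have h2 := sin_quad h0.le (by linarith : u ≤ 5 / 3)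
    have h3 : Real.sin (3 / 5 * Real.pi * u) ^ 2 * (2 * u + 1) ≤
        (12 / 5 * u - 36 / 25 * u ^ 2) * (2 * u + 1) := by gcongr
    have h4 : 7 * ((12 / 5 * u - 36 / 25 * u ^ 2) * (2 * u + 1)) ≤ 24 * u := by
      have : 7 * ((12 / 5 - 36 / 25 * u) * (2 * u + 1)) ≤ 24 := by
        nlinarith [sq_nonneg (u - 7 / 12)]
      have h5 := mul_le_mul_of_nonneg_right this h0.le
      linarith
    linarith
  · push Not at h1
    have h2 : Real.sin (3 / 5 * Real.pi * u) ^ 2 ≤ 1 := Real.sin_sq_le_one _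
    have h3 : Real.sin (3 / 5 * Real.pi * u) ^ 2 * (2 * u + 1) ≤ 1 * (2 * u + 1) := by gcongr
    linarith

lemma vv_le_db {e : ℝ} (he : 0 < e) (u : ℝ) : 7 / 80 * CT (vv he) u ≤ db u := by
  have hpi := Real.pi_pos
  have hcos : 1 - Real.cos (2 * Real.pi * u) = 2 * Real.sin (Real.pi * u) ^ 2 := by
    rw [mul_assoc, Real.cos_two_mul, Real.cos_sq']
    ring
  by_cases h : u = 0
  · rw [CT_vv, h, db_zero]
    simp
  · refine le_trans ?_ (db_ge u h)
    rw [CT_vv, CT_be, hcos]
    have hu : 0 < |u| := abs_pos.2 h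
    have hB := CT_Bn he u
    have e1 : sq (3 / 10) u ^ 2 = Real.sin (3 / 5 * Real.pi * |u|) ^ 2 /
        (9 / 25 * Real.pi ^ 2 * |u| ^ 2) := by
      have e2 : sq (3 / 10) u = sq (3 / 10) |u| := by
        unfold sq
        rcases abs_choice u with h3 | h3
        · rw [h3]
        · rw [h3, mul_neg, Real.sinc_neg]
      rw [e2]
      unfold sq
      rw [Real.sinc_of_ne_zero (by positivity), show 2 * Real.pi * (3 / 10) * |u| =
        3 / 5 * Real.pi * |u| by ring, div_pow]
      congr 1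
      ring
    have h5 : sq (3 / 10) u ^ 2 * CT (Bn he) u ≤ sq (3 / 10) u ^ 2 :=
      mul_le_of_le_one_right (sq_nonneg _) hB.2.1
    have h6 := key_ineq hu
    have h7 : 7 / 80 * (3 / 5 * sq (3 / 10) u ^ 2 * 2) ≤
        1 / Real.pi ^ 2 * (1 / (|u| * (2 * |u| + 1))) := by
      rw [e1, one_div_mul_one_div, le_div_iff₀ (by positivity)]
      have : 7 / 80 * (3 / 5 * (Real.sin (3 / 5 * Real.pi * |u|) ^ 2 /
          (9 / 25 * Real.pi ^ 2 * |u| ^ 2)) * 2) * (Real.pi ^ 2 * (|u| * (2 * |u| + 1))) =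
          7 * (Real.sin (3 / 5 * Real.pi * |u|) ^ 2 * (2 * |u| + 1)) / (24 * |u|) := by
        field_simp
        ring
      rw [this, div_le_one (by positivity)]
      exact h6
    have hs : 0 ≤ Real.sin (Real.pi * u) ^ 2 := sq_nonneg _
    calc 7 / 80 * (3 / 5 * (sq (3 / 10) u ^ 2 * CT (Bn he) u) * (2 * Real.sin (Real.pi * u) ^ 2)) ≤
          7 / 80 * (3 / 5 * (sq (3 / 10) u ^ 2) * (2 * Real.sin (Real.pi * u) ^ 2)) := by gcongr
      _ = (7 / 80 * (3 / 5 * sq (3 / 10) u ^ 2 * 2)) * Real.sin (Real.pi * u) ^ 2 := by ring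
      _ ≤ (1 / Real.pi ^ 2 * (1 / (|u| * (2 * |u| + 1)))) * Real.sin (Real.pi * u) ^ 2 := by gcongr
      _ = _ := by ring

/-- **the pointwise bound** for the limits of the error -/
theorem ptBound : ∃ x₁ : ℝ, 0 < x₁ ∧ ∀ (D : ℝ → ℝ) (K : ℝ), LD D K → ∀ x : ℝ, x₁ ≤ |x| →
    |D x| ≤ 49 / 100 - 1 / 10000 := by
  have he : (0 : ℝ) < 1 / 1000 := by norm_num
  obtain ⟨χ, hχ, hχe, hχ0, hχ1, hχ2, hχ3⟩ := cut (κ := 999 / 1000) (by norm_num) (by norm_num)
  have hv := vv_SC he
  set u : ℝ → ℝ := fun α => vv he α - χ α * vv he α with hu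
  have hU : SC u := SC.sub hv (SC.mul hχ hv)
  obtain ⟨A, hA0, hA⟩ := CT_dec' hU 1
  refine ⟨(A + 1) * 10000, by positivity, fun D K L x hx => ?_⟩
  have hx0 : 0 < |x| := lt_of_lt_of_le (by positivity) hx
  have hCu : |CT u x| ≤ 1 / 10000 := by
    have h1 := hA x
    rw [pow_one] at h1
    have h2 : (A + 1) * 10000 * |CT u x| ≤ A := (mul_le_mul_of_nonneg_right hx (abs_nonneg _)).trans h1
    have h3 := abs_nonneg (CT u x)
    nlinarith
  have hC0 : CT (vv he) 0 = 0 := by
    rw [CT_vv]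
    simp
  have hCn : ∀ x, 0 ≤ CT (vv he) x := by
    intro x
    rw [CT_vv]
    have := CT_be_nonneg he x
    have h2 := Real.cos_le_one (2 * Real.pi * x)
    exact mul_nonneg this (by linarith)
  have hneg : ∀ α, 999 / 1000 ≤ |α| → vv he α ≤ 0 := fun α hα =>
    vv_neg he (by norm_num) (by linarith)
  have hJ := Jb_ge he (by norm_num)
  have hKf := vv_Kf he (by norm_num)
  have htail := vv_tail he (by norm_num) (κ := 999 / 1000) (by norm_num) (by norm_num) hχ hχe hχ0 hχ2
  have hS : ∀ y : ℝ, |CT u y| ≤ 1 / 10000 → D y ≤ 49 / 100 - 1 / 10000 := by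
    intro y hy
    have h1 := sBound L (κ := 999 / 1000) (by norm_num) hχ hχ1 hχ2 hχ3 (by norm_num) hv hCn hC0
      hneg y
    have hAd : ∃ A' : ℝ, ∀ u, |-dr (vv he) u| ≤ A' * (1 + u ^ 2)⁻¹ := by
      obtain ⟨δ, -, hz⟩ := SC.bound hv
      obtain ⟨B0, h0⟩ := (dr_InK hv hz).dec 0
      obtain ⟨B2, h2⟩ := (dr_InK hv hz).dec 2
      refine ⟨B0 + B2, fun u => ?_⟩
      have e0 := h0 u
      have e2 := h2 u
      rw [pow_zero, one_mul] at e0
      rw [sq_abs] at e2
      rw [abs_neg, ← div_eq_mul_inv, le_div_iff₀ (by positivity)]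
      linarith
    obtain ⟨A', hA'⟩ := hAd
    have h2 := claimA L.meas L.bd L.lip L.orth (g := CT (vv he)) (g' := fun u => -dr (vv he) u)
      (c := 7 / 80) (by norm_num) (vv_le_db he) (CT_int hv) (fun u => CT_hasDeriv hv u) hA' y
    have e3 : ∫ u, -dr (vv he) u * D (y + u) = -∫ u, dr (vv he) u * D (y + u) := by
      rw [← integral_neg]
      congr 1
      funext u
      ring
    rw [e3] at h2
    have h4 := (abs_le.1 hy).2
    have e5 : (1 / 1000 + 3 / 5 : ℝ) ^ 3 ≤ 217082 / 1000000 := by norm_num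
    rw [hKf] at h1
    have h6 : (1179 / 10000 : ℝ) ≤ (∫ u, CT (vv he) u) + ∫ u, dr (vv he) u * D (y + u) := by
      have h7 : ∫ α, (vv he α - χ α * vv he α) = ∫ α, u α := rfl
      have h8 : CT (fun α => vv he α - χ α * vv he α) y = CT u y := rfl
      rw [h8] at h1
      linarith
    linarith
  rw [abs_le]
  constructor
  · have h1 := hS (-x) (by rw [CT_neg']; exact hCu)
    rw [L.odd] at h1
    linarith
  · exact hS x hCu

end Pool.Agent.D0H51.AG
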